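import Pool.Agent.P.MP_7aad9f_nt.Sz.If

section
/-! Step PF. -/

set_option autoImplicit false

open Polynomial

namespace Pool.Agent.P.MP_7aad9f_nt.Sz

open Pool.Agent.P.MP_7aad9f_nt.Sub (Gen S_GENSEL S_OMEGA)

/-- Pull back of an absolute value along a field homomorphism. -/
noncomputable def PF_pull {K L : Type} [Field K] [Field L] (w : AbsoluteValue L ℝ)
    (f : K →+* L) : AbsoluteValue K ℝ where
  toFun a := w (f a)
  map_mul' a b := by rw [map_mul, map_mul]
  nonneg' a := w.nonneg _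
  eq_zero' a := by rw [w.eq_zero, map_eq_zero]
  add_le' a b := by rw [map_add]; exact w.add_le _ _

theorem PF_pull_apply {K L : Type} [Field K] [Field L] (w : AbsoluteValue L ℝ)
    (f : K →+* L) (a : K) : PF_pull w f a = w (f a) := rfl

theorem PF_abs (K : Type) [Field K] [Algebra ℚ K] [Algebra.IsAlgebraic ℚ K] (p : ℕ) :
    ∃ w : AbsoluteValue K ℝ, p.Prime → IsNonarchimedean w ∧ w (p : K) = (p : ℝ)⁻¹ ∧
      ∀ a : ℤ, ¬ (p : ℤ) ∣ a → w (a : K) = 1 := by
  by_cases hp : p.Prime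
  swap
  · classical
    exact ⟨AbsoluteValue.trivial, fun h => absurd h hp⟩
  have : Fact p.Prime := ⟨hp⟩
  let f : K →+* PadicAlgCl p := (IsAlgClosed.lift (R := ℚ) (S := K) (M := PadicAlgCl p)).toRingHom
  refine ⟨PF_pull (NormedField.toAbsoluteValue (PadicAlgCl p)) f, fun _ => ⟨?_, ?_, ?_⟩⟩
  · intro a b
    change ‖f (a + b)‖ ≤ max ‖f a‖ ‖f b‖
    rw [map_add]
    exact PadicAlgCl.isNonarchimedean p _ _
  · change ‖f (p : K)‖ = _
    rw [map_natCast, ← map_natCast (algebraMap ℚ_[p] (PadicAlgCl p))]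
    exact (PadicAlgCl.norm_extends p _).trans Padic.norm_p
  · intro a ha
    change ‖f (a : K)‖ = _
    rw [map_intCast, ← map_intCast (algebraMap ℚ_[p] (PadicAlgCl p))]
    refine (PadicAlgCl.norm_extends p _).trans (Padic.norm_intCast_eq_one_iff.mpr ?_)
    exact ((Nat.prime_iff_prime_int.mp hp).coprime_iff_not_dvd.mpr ha).symm

/-- The elements that are integral after multiplication by a power of `R`. -/
def PF_O (K : Type) [Field K] (R : ℕ) : Subring K where
  carrier := {a | ∃ t : ℕ, IsIntegral ℤ ((R : K) ^ t * a)}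
  mul_mem' := by
    rintro a b ⟨t, ht⟩ ⟨u, hu⟩
    refine ⟨t + u, ?_⟩
    have : (R : K) ^ (t + u) * (a * b) = (R : K) ^ t * a * ((R : K) ^ u * b) := by ring
    rw [this]
    exact ht.mul hu
  one_mem' := ⟨0, by simpa using isIntegral_one⟩
  add_mem' := by
    rintro a b ⟨t, ht⟩ ⟨u, hu⟩
    refine ⟨t + u, ?_⟩
    have : (R : K) ^ (t + u) * (a + b) =
        (R : K) ^ u * ((R : K) ^ t * a) + (R : K) ^ t * ((R : K) ^ u * b) := by ring
    rw [this]
    have hR : IsIntegral ℤ (R : K) := by simpa using isIntegral_algebraMap (R := ℤ) (A := K) (x := R)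
    exact ((hR.pow _).mul ht).add ((hR.pow _).mul hu)
  zero_mem' := ⟨0, by simpa using isIntegral_zero⟩
  neg_mem' := by
    rintro a ⟨t, ht⟩
    exact ⟨t, by simpa using ht.neg⟩

theorem PF_places (K : Type) [Field K] [Algebra ℚ K] [FiniteDimensional ℚ K] [IsGalois ℚ K]
    (S : Finset ℕ) (hS : ∀ p ∈ S, p.Prime) :
    ∃ Pl : Places K S, ∀ a : K, IsIntegral ℤ a → a ∈ Pl.O := by
  classical
  have : CharZero K := charZero_of_injective_algebraMap (algebraMap ℚ K).injective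
  choose w hw using PF_abs K
  let ι : K →+* ℂ := (IsAlgClosed.lift (R := ℚ) (S := K) (M := ℂ)).toRingHom
  let g : Fin (Fintype.card (K ≃ₐ[ℚ] K)) ≃ (K ≃ₐ[ℚ] K) := (Fintype.equivFin _).symm
  let F : K →* ℝ :=
    { toFun := fun a => ‖ι a‖ * ∏ p ∈ S, w p a
      map_one' := by simp
      map_mul' := fun a b => by
        simp only [map_mul, norm_mul, Finset.prod_mul_distrib]
        ring }
  have hF : ∀ a, F a = ‖ι a‖ * ∏ p ∈ S, w p a := fun _ => rfl
  have hun : ∀ q : ℕ, q.Prime → ∀ p ∈ S, p ≠ q → w p (q : K) = 1 := by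
    intro q hq p hp hne
    have := (hw p (hS p hp)).2.2 (q : ℤ) (by
      rw [Int.natCast_dvd_natCast, Nat.prime_dvd_prime_iff_eq (hS p hp) hq]
      exact hne)
    simpa using this
  have hF1 : ∀ q ∈ S, F (q : K) = 1 := by
    intro q hq
    rw [hF, Finset.prod_eq_single_of_mem q hq (hun q (hS q hq)), (hw q (hS q hq)).2.1,
      map_natCast, Complex.norm_natCast]
    exact mul_inv_cancel₀ (by exact_mod_cast (hS q hq).ne_zero)
  have hF2 : ∀ q : ℕ, q.Prime → 1 ≤ F (q : K) := by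
    intro q hq
    by_cases h : q ∈ S
    · exact (hF1 q h).ge
    · rw [hF, Finset.prod_eq_one (fun p hp => hun q hq p hp (fun e => h (e ▸ hp))), map_natCast,
        Complex.norm_natCast, mul_one]
      exact_mod_cast hq.one_le
  have hF3 : ∀ n : ℕ, n ≠ 0 → 1 ≤ F (n : K) := by
    intro n
    induction n using induction_on_primes with
    | zero => intro h; exact absurd rfl h
    | one => intro _; simp
    | prime_mul p a hp ih =>
      intro h
      rw [Nat.cast_mul, map_mul]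
      exact one_le_mul_of_one_le_of_one_le (hF2 p hp) (ih (right_ne_zero_of_mul h))
  have hF4 : ∀ b : ℤ, b ≠ 0 → 1 ≤ F (b : K) := by
    intro b hb
    have h := hF3 b.natAbs (Int.natAbs_ne_zero.mpr hb)
    rcases Int.natAbs_eq b with e | e
    · rw [e]; simpa using h
    · rw [e, hF] ; rw [hF] at h; simpa using h
  have hFR : F ((∏ p ∈ S, p : ℕ) : K) = 1 := by
    rw [Nat.cast_prod, map_prod]
    exact Finset.prod_eq_one hF1
  have hR0 : ((∏ p ∈ S, p : ℕ) : K) ≠ 0 :=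
    Nat.cast_ne_zero.mpr (Finset.prod_ne_zero_iff.mpr fun p hp => (hS p hp).ne_zero)
  refine ⟨{ d := Fintype.card (K ≃ₐ[ℚ] K)
            d_pos := Fintype.card_pos
            φ := fun i => ι.comp (g i).toRingEquiv.toRingHom
            W := fun p i => PF_pull (w p) (g i).toRingEquiv.toRingHom
            na := ?_
            val_p := ?_
            val_unit := ?_
            O := PF_O K (∏ p ∈ S, p)
            inv_mem := ?_
            pf := ?_ }, fun a ha => ⟨0, by simpa using ha⟩⟩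
  · intro p hp i a b
    rw [PF_pull_apply, PF_pull_apply, PF_pull_apply, map_add]
    exact (hw p (hS p hp)).1 _ _
  · intro p hp i
    rw [PF_pull_apply, map_natCast]
    exact (hw p (hS p hp)).2.1
  · intro p hp i a ha
    rw [PF_pull_apply, map_intCast]
    exact (hw p (hS p hp)).2.2 a ha
  · intro p hp
    refine ⟨1, ?_⟩
    have hp0 : (p : K) ≠ 0 := Nat.cast_ne_zero.mpr (hS p hp).ne_zero
    rw [pow_one, ← Finset.mul_prod_erase S _ hp, Nat.cast_mul, mul_right_comm,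
      mul_inv_cancel₀ hp0, one_mul]
    simpa using isIntegral_algebraMap (R := ℤ) (A := K) (x := ((∏ x ∈ S.erase p, x : ℕ) : ℤ))
  · rintro a ⟨t, ht⟩ ha
    obtain ⟨b, hb⟩ := IsIntegrallyClosed.isIntegral_iff.mp (Algebra.isIntegral_norm ℚ ht)
    have hb0 : b ≠ 0 := by
      rintro rfl
      rw [map_zero, eq_comm, Algebra.norm_eq_zero_iff] at hb
      exact mul_ne_zero (pow_ne_zero _ hR0) ha hb
    have h1 := Algebra.norm_eq_prod_automorphisms ℚ (((∏ p ∈ S, p : ℕ) : K) ^ t * a)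
    rw [← hb, ← g.prod_comp] at h1
    have h2 : 1 ≤ F (∏ i, g i (((∏ p ∈ S, p : ℕ) : K) ^ t * a)) := by
      rw [← h1]
      simpa using hF4 b hb0
    rw [map_prod] at h2
    simp only [map_mul, map_pow, map_natCast, hFR, one_pow, one_mul] at h2
    rw [Finset.prod_comm, ← Finset.prod_mul_distrib]
    exact h2

theorem PF_field (k : Type) [Field k] [CharZero k] (f : k[X]) :
    ∃ (K : Type) (_ : Field K) (_ : Algebra k K) (_ : FiniteDimensional k K) (_ : IsGalois k K),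
      Splits (f.map (algebraMap k K)) :=
  ⟨f.SplittingField, inferInstance, inferInstance, inferInstance, ⟨⟩, SplittingField.splits f⟩

theorem p_PF :
    S_PF := by
  intro x y S hS
  let P : Cubic ℚ := ⟨1, 0, -3 * (x : ℚ), -(2 * (y : ℚ))⟩
  have ha : P.a ≠ 0 := one_ne_zero
  obtain ⟨K, _, _, _, _, hsp⟩ := PF_field ℚ P.toPoly
  have : CharZero K := charZero_of_injective_algebraMap (algebraMap ℚ K).injective
  obtain ⟨a, b, c, h3⟩ := (Cubic.splits_iff_roots_eq_three ha).mp hsp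
  have h1 := Cubic.b_eq_three_roots ha h3
  have h2 := Cubic.c_eq_three_roots ha h3
  have h4 := Cubic.d_eq_three_roots ha h3
  simp only [P, map_one, map_zero, map_mul, map_neg, map_intCast, map_ofNat, one_mul] at h1 h2 h4
  obtain ⟨Pl, hPl⟩ := PF_places K S hS
  have hint : ∀ z : K, z ^ 3 - 3 * (x : K) * z - 2 * (y : K) = 0 → IsIntegral ℤ z := by
    intro z hz
    refine ⟨X ^ 3 - C (3 * x) * X - C (2 * y), by monicity!, ?_⟩
    rw [eval₂_sub, eval₂_sub, eval₂_mul, eval₂_C, eval₂_C, eval₂_X, eval₂_X_pow]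
    simpa using hz
  refine ⟨K, inferInstance, inferInstance, ![a, b, c], Pl, ⟨?_, ?_, ?_⟩, fun s => hPl _ (hint _ ?_)⟩
  · change a + b + c = 0
    linear_combination h1
  · change a * b + b * c + c * a = _
    linear_combination -h2
  · change a * b * c = _
    linear_combination h4
  · fin_cases s
    · change a ^ 3 - 3 * (x : K) * a - 2 * (y : K) = 0
      linear_combination a ^ 2 * h1 + a * h2 + h4
    · change b ^ 3 - 3 * (x : K) * b - 2 * (y : K) = 0
      linear_combination b ^ 2 * h1 + b * h2 + h4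
    · change c ^ 3 - 3 * (x : K) * c - 2 * (y : K) = 0
      linear_combination c ^ 2 * h1 + c * h2 + h4

end Pool.Agent.P.MP_7aad9f_nt.Sz

end

section
/-! Step SETA. -/

set_option autoImplicit false

open Polynomial

namespace Pool.Agent.P.MP_7aad9f_nt.Sz

open Pool.Agent.P.MP_7aad9f_nt.Sub (Gen S_GENSEL S_OMEGA)

theorem p_SETA :
    S_SETA := by
  classical
  intro x y _
  set k := (x ^ 3 - y ^ 2).natAbs
  set S := k.primeFactors
  let P : ℤ := ∏ p ∈ S.filter fun p : ℕ => (p : ℤ) ∣ x, (p : ℤ)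
  let Q : ℤ := ∏ p ∈ S.filter fun p : ℕ => ¬ (p : ℤ) ∣ x, (p : ℤ) ^ k.factorization p
  have hp : ∀ p ∈ S, Prime (p : ℤ) := fun p h =>
    Nat.prime_iff_prime_int.1 (Nat.prime_of_mem_primeFactors h)
  have hx : ∀ p ∈ S, ¬ (p : ℤ) ∣ x → IsCoprime (p : ℤ) x := fun p h h' =>
    (hp p h).irreducible.coprime_iff_not_dvd.2 h'
  have h1 : IsCoprime Q (x * P) := by
    refine IsCoprime.prod_left fun p h => IsCoprime.pow_left ?_
    obtain ⟨h2, h3⟩ := Finset.mem_filter.1 h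
    refine (hx p h2 h3).mul_right (IsCoprime.prod_right fun q hq => ?_)
    obtain ⟨h4, h5⟩ := Finset.mem_filter.1 hq
    exact Nat.isCoprime_iff_coprime.2 ((Nat.coprime_primes (Nat.prime_of_mem_primeFactors h2)
      (Nat.prime_of_mem_primeFactors h4)).2 fun e => h3 (e ▸ h5))
  obtain ⟨u, ψ, h2⟩ := h1
  refine ⟨-y * ψ * P, fun p h => ⟨fun h3 => Dvd.dvd.mul_left
    (Finset.dvd_prod_of_mem (fun p : ℕ => (p : ℤ)) (Finset.mem_filter.2 ⟨h, h3⟩)) _, fun h3 => ?_⟩⟩
  set c := -y * ψ * P with hc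
  set q : ℤ := (p : ℤ) ^ k.factorization p
  have h4 : q ∣ c * x + y := by
    have : q ∣ Q := Finset.dvd_prod_of_mem (fun p : ℕ => (p : ℤ) ^ k.factorization p)
      (Finset.mem_filter.2 ⟨h, h3⟩)
    rw [show c * x + y = y * u * Q by rw [hc]; linear_combination -y * h2]
    exact this.mul_left _
  have h5 : q ∣ x ^ 3 - y ^ 2 := by
    rw [← Int.dvd_natAbs]
    simpa only [Nat.cast_pow] using Int.natCast_dvd_natCast.2 (Nat.ordProj_dvd k p)
  have h6 : ∀ m, IsCoprime q (x ^ m) := fun m => (hx p h h3).pow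
  have h7 : q ∣ c ^ 2 - x := (h6 2).dvd_of_dvd_mul_left (by
    rw [show x ^ 2 * (c ^ 2 - x) = (c * x - y) * (c * x + y) - (x ^ 3 - y ^ 2) by ring]
    exact (h4.mul_left _).sub h5)
  refine ⟨fun h8 => h3 ?_, h7, (h6 3).dvd_of_dvd_mul_left ?_⟩
  · have h9 : (p : ℤ) ∣ q := dvd_pow_self _ (Nat.Prime.factorization_pos_of_dvd
      (Nat.prime_of_mem_primeFactors h) (Nat.mem_primeFactors.1 h).2.2
      (Nat.dvd_of_mem_primeFactors h)).ne'
    simpa using (dvd_pow h8 two_ne_zero).sub (h9.trans h7)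
  · rw [show x ^ 3 * (c ^ 3 + y) = ((c * x) ^ 2 - c * x * y + y ^ 2) * (c * x + y) +
      y * (x ^ 3 - y ^ 2) by ring]
    exact (h4.mul_left _).add (h5.mul_left _)

end Pool.Agent.P.MP_7aad9f_nt.Sz

end

section
/-! Step SETB. -/

set_option autoImplicit false

open Polynomial

namespace Pool.Agent.P.MP_7aad9f_nt.Sz

open Pool.Agent.P.MP_7aad9f_nt.Sub (Gen S_GENSEL S_OMEGA)

theorem SETB_up {P y : ℤ} (hP : Prime P) {a n : ℕ} (h1 : P ^ a ∣ y) (h2 : P ^ (a * n + 1) ∣ y ^ n) :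
    P ^ (a + 1) ∣ y := by
  obtain ⟨z, rfl⟩ := h1
  rw [mul_pow, ← pow_mul, pow_succ, mul_dvd_mul_iff_left (pow_ne_zero _ hP.ne_zero)] at h2
  rw [pow_succ]
  exact mul_dvd_mul_left _ (hP.dvd_of_dvd_pow h2)

theorem SETB_loc {x y k : ℤ} (e : k = x ^ 3 - y ^ 2) (hk : k ≠ 0) (h : Prim x y) {p : ℕ}
    (hp : p.Prime) (hx : (p : ℤ) ∣ x) :
    k.natAbs.factorization p ≤ 4 ∧ (¬ (p : ℤ) ^ 2 ∣ y → k.natAbs.factorization p ≤ 2) ∧
      ((p : ℤ) ^ 2 ∣ y → 2 ≤ k.natAbs.factorization p) := by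
  have hP : Prime (p : ℤ) := Nat.prime_iff_prime_int.1 hp
  have hv : ∀ n, n ≤ k.natAbs.factorization p ↔ (p : ℤ) ^ n ∣ k := fun n => by
    rw [← hp.pow_dvd_iff_le_factorization (Int.natAbs_ne_zero.2 hk), ← Int.natCast_dvd,
      Nat.cast_pow]
  have ey : y ^ 2 = x ^ 3 - k := by rw [e]; ring
  have ex : x ^ 3 = k + y ^ 2 := by rw [e]; ring
  have x3 : (p : ℤ) ^ 3 ∣ x ^ 3 := pow_dvd_pow_of_dvd hx 3
  have y2 : (p : ℤ) ^ 3 ∣ k → (p : ℤ) ^ 2 ∣ y := fun h3 => by
    have h4 : (p : ℤ) ^ 3 ∣ y ^ 2 := ey ▸ x3.sub h3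
    exact SETB_up hP (a := 1) (n := 2)
      (by rw [pow_one]; exact hP.dvd_of_dvd_pow ((dvd_pow_self _ (by norm_num)).trans h4)) h4
  have y4 : (p : ℤ) ^ 2 ∣ y → (p : ℤ) ^ 4 ∣ y ^ 2 := fun h3 => by
    simpa only [← pow_mul] using pow_dvd_pow_of_dvd h3 2
  refine ⟨not_lt.1 fun h5 => ?_, fun hy => not_lt.1 fun h3 => hy (y2 ((hv 3).1 h3)),
    fun hy => (hv 2).2 (e ▸ ((pow_dvd_pow _ (by norm_num)).trans x3).sub
      ((pow_dvd_pow _ (by norm_num)).trans (y4 hy)))⟩
  have h5 := (hv 5).1 h5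
  have hy := y2 ((pow_dvd_pow _ (by norm_num)).trans h5)
  have x2 : (p : ℤ) ^ 2 ∣ x := SETB_up hP (a := 1) (n := 3) (by rwa [pow_one])
    (ex ▸ ((pow_dvd_pow _ (by norm_num)).trans h5).add (y4 hy))
  have x6 : (p : ℤ) ^ 6 ∣ x ^ 3 := by simpa only [← pow_mul] using pow_dvd_pow_of_dvd x2 3
  exact h p hp ⟨x2, SETB_up hP (a := 2) (n := 2) hy
    (ey ▸ ((pow_dvd_pow _ (by norm_num)).trans x6).sub h5)⟩

theorem SETB_six (S : Finset ℕ) (hS : ∀ p ∈ S, p.Prime) :
    ∏ p ∈ S, (p : ℝ) ^ (if p ≤ 3 then 5 else 0) ≤ 6 ^ 5 := by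
  have h : ∏ p ∈ S, p ^ (if p ≤ 3 then 5 else 0) ≤ ∏ p ∈ ({2, 3} : Finset ℕ), p ^ 5 := by
    simp only [pow_ite, pow_zero]
    rw [← Finset.prod_filter]
    refine Finset.prod_le_prod_of_subset_of_one_le' (fun p hp => ?_) fun p hp _ => ?_
    · obtain ⟨h1, h2⟩ := Finset.mem_filter.1 hp
      have := (hS p h1).two_le
      simp only [Finset.mem_insert, Finset.mem_singleton]; omega
    · simp only [Finset.mem_insert, Finset.mem_singleton] at hp
      rcases hp with rfl | rfl <;> norm_num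
  norm_num at h ⊢
  exact_mod_cast h

theorem p_SETB :
    S_SETB := by
  intro x y k e hk h
  have hS : ∀ p ∈ k.natAbs.primeFactors, p.Prime := fun p hp => Nat.prime_of_mem_primeFactors hp
  have h1 : ∀ p ∈ k.natAbs.primeFactors, (1 : ℝ) ≤ p := fun p hp => by
    exact_mod_cast (hS p hp).one_le
  have hk' : |(k : ℝ)| = ∏ p ∈ k.natAbs.primeFactors, (p : ℝ) ^ k.natAbs.factorization p := by
    have := Nat.prod_factorization_pow_eq_self (Int.natAbs_ne_zero.2 hk)
    rw [Finsupp.prod, Nat.support_factorization] at this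
    rw [← Int.cast_abs, ← Int.natCast_natAbs, Int.cast_natCast]
    exact_mod_cast this.symm
  have hm : (mrf x y k : ℝ) ^ 2 = ∏ p ∈ k.natAbs.primeFactors, (p : ℝ) ^ (2 * rf x y k p) := by
    rw [mrf]
    push_cast
    rw [← Finset.prod_pow]
    exact Finset.prod_congr rfl fun p _ => by rw [← pow_mul, mul_comm]
  have hD : Df x k = ∏ p ∈ k.natAbs.primeFactors, (p : ℝ) ^
      (if (p : ℤ) ∣ x then 2 else if Odd (k.natAbs.factorization p) then 1 else 0) :=
    Finset.prod_congr rfl fun p _ => by split_ifs <;> simp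
  refine ⟨fun p hp hx => (SETB_loc e hk h (hS p hp) hx).1, ?_, ?_, ?_⟩
  · rw [hk', Real.log_prod fun p hp => (pow_pos (by linarith [h1 p hp]) _).ne', Finset.mul_sum,
      ← Finset.sum_add_distrib]
    refine Finset.sum_le_sum fun p hp => ?_
    rw [Real.log_pow, ← add_mul]
    refine mul_le_mul_of_nonneg_right ?_ (Real.log_nonneg (h1 p hp))
    have : k.natAbs.factorization p ≤ 4 + nf x k p := by
      unfold nf
      split_ifs with hx
      · exact (SETB_loc e hk h (hS p hp) hx).1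
      · omega
      · omega
    exact_mod_cast this
  · rw [mul_assoc, hm, hD]
    refine le_trans ?_ (mul_le_mul_of_nonneg_right (SETB_six _ hS) (by positivity))
    rw [hk', ← Finset.prod_mul_distrib, ← Finset.prod_mul_distrib]
    refine Finset.prod_le_prod (fun p _ => by positivity) fun p hp => ?_
    rw [← pow_add, ← pow_add]
    refine pow_le_pow_right₀ (h1 p hp) ?_
    unfold rf nf
    by_cases hx : (p : ℤ) ∣ x
    · obtain ⟨h2, h3, -⟩ := SETB_loc e hk h (hS p hp) hx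
      simp only [if_pos hx]
      by_cases hy : (p : ℤ) ^ 2 ∣ y
      · rw [if_pos hy]; omega
      · have := h3 hy
        omega
    · simp only [if_neg hx, Nat.odd_iff]
      split_ifs <;> omega
  · rw [hm, hk']
    refine Finset.prod_le_prod (fun p _ => by positivity) fun p hp => ?_
    refine pow_le_pow_right₀ (h1 p hp) ?_
    unfold rf nf
    split_ifs with hx hy
    · exact (SETB_loc e hk h (hS p hp) hx).2.2 hy
    · omega
    · omega
    · omega

end Pool.Agent.P.MP_7aad9f_nt.Sz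

end

section
/-! Step LOC. -/

set_option autoImplicit false

open Polynomial

namespace Pool.Agent.P.MP_7aad9f_nt.Sz

open Pool.Agent.P.MP_7aad9f_nt.Sub (Gen S_GENSEL S_OMEGA)

section

variable {K : Type} [Field K] {w : AbsoluteValue K ℝ}

theorem LOC_add (hw : IsNonarchimedean w) {a b : K} {M : ℝ} (ha : w a ≤ M) (hb : w b ≤ M) :
    w (a + b) ≤ M := (hw a b).trans (max_le ha hb)

theorem LOC_sub (hw : IsNonarchimedean w) {a b : K} {M : ℝ} (ha : w a ≤ M) (hb : w b ≤ M) :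
    w (a - b) ≤ M := by
  rw [sub_eq_add_neg]; exact LOC_add hw ha (by rwa [w.map_neg])

theorem LOC_int (hw : IsNonarchimedean w) (a : ℤ) : w (a : K) ≤ 1 := hw.apply_intCast_le_one

theorem LOC_dvd (hw : IsNonarchimedean w) {p : ℕ} (hp : w (p : K) = (p : ℝ)⁻¹) {t : ℕ} {a : ℤ}
    (h : (p : ℤ) ^ t ∣ a) : w (a : K) ≤ (p : ℝ)⁻¹ ^ t := by
  obtain ⟨b, rfl⟩ := h
  push_cast
  rw [w.map_mul, w.map_pow, hp]
  exact mul_le_of_le_one_right (by positivity) (LOC_int hw b)

theorem LOC_root {x y : ℤ} {e : Fin 3 → K} (h : Vieta x y e) (s : Fin 3) :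
    e s ^ 3 = 3 * x * e s + 2 * y := by
  obtain ⟨h1, h2, h3⟩ := h
  fin_cases s
  · show e 0 ^ 3 = 3 * x * e 0 + 2 * y
    linear_combination e 0 ^ 2 * h1 - e 0 * h2 + h3
  · show e 1 ^ 3 = 3 * x * e 1 + 2 * y
    linear_combination e 1 ^ 2 * h1 - e 1 * h2 + h3
  · show e 2 ^ 3 = 3 * x * e 2 + 2 * y
    linear_combination e 2 ^ 2 * h1 - e 2 * h2 + h3

/-- a root of `X^3 - a X - b` with `w a ≤ β^2`, `w b ≤ β^3` has `w ≤ β` -/
theorem LOC_bound (hw : IsNonarchimedean w) {e a b : K} {β : ℝ} (hβ : 0 ≤ β)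
    (h : e ^ 3 = a * e + b) (ha : w a ≤ β ^ 2) (hb : w b ≤ β ^ 3) : w e ≤ β := by
  by_contra c
  push Not at c
  have h0 : 0 < w e := hβ.trans_lt c
  have h1 : w (a * e + b) ≤ β ^ 2 * w e := by
    refine LOC_add hw ?_ (hb.trans ?_)
    · rw [w.map_mul]; gcongr
    · rw [pow_succ]; gcongr
  rw [← h, w.map_pow, pow_succ] at h1
  have h2 : β ^ 2 < w e ^ 2 := by gcongr
  exact absurd (le_of_mul_le_mul_right h1 h0) (not_le.2 h2)

theorem LOC_type (hw : IsNonarchimedean w) {e : Fin 3 → K} {c : K} {β : ℝ} (h0 : 0 ≤ β)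
    (h1 : β ≤ 1) (hs : e 0 + e 1 + e 2 = 0) (h3 : β < w (3 * c)) (h6 : β ^ 2 < w (6 * c))
    (h : ∀ s, w (e s + 2 * c) ≤ β ^ 2 ∨ w (e s - c) ≤ β) :
    ∃ σ, w (e σ + 2 * c) ≤ β ^ 2 ∧ ∀ s, s ≠ σ → w (e s - c) ≤ β := by
  have hb : β ^ 2 ≤ β := by nlinarith
  have two : ∀ a b d : K, a + b + d = 0 → w (a + 2 * c) ≤ β ^ 2 → w (b + 2 * c) ≤ β ^ 2 →
      w (d + 2 * c) ≤ β ^ 2 ∨ w (d - c) ≤ β → False := fun a b d e0 ha hb' hd => by
    rcases hd with hd | hd
    · have := LOC_add hw (LOC_add hw ha hb') hd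
      rw [show a + 2 * c + (b + 2 * c) + (d + 2 * c) = 6 * c by linear_combination e0] at this
      linarith
    · have := LOC_add hw (LOC_add hw (ha.trans hb) (hb'.trans hb)) hd
      rw [show a + 2 * c + (b + 2 * c) + (d - c) = 3 * c by linear_combination e0] at this
      linarith
  rcases h 0 with a0 | a0
  · refine ⟨0, a0, fun s hs' => ?_⟩
    fin_cases s
    · exact absurd rfl hs'
    · exact (h 1).resolve_left fun a1 => two _ _ _ hs a0 a1 (h 2)
    · exact (h 2).resolve_left fun a2 => two _ _ _ (by linear_combination hs) a0 a2 (h 1)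
  rcases h 1 with a1 | a1
  · refine ⟨1, a1, fun s hs' => ?_⟩
    fin_cases s
    · exact a0
    · exact absurd rfl hs'
    · exact (h 2).resolve_left fun a2 => two _ _ _ (by linear_combination hs) a1 a2 (h 0)
  rcases h 2 with a2 | a2
  · refine ⟨2, a2, fun s hs' => ?_⟩
    fin_cases s
    · exact a0
    · exact a1
    · exact absurd rfl hs'
  have := LOC_add hw (LOC_add hw a0 a1) a2
  rw [show e 0 - c + (e 1 - c) + (e 2 - c) = -(3 * c) by linear_combination hs, w.map_neg] at this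
  linarith

theorem LOC_dich (hw : IsNonarchimedean w) {e c : K} {β A : ℝ} (h0 : 0 ≤ β) (h3 : 0 < w (3 * c))
    (h3' : w (3 * c) ≤ 1) (hA : A ≤ β ^ 2 * w (3 * c) ^ 2)
    (h : w ((e - c) ^ 2 * (e + 2 * c)) ≤ A) : w (e + 2 * c) ≤ β ^ 2 ∨ w (e - c) ≤ β := by
  rw [w.map_mul, w.map_pow] at h
  have hm := hw (e + 2 * c) (-(e - c))
  rw [show e + 2 * c + -(e - c) = 3 * c by ring, w.map_neg] at hm
  rcases le_max_iff.1 hm with hm | hm
  · right
    refine le_of_sq_le_sq ?_ h0 |> fun h => h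
    have : w (e - c) ^ 2 * w (3 * c) ≤ β ^ 2 * w (3 * c) :=
      calc _ ≤ w (e - c) ^ 2 * w (e + 2 * c) := by gcongr
        _ ≤ β ^ 2 * w (3 * c) ^ 2 := h.trans hA
        _ ≤ _ := by gcongr; nlinarith
    exact le_of_mul_le_mul_right this h3
  · left
    have : w (e + 2 * c) * w (3 * c) ^ 2 ≤ β ^ 2 * w (3 * c) ^ 2 :=
      calc _ ≤ w (e + 2 * c) * w (e - c) ^ 2 := by gcongr
        _ ≤ _ := by rw [mul_comm]; exact h.trans hA
    exact le_of_mul_le_mul_right this (by positivity)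

theorem LOC_div {mr : K} {R : ℝ} (hR : R * w mr = 1) (a : K) : w (a / mr) = w a * R := by
  rw [map_div₀, div_eq_mul_inv, inv_eq_of_mul_eq_one_left hR]

theorem LOC_fin (hw : IsNonarchimedean w) {e : Fin 3 → K} {c : ℤ} {mr : ℕ} {h R : ℝ} {σ : Fin 3}
    (hR : R * w (mr : K) = 1) (hR0 : 0 ≤ R) (h0 : 0 ≤ h) (h1 : h ≤ 1) (hRh : h * R ≤ 1)
    (he : ∀ s, w (e s) ≤ 1) (hσ : w (e σ + 2 * c) ≤ h ^ 2) (hs : ∀ s, s ≠ σ → w (e s - c) ≤ h) :
    LocP w e c mr h σ := by
  have hc : w (e σ - c) ≤ 1 := LOC_sub hw (he σ) (LOC_int hw c)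
  have h3 : w (3 * (c : K)) ≤ 1 := by simpa using LOC_int hw (3 * c)
  refine ⟨he, hσ.trans (by nlinarith), ?_, fun s hs' => ⟨hs s hs', ?_, ?_⟩⟩
  · rw [LOC_div hR, w.map_mul]
    calc _ ≤ h ^ 2 * 1 * R := by gcongr
      _ = h * (h * R) := by ring
      _ ≤ h := mul_le_of_le_one_right h0 hRh
  · rw [LOC_div hR, w.map_pow]
    calc _ ≤ h ^ 2 * R := by gcongr; exact hs s hs'
      _ = h * (h * R) := by ring
      _ ≤ h := mul_le_of_le_one_right h0 hRh
  · rw [LOC_div hR, w.map_mul]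
    calc _ ≤ 1 * h * R := by gcongr; exact hs s hs'
      _ ≤ 1 := by rwa [one_mul]

theorem LOC_low {p : ℕ} (hp : p.Prime) (hwp : w (p : K) = (p : ℝ)⁻¹)
    (hu : ∀ a : ℤ, ¬ (p : ℤ) ∣ a → w (a : K) = 1) {a : ℤ} (ha : ¬ (p : ℤ) ^ 2 ∣ a) :
    (p : ℝ)⁻¹ ≤ w (a : K) := by
  by_cases h : (p : ℤ) ∣ a
  · obtain ⟨b, rfl⟩ := h
    have : ¬ (p : ℤ) ∣ b := fun h' => ha (by rw [pow_two]; exact mul_dvd_mul_left _ h')
    push_cast
    rw [w.map_mul, hwp, hu b this, mul_one]
  · rw [hu a h]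
    exact inv_le_one_of_one_le₀ (by exact_mod_cast hp.one_lt.le)

end

theorem LOC_six {p : ℕ} (hp : p.Prime) : ¬ (p : ℤ) ^ 2 ∣ 6 := fun h => by
  have h1 : (p : ℤ) ^ 2 ≤ 6 := Int.le_of_dvd (by norm_num) h
  have h2 : (2 : ℤ) ≤ p := by exact_mod_cast hp.two_le
  have h3 : (p : ℤ) = 2 := by nlinarith
  rw [h3] at h
  norm_num at h

theorem LOC_five {p : ℕ} (hp : p.Prime) (h5 : 5 ≤ p) : ¬ (p : ℤ) ∣ 6 := fun h => by
  have h0 : p ∣ 6 := by exact_mod_cast h
  have h1 : p ≤ 6 := Nat.le_of_dvd (by norm_num) h0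
  interval_cases p
  · norm_num at h0
  · norm_num at hp

theorem LOC_h {p : ℕ} (hp : p.Prime) (n : ℕ) :
    Real.exp (-(n * Real.log p / 2)) ^ 2 = (p : ℝ)⁻¹ ^ n := by
  have h0 : (0 : ℝ) < p := by exact_mod_cast hp.pos
  rw [← Real.exp_nat_mul, inv_pow, ← Real.exp_log (pow_pos h0 n), ← Real.exp_neg, Real.log_pow]
  congr 1
  push_cast
  ring

theorem p_LOC :
    S_LOC := by
  intro K _ w p x y c N n r mr e hp hw hwp hu hV hR hcase
  have hp2 : (2 : ℝ) ≤ p := by exact_mod_cast hp.two_le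
  set u : ℝ := (p : ℝ)⁻¹ with hudef
  have hu0 : 0 < u := by positivity
  have hu1 : u < 1 := inv_lt_one_of_one_lt₀ (by linarith)
  have hpu : (p : ℝ) * u = 1 := mul_inv_cancel₀ (by positivity)
  have h3x : ∀ a : ℤ, w (3 * (a : K)) ≤ 1 := fun a => by simpa using LOC_int hw (3 * a)
  have he : ∀ s, w (e s) ≤ 1 := fun s =>
    LOC_bound hw zero_le_one (LOC_root hV s) (by simpa using h3x x)
      (by simpa using LOC_int hw (2 * y))
  have triv : n = 0 → r = 0 → ∃ σ, LocP w e c mr (Real.exp (-(n * Real.log p / 2))) σ := by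
    rintro rfl rfl
    refine ⟨0, LOC_fin hw hR (by positivity) (by positivity) (by simp) (by simp) he ?_
      fun s _ => ?_⟩
    · simpa using LOC_add hw (he 0) (LOC_int hw (2 * c))
    · simpa using LOC_sub hw (he s) (LOC_int hw c)
  rcases hcase with ⟨hc, hx, hy, hr, hN⟩ | ⟨hx, hc, hn, hr | ⟨hr, hy⟩⟩
  · rcases Nat.eq_zero_or_pos n with hn | hn
    · exact triv hn (by omega)
    have hc1 : w (c : K) = 1 := hu c hc
    obtain ⟨t, ht, t3, t6, tN⟩ : ∃ t : ℕ, n ≤ t ∧ u ^ t < w (3 * (c : K)) ^ 2 ∧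
        u ^ t < w (6 * (c : K)) ∧ u ^ N ≤ u ^ t * w (3 * (c : K)) ^ 2 := by
      rw [w.map_mul, w.map_mul, hc1, mul_one, mul_one]
      rcases hN with h | h | ⟨h5, h⟩
      · omega
      · obtain ⟨t, rfl⟩ : ∃ t, N = t + 2 := ⟨N - 2, by omega⟩
        have a3 : u ≤ w (3 : K) := by
          simpa using LOC_low hp hwp hu (a := 3) fun h => LOC_six hp (h.trans (by norm_num))
        have a6 : u ≤ w (6 : K) := by simpa using LOC_low hp hwp hu (LOC_six hp)
        have a2 : u ^ 2 ≤ w (3 : K) ^ 2 := by gcongr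
        refine ⟨t, by omega, lt_of_lt_of_le (pow_lt_pow_right_of_lt_one₀ hu0 hu1 (by omega)) a2,
          lt_of_lt_of_le ?_ a6, ?_⟩
        · simpa using pow_lt_pow_right_of_lt_one₀ hu0 hu1 (show 1 < t by omega)
        · rw [pow_add]; gcongr
      · have a3 : w (3 : K) = 1 := by
          simpa using hu 3 fun h => LOC_five hp h5 (h.trans (by norm_num))
        have a6 : w (6 : K) = 1 := by simpa using hu 6 (LOC_five hp h5)
        rw [a3, a6, one_pow]
        exact ⟨n, le_rfl, pow_lt_one₀ hu0.le hu1 hn.ne', pow_lt_one₀ hu0.le hu1 hn.ne',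
          by rw [mul_one]; exact pow_le_pow_of_le_one hu0.le hu1.le h⟩
    set h := Real.exp (-(n * Real.log p / 2)) with hh
    have h0 : 0 < h := Real.exp_pos _
    have h2 : h ^ 2 = u ^ n := LOC_h hp n
    set β := Real.exp (-(t * Real.log p / 2)) with hβ
    have b0 : 0 < β := Real.exp_pos _
    have b2 : β ^ 2 = u ^ t := LOC_h hp t
    have bh2 : β ^ 2 ≤ h ^ 2 := by rw [h2, b2]; exact pow_le_pow_of_le_one hu0.le hu1.le ht
    have bh : β ≤ h := le_of_sq_le_sq bh2 h0.le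
    have h1 : h ≤ 1 := le_of_sq_le_sq (by rw [h2, one_pow]; exact pow_le_one₀ hu0.le hu1.le)
      zero_le_one
    have b3 : β < w (3 * (c : K)) := lt_of_pow_lt_pow_left₀ 2 (w.nonneg _) (b2 ▸ t3)
    obtain ⟨σ, s1, s2⟩ := LOC_type hw b0.le (bh.trans h1) hV.1 b3 (b2 ▸ t6) fun s => by
      refine LOC_dich hw b0.le (b0.trans b3) (h3x c) (b2 ▸ tN) ?_
      have e1 : (e s - c) ^ 2 * (e s + 2 * c) =
          2 * ((c ^ 3 + y : ℤ) : K) - 3 * e s * ((c ^ 2 - x : ℤ) : K) := by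
        push_cast
        linear_combination LOC_root hV s
      rw [e1]
      refine LOC_sub hw ?_ ?_
      · rw [w.map_mul]
        exact (mul_le_of_le_one_left (w.nonneg _) (by simpa using LOC_int hw 2)).trans
          (LOC_dvd hw hwp hy)
      · rw [w.map_mul, w.map_mul]
        exact (mul_le_of_le_one_left (w.nonneg _)
          (mul_le_one₀ (by simpa using LOC_int hw 3) (w.nonneg _) (he s))).trans
          (LOC_dvd hw hwp hx)
    refine ⟨σ, LOC_fin hw hR (by positivity) h0.le h1 ?_ he (s1.trans bh2)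
      fun s hs => (s2 s hs).trans bh⟩
    refine le_of_sq_le_sq ?_ zero_le_one
    rw [mul_pow, h2, ← pow_mul, one_pow]
    calc u ^ n * (p : ℝ) ^ (r * 2) ≤ u ^ (r * 2) * (p : ℝ) ^ (r * 2) := by
          gcongr ?_ * _
          exact pow_le_pow_of_le_one hu0.le hu1.le (by omega)
      _ = 1 := by rw [← mul_pow, mul_comm u, hpu, one_pow]
  · exact triv hn hr
  · subst hn hr
    set β := Real.exp (-((1 : ℕ) * Real.log p / 2)) with hβ
    have b0 : 0 < β := Real.exp_pos _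
    have b2 : β ^ 2 = u := by rw [LOC_h hp 1, pow_one]
    have b1 : β ≤ 1 := le_of_sq_le_sq (by rw [b2, one_pow]; exact hu1.le) zero_le_one
    have ub : u ≤ β := by rw [← b2]; nlinarith
    have d1 : ∀ a : ℤ, (p : ℤ) ∣ a → w (a : K) ≤ u := fun a ha => by
      simpa using LOC_dvd hw hwp (t := 1) (a := a) (by simpa using ha)
    have eb : ∀ s, w (e s) ≤ β := fun s => by
      refine LOC_bound hw b0.le (LOC_root hV s) ?_ ?_
      · rw [b2]; simpa using d1 (3 * x) (hx.mul_left 3)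
      · have := LOC_dvd hw hwp (t := 2) (a := 2 * y) (hy.mul_left 2)
        push_cast at this
        refine this.trans ?_
        rw [← hudef, ← b2, ← pow_mul]
        exact pow_le_pow_of_le_one b0.le b1 (by norm_num)
    have c1 : ∀ s, w (e s - c) ≤ β := fun s => LOC_sub hw (eb s) ((d1 c hc).trans ub)
    have c2 : ∀ s, w (e s + 2 * c) ≤ β := fun s => by
      simpa using LOC_add hw (eb s) ((d1 (2 * c) (hc.mul_left 2)).trans ub)
    have c3 : w (3 * (c : K)) ≤ β := by simpa using (d1 (3 * c) (hc.mul_left 3)).trans ub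
    have fin : ∀ a b : K, w a ≤ β → w b ≤ β → w (a * b / mr) ≤ 1 := fun a b ha hb => by
      rw [LOC_div hR, w.map_mul, pow_one]
      calc _ ≤ β * β * p := by gcongr
        _ = 1 := by rw [← pow_two, b2, mul_comm, hpu]
    rw [show Real.exp (-(((0 : ℕ) : ℝ) * Real.log p / 2)) = 1 by simp]
    exact ⟨0, he, (c2 0).trans b1, fin _ _ (c2 0) (c1 0), fun s _ =>
      ⟨(c1 s).trans b1, by rw [pow_two]; exact fin _ _ (c1 s) (c1 s), fin _ _ c3 (c1 s)⟩⟩

end Pool.Agent.P.MP_7aad9f_nt.Sz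

end
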