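import Pool.Agent.P.MP_7aad9f_nt.Sz.ZDefs

/-! A root of high multiplicity of a small integer polynomial has small height. -/

set_option autoImplicit false

open Polynomial NumberField

namespace Pool.Agent.P.MP_7aad9f_nt.Sz

theorem big_arch (f : ℤ[X]) (z : ℂ) (e : ℕ) (h : (X - C z) ^ e ∣ f.map (Int.castRingHom ℂ)) :
    ‖(f.leadingCoeff : ℂ)‖ * max 1 ‖z‖ ^ e ≤ nrm1 f := by
  obtain ⟨g, hg⟩ := h
  have h1 : ∀ e : ℕ, ((X - C z) ^ e).mahlerMeasure = max 1 ‖z‖ ^ e := fun e => by
    induction e with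
    | zero => simp
    | succ e ih => rw [pow_succ, mahlerMeasure_mul, ih, mahlerMeasure_X_sub_C, pow_succ]
  have h2 : g.leadingCoeff = (f.leadingCoeff : ℂ) := by
    have h3 := congrArg leadingCoeff hg
    rw [leadingCoeff_monic_mul ((monic_X_sub_C z).pow e),
      leadingCoeff_map_of_injective (Int.castRingHom ℂ).injective_int] at h3
    exact h3.symm
  have h4 := mahlerMeasure_le_sum_norm_coeff (f.map (Int.castRingHom ℂ))
  have h5 : (f.map (Int.castRingHom ℂ)).sum (fun _ a => ‖a‖) = nrm1 f := by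
    rw [sum_def, support_map_of_injective _ (Int.castRingHom ℂ).injective_int, nrm1]
    push_cast
    refine Finset.sum_congr rfl fun i _ => ?_
    rw [coeff_map, eq_intCast, Complex.norm_intCast, Nat.cast_natAbs, Int.cast_abs]
  rw [h5, hg, mahlerMeasure_mul, h1, mul_comm] at h4
  refine le_trans ?_ h4
  rw [← h2]
  exact mul_le_mul_of_nonneg_right (leadingCoeff_le_mahlerMeasure g) (by positivity)

theorem big_nonarch {K : Type} [Field K] [CharZero K] (v : AbsoluteValue K ℝ)
    (hv : IsNonarchimedean v) (f : ℤ[X]) (u : K) (e : ℕ)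
    (h : (X - C u) ^ e ∣ f.map (Int.castRingHom K)) :
    v (f.leadingCoeff : K) * max 1 (v u) ^ e ≤ 1 := by
  obtain ⟨g, hg⟩ := h
  have h0 : max 1 (v u) ≤ (X - C u).gaussNorm v 1 := by
    refine max_le ?_ ?_
    · have := (X - C u).le_gaussNorm v zero_le_one 1
      rwa [coeff_sub, coeff_X_one, coeff_C_succ, sub_zero, map_one, one_pow, mul_one] at this
    · have := (X - C u).le_gaussNorm v zero_le_one 0
      rwa [coeff_sub, coeff_X_zero, coeff_C_zero, zero_sub, v.map_neg, pow_zero, mul_one] at this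
  have h1 : ∀ e : ℕ, max 1 (v u) ^ e ≤ ((X - C u) ^ e).gaussNorm v 1 := fun e => by
    induction e with
    | zero => simpa using (1 : K[X]).le_gaussNorm v zero_le_one 0
    | succ e ih =>
      rw [pow_succ, pow_succ, gaussNorm_mul hv one_pos]
      exact mul_le_mul ih h0 (by positivity) (gaussNorm_nonneg _ _ zero_le_one)
  have h2 : g.leadingCoeff = (f.leadingCoeff : K) := by
    have h3 := congrArg leadingCoeff hg
    rw [leadingCoeff_monic_mul ((monic_X_sub_C u).pow e),
      leadingCoeff_map_of_injective (Int.castRingHom K).injective_int] at h3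
    exact h3.symm
  have h4 : (f.map (Int.castRingHom K)).gaussNorm v 1 ≤ 1 := by
    obtain ⟨i, hi⟩ := (f.map (Int.castRingHom K)).exists_eq_gaussNorm v 1
    rw [hi, one_pow, mul_one, coeff_map, eq_intCast]
    exact hv.apply_intCast_le_one
  rw [hg, gaussNorm_mul hv one_pos, mul_comm] at h4
  refine le_trans (mul_le_mul ?_ (h1 e) (by positivity) (gaussNorm_nonneg _ _ zero_le_one)) h4
  rw [← h2]
  simpa using g.le_gaussNorm v zero_le_one g.natDegree

theorem big_sup {K : Type} [Field K] (v : AbsoluteValue K ℝ) (c u : K) (e : ℕ) :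
    ⨆ i, v ((c • ![u ^ e, 1] : Fin 2 → K) i) ≤ v c * max 1 (v u) ^ e := by
  refine ciSup_le fun i => ?_
  rw [Pi.smul_apply, smul_eq_mul, map_mul]
  refine mul_le_mul_of_nonneg_left ?_ (v.nonneg c)
  fin_cases i
  · simpa using pow_le_pow_left₀ (v.nonneg u) (le_max_right 1 (v u)) e
  · simpa using one_le_pow₀ (le_max_left 1 (v u))

theorem big : S_BIG := by
  intro K _ _ u f e hf h
  have hc : (f.leadingCoeff : K) ≠ 0 := Int.cast_ne_zero.2 (leadingCoeff_ne_zero.2 hf)
  have hx : ((f.leadingCoeff : K) • ![u ^ e, 1] : Fin 2 → K) ≠ 0 := fun h0 => by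
    simpa [hc] using congrFun h0 1
  have hd : (0 : ℝ) < Module.finrank ℚ K := by exact_mod_cast Module.finrank_pos
  have h1 : Height.mulHeight₁ u ^ e ≤ (nrm1 f : ℝ) ^ Module.finrank ℚ K := by
    rw [← Height.mulHeight₁_pow, Height.mulHeight₁_eq_mulHeight,
      ← Height.mulHeight_smul_eq_mulHeight _ hc, NumberField.mulHeight_eq hx,
      ← InfinitePlace.sum_mult_eq, ← Finset.prod_pow_eq_pow_sum]
    refine mul_le_of_le_one_right (Finset.prod_nonneg fun v _ => pow_nonneg
      (Real.iSup_nonneg fun i => apply_nonneg _ _) _) ?_ |>.trans ?_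
    · refine (finprod_induction (fun x : ℝ => 0 ≤ x ∧ x ≤ 1) ⟨zero_le_one, le_rfl⟩
        (fun x y hx hy => ⟨mul_nonneg hx.1 hy.1, mul_le_one₀ hx.2 hy.1 hy.2⟩) fun v =>
          ⟨Real.iSup_nonneg fun i => apply_nonneg _ _, ?_⟩).2
      exact (big_sup v.1 _ u e).trans (big_nonarch v.1 (FinitePlace.add_le v) f u e h)
    · refine Finset.prod_le_prod (fun v _ => pow_nonneg
        (Real.iSup_nonneg fun i => apply_nonneg _ _) _) fun v _ => pow_le_pow_left₀
        (Real.iSup_nonneg fun i => apply_nonneg _ _) ((big_sup v.1 _ u e).trans ?_) _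
      have h2 := big_arch f (v.embedding u) e (by
        have h3 := map_dvd (mapRingHom v.embedding) h
        rw [map_pow, map_sub, coe_mapRingHom, map_X, map_C, map_map] at h3
        rwa [RingHom.ext_int (Int.castRingHom ℂ) (v.embedding.comp (Int.castRingHom K))])
      rw [← map_intCast v.embedding, InfinitePlace.norm_embedding_eq,
        InfinitePlace.norm_embedding_eq] at h2
      exact h2
  have h2 := Real.log_le_log (pow_pos (Height.mulHeight₁_pos u) e) h1
  rw [Real.log_pow, Real.log_pow, ← Height.logHeight₁_eq_log_mulHeight₁] at h2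
  rw [← mul_div_assoc, div_le_iff₀ hd, mul_comm (Real.log _)]
  exact h2

end Pool.Agent.P.MP_7aad9f_nt.Sz
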