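import Pool.Agent.P.MP_7aad9f_nt.Sz.If
import Pool.Agent.P.MP_7aad9f_nt.Sz.ZBig

section
/-! Step ARCH. -/

set_option autoImplicit false

open Polynomial

namespace Pool.Agent.P.MP_7aad9f_nt.Sz

open Pool.Agent.P.MP_7aad9f_nt.Sub (Gen S_GENSEL S_OMEGA)

theorem ARCH_root0 (X Y : ℝ) (hY : 0 ≤ Y) :
    ∃ e : ℝ, e ^ 3 - 3 * X * e - 2 * Y = 0 ∧ 3 * X ≤ e ^ 2 := by
  set s := Real.sqrt (3 * X) with hs
  have h0 : 0 ≤ s := Real.sqrt_nonneg _
  have h1 : 3 * X ≤ s ^ 2 ∧ s * (s ^ 2 - 3 * X) = 0 := by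
    rcases le_total 0 (3 * X) with h | h
    · rw [hs, Real.sq_sqrt h]
      simp
    · rw [hs, Real.sqrt_eq_zero_of_nonpos h]
      simpa using h
  have h2 : ContinuousOn (fun t : ℝ => t ^ 3 - 3 * X * t - 2 * Y) (Set.Icc s (s + 1 + 2 * Y)) := by
    fun_prop
  obtain ⟨e, he, h3⟩ := intermediate_value_Icc (by linarith) h2 (show (0 : ℝ) ∈ _ from ⟨by
    nlinarith [h1.2], by
    have h4 : 1 ≤ (s + 1 + 2 * Y) ^ 2 - 3 * X := by nlinarith [h1.1]
    nlinarith [mul_le_mul_of_nonneg_left h4 (show 0 ≤ s + 1 + 2 * Y by linarith)]⟩)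
  exact ⟨e, h3, by nlinarith [he.1, h1.1]⟩

theorem ARCH_root (X Y : ℝ) : ∃ e : ℝ, e ^ 3 - 3 * X * e - 2 * Y = 0 ∧ 3 * X ≤ e ^ 2 := by
  rcases le_total 0 Y with h | h
  · exact ARCH_root0 X Y h
  · obtain ⟨e, h1, h2⟩ := ARCH_root0 X (-Y) (by linarith)
    exact ⟨-e, by linarith, by linarith⟩

theorem ARCH_iota {x es τ sg : ℝ} (hτ : 0 < τ) (hs : sg = 1 ∨ sg = -1)
    (h : 3 * x = sg * τ ^ 2 + 3 * es ^ 2 / 4) {p q r : ℂ} (hp : p = es) (h1 : p + q + r = 0)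
    (h2 : p * q + q * r + r * p = -3 * (x : ℂ)) :
    ∃ ι : ℂ, ‖ι‖ = 1 ∧ ι ^ 2 = (sg : ℂ) ∧ p = (es : ℂ) ∧ q = -(es : ℂ) / 2 + ι * τ ∧
      r = -(es : ℂ) / 2 - ι * τ := by
  have h0 : (τ : ℂ) ≠ 0 := by exact_mod_cast hτ.ne'
  have h3 : 3 * (x : ℂ) = sg * τ ^ 2 + 3 * es ^ 2 / 4 := by exact_mod_cast h
  have h4 : ((q + es / 2) / τ) ^ 2 = (sg : ℂ) := by
    rw [div_pow, div_eq_iff (pow_ne_zero 2 h0)]
    subst hp
    linear_combination h3 - h2 + (q + es) * h1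
  refine ⟨(q + es / 2) / τ, ?_, h4, hp, by field_simp; ring, ?_⟩
  · have h5 := congrArg norm h4
    rw [norm_pow, show ‖(sg : ℂ)‖ = 1 by rcases hs with rfl | rfl <;> simp] at h5
    exact (pow_eq_one_iff_of_nonneg (norm_nonneg _) two_ne_zero).1 h5
  · rw [div_mul_cancel₀ _ h0]
    linear_combination h1 - hp

theorem p_ARCH :
    S_ARCH := by
  intro x y hxy
  obtain ⟨es, h1, h2⟩ := ARCH_root x y
  have h3 : 3 * (x : ℝ) - 3 * es ^ 2 / 4 ≠ 0 := fun h => hxy (by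
    have e1 : (x : ℝ) = es ^ 2 / 4 := by linarith
    have e2 : (y : ℝ) = es ^ 3 / 8 := by rw [e1] at h1; linarith
    have e3 : (x : ℝ) ^ 3 = (y : ℝ) ^ 2 := by rw [e1, e2]; ring
    exact_mod_cast e3)
  obtain ⟨τ, sg, hτ, hs, h4⟩ : ∃ τ sg : ℝ, 0 < τ ∧ (sg = 1 ∨ sg = -1) ∧
      3 * (x : ℝ) = sg * τ ^ 2 + 3 * es ^ 2 / 4 := by
    rcases h3.lt_or_gt with h | h
    · exact ⟨√(-(3 * (x : ℝ) - 3 * es ^ 2 / 4)), -1, Real.sqrt_pos.2 (by linarith), Or.inr rfl, by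
        rw [Real.sq_sqrt (by linarith)]; ring⟩
    · exact ⟨√(3 * (x : ℝ) - 3 * es ^ 2 / 4), 1, Real.sqrt_pos.2 h, Or.inl rfl, by
        rw [Real.sq_sqrt h.le]; ring⟩
  refine ⟨es, τ, sg, hτ, hs, h4, by linear_combination -h1 - es * h4, ?_, fun a ha => ?_⟩
  · refine le_trans ?_ (le_abs_self _)
    rw [Mf, ← sq_abs es] at *
    have h5 := abs_nonneg es
    rcases hs with rfl | rfl
    · have h6 : τ ≤ |es| / 2 := by nlinarith
      nlinarith
    · nlinarith [sq_nonneg (3 * |es| - τ)]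
  · obtain ⟨v1, v2, v3⟩ := ha
    have h5 : (es : ℂ) ^ 3 - 3 * x * es - 2 * y = 0 := by exact_mod_cast h1
    have h6 : (a 0 - es) * ((a 1 - es) * (a 2 - es)) = 0 := by
      linear_combination -h5 + (es : ℂ) ^ 2 * v1 - es * v2 + v3
    rcases mul_eq_zero.1 h6 with h | h
    · exact ⟨0, ARCH_iota hτ hs h4 (sub_eq_zero.1 h) v1 (by simpa using v2)⟩
    rcases mul_eq_zero.1 h with h | h
    · exact ⟨1, ARCH_iota (q := a 2) (r := a 0) hτ hs h4 (sub_eq_zero.1 h) (by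
        linear_combination v1) (by push_cast; linear_combination v2)⟩
    · exact ⟨2, ARCH_iota (q := a 0) (r := a 1) hτ hs h4 (sub_eq_zero.1 h) (by
        linear_combination v1) (by push_cast; linear_combination v2)⟩

end Pool.Agent.P.MP_7aad9f_nt.Sz

end

section
/-! Step HTA. -/

set_option autoImplicit false

open Polynomial

namespace Pool.Agent.P.MP_7aad9f_nt.Sz

theorem hta_max {A x y : ℝ} (hy : 0 < y) (h : A ≤ max x y) :
    A ≤ max 1 (x / y) * y := by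
  rcases le_max_iff.1 h with h | h
  · refine h.trans ?_
    calc x = x / y * y := by field_simp
      _ ≤ _ := mul_le_mul_of_nonneg_right (le_max_right _ _) hy.le
  · refine h.trans ?_
    calc y = 1 * y := (one_mul y).symm
      _ ≤ _ := mul_le_mul_of_nonneg_right (le_max_left _ _) hy.le

theorem p_HTA : S_HTA := by
  intro K _ _ S Pl a b A Cc B hb hA hC hB h1 h2 h3 f e hf hdvd
  have hl0 : f.leadingCoeff ≠ 0 := leadingCoeff_ne_zero.2 hf
  have hl : (f.leadingCoeff : K) ≠ 0 := Int.cast_ne_zero.2 hl0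
  have hpf := Pl.pf _ (intCast_mem Pl.O f.leadingCoeff) hl
  have ha : ∀ i, ‖Pl.φ i (f.leadingCoeff : K)‖ * A ^ e ≤ nrm1 f * ‖Pl.φ i b‖ ^ e := fun i => by
    have h4 := big_arch f (Pl.φ i (a / b)) e (by
      have h3 := map_dvd (mapRingHom (Pl.φ i)) hdvd
      rw [map_pow, map_sub, coe_mapRingHom, map_X, map_C, map_map] at h3
      rwa [RingHom.ext_int (Int.castRingHom ℂ) ((Pl.φ i).comp (Int.castRingHom K))])
    rw [map_div₀, norm_div, ← map_intCast (Pl.φ i)] at h4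
    have h5 := hta_max (norm_pos_iff.2 ((map_ne_zero (Pl.φ i)).2 hb)) (h1 i)
    calc _ ≤ ‖Pl.φ i (f.leadingCoeff : K)‖ *
          (max 1 (‖Pl.φ i a‖ / ‖Pl.φ i b‖) * ‖Pl.φ i b‖) ^ e := by gcongr
      _ ≤ _ := by rw [mul_pow, ← mul_assoc]; gcongr
  have hp : ∀ p ∈ S, ∀ i, Pl.W p i (f.leadingCoeff : K) * B p ^ e ≤ Pl.W p i b ^ e :=
    fun p hp i => by
      have h4 := big_nonarch (Pl.W p i) (Pl.na p hp i) f (a / b) e hdvd
      rw [map_div₀] at h4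
      have h5 := hta_max ((Pl.W p i).pos hb) (h2 p hp i)
      have h6 := (hB p hp).le
      have h7 := (Pl.W p i).nonneg (f.leadingCoeff : K)
      have h8 := (Pl.W p i).nonneg b
      calc _ ≤ Pl.W p i (f.leadingCoeff : K) *
            (max 1 (Pl.W p i a / Pl.W p i b) * Pl.W p i b) ^ e := by gcongr
        _ ≤ 1 * Pl.W p i b ^ e := by rw [mul_pow, ← mul_assoc]; gcongr
        _ = _ := one_mul _
  have hBp : 0 < ∏ p ∈ S, B p := Finset.prod_pos hB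
  have h4 : (∏ i, ‖Pl.φ i (f.leadingCoeff : K)‖) * (A ^ e) ^ Pl.d ≤
      (nrm1 f : ℝ) ^ Pl.d * (∏ i, ‖Pl.φ i b‖) ^ e := by
    have := Finset.prod_le_prod (s := Finset.univ) (fun i _ => by positivity) fun i _ => ha i
    simpa only [Finset.prod_mul_distrib, Finset.prod_const, Finset.card_univ, Fintype.card_fin,
      Finset.prod_pow] using this
  have h5 : (∏ p ∈ S, ∏ i, Pl.W p i (f.leadingCoeff : K)) * ((∏ p ∈ S, B p) ^ e) ^ Pl.d ≤
      (∏ p ∈ S, ∏ i, Pl.W p i b) ^ e := by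
    have := Finset.prod_le_prod (s := S) (fun p hp => Finset.prod_nonneg fun i _ =>
      mul_nonneg ((Pl.W p i).nonneg _) (pow_nonneg (hB p hp).le e)) fun p hp' =>
        Finset.prod_le_prod (s := Finset.univ) (fun i _ =>
          mul_nonneg ((Pl.W p i).nonneg _) (pow_nonneg (hB p hp').le e)) fun i _ => hp p hp' i
    simpa only [Finset.prod_mul_distrib, Finset.prod_const, Finset.card_univ, Fintype.card_fin,
      Finset.prod_pow] using this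
  have hW0 : 0 ≤ ∏ p ∈ S, ∏ i, Pl.W p i b :=
    Finset.prod_nonneg fun p _ => Finset.prod_nonneg fun i _ => (Pl.W p i).nonneg _
  have hW1 : 0 ≤ ∏ p ∈ S, ∏ i, Pl.W p i (f.leadingCoeff : K) :=
    Finset.prod_nonneg fun p _ => Finset.prod_nonneg fun i _ => (Pl.W p i).nonneg _
  have h6 : ((A * ∏ p ∈ S, B p) ^ e) ^ Pl.d ≤ ((nrm1 f : ℝ) * Cc ^ e) ^ Pl.d := by
    calc _ = 1 * ((A ^ e) ^ Pl.d * ((∏ p ∈ S, B p) ^ e) ^ Pl.d) := by
          rw [one_mul, mul_pow, mul_pow]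
      _ ≤ ((∏ i, ‖Pl.φ i (f.leadingCoeff : K)‖) *
            ∏ p ∈ S, ∏ i, Pl.W p i (f.leadingCoeff : K)) *
            ((A ^ e) ^ Pl.d * ((∏ p ∈ S, B p) ^ e) ^ Pl.d) := by gcongr
      _ = ((∏ i, ‖Pl.φ i (f.leadingCoeff : K)‖) * (A ^ e) ^ Pl.d) *
            ((∏ p ∈ S, ∏ i, Pl.W p i (f.leadingCoeff : K)) *
              ((∏ p ∈ S, B p) ^ e) ^ Pl.d) := by ring
      _ ≤ ((nrm1 f : ℝ) ^ Pl.d * (∏ i, ‖Pl.φ i b‖) ^ e) * (∏ p ∈ S, ∏ i, Pl.W p i b) ^ e := by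
          gcongr
      _ = (nrm1 f : ℝ) ^ Pl.d * ((∏ i, ‖Pl.φ i b‖) * ∏ p ∈ S, ∏ i, Pl.W p i b) ^ e := by
          rw [mul_pow, mul_assoc]
      _ ≤ (nrm1 f : ℝ) ^ Pl.d * (Cc ^ Pl.d) ^ e := by gcongr
      _ = _ := by rw [mul_pow, ← pow_mul, ← pow_mul, mul_comm e]
  have h7 := le_of_pow_le_pow_left₀ Pl.d_pos.ne' (by positivity) h6
  have h8 : 0 < (A * ∏ p ∈ S, B p) ^ e := by positivity
  have h9 : (nrm1 f : ℝ) ≠ 0 := fun h => by
    rw [h, zero_mul] at h7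
    exact absurd h7 (not_le.2 h8)
  have h10 := Real.log_le_log h8 h7
  rw [Real.log_mul h9 (by positivity), Real.log_pow, Real.log_pow, Real.log_mul hA.ne' hBp.ne',
    Real.log_prod fun p hp => (hB p hp).ne'] at h10
  linarith

end Pool.Agent.P.MP_7aad9f_nt.Sz

end

section
/-! Step HTB. -/

set_option autoImplicit false

open Polynomial Finset

namespace Pool.Agent.P.MP_7aad9f_nt.Sz

theorem htb_int {K : Type} [Field K] {S : Finset ℕ} (Pl : Places K S) {p : ℕ} (hp : p ∈ S)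
    (hp' : p.Prime) (i : Fin Pl.d) {a : ℤ} (ha : a ≠ 0) :
    Pl.W p i (a : K) = (p : ℝ)⁻¹ ^ a.natAbs.factorization p := by
  have h0 : a.natAbs ≠ 0 := Int.natAbs_ne_zero.2 ha
  have h1 : Pl.W p i (a : K) = Pl.W p i ((a.natAbs : ℤ) : K) := by
    rcases Int.natAbs_eq a with h | h
    · rw [← h]
    · conv_lhs => rw [h, Int.cast_neg, AbsoluteValue.map_neg]
  have h2 := Pl.val_unit p hp i ((ordCompl[p] a.natAbs : ℕ) : ℤ)
    (fun h => Nat.not_dvd_ordCompl hp' h0 (Int.natCast_dvd_natCast.1 h))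
  rw [h1]
  conv_lhs => rw [← Nat.ordProj_mul_ordCompl_eq_self a.natAbs p]
  rw [Nat.cast_mul, Int.cast_mul, map_mul, h2, mul_one, Nat.cast_pow, Int.cast_pow, map_pow,
    Int.cast_natCast, Pl.val_p p hp i]

theorem htb_id {K : Type} [Field K] {x y : ℤ} {e : Fin 3 → K} (h : Vieta x y e) :
    dl e 0 + dl e 1 + dl e 2 = 0 ∧ dl e 0 ^ 2 + dl e 1 ^ 2 + dl e 2 ^ 2 = ((18 * x : ℤ) : K) ∧
    (dl e 0 * dl e 1 * dl e 2) ^ 2 = ((108 * (x ^ 3 - y ^ 2) : ℤ) : K) := by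
  obtain ⟨h1, h2, h3⟩ := h
  have e0 : dl e 0 = e 1 - e 2 := rfl
  have e1 : dl e 1 = e 2 - e 0 := rfl
  have e2 : dl e 2 = e 0 - e 1 := rfl
  have h4 : e 2 = -e 0 - e 1 := by linear_combination h1
  have h5 : ((108 * (x ^ 3 - y ^ 2) : ℤ) : K) = -4 * (-3 * (x : K)) ^ 3 - 27 * (2 * (y : K)) ^ 2 := by
    push_cast
    ring
  rw [h5, ← h2, ← h3, e0, e1, e2]
  refine ⟨by ring, ?_, by rw [h4]; ring⟩
  push_cast
  linear_combination 2 * (e 0 + e 1 + e 2) * h1 - 6 * h2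

theorem p_HTB (hHTA : S_HTA) : S_HTB := by
  intro K _ _ x y S Pl e M hxy hS hV hO hv hM hA
  obtain ⟨h1, h2, h3⟩ := htb_id hV
  have hk : x ^ 3 - y ^ 2 ≠ 0 := sub_ne_zero.2 hxy
  have hpr : ∀ p ∈ S, p.Prime := fun p hp => Nat.prime_of_mem_primeFactors (hS ▸ hp)
  have h4 : dl e 0 * dl e 1 * dl e 2 ≠ 0 := fun h => by
    rw [h, zero_pow two_ne_zero] at h3
    exact mul_ne_zero (by norm_num) hk (Int.cast_eq_zero.1 h3.symm)
  have h5 : dl e 1 = -(dl e 0 + dl e 2) := by linear_combination h1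
  have hp0 : ∀ p ∈ S, (1 : ℝ) ≤ p := fun p hp => by exact_mod_cast (hpr p hp).one_le
  have key := hHTA K S Pl (-dl e 0) (dl e 2) (M / 6) 11 (fun p => (p : ℝ)⁻¹ ^ 2)
    (right_ne_zero_of_mul h4) (by positivity) (by norm_num)
    (fun p hp => by have := hp0 p hp; positivity) (fun i => ?_) (fun p hp i => ?_) ?_
  · rw [neg_div] at key
    intro f n hf hd
    refine le_trans (mul_le_mul_of_nonneg_left ?_ n.cast_nonneg) (key f n hf hd)
    have e1 := Real.log_le_sub_one_of_pos (show (0 : ℝ) < 6 by norm_num)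
    have e2 := Real.log_le_sub_one_of_pos (show (0 : ℝ) < 11 by norm_num)
    rw [Real.log_div hM.ne' (by norm_num)]
    simp only [Real.log_pow, Real.log_inv, Nat.cast_ofNat, mul_neg, sum_neg_distrib, ← mul_sum]
    linarith
  · obtain ⟨s, hs⟩ := hA i
    have e1 := le_max_left ‖Pl.φ i (dl e 0)‖ ‖Pl.φ i (dl e 2)‖
    have e2 := le_max_right ‖Pl.φ i (dl e 0)‖ ‖Pl.φ i (dl e 2)‖
    have e3 : ‖Pl.φ i (dl e 1)‖ ≤ ‖Pl.φ i (dl e 0)‖ + ‖Pl.φ i (dl e 2)‖ := by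
      rw [h5, map_neg, norm_neg, map_add]
      exact norm_add_le _ _
    rw [map_neg, norm_neg]
    have e4 : s = 0 ∨ s = 1 ∨ s = 2 := by fin_cases s <;> simp
    rcases e4 with rfl | rfl | rfl <;> linarith
  · rw [AbsoluteValue.map_neg]
    set w := Pl.W p i
    set m := max (w (dl e 0)) (w (dl e 2))
    have hna := Pl.na p hp i
    have e0 : w (dl e 0) ≤ m := le_max_left _ _
    have e2 : w (dl e 2) ≤ m := le_max_right _ _
    have e1 : w (dl e 1) ≤ m := by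
      rw [h5, AbsoluteValue.map_neg]
      exact hna _ _
    have m0 : 0 ≤ m := (w.nonneg _).trans e0
    have q0 : (0 : ℝ) ≤ (p : ℝ)⁻¹ := by positivity
    have q1 : (p : ℝ)⁻¹ ≤ 1 := inv_le_one_of_one_le₀ (hp0 p hp)
    have hc : ∀ c t : ℕ, c ≠ 0 → c < 2 ^ (t + 1) → c.factorization p ≤ t := fun c t h0 h => by
      by_contra hlt
      have a1 := Nat.le_of_dvd (Nat.pos_of_ne_zero h0) (Nat.ordProj_dvd c p)
      have a2 : 2 ^ (t + 1) ≤ p ^ c.factorization p :=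
        (Nat.pow_le_pow_left (hpr p hp).two_le _).trans
          (Nat.pow_le_pow_right (hpr p hp).pos (by omega))
      omega
    by_cases hx : (p : ℤ) ∣ x
    · have a1 := htb_int Pl hp (hpr p hp) i (mul_ne_zero (show (108 : ℤ) ≠ 0 by norm_num) hk)
      rw [← h3, Int.natAbs_mul, Nat.factorization_mul (by norm_num) (Int.natAbs_ne_zero.2 hk),
        Finsupp.add_apply, map_pow, map_mul, map_mul] at a1
      have a2 := hc (108 : ℤ).natAbs 6 (by norm_num) (by norm_num)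
      have a3 := hv p hp hx
      refine le_of_pow_le_pow_left₀ (n := 6) (by norm_num) m0 ?_
      rw [← pow_mul]
      refine (pow_le_pow_of_le_one q0 q1 (by omega)).trans (a1.symm.le.trans ?_)
      have := w.nonneg (dl e 0)
      have := w.nonneg (dl e 1)
      have := w.nonneg (dl e 2)
      calc _ ≤ (m * m * m) ^ 2 := by gcongr
        _ = _ := by ring
    · have a1 := htb_int Pl hp (hpr p hp) i (show (18 : ℤ) ≠ 0 by norm_num)
      have a2 := hc (18 : ℤ).natAbs 4 (by norm_num) (by norm_num)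
      have a3 : w ((18 * x : ℤ) : K) ≤ m ^ 2 := by
        have b : ∀ s, w (dl e s) ≤ m → w (dl e s ^ 2) ≤ m ^ 2 := fun s h => by
          rw [map_pow]
          exact pow_le_pow_left₀ (w.nonneg _) h 2
        rw [← h2]
        exact (hna _ _).trans (max_le ((hna _ _).trans (max_le (b 0 e0) (b 1 e1))) (b 2 e2))
      rw [Int.cast_mul, map_mul, Pl.val_unit p hp i x hx, mul_one, a1] at a3
      refine le_of_pow_le_pow_left₀ (n := 2) (by norm_num) m0 ?_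
      rw [← pow_mul]
      exact (pow_le_pow_of_le_one q0 q1 (by omega)).trans a3
  · let N : K → ℝ := fun a => (∏ i, ‖Pl.φ i a‖) * ∏ p ∈ S, ∏ i, Pl.W p i a
    have N0 : ∀ a, 0 ≤ N a := fun a => mul_nonneg (prod_nonneg fun _ _ => norm_nonneg _)
      (prod_nonneg fun p _ => prod_nonneg fun i _ => (Pl.W p i).nonneg a)
    have Nm : ∀ a b, N (a * b) = N a * N b := fun a b => by
      simp only [N, map_mul, norm_mul, prod_mul_distrib]
      ring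
    have a1 : 1 ≤ N (dl e 0 * dl e 1) := Pl.pf _ (mul_mem (sub_mem (hO _) (hO _))
      (sub_mem (hO _) (hO _))) (left_ne_zero_of_mul h4)
    have a2 : N ((x ^ 3 - y ^ 2 : ℤ) : K) = 1 := by
      have b1 : |((x ^ 3 - y ^ 2 : ℤ) : ℝ)| =
          ∏ p ∈ S, (p : ℝ) ^ (x ^ 3 - y ^ 2).natAbs.factorization p := by
        rw [← Int.cast_abs, ← Nat.cast_natAbs, hS]
        conv_lhs => rw [← Nat.prod_factorization_pow_eq_self (Int.natAbs_ne_zero.2 hk)]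
        rw [Finsupp.prod, Nat.support_factorization, Nat.cast_prod]
        simp only [Nat.cast_pow]
      simp only [N, map_intCast, Complex.norm_intCast]
      rw [prod_congr rfl fun p hp => prod_congr rfl fun i _ => htb_int Pl hp (hpr p hp) i hk, b1]
      simp only [prod_const, prod_pow]
      rw [← mul_pow, ← prod_mul_distrib, prod_congr rfl fun p hp => by
        rw [← mul_pow, mul_inv_cancel₀ (by linarith [hp0 p hp]), one_pow]]
      simp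
    have a3 : N ((108 : ℤ) : K) ≤ 108 ^ Pl.d := by
      refine (mul_le_of_le_one_right (prod_nonneg fun _ _ => norm_nonneg _) (prod_le_one
        (fun p _ => prod_nonneg fun i _ => (Pl.W p i).nonneg _) fun p hp => prod_le_one
        (fun i _ => (Pl.W p i).nonneg _) fun i _ => (Pl.na p hp i).apply_intCast_le_one)).trans ?_
      simp only [map_intCast, Complex.norm_intCast]
      simp
    have a4 := congrArg N h3
    rw [sq, Nm, Nm _ (dl e 2), Int.cast_mul, Nm ((108 : ℤ) : K), a2, mul_one] at a4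
    refine le_of_pow_le_pow_left₀ (n := 2) (by norm_num) (by positivity) ?_
    have a5 : N (dl e 2) ≤ N (dl e 0 * dl e 1) * N (dl e 2) := le_mul_of_one_le_left (N0 _) a1
    calc N (dl e 2) ^ 2 ≤ (N (dl e 0 * dl e 1) * N (dl e 2)) ^ 2 := pow_le_pow_left₀ (N0 _) a5 2
      _ ≤ 108 ^ Pl.d := by rw [sq, a4]; exact a3
      _ ≤ (11 ^ 2) ^ Pl.d := by gcongr; norm_num
      _ = _ := by rw [← pow_mul, ← pow_mul, mul_comm]

end Pool.Agent.P.MP_7aad9f_nt.Sz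

end

section
/-! Step CFG. -/

set_option autoImplicit false

open Polynomial

namespace Pool.Agent.P.MP_7aad9f_nt.Sz

open Pool.Agent.P.MP_7aad9f_nt.Sub (Gen S_GENSEL S_OMEGA)

theorem CFG_key {x y es τ sg : ℝ} (hsg : sg = 1 ∨ sg = -1)
    (hx : 3 * x = sg * τ ^ 2 + 3 * es ^ 2 / 4) (hy : 2 * y = es * (es ^ 2 / 4 - sg * τ ^ 2)) :
    27 * |x ^ 3 - y ^ 2| = (τ * |9 * es ^ 2 / 4 - sg * τ ^ 2|) ^ 2 := by
  have h : 27 * (x ^ 3 - y ^ 2) = sg * (τ * (9 * es ^ 2 / 4 - sg * τ ^ 2)) ^ 2 := by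
    have e1 : x = (sg * τ ^ 2 + 3 * es ^ 2 / 4) / 3 := by linarith
    have e2 : y = es * (es ^ 2 / 4 - sg * τ ^ 2) / 2 := by linarith
    rw [e1, e2]; ring
  have h1 : |sg| = 1 := by rcases hsg with h | h <;> simp [h]
  have h2 : 27 * |x ^ 3 - y ^ 2| = |27 * (x ^ 3 - y ^ 2)| := by
    rw [abs_mul]; norm_num
  rw [h2, h, abs_mul, h1, one_mul, abs_of_nonneg (sq_nonneg _), mul_pow, mul_pow, sq_abs]

theorem CFG_size {x y es τ sg : ℝ} (hτ : 0 < τ) (hsg : sg = 1 ∨ sg = -1)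
    (hx : 3 * x = sg * τ ^ 2 + 3 * es ^ 2 / 4) (hy : 2 * y = es * (es ^ 2 / 4 - sg * τ ^ 2))
    (hne : x ^ 3 ≠ y ^ 2) : Real.log (max (|x| ^ 3) (y ^ 2)) ≤ 6 * Real.log (Mf es τ) := by
  have ha := abs_nonneg es
  have hM : 0 < Mf es τ := by unfold Mf; linarith
  have hM1 : |es| ≤ Mf es τ := by unfold Mf; linarith
  have hM2 : τ ^ 2 + es ^ 2 ≤ Mf es τ ^ 2 := by
    unfold Mf
    rw [← sq_abs es]
    nlinarith [mul_nonneg ha hτ.le]
  have t2 := sq_nonneg τ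
  have e2 := sq_nonneg es
  have h1 : |x| ≤ Mf es τ ^ 2 := by
    rw [abs_le]
    rcases hsg with h | h <;> rw [h] at hx <;> constructor <;> linarith
  have h2 : |y| ≤ Mf es τ ^ 3 := by
    have b : |es ^ 2 / 4 - sg * τ ^ 2| ≤ Mf es τ ^ 2 := by
      rw [abs_le]
      rcases hsg with h | h <;> rw [h] <;> constructor <;> linarith
    have b2 : |2 * y| ≤ Mf es τ * Mf es τ ^ 2 := by
      rw [hy, abs_mul]
      exact mul_le_mul hM1 b (abs_nonneg _) hM.le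
    rw [abs_mul, abs_two] at b2
    have := abs_nonneg y
    nlinarith
  have h3 : max (|x| ^ 3) (y ^ 2) ≤ Mf es τ ^ 6 := by
    refine max_le ?_ ?_
    · calc |x| ^ 3 ≤ (Mf es τ ^ 2) ^ 3 := pow_le_pow_left₀ (abs_nonneg _) h1 3
        _ = _ := by ring
    · calc y ^ 2 = |y| ^ 2 := (sq_abs y).symm
        _ ≤ (Mf es τ ^ 3) ^ 2 := pow_le_pow_left₀ (abs_nonneg _) h2 2
        _ = _ := by ring
  have h4 : 0 < max (|x| ^ 3) (y ^ 2) := by
    by_cases hy0 : y = 0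
    · have hx0 : x ≠ 0 := by
        rintro rfl
        exact hne (by simp [hy0])
      exact lt_max_of_lt_left (pow_pos (abs_pos.2 hx0) 3)
    · exact lt_max_of_lt_right (by positivity)
  calc _ ≤ Real.log (Mf es τ ^ 6) := Real.log_le_log h4 h3
    _ = _ := by rw [Real.log_pow]; norm_num

theorem CFG_lam {M τ Q k A : ℝ} (hτ : 0 < τ) (hM : 0 < M) (hQ : M ^ 2 / 9 ≤ Q)
    (hk : 27 * k = (τ * Q) ^ 2) (hA : Real.log k ≤ A) :
    3 * Real.log M - 20 ≤ Real.log (M / (2 * τ)) + A / 2 := by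
  have hQ0 : 0 < M ^ 2 / 9 := by positivity
  have hk0 : 0 < k := by
    have : 0 < (τ * Q) ^ 2 := pow_pos (mul_pos hτ (hQ0.trans_le hQ)) 2
    linarith
  have h1 : ((2 * τ) * M ^ 2) ^ 2 ≤ 2 ^ 14 * k := by
    have a1 : τ * (M ^ 2 / 9) ≤ τ * Q := mul_le_mul_of_nonneg_left hQ hτ.le
    have a2 : (τ * (M ^ 2 / 9)) ^ 2 ≤ (τ * Q) ^ 2 := pow_le_pow_left₀ (by positivity) a1 2
    have a3 : ((2 * τ) * M ^ 2) ^ 2 = 324 * (τ * (M ^ 2 / 9)) ^ 2 := by ring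
    rw [a3]
    linarith
  have h2 := Real.log_le_log (by positivity) h1
  rw [Real.log_pow, Real.log_mul (by positivity) (by positivity), Real.log_pow,
    Real.log_mul (by positivity) hk0.ne', Real.log_pow] at h2
  have h3 : Real.log 2 ≤ 2 - 1 := Real.log_le_sub_one_of_pos (by norm_num)
  rw [Real.log_div hM.ne' (by positivity)]
  push_cast at h2
  linarith

theorem CFG_W {K : Type} [Field K] (w : AbsoluteValue K ℝ) (S : Finset ℕ)
    (hS : ∀ p ∈ S, p.Prime) (r : ℕ → ℕ) {p : ℕ} (hp : p ∈ S) (h1 : w (p : K) = (p : ℝ)⁻¹)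
    (h2 : ∀ a : ℤ, ¬ (p : ℤ) ∣ a → w (a : K) = 1) :
    (p : ℝ) ^ r p * w ((∏ q ∈ S, q ^ r q : ℕ) : K) = 1 := by
  have hp' := hS p hp
  have hn : ¬ (p : ℤ) ∣ ((∏ q ∈ S.erase p, q ^ r q : ℕ) : ℤ) := by
    rw [Int.natCast_dvd_natCast, hp'.prime.dvd_finsetProd_iff]
    rintro ⟨q, hq, hd⟩
    obtain ⟨hq1, hq2⟩ := Finset.mem_erase.1 hq
    exact hq1 ((Nat.prime_dvd_prime_iff_eq hp' (hS q hq2)).1 (hp'.dvd_of_dvd_pow hd)).symm
  have h3 := h2 _ hn
  rw [Int.cast_natCast] at h3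
  have hp0 : (p : ℝ) ≠ 0 := by exact_mod_cast hp'.ne_zero
  rw [← Finset.mul_prod_erase S _ hp, Nat.cast_mul, Nat.cast_pow, map_mul, map_pow, h1, h3,
    mul_one, ← mul_pow, mul_inv_cancel₀ hp0, one_pow]

theorem CFG_big {a : Fin 3 → ℂ} {σ : Fin 3} {ι : ℂ} {es τ sg M : ℝ} (hM : 0 < M)
    (hι : ι ^ 2 = (sg : ℂ)) (h0 : a σ = (es : ℂ)) (h1 : a (σ + 1) = -(es : ℂ) / 2 + ι * τ)
    (h2 : a (σ + 2) = -(es : ℂ) / 2 - ι * τ) (hQ : M ^ 2 / 9 ≤ |9 * es ^ 2 / 4 - sg * τ ^ 2|) :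
    ∃ s, M / 3 ≤ ‖dl a s‖ := by
  obtain ⟨f1, f2, f3, f4⟩ := (by decide : ∀ s : Fin 3,
    s + 1 + 1 = s + 2 ∧ s + 1 + 2 = s ∧ s + 2 + 1 = s ∧ s + 2 + 2 = s + 1) σ
  have e : dl a (σ + 1) * dl a (σ + 2) = -((9 * es ^ 2 / 4 - sg * τ ^ 2 : ℝ) : ℂ) := by
    unfold dl
    rw [f1, f2, f3, f4, h0, h1, h2]
    push_cast
    linear_combination (τ : ℂ) ^ 2 * hι
  have e' : ‖dl a (σ + 1)‖ * ‖dl a (σ + 2)‖ = |9 * es ^ 2 / 4 - sg * τ ^ 2| := by
    rw [← norm_mul, e, norm_neg, Complex.norm_real, Real.norm_eq_abs]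
  by_contra hc
  push Not at hc
  have := mul_lt_mul'' (hc (σ + 1)) (hc (σ + 2)) (norm_nonneg _) (norm_nonneg _)
  rw [e'] at this
  linarith

theorem p_CFG (hPF : S_PF) (hSETA : S_SETA) (hSETB : S_SETB) (hLOC : S_LOC) (hARCH : S_ARCH) (hHTB : S_HTB) :
    S_CFG := by
  intro x y hxy hP
  have hk : x ^ 3 - y ^ 2 ≠ 0 := sub_ne_zero.2 hxy
  have hS : ∀ p ∈ (x ^ 3 - y ^ 2).natAbs.primeFactors, p.Prime := fun p hp =>
    Nat.prime_of_mem_primeFactors hp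
  obtain ⟨K, _, _, e, Pl, hV, he⟩ := hPF x y _ hS
  obtain ⟨c, hc⟩ := hSETA x y hxy
  obtain ⟨hB1, hB2, hB3, hB4⟩ := hSETB x y _ rfl hk hP
  obtain ⟨es, τ, sg, hτ, hsg, hx, hy, hQ, hA⟩ := hARCH x y hxy
  have hM : 0 < Mf es τ := by
    have := abs_nonneg es
    unfold Mf; linarith
  have hmr : 0 < mrf x y (x ^ 3 - y ^ 2) :=
    Finset.prod_pos fun p hp => pow_pos (hS p hp).pos _
  have hmr' : (0 : ℝ) < mrf x y (x ^ 3 - y ^ 2) := by exact_mod_cast hmr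
  have hloc : ∀ (p : ℕ) (i : Fin Pl.d), ∃ σ : Fin 3, p ∈ (x ^ 3 - y ^ 2).natAbs.primeFactors →
      LocP (Pl.W p i) e c (mrf x y (x ^ 3 - y ^ 2))
        (Real.exp (-(nf x (x ^ 3 - y ^ 2) p * Real.log p / 2))) σ := by
    intro p i
    by_cases hp : p ∈ (x ^ 3 - y ^ 2).natAbs.primeFactors
    swap
    · exact ⟨0, fun h => absurd h hp⟩
    have hp' := hS p hp
    obtain ⟨σ, hσ⟩ := hLOC K (Pl.W p i) p x y c ((x ^ 3 - y ^ 2).natAbs.factorization p)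
      (nf x (x ^ 3 - y ^ 2) p) (rf x y (x ^ 3 - y ^ 2) p) (mrf x y (x ^ 3 - y ^ 2)) e hp'
      (Pl.na p hp i) (Pl.val_p p hp i) (Pl.val_unit p hp i) hV
      (CFG_W _ _ hS _ hp (Pl.val_p p hp i) (Pl.val_unit p hp i)) (by
        by_cases hpx : (p : ℤ) ∣ x
        · right
          refine ⟨hpx, (hc p hp).1 hpx, by simp only [nf, if_pos hpx], ?_⟩
          by_cases hpy : (p : ℤ) ^ 2 ∣ y
          · right; exact ⟨by simp only [rf, if_pos hpx, if_pos hpy], hpy⟩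
          · left; simp only [rf, if_pos hpx, if_neg hpy]
        · left
          obtain ⟨c1, c2, c3⟩ := (hc p hp).2 hpx
          refine ⟨c1, c2, c3, ?_, ?_⟩
          · simp only [rf, if_neg hpx]; omega
          · simp only [nf, if_neg hpx]
            split_ifs with h3
            · omega
            · right; right
              refine ⟨?_, le_rfl⟩
              have h4 : p ≠ 4 := by
                rintro rfl
                exact absurd hp' (by decide)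
              omega)
    exact ⟨σ, fun _ => hσ⟩
  choose σ hσ using hloc
  have hVi : ∀ i, Vieta x y fun s => Pl.φ i (e s) := by
    intro i
    obtain ⟨v1, v2, v3⟩ := hV
    refine ⟨?_, ?_, ?_⟩
    · simpa using congrArg (Pl.φ i) v1
    · simpa [map_ofNat] using congrArg (Pl.φ i) v2
    · simpa [map_ofNat] using congrArg (Pl.φ i) v3
  choose σa ι i1 i2 i3 i4 i5 using fun i => hA _ (hVi i)
  have hkey := CFG_key hsg hx hy
  have hcast : ((x ^ 3 - y ^ 2 : ℤ) : ℝ) = (x : ℝ) ^ 3 - (y : ℝ) ^ 2 := by push_cast; ring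
  rw [← hcast] at hkey
  have hV0 : 0 ≤ Vf es τ sg (mrf x y (x ^ 3 - y ^ 2)) := by
    unfold Vf; positivity
  have hV2 : Vf es τ sg (mrf x y (x ^ 3 - y ^ 2)) ^ 2 * (mrf x y (x ^ 3 - y ^ 2) : ℝ) ^ 2 =
      27 * |((x ^ 3 - y ^ 2 : ℤ) : ℝ)| := by
    rw [hkey, ← mul_pow]
    unfold Vf
    rw [div_mul_cancel₀ _ hmr'.ne']
  have hm2 : (0 : ℝ) < (mrf x y (x ^ 3 - y ^ 2) : ℝ) ^ 2 := pow_pos hmr' 2
  have hD : 0 ≤ Df x (x ^ 3 - y ^ 2) := by
    refine Finset.prod_nonneg fun p _ => ?_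
    split_ifs <;> positivity
  refine ⟨K, inferInstance, inferInstance,
    { S := (x ^ 3 - y ^ 2).natAbs.primeFactors
      prime := hS
      Pl := Pl
      e := e
      e_mem := he
      e_sum := hV.1
      c := c
      mr := mrf x y (x ^ 3 - y ^ 2)
      mr_pos := hmr
      mr_mem := ?_
      n := nf x (x ^ 3 - y ^ 2)
      c_unit := ?_
      σ := σ
      loc := fun p hp i => hσ p i hp
      es := es
      τ := τ
      sg := sg
      τ_pos := hτ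
      sg_pm := hsg
      σa := σa
      ι := ι
      ι_norm := i1
      ι_sq := i2
      arch0 := i3
      arch1 := i4
      arch2 := i5
      η := 2 * ∑ p ∈ (x ^ 3 - y ^ 2).natAbs.primeFactors, Real.log p + 20
      lam_lb := ?_
      ht := ?_
      V_ge := ?_ }, rfl, rfl, ?_, ?_⟩
  · unfold mrf
    rw [Nat.cast_prod, ← Finset.prod_inv_distrib]
    refine Subring.prod_mem _ fun p hp => ?_
    rw [Nat.cast_pow, ← inv_pow]
    exact Subring.pow_mem _ (Pl.inv_mem p hp) _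
  · intro p hp hn
    have hpx : ¬ (p : ℤ) ∣ x := by
      intro h
      simp only [nf, if_pos h] at hn
      exact lt_irrefl _ hn
    exact ((hc p hp).2 hpx).1
  · have := CFG_lam hτ hM hQ hkey hB2
    rw [← Finset.sum_div]
    linarith
  · refine hHTB K x y _ Pl e _ hxy rfl hV he hB1 hM fun i => ?_
    obtain ⟨s, hs⟩ := CFG_big (a := fun s => Pl.φ i (e s)) hM (i2 i) (i3 i) (i4 i) (i5 i) hQ
    refine ⟨s, ?_⟩
    unfold dl at hs ⊢
    rw [map_sub]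
    exact hs
  · have h1 : 1 * (mrf x y (x ^ 3 - y ^ 2) : ℝ) ^ 2 ≤
        Vf es τ sg (mrf x y (x ^ 3 - y ^ 2)) ^ 2 * (mrf x y (x ^ 3 - y ^ 2) : ℝ) ^ 2 := by
      rw [hV2]; linarith
    have h2 := le_of_mul_le_mul_right h1 hm2
    exact (one_le_sq_iff₀ hV0).1 h2
  · show Vf es τ sg (mrf x y (x ^ 3 - y ^ 2)) ≤ _
    have h1 : Vf es τ sg (mrf x y (x ^ 3 - y ^ 2)) ^ 2 * (mrf x y (x ^ 3 - y ^ 2) : ℝ) ^ 2 ≤
        (250000 * Df x (x ^ 3 - y ^ 2)) * (mrf x y (x ^ 3 - y ^ 2) : ℝ) ^ 2 := by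
      rw [hV2]
      have := mul_nonneg hD hm2.le
      linarith
    have h2 := le_of_mul_le_mul_right h1 hm2
    refine (pow_le_pow_iff_left₀ hV0 (by positivity) two_ne_zero).1 ?_
    rw [mul_pow, Real.sq_sqrt hD]
    linarith
  · refine CFG_size hτ hsg hx hy fun h => hxy ?_
    exact_mod_cast h

end Pool.Agent.P.MP_7aad9f_nt.Sz

end

section
/-! Step FINAL. -/

set_option autoImplicit false

open Polynomial

namespace Pool.Agent.P.MP_7aad9f_nt.Sz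

open Pool.Agent.P.MP_7aad9f_nt.Sub (Gen S_GENSEL S_OMEGA)

/-- The radical, as a real number. -/
noncomputable def FINAL_R (k : ℤ) : ℝ := ∏ p ∈ k.natAbs.primeFactors, (p : ℝ)

theorem FINAL_one_le {k p : ℕ} (hp : p ∈ k.primeFactors) : (1 : ℝ) ≤ p := by
  exact_mod_cast (Nat.prime_of_mem_primeFactors hp).one_le

theorem FINAL_fac_le (x : ℤ) (n : ℕ) {p : ℕ} (hp : (1 : ℝ) ≤ p) :
    (1 : ℝ) ≤ (if (p : ℤ) ∣ x then (p : ℝ) ^ 2 else if Odd n then (p : ℝ) else 1) ∧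
    (if (p : ℤ) ∣ x then (p : ℝ) ^ 2 else if Odd n then (p : ℝ) else 1) ≤ (p : ℝ) ^ 2 := by
  split_ifs <;> constructor <;> nlinarith

theorem FINAL_D_le (x k : ℤ) : Df x k ≤ FINAL_R k ^ 2 := by
  rw [Df, FINAL_R, ← Finset.prod_pow]
  exact Finset.prod_le_prod (fun p hp => zero_le_one.trans (FINAL_fac_le x _ (FINAL_one_le hp)).1)
    fun p hp => (FINAL_fac_le x _ (FINAL_one_le hp)).2

theorem FINAL_R_pos (k : ℤ) : 0 < FINAL_R k :=
  Finset.prod_pos fun _ hp => zero_lt_one.trans_le (FINAL_one_le hp)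

theorem FINAL_prim (hCFG : S_CFG) (hMAINC : S_MAINC) (ε : ℝ) (hε : 0 < ε) :
    ∃ K : ℝ, 0 ≤ K ∧ ∀ x y : ℤ, x ^ 3 ≠ y ^ 2 → Prim x y →
      Real.log (max (|(x : ℝ)| ^ 3) ((y : ℝ) ^ 2)) ≤
        K * √(Df x (x ^ 3 - y ^ 2)) * FINAL_R (x ^ 3 - y ^ 2) ^ ε := by
  obtain ⟨K0, hK0⟩ := hMAINC ε hε
  refine ⟨3000 * max K0 0, by positivity, fun x y hxy hp => ?_⟩
  obtain ⟨K, _, _, C, hS, hη, hV, hH⟩ := hCFG x y hxy hp
  have hR := FINAL_R_pos (x ^ 3 - y ^ 2)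
  have hL : Real.exp C.L = FINAL_R (x ^ 3 - y ^ 2) := by
    rw [Cfg.L, Real.exp_sum, hS, FINAL_R]
    exact Finset.prod_congr rfl fun p hp => Real.exp_log (zero_lt_one.trans_le (FINAL_one_le hp))
  have hD : √(Df x (x ^ 3 - y ^ 2)) ≤ FINAL_R (x ^ 3 - y ^ 2) :=
    Real.sqrt_le_iff.2 ⟨hR.le, FINAL_D_le _ _⟩
  have h1 := hK0 K C hη.le (by rw [hL]; linarith)
  have h2 : Real.exp (ε * C.L) = FINAL_R (x ^ 3 - y ^ 2) ^ ε := by
    rw [← hL, ← Real.exp_mul, mul_comm]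
  rw [h2] at h1
  have hV1 : 0 ≤ C.V := zero_le_one.trans C.V_ge
  have hE : 0 ≤ FINAL_R (x ^ 3 - y ^ 2) ^ ε := Real.rpow_nonneg hR.le _
  have h3 : K0 * C.V ≤ max K0 0 * (500 * √(Df x (x ^ 3 - y ^ 2))) :=
    mul_le_mul (le_max_left _ _) hV hV1 (le_max_right _ _)
  have h4 := mul_le_mul_of_nonneg_right h3 hE
  linarith

theorem FINAL_sub {p : ℕ} (hp : p.Prime) {k : ℤ} (hk : k ≠ 0) :
    k.natAbs.primeFactors ⊆ ((p : ℤ) ^ 6 * k).natAbs.primeFactors :=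
  Nat.primeFactors_mono (by rw [Int.natAbs_mul]; exact dvd_mul_left _ _)
    (Int.natAbs_ne_zero.2 (mul_ne_zero (pow_ne_zero _ (by exact_mod_cast hp.ne_zero)) hk))

theorem FINAL_R_mono {p : ℕ} (hp : p.Prime) {k : ℤ} (hk : k ≠ 0) :
    FINAL_R k ≤ FINAL_R ((p : ℤ) ^ 6 * k) :=
  Finset.prod_le_prod_of_subset_of_one_le (FINAL_sub hp hk) (fun _ _ => Nat.cast_nonneg _)
    fun _ h _ => FINAL_one_le h

theorem FINAL_D_mono {p : ℕ} (hp : p.Prime) (x : ℤ) {k : ℤ} (hk : k ≠ 0) :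
    Df x k ≤ Df ((p : ℤ) ^ 2 * x) ((p : ℤ) ^ 6 * k) := by
  refine le_trans (Finset.prod_le_prod
    (fun q hq => zero_le_one.trans (FINAL_fac_le x _ (FINAL_one_le hq)).1) fun q hq => ?_)
    (Finset.prod_le_prod_of_subset_of_one_le (FINAL_sub hp hk)
      (fun q hq => zero_le_one.trans (FINAL_fac_le _ _ (FINAL_one_le hq)).1)
      fun q h _ => (FINAL_fac_le _ _ (FINAL_one_le h)).1)
  by_cases h1 : (q : ℤ) ∣ (p : ℤ) ^ 2 * x
  · rw [if_pos h1]; exact (FINAL_fac_le x _ (FINAL_one_le hq)).2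
  · have h2 : ¬(q : ℤ) ∣ x := fun h => h1 (h.mul_left _)
    have h3 : q ≠ p := by
      rintro rfl
      exact h1 ((dvd_pow_self _ two_ne_zero).mul_right _)
    have h4 : ((p : ℤ) ^ 6 * k).natAbs.factorization q = k.natAbs.factorization q := by
      rw [Int.natAbs_mul, Int.natAbs_pow, Int.natAbs_natCast,
        Nat.factorization_mul (pow_ne_zero _ hp.ne_zero) (Int.natAbs_ne_zero.2 hk),
        hp.factorization_pow, Finsupp.add_apply, Finsupp.single_eq_of_ne h3, zero_add]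
    rw [if_neg h1, if_neg h2, h4]

theorem p_FINAL (hCFG : S_CFG) (hMAINC : S_MAINC) :
    S_FINAL := by
  intro ε hε
  obtain ⟨K, hK, h⟩ := FINAL_prim hCFG hMAINC ε hε
  refine ⟨K, fun x y hxy => ?_⟩
  change _ ≤ _ + K * √(Df x (x ^ 3 - y ^ 2)) * FINAL_R (x ^ 3 - y ^ 2) ^ ε
  induction hn : (x ^ 3 - y ^ 2).natAbs using Nat.strong_induction_on generalizing x y with
  | _ n ih =>
  by_cases hp : Prim x y
  · have := h x y hxy hp
    have h0 := Real.log_natCast_nonneg (Int.gcd (x ^ 3) (y ^ 2))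
    linarith
  · simp only [Prim, not_forall, not_not] at hp
    obtain ⟨p, hp, ⟨x, rfl⟩, ⟨y, rfl⟩⟩ := hp
    have e1 : ((p : ℤ) ^ 2 * x) ^ 3 = (p : ℤ) ^ 6 * x ^ 3 := by ring
    have e2 : ((p : ℤ) ^ 3 * y) ^ 2 = (p : ℤ) ^ 6 * y ^ 2 := by ring
    have hxy' : x ^ 3 ≠ y ^ 2 := fun e => hxy (by rw [e1, e2, e])
    have hk : x ^ 3 - y ^ 2 ≠ 0 := sub_ne_zero.2 hxy'
    rw [e1, e2, ← mul_sub] at hn ⊢
    have hlt : (x ^ 3 - y ^ 2).natAbs < n := by
      rw [← hn, Int.natAbs_mul, Int.natAbs_pow, Int.natAbs_natCast]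
      exact lt_mul_of_one_lt_left (Int.natAbs_pos.2 hk) (Nat.one_lt_pow (by norm_num) hp.one_lt)
    have h1 := ih _ hlt x y hxy' rfl
    have hp0 : (0 : ℝ) < p := Nat.cast_pos.2 hp.pos
    have hm : (0 : ℝ) < max (|(x : ℝ)| ^ 3) ((y : ℝ) ^ 2) := by
      by_cases hx : x = 0
      · have hy : y ≠ 0 := by rintro rfl; exact hxy' (by rw [hx]; norm_num)
        exact lt_max_of_lt_right (by positivity)
      · exact lt_max_of_lt_left (by positivity)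
    have hg : (0 : ℝ) < Int.gcd (x ^ 3) (y ^ 2) := by
      refine Nat.cast_pos.2 (Int.gcd_pos_iff.2 (by_contra fun hh => hxy' ?_))
      simp only [not_or, not_not] at hh
      rw [hh.1, hh.2]
    have e3 : max (|(((p : ℤ) ^ 2 * x : ℤ) : ℝ)| ^ 3) ((((p : ℤ) ^ 3 * y : ℤ) : ℝ) ^ 2) =
        (p : ℝ) ^ 6 * max (|(x : ℝ)| ^ 3) ((y : ℝ) ^ 2) := by
      rw [mul_max_of_nonneg _ _ (by positivity)]
      push_cast
      rw [abs_mul, abs_of_nonneg (by positivity : (0 : ℝ) ≤ (p : ℝ) ^ 2)]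
      congr 1 <;> ring
    have e4 : (Int.gcd ((p : ℤ) ^ 6 * x ^ 3) ((p : ℤ) ^ 6 * y ^ 2) : ℝ) =
        (p : ℝ) ^ 6 * Int.gcd (x ^ 3) (y ^ 2) := by
      rw [Int.gcd_mul_left, Int.natAbs_pow, Int.natAbs_natCast]; push_cast; rfl
    rw [e3, e4, Real.log_mul (by positivity) hm.ne', Real.log_mul (by positivity) hg.ne']
    have h2 : K * √(Df x (x ^ 3 - y ^ 2)) * FINAL_R (x ^ 3 - y ^ 2) ^ ε ≤
        K * √(Df ((p : ℤ) ^ 2 * x) ((p : ℤ) ^ 6 * (x ^ 3 - y ^ 2))) *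
          FINAL_R ((p : ℤ) ^ 6 * (x ^ 3 - y ^ 2)) ^ ε :=
      mul_le_mul (mul_le_mul_of_nonneg_left (Real.sqrt_le_sqrt (FINAL_D_mono hp x hk)) hK)
        (Real.rpow_le_rpow (FINAL_R_pos _).le (FINAL_R_mono hp hk) hε.le)
        (Real.rpow_nonneg (FINAL_R_pos _).le _) (by positivity)
    linarith

end Pool.Agent.P.MP_7aad9f_nt.Sz

end
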