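import Pool.Agent.P.MP_7aad9f_nt.Sz.If

section
/-! Step LB. -/

set_option autoImplicit false

open Polynomial

namespace Pool.Agent.P.MP_7aad9f_nt.Sz

open Pool.Agent.P.MP_7aad9f_nt.Sub (Gen S_GENSEL S_OMEGA)
open MeasureTheory Submodule
open scoped ENNReal

theorem LB_main (b : Module.Basis (Fin 3) ℝ (Fin 3 → ℝ)) (B : ℝ) (hB : 0 < B) :
    ∃ P : Finset (span ℤ (Set.range b)), (∀ g ∈ P, ‖(g : Fin 3 → ℝ)‖ ≤ B) ∧
      B ^ 3 ≤ |(Matrix.of b).det| * P.card := by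
  classical
  have hfin : {g : span ℤ (Set.range b) | ‖(g : Fin 3 → ℝ)‖ ≤ B}.Finite := by
    refine Set.Finite.of_finite_image (f := Subtype.val) ?_ Subtype.val_injective.injOn
    refine (ZSpan.setFinite_inter b (Metric.isBounded_closedBall (x := 0) (r := B))).subset ?_
    rintro _ ⟨g, hg, rfl⟩
    exact ⟨by simpa using hg, g.2⟩
  refine ⟨hfin.toFinset, fun g hg => by simpa using hg, ?_⟩
  set A : Set (Fin 3 → ℝ) := Metric.closedBall 0 (B / 2) with hA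
  have hAm : MeasurableSet A := Metric.isClosed_closedBall.measurableSet
  have h1 : volume A = ENNReal.ofReal (B ^ 3) := by
    rw [hA, Real.volume_pi_closedBall _ (by positivity)]
    congr 1
    simp only [Fintype.card_fin]
    ring
  have : Countable (span ℤ (Set.range b)).toAddSubgroup :=
    inferInstanceAs (Countable (span ℤ (Set.range b)))
  have hF := ZSpan.isAddFundamentalDomain' b (volume : Measure (Fin 3 → ℝ))
  have h2 := hF.lintegral_eq_tsum'' (A.indicator fun _ => (1 : ℝ≥0∞))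
  have hm : ∀ g : (span ℤ (Set.range b)).toAddSubgroup, AEMeasurable
      (fun x : Fin 3 → ℝ => A.indicator (fun _ => (1 : ℝ≥0∞)) (g +ᵥ x))
      (volume.restrict (ZSpan.fundamentalDomain b)) := fun g =>
    ((measurable_const.indicator hAm).comp (measurable_const_vadd g)).aemeasurable
  rw [lintegral_indicator_const hAm, one_mul, h1, ← lintegral_tsum hm] at h2
  have h3 : ∀ x : Fin 3 → ℝ, ∑' g : (span ℤ (Set.range b)).toAddSubgroup,
      A.indicator (fun _ => (1 : ℝ≥0∞)) (g +ᵥ x) ≤ hfin.toFinset.card := by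
    intro x
    by_cases h : ∃ g : (span ℤ (Set.range b)).toAddSubgroup, g +ᵥ x ∈ A
    · obtain ⟨g0, h0⟩ := h
      rw [tsum_eq_sum (s := hfin.toFinset.image fun g => g + g0)]
      · refine (Finset.sum_le_card_nsmul _ _ 1 fun g _ => ?_).trans ?_
        · exact Set.indicator_le' (fun _ _ => le_rfl) (fun _ _ => zero_le) _
        · rw [nsmul_eq_mul, mul_one, Nat.cast_le]
          exact Finset.card_image_le
      · intro g hg
        refine Set.indicator_of_notMem (fun hm => hg ?_) _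
        refine Finset.mem_image.2 ⟨g - g0, ?_, sub_add_cancel g g0⟩
        simp only [hA, mem_closedBall_zero_iff] at hm h0
        have e : ((g - g0 : (span ℤ (Set.range b)).toAddSubgroup) : Fin 3 → ℝ) =
            (g +ᵥ x) - (g0 +ᵥ x) := by
          simp [AddSubgroup.vadd_def]
        refine hfin.mem_toFinset.2 ?_
        show ‖((g - g0 : (span ℤ (Set.range b)).toAddSubgroup) : Fin 3 → ℝ)‖ ≤ B
        rw [e]
        exact (norm_sub_le _ _).trans (by linarith)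
    · push Not at h
      simp [Set.indicator_of_notMem (h _)]
  have h4 : ENNReal.ofReal (B ^ 3) ≤ hfin.toFinset.card * ENNReal.ofReal |(Matrix.of b).det| := by
    rw [h2, ← ZSpan.volume_fundamentalDomain, ← setLIntegral_const]
    exact lintegral_mono h3
  rw [← ENNReal.ofReal_natCast, ← ENNReal.ofReal_mul (by positivity),
    ENNReal.ofReal_le_ofReal_iff (by positivity)] at h4
  linarith

theorem p_LB :
    S_LB := by
  classical
  intro T B hT hB
  have hi : Invertible T := T.invertibleOfIsUnitDet (isUnit_iff_ne_zero.2 hT)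
  set b := (Pi.basisFun ℝ (Fin 3)).map (T.toLinearEquiv' hi) with hb
  have hbi : ∀ i j, b i j = T j i := by
    intro i j
    simp [hb, Matrix.toLinearEquiv']
  have hd : (Matrix.of b).det = T.det := by
    rw [← Matrix.det_transpose T]
    congr 1
    ext i j
    exact hbi i j
  obtain ⟨P, h1, h2⟩ := LB_main b B hB
  refine ⟨P.image (b.restrictScalars ℤ).equivFun, fun n hn => ?_, ?_⟩
  · obtain ⟨g, hg, rfl⟩ := Finset.mem_image.1 hn
    have e : Yv T ((b.restrictScalars ℤ).equivFun g) = g := by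
      funext j
      have e1 := congrFun (b.sum_repr (g : Fin 3 → ℝ)) j
      have e2 := fun i => b.restrictScalars_repr_apply ℤ g i
      simp only [eq_intCast] at e2
      simp only [Finset.sum_apply, Pi.smul_apply, smul_eq_mul, hbi, ← e2] at e1
      rw [← e1]
      simp [Yv, Matrix.mulVec, dotProduct, mul_comm]
    rw [e]
    exact h1 g hg
  · rw [Finset.card_image_of_injective _ (LinearEquiv.injective _), ← hd]
    exact h2

end Pool.Agent.P.MP_7aad9f_nt.Sz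

end

section
/-! Step CNT. -/

set_option autoImplicit false

open Polynomial

namespace Pool.Agent.P.MP_7aad9f_nt.Sz

open Pool.Agent.P.MP_7aad9f_nt.Sub (Gen S_GENSEL S_OMEGA)

theorem CNT_sep {α : Type} (P : Finset α) (f : α → ℝ) {A l N : ℝ} (hl : 0 < l) (hA0 : 0 ≤ A)
    (hN0 : 0 ≤ N) (hA : ∀ a ∈ P, |f a| ≤ A)
    (hs : ∀ a ∈ P, ∀ b ∈ P, f a ≠ f b → l ≤ |f a - f b|)
    (hN : ∀ Q ⊆ P, (∀ a ∈ Q, ∀ b ∈ Q, f a = f b) → (Q.card : ℝ) ≤ N) :
    (P.card : ℝ) ≤ (2 * A / l + 1) * N := by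
  classical
  have h1 : (P.image f).card ≤ (Finset.range (⌊2 * A / l⌋₊ + 1)).card := by
    refine Finset.card_le_card_of_injOn (fun y => ⌊(y + A) / l⌋₊) (fun y hy => ?_)
      (fun y hy y' hy' e => ?_)
    · obtain ⟨a, ha, rfl⟩ := Finset.mem_image.1 (Finset.mem_coe.1 hy)
      have := abs_le.1 (hA a ha)
      exact Finset.mem_coe.2 (Finset.mem_range.2 (Nat.lt_succ_of_le (Nat.floor_mono
        (div_le_div_of_nonneg_right (by linarith) hl.le))))
    · obtain ⟨a, ha, rfl⟩ := Finset.mem_image.1 (Finset.mem_coe.1 hy)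
      obtain ⟨b, hb, rfl⟩ := Finset.mem_image.1 (Finset.mem_coe.1 hy')
      by_contra hne
      have h2 := hs a ha b hb hne
      have a1 := Nat.floor_le (div_nonneg (by linarith [abs_le.1 (hA a ha)] : 0 ≤ f a + A) hl.le)
      have a2 := Nat.floor_le (div_nonneg (by linarith [abs_le.1 (hA b hb)] : 0 ≤ f b + A) hl.le)
      have a3 := Nat.lt_floor_add_one ((f a + A) / l)
      have a4 := Nat.lt_floor_add_one ((f b + A) / l)
      dsimp only at e
      rw [e] at a1 a3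
      rw [le_div_iff₀ hl] at a1 a2
      rw [div_lt_iff₀ hl] at a3 a4
      exact absurd h2 (not_le.2 (abs_lt.2 ⟨by linarith, by linarith⟩))
  have h2 : ((P.image f).card : ℝ) ≤ 2 * A / l + 1 := by
    rw [Finset.card_range] at h1
    have := Nat.floor_le (show 0 ≤ 2 * A / l by positivity)
    have h3 : ((P.image f).card : ℝ) ≤ (⌊2 * A / l⌋₊ + 1 : ℕ) := by exact_mod_cast h1
    push_cast at h3
    linarith
  rw [Finset.card_eq_sum_card_image f P]
  push_cast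
  refine (Finset.sum_le_card_nsmul _ _ N fun y _ => hN _ (Finset.filter_subset _ _)
    fun a ha b hb => ((Finset.mem_filter.1 ha).2).trans (Finset.mem_filter.1 hb).2.symm).trans ?_
  rw [nsmul_eq_mul]
  exact mul_le_mul_of_nonneg_right h2 hN0

theorem CNT_par {α : Type} (P : Finset α) (f : α → Fin 3 → ℝ) {w : Fin 3 → ℝ} (hw : w ≠ 0)
    {A l N : ℝ} (hl : 0 < l) (hA0 : 0 ≤ A) (hN0 : 0 ≤ N) (hA : ∀ a ∈ P, ‖f a‖ ≤ A)
    (hp : ∀ a ∈ P, ∀ b ∈ P, crossProduct w (f a - f b) = 0)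
    (hs : ∀ a ∈ P, ∀ b ∈ P, f a ≠ f b → l ≤ ‖f a - f b‖)
    (hN : ∀ Q ⊆ P, (∀ a ∈ Q, ∀ b ∈ Q, f a = f b) → (Q.card : ℝ) ≤ N) :
    (P.card : ℝ) ≤ (2 * A / l + 1) * N := by
  obtain ⟨s, -, h1⟩ := Finset.exists_max_image Finset.univ (fun s => ‖w s‖) Finset.univ_nonempty
  have h2 : ‖w‖ = ‖w s‖ := le_antisymm
    ((pi_norm_le_iff_of_nonneg (norm_nonneg _)).2 fun i => h1 i (Finset.mem_univ i))
    (norm_le_pi_norm w s)
  have h3 : ∀ a ∈ P, ∀ b ∈ P, ‖f a - f b‖ = |f a s - f b s| := fun a ha b hb => by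
    have h4 : ¬ LinearIndependent ℝ ![w, f a - f b] := fun h =>
      crossProduct_ne_zero_iff_linearIndependent.2 h (hp a ha b hb)
    rw [LinearIndependent.pair_iff' hw] at h4
    push Not at h4
    obtain ⟨r, hr⟩ := h4
    rw [← Pi.sub_apply, ← hr, norm_smul, h2, ← norm_smul]
    rfl
  refine CNT_sep P (fun a => f a s) hl hA0 hN0
    (fun a ha => (norm_le_pi_norm (f a) s).trans (hA a ha)) (fun a ha b hb hne => ?_)
    (fun Q hQ h => hN Q hQ fun a ha b hb => ?_)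
  · rw [← h3 a ha b hb]
    exact hs a ha b hb fun e => hne (by rw [e])
  · rw [← sub_eq_zero, ← norm_eq_zero, h3 a (hQ ha) b (hQ hb), h a ha b hb, sub_self, abs_zero]

theorem CNT_mul (a b : Fin 3 → ℝ) (i j : Fin 3) : |a i * b j| ≤ ‖a‖ * ‖b‖ := by
  rw [abs_mul]
  exact mul_le_mul (norm_le_pi_norm a i) (norm_le_pi_norm b j) (abs_nonneg _) (norm_nonneg _)

theorem CNT_cross (a b : Fin 3 → ℝ) : ‖crossProduct a b‖ ≤ 2 * (‖a‖ * ‖b‖) := by
  have h : ∀ i j k l, |a i * b j - a k * b l| ≤ 2 * (‖a‖ * ‖b‖) := fun i j k l => by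
    linarith [abs_sub (a i * b j) (a k * b l), CNT_mul a b i j, CNT_mul a b k l]
  refine (pi_norm_le_iff_of_nonneg (by positivity)).2 fun i => ?_
  fin_cases i <;> simpa [cross_apply] using h _ _ _ _

theorem CNT_dot (a b : Fin 3 → ℝ) : |a ⬝ᵥ b| ≤ 3 * (‖a‖ * ‖b‖) := by
  refine (Finset.abs_sum_le_sum_abs _ _).trans ?_
  rw [Fin.sum_univ_three]
  linarith [CNT_mul a b 0 0, CNT_mul a b 1 1, CNT_mul a b 2 2]

theorem p_CNT :
    S_CNT := by
  classical
  intro P t l1 l2 V h1 h2 hV ht hP hl hc hd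
  have p1 : 0 ≤ 192 * t ^ 3 / V := by positivity
  have p2 : 0 ≤ 16 * t ^ 2 / l2 := by positivity
  have p3 : 0 ≤ 2 * t / l1 := by positivity
  have hdiff : ∀ a ∈ P, ∀ b ∈ P, ‖a - b‖ ≤ 2 * t := fun a ha b hb => by
    linarith [norm_sub_le a b, hP a ha, hP b hb]
  rcases (P ×ˢ P |>.filter fun z => z.1 ≠ z.2).eq_empty_or_nonempty with he | hne
  · have : P.card ≤ 1 := Finset.card_le_one.2 fun a ha b hb => by_contra fun h =>
      Finset.filter_eq_empty_iff.1 he (Finset.mem_product.2 (⟨ha, hb⟩ : (a, b).1 ∈ P ∧ _)) h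
    have : (P.card : ℝ) ≤ 1 := by exact_mod_cast this
    linarith
  obtain ⟨z, hz, hmin⟩ := Finset.exists_min_image _ (fun z => ‖z.1 - z.2‖) hne
  obtain ⟨⟨z1, z2⟩, z3⟩ : (z.1 ∈ P ∧ z.2 ∈ P) ∧ z.1 ≠ z.2 := by simpa using hz
  set v := z.1 - z.2 with hv
  have hv0 : v ≠ 0 := sub_ne_zero.2 z3
  have hl0 : 0 < ‖v‖ := norm_pos_iff.2 hv0
  have hz1 : 2 * t / ‖v‖ ≤ 2 * t / l1 :=
    div_le_div_of_nonneg_left (by positivity) h1 (hl _ z1 _ z2 z3)
  have line : ∀ Q ⊆ P, (∀ a ∈ Q, ∀ b ∈ Q, crossProduct v a = crossProduct v b) →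
      (Q.card : ℝ) ≤ (2 * t / ‖v‖ + 1) * 1 := fun Q hQ h =>
    CNT_par Q id hv0 hl0 ht zero_le_one (fun a ha => hP a (hQ ha))
      (fun a ha b hb => by rw [map_sub]; exact sub_eq_zero.2 (h a ha b hb))
      (fun a ha b hb hab => hmin (a, b) (by simpa using ⟨⟨hQ ha, hQ hb⟩, hab⟩))
      (fun Q' _ h' => by exact_mod_cast Finset.card_le_one.2 h')
  rcases (P ×ˢ P |>.filter fun z => crossProduct v (z.1 - z.2) ≠ 0).eq_empty_or_nonempty with
    he | hne
  · have := line P subset_rfl fun a ha b hb => by_contra fun h =>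
      Finset.filter_eq_empty_iff.1 he (Finset.mem_product.2 (⟨ha, hb⟩ : (a, b).1 ∈ P ∧ _))
        (by rw [map_sub]; exact sub_ne_zero.2 h)
    linarith
  obtain ⟨y, hy, hmin'⟩ := Finset.exists_min_image _
    (fun z => ‖crossProduct v (z.1 - z.2)‖) hne
  obtain ⟨hy1, hw0⟩ := Finset.mem_filter.1 hy
  obtain ⟨y1, y2⟩ := Finset.mem_product.1 hy1
  set w := crossProduct v (y.1 - y.2) with hw
  have hW0 : 0 < ‖w‖ := norm_pos_iff.2 hw0
  have plane : ∀ Q ⊆ P, (∀ a ∈ Q, ∀ b ∈ Q, w ⬝ᵥ a = w ⬝ᵥ b) →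
      (Q.card : ℝ) ≤ (2 * (2 * (‖v‖ * t)) / ‖w‖ + 1) * ((2 * t / ‖v‖ + 1) * 1) := fun Q hQ h =>
    CNT_par Q (fun a => crossProduct v a) hw0 hW0 (by positivity) (by positivity)
      (fun a ha => (CNT_cross v a).trans (by have := hP a (hQ ha); gcongr))
      (fun a ha b hb => by
        rw [← map_sub, cross_cross_eq_smul_sub_smul', dotProduct_sub, h a ha b hb, sub_self, hw,
          dot_self_cross]
        simp)
      (fun a ha b hb hab => by
        rw [← map_sub]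
        exact hmin' (a, b) (Finset.mem_filter.2 ⟨Finset.mem_product.2 ⟨hQ ha, hQ hb⟩, by
          rw [map_sub]; exact sub_ne_zero.2 hab⟩))
      (fun Q' hQ' h' => line Q' (hQ'.trans hQ) h')
  have all := CNT_sep P (fun a => w ⬝ᵥ a) (A := 3 * (‖w‖ * t)) hV (by positivity) (by positivity)
    (fun a ha => (CNT_dot w a).trans (by have := hP a ha; gcongr))
    (fun a ha b hb hab => by
      have e : Matrix.det (Matrix.of ![a - b, v, y.1 - y.2]) = w ⬝ᵥ a - w ⬝ᵥ b := by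
        rw [← dotProduct_sub, dotProduct_comm, hw, triple_product_eq_det]
        rfl
      have := hd a ha b hb _ z1 _ z2 _ y1 _ y2 (by rw [e]; exact sub_ne_zero.2 hab)
      rwa [e] at this) plane
  have b1 : 1 ≤ 2 * t / ‖v‖ := (one_le_div hl0).2 (hdiff _ z1 _ z2)
  have b2 : 1 ≤ 2 * (2 * (‖v‖ * t)) / ‖w‖ := (one_le_div hW0).2 ((CNT_cross _ _).trans (by
    nlinarith [hdiff _ y1 _ y2]))
  have b3 : 0 ≤ 2 * (3 * (‖w‖ * t)) / V := by positivity
  have e1 : 2 * (2 * (‖v‖ * t)) / ‖w‖ * (2 * t / ‖v‖) = 8 * t ^ 2 / ‖w‖ := by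
    field_simp
    ring
  have e2 : 4 * (2 * (3 * (‖w‖ * t)) / V * (2 * (2 * (‖v‖ * t)) / ‖w‖ * (2 * t / ‖v‖))) =
      192 * t ^ 3 / V := by
    field_simp
    ring
  have e3 : 2 * (8 * t ^ 2 / ‖w‖) ≤ 16 * t ^ 2 / l2 := by
    rw [← mul_div_assoc, ← mul_assoc, show (2 : ℝ) * 8 = 16 by norm_num]
    exact div_le_div_of_nonneg_left (by positivity) h2 (hc _ z1 _ z2 _ y1 _ y2 hw0)
  rw [← e1] at e3
  rw [← e2]
  generalize 2 * (3 * (‖w‖ * t)) / V = X at *
  generalize 2 * (2 * (‖v‖ * t)) / ‖w‖ = Y at *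
  generalize 2 * t / ‖v‖ = Z at *
  have c1 : (Y + 1) * (Z + 1) ≤ 4 * (Y * Z) := by nlinarith
  nlinarith [mul_le_mul_of_nonneg_left c1 b3]

end Pool.Agent.P.MP_7aad9f_nt.Sz

end

section
/-! Step MULTF. -/

set_option autoImplicit false

open Polynomial

namespace Pool.Agent.P.MP_7aad9f_nt.Sz

open Pool.Agent.P.MP_7aad9f_nt.Sub (Gen S_GENSEL S_OMEGA)

theorem MULTF_dvd {m : ℕ} (hm : 0 < m) (D : ℤ)
    (h : ∀ p ∈ m.primeFactors, (p : ℤ) ^ m.factorization p ∣ D) : (m : ℤ) ∣ D := by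
  rw [Int.natCast_dvd, Nat.dvd_iff_prime_pow_dvd_dvd]
  intro p k hp hk
  rcases Nat.eq_zero_or_pos k with rfl | hk0
  · simp
  have hpm : p ∣ m := (dvd_pow_self p hk0.ne').trans hk
  have h1 := h p (Nat.mem_primeFactors.2 ⟨hp, hpm, hm.ne'⟩)
  have h2 : k ≤ m.factorization p := (hp.pow_dvd_iff_le_factorization hm.ne').1 hk
  have h3 : ((p ^ k : ℕ) : ℤ) ∣ D := by
    push_cast
    exact (pow_dvd_pow _ h2).trans h1
  exact Int.natCast_dvd.1 h3

theorem MULTF_pp (m p : ℕ) : (p : ℤ) ^ m.factorization p ∣ (m : ℤ) := by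
  exact_mod_cast Nat.ordProj_dvd m p

theorem MULTF_one {a N : ℕ} (h : a ≡ 1 [MOD N]) : (N : ℤ) ∣ (a : ℤ) - 1 := by
  have := h.symm.dvd
  simpa using this

theorem MULTF_inv {p : ℕ} (hp : p.Prime) (b : ℕ) (u γ : ℤ) (hu : ¬ (p : ℤ) ∣ u) :
    ∃ t : ℕ, (p : ℤ) ^ b ∣ γ - t * u := by
  have hP : Prime (p : ℤ) := Nat.prime_iff_prime_int.1 hp
  have hc : IsCoprime ((p : ℤ) ^ b) u := (hP.irreducible.coprime_iff_not_dvd.2 hu).pow_left
  obtain ⟨α, v, hv⟩ := hc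
  have hN : (0 : ℤ) < (p : ℤ) ^ b := pow_pos (by exact_mod_cast hp.pos) b
  refine ⟨((γ * v) % (p : ℤ) ^ b).toNat, ?_⟩
  rw [Int.toNat_of_nonneg (Int.emod_nonneg _ hN.ne')]
  refine ⟨γ * α + (γ * v) / (p : ℤ) ^ b * u, ?_⟩
  rw [Int.emod_def]
  linear_combination (-γ) * hv

theorem MULTF_loc {p : ℕ} (hp : p.Prime) (b : ℕ) (u γ : ℤ) :
    ∃ a : ℕ × ℕ, (a.1 = 1 ∨ a.2 = 1) ∧ (p : ℤ) ^ b ∣ a.1 * γ - a.2 * u := by
  rcases Nat.eq_zero_or_pos (Int.gcd u γ) with h0 | h0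
  · obtain ⟨rfl, rfl⟩ := Int.gcd_eq_zero_iff.1 h0
    exact ⟨(1, 1), Or.inl rfl, by simp⟩
  obtain ⟨u', γ', h1, hu, hγ⟩ := Int.exists_gcd_one h0
  generalize (Int.gcd u γ : ℤ) = d at hu hγ
  subst hu hγ
  by_cases hpu : (p : ℤ) ∣ u'
  · have hpγ : ¬ (p : ℤ) ∣ γ' := by
      intro h
      have h2 : (p : ℤ) ∣ (Int.gcd u' γ' : ℤ) := Int.dvd_coe_gcd hpu h
      rw [h1] at h2
      have h3 : p ∣ 1 := by exact_mod_cast h2
      exact hp.one_lt.ne' (Nat.dvd_one.1 h3)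
    obtain ⟨t, ht⟩ := MULTF_inv hp b γ' u' hpγ
    refine ⟨(t, 1), Or.inr rfl, ?_⟩
    have : ((t : ℕ) : ℤ) * (γ' * d) - ((1 : ℕ) : ℤ) * (u' * d) = (u' - t * γ') * (-d) := by
      push_cast; ring
    simp only []
    rw [this]
    exact ht.mul_right _
  · obtain ⟨t, ht⟩ := MULTF_inv hp b u' γ' hpu
    refine ⟨(1, t), Or.inl rfl, ?_⟩
    have : ((1 : ℕ) : ℤ) * (γ' * d) - ((t : ℕ) : ℤ) * (u' * d) = (γ' - t * u') * d := by
      push_cast; ring
    simp only []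
    rw [this]
    exact ht.mul_right _

theorem MULTF_crt {m : ℕ} (hm : 0 < m) (a : ℕ → ℕ) :
    ∃ k : ℕ, k < m ∧ ∀ p ∈ m.primeFactors, k ≡ a p [MOD p ^ m.factorization p] := by
  have hs : ∀ p ∈ m.primeFactors, p ^ m.factorization p ≠ 0 := fun p hp =>
    pow_ne_zero _ (Nat.prime_of_mem_primeFactors hp).ne_zero
  have pp : Set.Pairwise (m.primeFactors : Set ℕ)
      (Function.onFun Nat.Coprime fun p => p ^ m.factorization p) := by
    intro p hp q hq hpq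
    exact Nat.coprime_pow_primes _ _ (Nat.prime_of_mem_primeFactors hp)
      (Nat.prime_of_mem_primeFactors hq) hpq
  obtain ⟨k, hk⟩ := Nat.chineseRemainderOfFinset a (fun p => p ^ m.factorization p)
    m.primeFactors hs pp
  refine ⟨k % m, Nat.mod_lt _ hm, fun p hp => ?_⟩
  exact ((Nat.mod_modEq k m).of_dvd (Nat.ordProj_dvd m p)).trans (hk p hp)

theorem MULTF_cover {m : ℕ} (hm : 0 < m) (u γ : ℤ) :
    ∃ ρ ∈ FH m, (m : ℤ) ∣ ρ.1 * γ - ρ.2 * u := by
  have h : ∀ p : ℕ, ∃ a : ℕ × ℕ, p.Prime →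
      (a.1 = 1 ∨ a.2 = 1) ∧ (p : ℤ) ^ m.factorization p ∣ a.1 * γ - a.2 * u := by
    intro p
    by_cases hp : p.Prime
    · obtain ⟨a, ha⟩ := MULTF_loc hp (m.factorization p) u γ
      exact ⟨a, fun _ => ha⟩
    · exact ⟨(1, 1), fun h => absurd h hp⟩
  choose a ha using h
  obtain ⟨k1, hk1, h1⟩ := MULTF_crt hm fun p => (a p).1
  obtain ⟨k2, hk2, h2⟩ := MULTF_crt hm fun p => (a p).2
  refine ⟨(k1, k2), ?_, ?_⟩
  · simp only [FH, Finset.mem_filter, Finset.mem_product, Finset.mem_range]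
    refine ⟨⟨hk1, hk2⟩, fun p hp => ?_⟩
    rcases (ha p (Nat.prime_of_mem_primeFactors hp)).1 with h | h
    · left; have := h1 p hp; rwa [h] at this
    · right; have := h2 p hp; rwa [h] at this
  · refine MULTF_dvd hm _ fun p hp => ?_
    have e1 := (h1 p hp).dvd
    have e2 := (h2 p hp).dvd
    have e3 := (ha p (Nat.prime_of_mem_primeFactors hp)).2
    push_cast at e1 e2
    have : ((k1 : ℤ)) * γ - (k2 : ℤ) * u = (((a p).1 : ℤ) * γ - (a p).2 * u) -
        (((a p).1 : ℤ) - k1) * γ + (((a p).2 : ℤ) - k2) * u := by ring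
    simp only []
    rw [this]
    exact (e3.sub (e1.mul_right _)).add (e2.mul_right _)

theorem MULTF_step {N a b a' b' u γ : ℤ} (h1 : N ∣ a - 1) (h1' : N ∣ a' - 1)
    (h : N ∣ a * γ - b * u) (h' : N ∣ a' * γ - b' * u) :
    N ∣ u * (a + b - (a' + b')) ∧ N ∣ γ * (a + b - (a' + b')) := by
  have k1 : N ∣ u * (a + b - (a' + b')) := by
    have : u * (a + b - (a' + b')) = (a - 1) * (u + γ) - (a' - 1) * (u + γ) -
      (a * γ - b * u) + (a' * γ - b' * u) := by ring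
    rw [this]
    exact (((h1.mul_right _).sub (h1'.mul_right _)).sub h).add h'
  refine ⟨k1, ?_⟩
  have : γ * (a + b - (a' + b')) = (a * γ - b * u) * (a + b - (a' + b')) -
      (a - 1) * (γ * (a + b - (a' + b'))) + b * (u * (a + b - (a' + b'))) := by ring
  rw [this]
  exact ((h.mul_right _).sub (h1.mul_right _)).add (k1.mul_left _)

theorem MULTF_cell {m : ℕ} (hm : 0 < m) (u γ : ℤ) (U : Finset ℕ) (A : Finset (ℕ × ℕ))
    (hA : ∀ ρ ∈ A, ρ.1 < m ∧ ρ.2 < m ∧ (m : ℤ) ∣ ρ.1 * γ - ρ.2 * u ∧ ∀ p ∈ m.primeFactors,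
      (p ∈ U → ρ.1 ≡ 1 [MOD p ^ m.factorization p]) ∧
      (p ∉ U → ρ.2 ≡ 1 [MOD p ^ m.factorization p])) :
    A.card ≤ Nat.gcd (Int.gcd u γ) m := by
  obtain ⟨m', hm'⟩ := Nat.gcd_dvd_right (Int.gcd u γ) m
  have hg : 0 < Nat.gcd (Int.gcd u γ) m := Nat.gcd_pos_of_pos_right _ hm
  rw [← Finset.card_range (Nat.gcd (Int.gcd u γ) m)]
  refine Finset.card_le_card_of_injOn (fun ρ => (ρ.1 + ρ.2) % m / m') ?_ ?_
  · intro ρ _
    simp only [Finset.coe_range, Set.mem_Iio]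
    apply Nat.div_lt_of_lt_mul
    have := Nat.mod_lt (ρ.1 + ρ.2) hm
    rw [mul_comm, ← hm']
    exact this
  · intro ρ hρ ρ' hρ' he
    obtain ⟨a1, a2, a3, a4⟩ := hA ρ hρ
    obtain ⟨b1, b2, b3, b4⟩ := hA ρ' hρ'
    set Δ : ℤ := (ρ.1 : ℤ) + ρ.2 - (ρ'.1 + ρ'.2) with hΔ
    have key : ∀ p ∈ m.primeFactors,
        (p : ℤ) ^ m.factorization p ∣ u * Δ ∧ (p : ℤ) ^ m.factorization p ∣ γ * Δ := by
      intro p hp
      have c3 := (MULTF_pp m p).trans a3
      have d3 := (MULTF_pp m p).trans b3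
      by_cases hU : p ∈ U
      · have e1 := MULTF_one ((a4 p hp).1 hU)
        have e2 := MULTF_one ((b4 p hp).1 hU)
        push_cast at e1 e2
        exact MULTF_step e1 e2 c3 d3
      · have e1 := MULTF_one ((a4 p hp).2 hU)
        have e2 := MULTF_one ((b4 p hp).2 hU)
        push_cast at e1 e2
        have := MULTF_step e1 e2 (dvd_sub_comm.1 c3) (dvd_sub_comm.1 d3)
        have e : (ρ.2 : ℤ) + ρ.1 - (ρ'.2 + ρ'.1) = Δ := by rw [hΔ]; ring
        rw [e] at this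
        exact ⟨this.2, this.1⟩
    have k1 : m ∣ u.natAbs * Δ.natAbs := by
      rw [← Int.natAbs_mul]
      exact Int.natCast_dvd.1 (MULTF_dvd hm _ fun p hp => (key p hp).1)
    have k2 : m ∣ γ.natAbs * Δ.natAbs := by
      rw [← Int.natAbs_mul]
      exact Int.natCast_dvd.1 (MULTF_dvd hm _ fun p hp => (key p hp).2)
    have k3 : m ∣ Nat.gcd (Int.gcd u γ) m * Δ.natAbs := by
      rw [← Nat.gcd_mul_right]
      refine Nat.dvd_gcd ?_ (dvd_mul_right _ _)
      rw [Int.gcd_eq_natAbs, ← Nat.gcd_mul_right]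
      exact Nat.dvd_gcd k1 k2
    have k4 : m' ∣ Δ.natAbs := by
      refine Nat.dvd_of_mul_dvd_mul_left hg ?_
      rw [← hm']
      exact k3
    have k5 : ρ'.1 + ρ'.2 ≡ ρ.1 + ρ.2 [MOD m'] := by
      rw [Nat.modEq_iff_dvd]
      push_cast
      exact Int.natCast_dvd.2 k4
    have hd : m' ∣ m := Dvd.intro_left _ hm'.symm
    have k6 : (ρ'.1 + ρ'.2) % m % m' = (ρ.1 + ρ.2) % m % m' := by
      rw [Nat.mod_mod_of_dvd _ hd, Nat.mod_mod_of_dvd _ hd]
      exact k5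
    have k7 : ρ'.1 + ρ'.2 ≡ ρ.1 + ρ.2 [MOD m] := by
      have e1 := Nat.div_add_mod ((ρ'.1 + ρ'.2) % m) m'
      have e2 := Nat.div_add_mod ((ρ.1 + ρ.2) % m) m'
      have he' : (ρ.1 + ρ.2) % m / m' = (ρ'.1 + ρ'.2) % m / m' := he
      unfold Nat.ModEq
      rw [← e1, ← e2, k6, he']
    have k8 : ∀ p ∈ m.primeFactors, ρ'.1 ≡ ρ.1 [MOD p ^ m.factorization p] ∧
        ρ'.2 ≡ ρ.2 [MOD p ^ m.factorization p] := by
      intro p hp
      have s := k7.of_dvd (Nat.ordProj_dvd m p)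
      by_cases hU : p ∈ U
      · have e := ((b4 p hp).1 hU).trans ((a4 p hp).1 hU).symm
        exact ⟨e, Nat.ModEq.add_left_cancel e s⟩
      · have e := ((b4 p hp).2 hU).trans ((a4 p hp).2 hU).symm
        exact ⟨Nat.ModEq.add_right_cancel e s, e⟩
    have k9 : ∀ x y : ℕ, x < m → y < m →
        (∀ p ∈ m.primeFactors, y ≡ x [MOD p ^ m.factorization p]) → x = y := by
      intro x y hx hy h
      have : y ≡ x [MOD m] := by
        rw [Nat.modEq_iff_dvd]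
        refine MULTF_dvd hm _ fun p hp => ?_
        have := (h p hp).dvd
        push_cast at this
        exact this
      exact (Nat.ModEq.eq_of_lt_of_lt this hy hx).symm
    exact Prod.ext (k9 _ _ a1 b1 fun p hp => (k8 p hp).1) (k9 _ _ a2 b2 fun p hp => (k8 p hp).2)

theorem MULTF_mult {m : ℕ} (hm : 0 < m) (u γ : ℤ) :
    ((FH m).filter fun ρ => (m : ℤ) ∣ ρ.1 * γ - ρ.2 * u).card ≤
      2 ^ m.primeFactors.card * Nat.gcd (Int.gcd u γ) m := by
  classical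
  set A := (FH m).filter fun ρ => (m : ℤ) ∣ ρ.1 * γ - ρ.2 * u with hA
  have h := Finset.card_le_mul_card_image_of_maps_to (s := A) (t := m.primeFactors.powerset)
    (f := fun ρ : ℕ × ℕ => m.primeFactors.filter fun p => ρ.1 ≡ 1 [MOD p ^ m.factorization p])
    (fun ρ _ => Finset.mem_powerset.2 (Finset.filter_subset _ _)) (Nat.gcd (Int.gcd u γ) m) ?_
  · rw [Finset.card_powerset, mul_comm] at h
    exact h
  · intro U _
    refine MULTF_cell hm u γ U _ fun ρ hρ => ?_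
    simp only [hA, FH, Finset.mem_filter, Finset.mem_product, Finset.mem_range] at hρ
    obtain ⟨⟨⟨⟨h1, h2⟩, h3⟩, h4⟩, h5⟩ := hρ
    refine ⟨h1, h2, h4, fun p hp => ⟨fun hU => ?_, fun hU => ?_⟩⟩
    · rw [← h5] at hU
      exact (Finset.mem_filter.1 hU).2
    · rcases h3 p hp with h | h
      · exact absurd (h5 ▸ Finset.mem_filter.2 ⟨hp, h⟩) hU
      · exact h

theorem p_MULTF :
    S_MULTF := by
  intro m hm
  refine ⟨?_, ?_, fun u γ => ⟨MULTF_cover hm u γ, MULTF_mult hm u γ⟩⟩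
  · have := MULTF_mult hm 0 0
    simpa using this
  · intro ρ hρ D h1 h2
    refine MULTF_dvd hm _ fun p hp => ?_
    have c1 := (MULTF_pp m p).trans h1
    have c2 := (MULTF_pp m p).trans h2
    rcases (Finset.mem_filter.1 hρ).2 p hp with h | h
    · have e := MULTF_one h
      push_cast at e
      have : D = ρ.1 * D - ((ρ.1 : ℤ) - 1) * D := by ring
      rw [this]
      exact c1.sub (e.mul_right _)
    · have e := MULTF_one h
      push_cast at e
      have : D = ρ.2 * D - ((ρ.2 : ℤ) - 1) * D := by ring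
      rw [this]
      exact c2.sub (e.mul_right _)

end Pool.Agent.P.MP_7aad9f_nt.Sz

end

section
/-! Step MULTA. -/

set_option autoImplicit false

open Polynomial

namespace Pool.Agent.P.MP_7aad9f_nt.Sz

open Pool.Agent.P.MP_7aad9f_nt.Sub (Gen S_GENSEL S_OMEGA)

theorem MULTA_mem {I : ℕ} {a : ℤ × ℤ} : a ∈ AH I ↔
    ((-(I : ℤ) ≤ a.1 ∧ a.1 ≤ I) ∧ (-(I : ℤ) ≤ a.2 ∧ a.2 ≤ I)) ∧ (a.1 = I ∨ a.2 = I) := by
  simp only [AH, Finset.mem_filter, Finset.mem_product, Finset.mem_Icc]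

theorem MULTA_split {I : ℕ} (A : Finset (ℤ × ℤ)) (B1 B2 : Finset ℤ)
    (h : ∀ a ∈ A, (a.1 = I ∧ a.2 ∈ B1) ∨ (a.2 = I ∧ a.1 ∈ B2)) : A.card ≤ B1.card + B2.card := by
  have hs : A ⊆ B1.image (fun b => ((I : ℤ), b)) ∪ B2.image (fun b => (b, (I : ℤ))) := by
    intro a ha
    rw [Finset.mem_union, Finset.mem_image, Finset.mem_image]
    rcases h a ha with ⟨h1, h2⟩ | ⟨h1, h2⟩
    · exact Or.inl ⟨a.2, h2, by rw [← h1]⟩
    · exact Or.inr ⟨a.1, h2, by rw [← h1]⟩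
  exact (Finset.card_le_card hs).trans ((Finset.card_union_le _ _).trans
    (add_le_add Finset.card_image_le Finset.card_image_le))

theorem MULTA_card {I : ℕ} (hI : 1 ≤ I) : (AH I).card ≤ 6 * I := by
  have h := MULTA_split (I := I) (AH I) (Finset.Icc (-(I : ℤ)) I) (Finset.Icc (-(I : ℤ)) I)
    fun a ha => by
      obtain ⟨⟨h1, h2⟩, h3 | h3⟩ := MULTA_mem.1 ha
      · exact Or.inl ⟨h3, Finset.mem_Icc.2 h2⟩
      · exact Or.inr ⟨h3, Finset.mem_Icc.2 h1⟩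
  rw [Int.card_Icc] at h
  omega

theorem MULTA_round (I : ℕ) {Y1 Y2 : ℝ} (h : |Y2| ≤ |Y1|) :
    ∃ b : ℤ, (-(I : ℤ) ≤ b ∧ b ≤ I) ∧ |(I : ℝ) * Y2 - b * Y1| ≤ |Y1| := by
  by_cases h0 : Y1 = 0
  · subst h0
    have h2 : Y2 = 0 := abs_nonpos_iff.1 (by simpa using h)
    exact ⟨0, by omega, by simp [h2]⟩
  have h1 : |Y2 / Y1| ≤ 1 := by
    rw [abs_div]; exact div_le_one_of_le₀ h (abs_nonneg _)
  obtain ⟨h2, h3⟩ := abs_le.1 h1
  have hI : (0 : ℝ) ≤ I := Nat.cast_nonneg I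
  refine ⟨⌊(I : ℝ) * (Y2 / Y1)⌋, ⟨Int.le_floor.2 ?_, ?_⟩, ?_⟩
  · push_cast; nlinarith
  · have h4 : (⌊(I : ℝ) * (Y2 / Y1)⌋ : ℝ) ≤ ((I : ℤ) : ℝ) :=
      (Int.floor_le _).trans (by push_cast; nlinarith)
    exact_mod_cast h4
  · have e : (I : ℝ) * Y2 - ⌊(I : ℝ) * (Y2 / Y1)⌋ * Y1 = Int.fract ((I : ℝ) * (Y2 / Y1)) * Y1 := by
      rw [Int.fract]; field_simp
    rw [e, abs_mul, abs_of_nonneg (Int.fract_nonneg _)]
    exact mul_le_of_le_one_left (abs_nonneg _) (Int.fract_lt_one _).le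

theorem MULTA_side {I G : ℕ} {t s Y1 Y2 : ℝ} (hG : 0 < G) (hI : 4 * G ≤ I) (ht : 0 ≤ t)
    (hs : s = |Y1| ∨ s = |Y2|) (hst : t < 2 * G * s) (B : Finset ℤ)
    (hB : ∀ b ∈ B, (-(I : ℤ) ≤ b ∧ b ≤ I) ∧ |(I : ℝ) * Y2 - b * Y1| ≤ t) : B.card ≤ 8 * G := by
  rcases B.eq_empty_or_nonempty with rfl | hne
  · simp
  have hG' : (0 : ℝ) < G := by exact_mod_cast hG
  have hI' : 4 * (G : ℝ) ≤ I := by exact_mod_cast hI
  have hI0 : (0 : ℝ) < I := by linarith
  have hY := abs_nonneg Y1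
  have key : t < 4 * G * |Y1| := by
    obtain ⟨b, hb⟩ := hne
    obtain ⟨hb1, hb2⟩ := hB b hb
    have h1 : |(b : ℝ)| ≤ I := by exact_mod_cast abs_le.2 hb1
    have h2 : (I : ℝ) * |Y2| ≤ t + I * |Y1| := by
      have h3 := abs_sub_abs_le_abs_sub ((I : ℝ) * Y2) (b * Y1)
      rw [abs_mul, abs_mul, abs_of_pos hI0] at h3
      nlinarith
    have h4 : (I : ℝ) * s ≤ t + I * |Y1| := by
      rcases hs with rfl | rfl
      · linarith
      · exact h2
    have h5 : (I : ℝ) * t < I * (4 * G * |Y1|) := by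
      have h6 := mul_le_mul_of_nonneg_left h4 (by positivity : (0 : ℝ) ≤ 4 * G)
      have h7 := mul_lt_mul_of_pos_left hst hI0
      have h8 := mul_le_mul_of_nonneg_right hI' ht
      nlinarith
    exact lt_of_mul_lt_mul_left h5 hI0.le
  have hsub : B ⊆ Finset.Ico (B.min' hne) (B.min' hne + 8 * G) := fun b hb => by
    have h0 := B.min'_le b hb
    refine Finset.mem_Ico.2 ⟨h0, ?_⟩
    have h1 := (hB b hb).2
    have h2 := (hB _ (B.min'_mem hne)).2
    have h3 := abs_sub_le ((b : ℝ) * Y1) (I * Y2) (B.min' hne * Y1)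
    have h0' : (0 : ℝ) ≤ (b : ℝ) - B.min' hne := sub_nonneg.2 (by exact_mod_cast h0)
    rw [← sub_mul, abs_mul, abs_of_nonneg h0', abs_sub_comm ((b : ℝ) * Y1)] at h3
    have h4 : ((b : ℝ) - B.min' hne) * |Y1| < 8 * G * |Y1| := by linarith
    have h5 := lt_of_mul_lt_mul_right h4 hY
    have h6 : (b : ℝ) < ((B.min' hne + 8 * G : ℤ) : ℝ) := by push_cast; linarith
    exact_mod_cast h6
  have h := Finset.card_le_card hsub
  rw [Int.card_Ico] at h
  omega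

theorem p_MULTA :
    S_MULTA := by
  intro I hI
  refine ⟨MULTA_card hI, fun t Y1 Y2 h1 h2 => ⟨?_, ?_⟩⟩
  · rcases le_total |Y2| |Y1| with h | h
    · obtain ⟨b, hb, hb'⟩ := MULTA_round I h
      exact ⟨(I, b), MULTA_mem.2 ⟨⟨by constructor <;> simp, hb⟩, Or.inl rfl⟩, by
        simpa using hb'.trans h1⟩
    · obtain ⟨b, hb, hb'⟩ := MULTA_round I h
      exact ⟨(b, I), MULTA_mem.2 ⟨⟨hb, by constructor <;> simp⟩, Or.inr rfl⟩, by
        rw [abs_sub_comm]; simpa using hb'.trans h2⟩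
  · have ht : 0 ≤ t := (abs_nonneg _).trans h1
    obtain ⟨i, ⟨hi1, hi2⟩, hi3⟩ : ∃ i : ℕ, (2 ^ i ≤ I ∧ 2 ^ i * max |Y1| |Y2| ≤ t) ∧
        ¬(2 ^ (i + 1) ≤ I ∧ 2 ^ (i + 1) * max |Y1| |Y2| ≤ t) := by
      by_contra hc
      simp only [not_exists, not_and, not_not, Classical.not_imp] at hc
      have h3 : ∀ i : ℕ, 2 ^ i ≤ I ∧ 2 ^ i * max |Y1| |Y2| ≤ t := fun i => by
        induction i with
        | zero => exact ⟨by simpa using hI, by simpa using ⟨h1, h2⟩⟩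
        | succ i ih => exact hc i ih
      exact absurd (h3 I).1 (not_le.2 Nat.lt_two_pow_self)
    have h2i : (0 : ℝ) ≤ 2 ^ i := by positivity
    refine ⟨i, hi1, (mul_le_mul_of_nonneg_left (le_max_left _ _) h2i).trans hi2,
      (mul_le_mul_of_nonneg_left (le_max_right _ _) h2i).trans hi2, fun A hA hA' => ?_⟩
    have hp : 0 < 2 ^ i := by positivity
    rcases lt_or_ge I (4 * 2 ^ i) with h | h
    · have := (Finset.card_le_card hA).trans (MULTA_card hI)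
      omega
    have hst : t < 2 * ((2 ^ i : ℕ) : ℝ) * max |Y1| |Y2| := by
      by_contra hc
      refine hi3 ⟨by rw [pow_succ]; omega, ?_⟩
      rw [pow_succ, mul_comm _ (2 : ℝ)]
      exact_mod_cast not_lt.1 hc
    have hm := max_choice |Y1| |Y2|
    have b1 := MULTA_side hp h ht hm hst ((Finset.Icc (-(I : ℤ)) I).filter
      fun b => |(I : ℝ) * Y2 - b * Y1| ≤ t) fun b hb => by
        simpa only [Finset.mem_filter, Finset.mem_Icc] using hb
    have b2 := MULTA_side hp h ht hm.symm hst ((Finset.Icc (-(I : ℤ)) I).filter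
      fun b => |(I : ℝ) * Y1 - b * Y2| ≤ t) fun b hb => by
        simpa only [Finset.mem_filter, Finset.mem_Icc] using hb
    refine (MULTA_split (I := I) A _ _ fun a ha => ?_).trans ((add_le_add b1 b2).trans (by omega))
    obtain ⟨⟨h3, h4⟩, h5 | h5⟩ := MULTA_mem.1 (hA ha)
    · refine Or.inl ⟨h5, Finset.mem_filter.2 ⟨Finset.mem_Icc.2 h4, ?_⟩⟩
      have := hA' a ha
      rw [h5] at this
      simpa using this
    · refine Or.inr ⟨h5, Finset.mem_filter.2 ⟨Finset.mem_Icc.2 h3, ?_⟩⟩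
      have := hA' a ha
      rw [h5, abs_sub_comm] at this
      simpa using this

end Pool.Agent.P.MP_7aad9f_nt.Sz

end
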