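import Pool.Agent.P.MP_7aad9f_nt.Sz.If

section
/-! Step CNTG. -/

set_option autoImplicit false

open Polynomial

namespace Pool.Agent.P.MP_7aad9f_nt.Sz

open Pool.Agent.P.MP_7aad9f_nt.Sub (Gen S_GENSEL S_OMEGA)

/-- The scaled real vector. -/
def CNTG_W (T : Matrix (Fin 3) (Fin 3) ℝ) (G : ℝ) (n : Fin 3 → ℤ) : Fin 3 → ℝ :=
  ![Yv T n 0, G * Yv T n 1, G * Yv T n 2]

theorem CNTG_Yv (T : Matrix (Fin 3) (Fin 3) ℝ) (n : Fin 3 → ℤ) (i : Fin 3) :
    Yv T n i = T i 0 * n 0 + T i 1 * n 1 + T i 2 * n 2 := by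
  simp [Yv, Matrix.mulVec, dotProduct, Fin.sum_univ_three]

theorem CNTG_sub (T : Matrix (Fin 3) (Fin 3) ℝ) (G : ℝ) (n n' : Fin 3 → ℤ) :
    CNTG_W T G n - CNTG_W T G n' = CNTG_W T G (n - n') := by
  funext i
  fin_cases i <;> simp [CNTG_W, CNTG_Yv] <;> ring

theorem CNTG_uv (ma : ℕ) (c : ℤ) (n n' : Fin 3 → ℤ) :
    uv ma c (n - n') = uv ma c n - uv ma c n' := by
  simp only [uv, Pi.sub_apply]; ring

theorem CNTG_zero (T : Matrix (Fin 3) (Fin 3) ℝ) (G : ℝ) (hT : T.det ≠ 0) (hG : G ≠ 0)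
    (n : Fin 3 → ℤ) (h : CNTG_W T G n = 0) : n = 0 := by
  have h0 := congrFun h 0
  have h1 := congrFun h 1
  have h2 := congrFun h 2
  simp [CNTG_W, hG] at h0 h1 h2
  have hY : T.mulVec (fun s => (n s : ℝ)) = 0 := by
    funext i
    fin_cases i
    · exact h0
    · exact h1
    · exact h2
  have := Matrix.eq_zero_of_mulVec_eq_zero hT hY
  funext s
  have hs := congrFun this s
  simpa using hs

theorem CNTG_norm_le (v : Fin 3 → ℝ) (t : ℝ) (ht : 0 ≤ t) (h0 : |v 0| ≤ t) (h1 : |v 1| ≤ t)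
    (h2 : |v 2| ≤ t) : ‖v‖ ≤ t := by
  refine (pi_norm_le_iff_of_nonneg ht).2 fun i => ?_
  fin_cases i
  · exact h0
  · exact h1
  · exact h2

theorem CNTG_cross (T : Matrix (Fin 3) (Fin 3) ℝ) (G : ℝ) (n n' : Fin 3 → ℤ) :
    crossProduct (CNTG_W T G n) (CNTG_W T G n') 0 = G ^ 2 * crossProduct (Yv T n) (Yv T n') 0 ∧
    crossProduct (CNTG_W T G n) (CNTG_W T G n') 1 = G * crossProduct (Yv T n) (Yv T n') 1 ∧
    crossProduct (CNTG_W T G n) (CNTG_W T G n') 2 = G * crossProduct (Yv T n) (Yv T n') 2 := by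
  refine ⟨?_, ?_, ?_⟩ <;> simp [cross_apply, CNTG_W] <;> ring

theorem CNTG_det (T : Matrix (Fin 3) (Fin 3) ℝ) (G : ℝ) (a b d : Fin 3 → ℤ) :
    Matrix.det (Matrix.of ![CNTG_W T G a, CNTG_W T G b, CNTG_W T G d]) =
      G ^ 2 * T.det * ((Matrix.det (Matrix.of ![a, b, d]) : ℤ) : ℝ) := by
  rw [Matrix.det_fin_three, Matrix.det_fin_three, Matrix.det_fin_three]
  simp [CNTG_W, CNTG_Yv]
  ring

theorem CNTG_dvd (ma : ℕ) (c g : ℤ) (hc : IsCoprime c g) (a b d : Fin 3 → ℤ)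
    (ha : g ∣ uv ma c a) (ha' : g ∣ a 2) (hb : g ∣ uv ma c b) (hb' : g ∣ b 2)
    (hd : g ∣ uv ma c d) (hd' : g ∣ d 2) :
    g ^ 2 ∣ 3 * Matrix.det (Matrix.of ![a, b, d]) := by
  obtain ⟨ua, hua⟩ := ha
  obtain ⟨va, hva⟩ := ha'
  obtain ⟨ub, hub⟩ := hb
  obtain ⟨vb, hvb⟩ := hb'
  obtain ⟨ud, hud⟩ := hd
  obtain ⟨vd, hvd⟩ := hd'
  have hcop : IsCoprime (g ^ 2) c := (IsCoprime.pow_right hc).symm
  refine hcop.dvd_of_dvd_mul_left ?_
  refine ⟨a 0 * (ub * vd - vb * ud) - b 0 * (ua * vd - va * ud) + d 0 * (ua * vb - va * ub), ?_⟩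
  rw [Matrix.det_fin_three]
  simp only [uv] at hua hub hud
  simp only [Matrix.of_apply, Matrix.cons_val_zero, Matrix.cons_val_one, Matrix.cons_val_two,
    Matrix.head_cons, Matrix.tail_cons]
  rw [hva, hvb, hvd]
  linear_combination (a 0 * (g * vd) - d 0 * (g * va)) * hub -
    (a 0 * (g * vb) - b 0 * (g * va)) * hud + (d 0 * (g * vb) - b 0 * (g * vd)) * hua

theorem p_CNTG (hCNT : S_CNT) :
    S_CNTG := by
  classical
  intro T ma c m I g t X0 X1 G P hT hm hc ht hX0 hX1 hL1 hL2 hg hG1 hGI hP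
  have hg0 : 0 < g := Nat.pos_of_dvd_of_pos hg hm
  have hgR : (0 : ℝ) < g := by exact_mod_cast hg0
  have hG : 0 < G := by linarith
  have hTa : 0 < |T.det| := abs_pos.2 hT
  have hcg : IsCoprime c (g : ℤ) := hc.of_isCoprime_of_dvd_right (Int.natCast_dvd_natCast.2 hg)
  have h0P : (0 : Fin 3 → ℤ) ∉ P := fun h => (hP 0 h).1 rfl
  have hQ : ∀ n ∈ insert (0 : Fin 3 → ℤ) P, (g : ℤ) ∣ uv ma c n ∧ (g : ℤ) ∣ n 2 ∧
      |Yv T n 0| ≤ t ∧ G * |Yv T n 1| ≤ t ∧ G * |Yv T n 2| ≤ t := by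
    intro n hn
    rcases Finset.mem_insert.1 hn with rfl | hn
    · simp [uv, CNTG_Yv, ht.le]
    · exact (hP n hn).2
  have hD : ∀ n ∈ insert (0 : Fin 3 → ℤ) P, ∀ n' ∈ insert (0 : Fin 3 → ℤ) P,
      (g : ℤ) ∣ uv ma c (n - n') ∧ (g : ℤ) ∣ (n - n') 2 := by
    intro n hn n' hn'
    rw [CNTG_uv, Pi.sub_apply]
    exact ⟨dvd_sub (hQ n hn).1 (hQ n' hn').1, dvd_sub (hQ n hn).2.1 (hQ n' hn').2.1⟩
  have hinj : Function.Injective (CNTG_W T G) := by
    intro n n' h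
    have : CNTG_W T G (n - n') = 0 := by rw [← CNTG_sub, h, sub_self]
    exact sub_eq_zero.1 (CNTG_zero T G hT hG.ne' _ this)
  have key := hCNT ((insert (0 : Fin 3 → ℤ) P).image (CNTG_W T G)) t (g * G / X1) (g * G / X0)
    (G ^ 2 * g ^ 2 * |T.det| / 3) (by positivity) (by positivity) (by positivity) ht.le
    ?_ ?_ ?_ ?_
  · rw [Finset.card_image_of_injective _ hinj, Finset.card_insert_of_notMem h0P] at key
    push_cast at key
    have e : 192 * t ^ 3 / (G ^ 2 * g ^ 2 * |T.det| / 3) + 16 * t ^ 2 / (g * G / X0) +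
        2 * t / (g * G / X1) = 576 * t ^ 3 / (G ^ 2 * g ^ 2 * |T.det|) +
          (16 * t ^ 2 * X0 + 2 * t * X1) / (g * G) := by
      field_simp
      ring
    linarith
  · intro a ha
    obtain ⟨n, hn, rfl⟩ := Finset.mem_image.1 ha
    obtain ⟨-, -, h0, h1, h2⟩ := hQ n hn
    refine CNTG_norm_le _ _ ht.le ?_ ?_ ?_
    · simpa [CNTG_W] using h0
    · simpa [CNTG_W, abs_mul, abs_of_pos hG] using h1
    · simpa [CNTG_W, abs_mul, abs_of_pos hG] using h2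
  · intro a ha b hb hab
    obtain ⟨n, hn, rfl⟩ := Finset.mem_image.1 ha
    obtain ⟨n', hn', rfl⟩ := Finset.mem_image.1 hb
    rw [CNTG_sub]
    have hne : n - n' ≠ 0 := fun h => hab (by rw [sub_eq_zero.1 h])
    have h0 := norm_le_pi_norm (CNTG_W T G (n - n')) 0
    have h1 := norm_le_pi_norm (CNTG_W T G (n - n')) 1
    have h2 := norm_le_pi_norm (CNTG_W T G (n - n')) 2
    have := hL1 (n - n') hne g hg (hD n hn n' hn').1 (hD n hn n' hn').2 G
      ‖CNTG_W T G (n - n')‖ hG1 hGI (by simpa [CNTG_W] using h0)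
      (by simpa [CNTG_W, abs_of_pos hG] using h1) (by simpa [CNTG_W, abs_of_pos hG] using h2)
    rw [div_le_iff₀ hX1]
    linarith
  · intro a ha b hb a' ha' b' hb' hcr
    obtain ⟨n1, hn1, rfl⟩ := Finset.mem_image.1 ha
    obtain ⟨n2, hn2, rfl⟩ := Finset.mem_image.1 hb
    obtain ⟨n3, hn3, rfl⟩ := Finset.mem_image.1 ha'
    obtain ⟨n4, hn4, rfl⟩ := Finset.mem_image.1 hb'
    rw [CNTG_sub, CNTG_sub] at hcr ⊢
    obtain ⟨c0, c1, c2⟩ := CNTG_cross T G (n1 - n2) (n3 - n4)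
    set C := crossProduct (Yv T (n1 - n2)) (Yv T (n3 - n4)) with hC
    set C' := crossProduct (CNTG_W T G (n1 - n2)) (CNTG_W T G (n3 - n4)) with hC'
    have hC0 : C ≠ 0 := by
      intro h
      apply hcr
      funext i
      fin_cases i
      · simpa [h] using c0
      · simpa [h] using c1
      · simpa [h] using c2
    have h2 := hL2 (n1 - n2) (n3 - n4) g hg (hD n1 hn1 n2 hn2).1 (hD n1 hn1 n2 hn2).2
      (hD n3 hn3 n4 hn4).1 (hD n3 hn3 n4 hn4).2 hC0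
    have hb : ‖C‖ ≤ ‖C'‖ / G := by
      have q0 := norm_le_pi_norm C' 0
      have q1 := norm_le_pi_norm C' 1
      have q2 := norm_le_pi_norm C' 2
      rw [c0, Real.norm_eq_abs, abs_mul, abs_of_pos (by positivity : 0 < G ^ 2)] at q0
      rw [c1, Real.norm_eq_abs, abs_mul, abs_of_pos hG] at q1
      rw [c2, Real.norm_eq_abs, abs_mul, abs_of_pos hG] at q2
      refine CNTG_norm_le _ _ (by positivity) ?_ ?_ ?_ <;> rw [le_div_iff₀ hG]
      · have := abs_nonneg (C 0)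
        nlinarith [mul_nonneg (mul_nonneg hG.le (sub_nonneg.2 hG1)) this]
      · linarith
      · linarith
    rw [div_le_iff₀ hX0]
    rw [le_div_iff₀ hG] at hb
    calc (g : ℝ) * G ≤ X0 * ‖C‖ * G := by gcongr
      _ = X0 * (‖C‖ * G) := by ring
      _ ≤ X0 * ‖C'‖ := by gcongr
      _ = ‖C'‖ * X0 := by ring
  · intro a ha b hb a' ha' b' hb' a'' ha'' b'' hb'' hdet
    obtain ⟨n1, hn1, rfl⟩ := Finset.mem_image.1 ha
    obtain ⟨n2, hn2, rfl⟩ := Finset.mem_image.1 hb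
    obtain ⟨n3, hn3, rfl⟩ := Finset.mem_image.1 ha'
    obtain ⟨n4, hn4, rfl⟩ := Finset.mem_image.1 hb'
    obtain ⟨n5, hn5, rfl⟩ := Finset.mem_image.1 ha''
    obtain ⟨n6, hn6, rfl⟩ := Finset.mem_image.1 hb''
    rw [CNTG_sub, CNTG_sub, CNTG_sub, CNTG_det] at hdet ⊢
    have hdv := CNTG_dvd ma c g hcg (n1 - n2) (n3 - n4) (n5 - n6) (hD n1 hn1 n2 hn2).1
      (hD n1 hn1 n2 hn2).2 (hD n3 hn3 n4 hn4).1 (hD n3 hn3 n4 hn4).2 (hD n5 hn5 n6 hn6).1
      (hD n5 hn5 n6 hn6).2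
    set D : ℤ := Matrix.det (Matrix.of ![n1 - n2, n3 - n4, n5 - n6]) with hDdef
    have hD0 : D ≠ 0 := by
      intro h
      apply hdet
      rw [h]
      simp
    have hle : (g : ℤ) ^ 2 ≤ |3 * D| :=
      Int.le_of_dvd (abs_pos.2 (mul_ne_zero (by norm_num) hD0)) ((dvd_abs _ _).2 hdv)
    have hleR : (g : ℝ) ^ 2 ≤ 3 * |(D : ℝ)| := by
      have : (((g : ℤ) ^ 2 : ℤ) : ℝ) ≤ ((|3 * D| : ℤ) : ℝ) := by exact_mod_cast hle
      push_cast at this
      rwa [abs_mul, abs_of_pos (by norm_num : (0 : ℝ) < 3)] at this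
    rw [abs_mul, abs_mul, abs_of_pos (by positivity : 0 < G ^ 2), div_le_iff₀ (by norm_num)]
    calc G ^ 2 * g ^ 2 * |T.det| ≤ G ^ 2 * (3 * |(D : ℝ)|) * |T.det| := by gcongr
      _ = G ^ 2 * |T.det| * |(D : ℝ)| * 3 := by ring

end Pool.Agent.P.MP_7aad9f_nt.Sz

end

section
/-! Step TSUM. -/

set_option autoImplicit false

open Polynomial

namespace Pool.Agent.P.MP_7aad9f_nt.Sz

open Pool.Agent.P.MP_7aad9f_nt.Sub (Gen S_GENSEL S_OMEGA)

theorem TSUM_mult (hMULTF : S_MULTF) (T : Matrix (Fin 3) (Fin 3) ℝ) (ma : ℕ) (c : ℤ) (m I : ℕ)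
    (t : ℝ) (n : Fin 3 → ℤ) (hm : 0 < m) (b : ℕ)
    (hb : ∀ A : Finset (ℤ × ℤ), A ⊆ AH I → (∀ a ∈ A, |a.1 * Yv T n 2 - a.2 * Yv T n 1| ≤ t) →
      A.card ≤ b) :
    mult T ma c m I t n ≤
      2 ^ m.primeFactors.card * Nat.gcd (Int.gcd (uv ma c n) (n 2)) m * b := by
  classical
  have h1 := ((hMULTF m hm).2.2 (uv ma c n) (n 2)).2
  have h2 := hb ((AH I).filter fun a => |a.1 * Yv T n 2 - a.2 * Yv T n 1| ≤ t)
    (Finset.filter_subset _ _) fun a ha => (Finset.mem_filter.1 ha).2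
  refine le_trans ?_ (Nat.mul_le_mul h1 h2)
  rw [← Finset.card_product, mult]
  refine Finset.card_le_card fun h hh => ?_
  obtain ⟨a1, a2⟩ := Finset.mem_filter.1 hh
  obtain ⟨a3, a4⟩ := Finset.mem_product.1 a1
  exact Finset.mem_product.2 ⟨Finset.mem_filter.2 ⟨a3, a2.1⟩, Finset.mem_filter.2 ⟨a4, a2.2⟩⟩

theorem p_TSUM (hCNTG : S_CNTG) (hMULTF : S_MULTF) (hMULTA : S_MULTA) :
    S_TSUM := by
  intro T ma c m I t X0 X1 P hT hm hI hc ht hX0 hX1 h1 h2 hP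
  classical
  have hY : ∀ n ∈ P, ∀ s, |Yv T n s| ≤ t := fun n hn s =>
    (norm_le_pi_norm (Yv T n) s).trans (hP n hn).2
  set g : (Fin 3 → ℤ) → ℕ := fun n => Nat.gcd (Int.gcd (uv ma c n) (n 2)) m with hg
  have key : ∀ n, ∃ i : ℕ, n ∈ P → 2 ^ i ≤ I ∧ 2 ^ i * |Yv T n 1| ≤ t ∧ 2 ^ i * |Yv T n 2| ≤ t ∧
      mult T ma c m I t n ≤ 2 ^ m.primeFactors.card * g n * (24 * 2 ^ i) := fun n => by
    by_cases hn : n ∈ P
    · obtain ⟨i, a1, a2, a3, a4⟩ := ((hMULTA I hI).2 t _ _ (hY n hn 1) (hY n hn 2)).2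
      exact ⟨i, fun _ => ⟨a1, a2, a3, TSUM_mult hMULTF T ma c m I t n hm _ a4⟩⟩
    · exact ⟨0, fun h => (hn h).elim⟩
  choose i hi using key
  have hmap : ∀ n ∈ P, (g n, i n) ∈ m.divisors ×ˢ Finset.range (Nat.log 2 I + 1) := fun n hn =>
    Finset.mem_product.2 ⟨Nat.mem_divisors.2 ⟨Nat.gcd_dvd_right _ _, hm.ne'⟩,
      Finset.mem_range.2 (Nat.lt_succ_of_le (Nat.le_log_of_pow_le one_lt_two (hi n hn).1))⟩
  have hV : 0 < |T.det| := abs_pos.2 hT
  set W : ℝ := 16 * t ^ 2 * X0 + 2 * t * X1 with hW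
  have hf : ∀ q ∈ m.divisors ×ˢ Finset.range (Nat.log 2 I + 1),
      ∑ n ∈ P.filter (fun n => (g n, i n) = q), (mult T ma c m I t n : ℝ) ≤
        24 * 2 ^ m.primeFactors.card *
          (576 * t ^ 3 / |T.det| * ((q.1 : ℝ)⁻¹ * (1 / 2) ^ q.2) + W) := by
    rintro ⟨g0, i0⟩ hq
    obtain ⟨q1, q2⟩ := Finset.mem_product.1 hq
    have q3 : 2 ^ i0 ≤ I :=
      Nat.pow_le_of_le_log (by omega) (Nat.lt_succ_iff.1 (Finset.mem_range.1 q2))
    have q4 : (0 : ℝ) < g0 := by exact_mod_cast Nat.pos_of_mem_divisors q1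
    have hm' : ∀ n ∈ P.filter (fun n => (g n, i n) = (g0, i0)), n ∈ P ∧ g n = g0 ∧ i n = i0 :=
      fun n hn => by simpa using hn
    have hc' := hCNTG T ma c m I g0 t X0 X1 (2 ^ i0) (P.filter fun n => (g n, i n) = (g0, i0)) hT
      hm hc ht hX0 hX1 h1 h2 (Nat.dvd_of_mem_divisors q1) (one_le_pow₀ one_le_two)
      (by exact_mod_cast q3) fun n hn => by
        obtain ⟨a1, rfl, rfl⟩ := hm' n hn
        have d : ((g n : ℕ) : ℤ) ∣ (Int.gcd (uv ma c n) (n 2) : ℤ) :=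
          Int.natCast_dvd_natCast.2 (Nat.gcd_dvd_left _ _)
        exact ⟨(hP n a1).1, d.trans (Int.gcd_dvd_left _ _), d.trans (Int.gcd_dvd_right _ _),
          hY n a1 0, (hi n a1).2.1, (hi n a1).2.2.1⟩
    refine (Finset.sum_le_card_nsmul _ _ ((2 : ℝ) ^ m.primeFactors.card * g0 * (24 * 2 ^ i0))
      fun n hn => ?_).trans ?_
    · obtain ⟨a1, rfl, rfl⟩ := hm' n hn
      exact_mod_cast (hi n a1).2.2.2
    · rw [nsmul_eq_mul]
      refine (mul_le_mul_of_nonneg_right hc' (by positivity)).trans_eq ?_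
      rw [← hW, one_div, inv_pow]
      field_simp
  rw [Nat.cast_sum, ← Finset.sum_fiberwise_of_maps_to hmap]
  refine (Finset.sum_le_sum hf).trans ?_
  rw [← Finset.mul_sum, Finset.sum_add_distrib, ← Finset.mul_sum, Finset.sum_const,
    Finset.card_product, Finset.card_range, nsmul_eq_mul, Finset.sum_product]
  dsimp only
  rw [← Finset.sum_mul_sum]
  refine mul_le_mul_of_nonneg_left (add_le_add ?_ (by push_cast; rfl)) (by positivity)
  have s1 : 0 ≤ ∑ g ∈ m.divisors, (g : ℝ)⁻¹ := by positivity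
  refine (mul_le_mul_of_nonneg_left (mul_le_mul_of_nonneg_left
    (sum_geometric_two_le _) s1) (by positivity)).trans_eq ?_
  ring

end Pool.Agent.P.MP_7aad9f_nt.Sz

end

section
/-! Step PLANE. -/

set_option autoImplicit false

open Polynomial

namespace Pool.Agent.P.MP_7aad9f_nt.Sz

open Pool.Agent.P.MP_7aad9f_nt.Sub (Gen S_GENSEL S_OMEGA)

theorem PLANE_card (q : ℕ) [hq : Fact q.Prime] (G : Finset (Fin 3 → ZMod q))
    (h : ∀ a ∈ G, ∀ b ∈ G, ∀ c ∈ G, Matrix.det (Matrix.of ![a, b, c]) = 0) :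
    G.card ≤ q ^ 2 := by
  classical
  have hS : Submodule.span (ZMod q) (G : Set (Fin 3 → ZMod q)) ≠ ⊤ := by
    intro hS
    have h1 : ∀ b ∈ G, ∀ c ∈ G, crossProduct b c = 0 := by
      intro b hb c hc
      have h2 : (dotProductBilin (ZMod q) (ZMod q)).flip (crossProduct b c) = 0 := by
        refine LinearMap.ext_on hS fun a ha => ?_
        have h3 := triple_product_eq_det a b c
        have h4 := h a ha b hb c hc
        simp only [LinearMap.flip_apply, dotProductBilin_apply_apply, LinearMap.zero_apply]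
        rw [h3]
        exact h4
      funext i
      have h5 := LinearMap.congr_fun h2 (Pi.single i 1)
      simpa using h5
    have h6 : (crossProduct : (Fin 3 → ZMod q) →ₗ[ZMod q] (Fin 3 → ZMod q) →ₗ[ZMod q]
        (Fin 3 → ZMod q)) = 0 := by
      refine LinearMap.ext_on hS fun b hb => ?_
      refine LinearMap.ext_on hS fun c hc => ?_
      simpa using h1 b hb c hc
    have h7 : crossProduct (![1, 0, 0] : Fin 3 → ZMod q) ![0, 1, 0] 2 = 0 := by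
      rw [h6]; rfl
    simp [cross_apply] at h7
  set S := Submodule.span (ZMod q) (G : Set (Fin 3 → ZMod q)) with hSdef
  have h8 : Module.finrank (ZMod q) S ≤ 2 := by
    have := Submodule.finrank_lt hS
    simp at this
    omega
  have h9 : Nat.card S = q ^ Module.finrank (ZMod q) S := by
    rw [Module.natCard_eq_pow_finrank (K := ZMod q), Nat.card_zmod]
  have h10 : G.card ≤ Nat.card S := by
    rw [← Nat.card_eq_finsetCard]
    refine Nat.card_le_card_of_injective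
      (fun x : G => (⟨x.1, Submodule.subset_span x.2⟩ : S)) fun x y hxy => ?_
    exact Subtype.ext (congrArg (fun t : S => t.1) hxy)
  calc G.card ≤ q ^ Module.finrank (ZMod q) S := h9 ▸ h10
    _ ≤ q ^ 2 := Nat.pow_le_pow_right hq.out.pos h8

theorem p_PLANE :
    S_PLANE := by
  classical
  intro q F hq hF
  have : Fact q.Prime := ⟨hq⟩
  let π : (Fin 3 → ℤ) → (Fin 3 → ZMod q) := fun a i => (a i : ZMod q)
  have hG : (F.image π).card ≤ q ^ 2 := by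
    refine PLANE_card q _ fun a ha b hb c hc => ?_
    obtain ⟨a, ha', rfl⟩ := Finset.mem_image.1 ha
    obtain ⟨b, hb', rfl⟩ := Finset.mem_image.1 hb
    obtain ⟨c, hc', rfl⟩ := Finset.mem_image.1 hc
    have h1 := congrArg (Int.castRingHom (ZMod q)) (hF a ha' b hb' c hc')
    rw [RingHom.map_det, map_zero] at h1
    rw [← h1]
    congr 1
    ext i j
    fin_cases i <;> rfl
  let rep : (Fin 3 → ZMod q) → (Fin 3 → ℤ) := Function.invFunOn π (F : Set (Fin 3 → ℤ))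
  have hrep : ∀ a ∈ F, rep (π a) ∈ F ∧ π (rep (π a)) = π a := fun a ha =>
    ⟨Function.invFunOn_mem ⟨a, ha, rfl⟩, Function.invFunOn_eq ⟨a, ha, rfl⟩⟩
  let d : (Fin 3 → ℤ) → (Fin 3 → ℤ) := fun a i => (a i - rep (π a) i) / q
  have hd : ∀ a ∈ F, (q : ℤ) • d a = a - rep (π a) := by
    intro a ha
    funext i
    have h1 : ((a i - rep (π a) i : ℤ) : ZMod q) = 0 := by
      have := congrFun (hrep a ha).2 i
      simp only [π] at this
      push_cast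
      rw [sub_eq_zero]
      exact this.symm
    have h2 := (ZMod.intCast_zmod_eq_zero_iff_dvd _ _).1 h1
    simp only [Pi.smul_apply, smul_eq_mul, Pi.sub_apply, d]
    exact Int.mul_ediv_cancel' h2
  refine ⟨(F.image d).erase 0, fun v hv => ?_, ?_⟩
  · obtain ⟨h0, hv⟩ := Finset.mem_erase.1 hv
    obtain ⟨a, ha, rfl⟩ := Finset.mem_image.1 hv
    exact ⟨h0, a, ha, rep (π a), (hrep a ha).1, hd a ha⟩
  · have h1 : F.card ≤ ((F.image π) ×ˢ (F.image d)).card := by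
      refine Finset.card_le_card_of_injOn (fun a => (π a, d a)) (fun a ha => ?_) ?_
      · exact Finset.mem_coe.2 (Finset.mem_product.2
          ⟨Finset.mem_image_of_mem _ ha, Finset.mem_image_of_mem _ ha⟩)
      · intro a ha b hb hab
        have h2 : π a = π b := congrArg Prod.fst hab
        have h3 : d a = d b := congrArg Prod.snd hab
        have h4 := hd a ha
        rw [h3, hd b hb, h2] at h4
        exact (sub_left_inj.1 h4).symm
    have h2 : (F.image d).card ≤ 1 + ((F.image d).erase 0).card := by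
      have := Finset.pred_card_le_card_erase (s := F.image d) (a := 0)
      omega
    rw [Finset.card_product] at h1
    exact h1.trans (Nat.mul_le_mul hG h2)

end Pool.Agent.P.MP_7aad9f_nt.Sz

end

section
/-! Step FIB. -/

set_option autoImplicit false

open Polynomial

namespace Pool.Agent.P.MP_7aad9f_nt.Sz

open Pool.Agent.P.MP_7aad9f_nt.Sub (Gen S_GENSEL S_OMEGA)

theorem FIB_three {B x y z : ℝ} (hx : |x| ≤ B) (hy : |y| ≤ B) (hz : |z| ≤ B) :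
    |x * y * z| ≤ B ^ 3 := by
  have hB : 0 ≤ B := (abs_nonneg x).trans hx
  rw [abs_mul, abs_mul]
  calc |x| * |y| * |z| ≤ B * B * B := by gcongr
    _ = B ^ 3 := by ring

theorem FIB_six {B a0 a1 a2 b0 b1 b2 e0 e1 e2 : ℝ} (ha0 : |a0| ≤ B) (ha1 : |a1| ≤ B)
    (ha2 : |a2| ≤ B) (hb0 : |b0| ≤ B) (hb1 : |b1| ≤ B) (hb2 : |b2| ≤ B) (he0 : |e0| ≤ B)
    (he1 : |e1| ≤ B) (he2 : |e2| ≤ B) :
    |a0 * b1 * e2 - a0 * b2 * e1 - a1 * b0 * e2 + a1 * b2 * e0 + a2 * b0 * e1 - a2 * b1 * e0| ≤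
      6 * B ^ 3 := by
  have h1 := abs_le.1 (FIB_three ha0 hb1 he2)
  have h2 := abs_le.1 (FIB_three ha0 hb2 he1)
  have h3 := abs_le.1 (FIB_three ha1 hb0 he2)
  have h4 := abs_le.1 (FIB_three ha1 hb2 he0)
  have h5 := abs_le.1 (FIB_three ha2 hb0 he1)
  have h6 := abs_le.1 (FIB_three ha2 hb1 he0)
  rw [abs_le]
  constructor <;> linarith [h1.1, h1.2, h2.1, h2.2, h3.1, h3.2, h4.1, h4.2, h5.1, h5.2, h6.1, h6.2]

theorem FIB_Yv (T : Matrix (Fin 3) (Fin 3) ℝ) (n : Fin 3 → ℤ) (i : Fin 3) :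
    Yv T n i = T i 0 * n 0 + T i 1 * n 1 + T i 2 * n 2 := by
  simp [Yv, Matrix.mulVec, dotProduct, Fin.sum_univ_three]

theorem FIB_det (hMULTF : S_MULTF) (T : Matrix (Fin 3) (Fin 3) ℝ) (ma : ℕ) (c : ℤ) (m I : ℕ)
    (B : ℝ) (h : (ℕ × ℕ) × (ℤ × ℤ)) (hm : 0 < m) (hc : IsCoprime c (m : ℤ))
    (hB : 18 * B ^ 3 < |T.det| * m * I) (hh : h ∈ FH m ×ˢ AH I) (a b e : Fin 3 → ℤ)
    (ha : ‖Yv T a‖ ≤ B ∧ InH T ma c m B h a) (hb : ‖Yv T b‖ ≤ B ∧ InH T ma c m B h b)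
    (he : ‖Yv T e‖ ≤ B ∧ InH T ma c m B h e) : Matrix.det (Matrix.of ![a, b, e]) = 0 := by
  by_contra hd
  obtain ⟨d, hdd⟩ : ∃ d : ℤ, d = a 0 * b 1 * e 2 - a 0 * b 2 * e 1 - a 1 * b 0 * e 2 +
      a 1 * b 2 * e 0 + a 2 * b 0 * e 1 - a 2 * b 1 * e 0 := ⟨_, rfl⟩
  have hd0 : d ≠ 0 := by
    intro h0
    apply hd
    rw [Matrix.det_fin_three]
    simpa [hdd] using h0
  obtain ⟨hF, hA⟩ := Finset.mem_product.1 hh
  obtain ⟨ka, hka⟩ := ha.2.1
  obtain ⟨kb, hkb⟩ := hb.2.1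
  obtain ⟨ke, hke⟩ := he.2.1
  have h1 : (m : ℤ) ∣ c * (3 * d) := by
    refine (hMULTF m hm).2.1 h.1 hF _ ?_ ?_
    · refine ⟨a 0 * (uv ma c b * ke - kb * uv ma c e) - uv ma c a * (b 0 * ke - kb * e 0) +
        ka * (b 0 * uv ma c e - uv ma c b * e 0), ?_⟩
      rw [hdd]
      unfold uv at *
      linear_combination (a 0 * (b 0 * ma + 3 * c * b 1) - (a 0 * ma + 3 * c * a 1) * b 0) * hke +
        (-(a 0 * (e 0 * ma + 3 * c * e 1)) + (a 0 * ma + 3 * c * a 1) * e 0) * hkb +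
        (b 0 * (e 0 * ma + 3 * c * e 1) - (b 0 * ma + 3 * c * b 1) * e 0) * hka
    · refine ⟨-(a 0 * (kb * e 2 - b 2 * ke) - ka * (b 0 * e 2 - b 2 * e 0) +
        a 2 * (b 0 * ke - kb * e 0)), ?_⟩
      rw [hdd]
      unfold uv at *
      linear_combination (a 0 * b 2 - a 2 * b 0) * hke + (-(a 0 * e 2) + a 2 * e 0) * hkb +
        (b 0 * e 2 - b 2 * e 0) * hka
  have h2 : (m : ℤ) ∣ 3 * d := hc.symm.dvd_of_dvd_mul_left h1
  have h3 : (m : ℤ) ≤ |3 * d| :=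
    Int.le_of_dvd (abs_pos.2 (mul_ne_zero (by norm_num) hd0)) ((dvd_abs _ _).2 h2)
  have h4 : (m : ℝ) ≤ 3 * |(d : ℝ)| := by
    have : ((m : ℤ) : ℝ) ≤ ((|3 * d| : ℤ) : ℝ) := Int.cast_le.2 h3
    simpa [abs_mul] using this
  have hco : ∀ n : Fin 3 → ℤ, ‖Yv T n‖ ≤ B → ∀ i, |Yv T n i| ≤ B := fun n hn i =>
    (norm_le_pi_norm (Yv T n) i).trans hn
  have hY : T.det * d = Yv T a 0 * Yv T b 1 * Yv T e 2 - Yv T a 0 * Yv T b 2 * Yv T e 1 -
      Yv T a 1 * Yv T b 0 * Yv T e 2 + Yv T a 1 * Yv T b 2 * Yv T e 0 +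
      Yv T a 2 * Yv T b 0 * Yv T e 1 - Yv T a 2 * Yv T b 1 * Yv T e 0 := by
    rw [Matrix.det_fin_three, hdd]
    simp only [FIB_Yv]
    push_cast
    ring
  have h5 : |(I : ℝ) * (T.det * d)| ≤ 6 * B ^ 3 := by
    rcases (Finset.mem_filter.1 hA).2 with hI | hI
    · have := FIB_six (hco a ha.1 0) (hco a ha.1 1) ha.2.2 (hco b hb.1 0) (hco b hb.1 1) hb.2.2
        (hco e he.1 0) (hco e he.1 1) he.2.2
      rw [hI] at this
      refine le_of_eq_of_le ?_ this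
      congr 1
      rw [hY]
      push_cast
      ring
    · have := FIB_six (hco a ha.1 0) ha.2.2 (hco a ha.1 2) (hco b hb.1 0) hb.2.2 (hco b hb.1 2)
        (hco e he.1 0) he.2.2 (hco e he.1 2)
      rw [hI] at this
      refine le_of_eq_of_le ?_ this
      rw [← abs_neg]
      congr 1
      rw [hY]
      push_cast
      ring
  rw [abs_mul, abs_mul, Nat.abs_cast] at h5
  have h6 : |T.det| * m * I ≤ |T.det| * (3 * |(d : ℝ)|) * I := by gcongr
  nlinarith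

theorem p_FIB (hMULTF : S_MULTF) (hPLANE : S_PLANE) :
    S_FIB := by
  intro T ma c m I q B h F hm hI hc hq hqm hB hh hF
  obtain ⟨Q, hQ, hcard⟩ := hPLANE q F hq fun a ha b hb e he =>
    FIB_det hMULTF T ma c m I B h hm hc hB hh a b e (hF a ha) (hF b hb) (hF e he)
  refine ⟨Q, fun v hv => ?_, hcard⟩
  obtain ⟨hv0, a, ha, b, hb, hab⟩ := hQ v hv
  have hq0 : (0 : ℝ) < q := by exact_mod_cast hq.pos
  have hco : ∀ i, (q : ℤ) * v i = a i - b i := fun i => by simpa using congrFun hab i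
  have hY : ∀ i, (q : ℝ) * Yv T v i = Yv T a i - Yv T b i := by
    intro i
    have h0 : (q : ℝ) * v 0 = a 0 - b 0 := by exact_mod_cast hco 0
    have h1 : (q : ℝ) * v 1 = a 1 - b 1 := by exact_mod_cast hco 1
    have h2 : (q : ℝ) * v 2 = a 2 - b 2 := by exact_mod_cast hco 2
    simp only [FIB_Yv]
    linear_combination T i 0 * h0 + T i 1 * h1 + T i 2 * h2
  obtain ⟨hna, hda, hra⟩ := hF a ha
  obtain ⟨hnb, hdb, hrb⟩ := hF b hb
  refine ⟨hv0, ?_, ?_, ?_⟩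
  · rw [le_div_iff₀ hq0]
    have h1 : (q : ℝ) • Yv T v = Yv T a - Yv T b := funext hY
    have h2 := norm_sub_le (Yv T a) (Yv T b)
    rw [← h1, norm_smul, Real.norm_natCast] at h2
    linarith
  · have hcop : IsCoprime (m : ℤ) (q : ℤ) :=
      Nat.isCoprime_iff_coprime.2 ((Nat.Prime.coprime_iff_not_dvd hq).2 hqm).symm
    refine hcop.dvd_of_dvd_mul_left ?_
    have h1 := dvd_sub hda hdb
    refine (dvd_iff_dvd_of_dvd_sub ?_).1 h1
    have h2 : (h.1.1 * a 2 - h.1.2 * uv ma c a - (h.1.1 * b 2 - h.1.2 * uv ma c b)) -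
        q * (h.1.1 * v 2 - h.1.2 * uv ma c v) = (0 : ℤ) := by
      unfold uv
      linear_combination (-(h.1.1 : ℤ)) * hco 2 + (h.1.2 : ℤ) * ma * hco 0 +
        (h.1.2 : ℤ) * 3 * c * hco 1
    rw [h2]
    exact dvd_zero _
  · rw [le_div_iff₀ hq0]
    have h1 : (h.2.1 * Yv T v 2 - h.2.2 * Yv T v 1) * (q : ℝ) =
        (h.2.1 * Yv T a 2 - h.2.2 * Yv T a 1) - (h.2.1 * Yv T b 2 - h.2.2 * Yv T b 1) := by
      linear_combination (h.2.1 : ℝ) * hY 2 - (h.2.2 : ℝ) * hY 1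
    have h2 := abs_sub (h.2.1 * Yv T a 2 - h.2.2 * Yv T a 1) (h.2.1 * Yv T b 2 - h.2.2 * Yv T b 1)
    rw [← h1, abs_mul, Nat.abs_cast] at h2
    linarith

end Pool.Agent.P.MP_7aad9f_nt.Sz

end
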