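import Pool.Agent.P.MP_7aad9f_nt.Sz.If

section
/-! Step GOOD. -/

set_option autoImplicit false

open Polynomial

namespace Pool.Agent.P.MP_7aad9f_nt.Sz

open Pool.Agent.P.MP_7aad9f_nt.Sub (Gen S_GENSEL S_OMEGA)

theorem GOOD_sub (T : Matrix (Fin 3) (Fin 3) ℝ) (n n' : Fin 3 → ℤ) :
    Yv T (n - n') = Yv T n - Yv T n' := by
  rw [Yv, Yv, Yv, ← Matrix.mulVec_sub]
  congr 1
  ext s
  simp

theorem GOOD_inj {T : Matrix (Fin 3) (Fin 3) ℝ} (hT : T.det ≠ 0) : Function.Injective (Yv T) :=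
  fun n n' h => by
    have := Matrix.mulVec_injective_of_isUnit
      ((Matrix.isUnit_iff_isUnit_det T).2 (isUnit_iff_ne_zero.2 hT)) h
    ext s
    exact_mod_cast congrFun this s

theorem GOOD_plane (hCNT : S_CNT) {T : Matrix (Fin 3) (Fin 3) ℝ} {ma : ℕ} {c : ℤ} {m I : ℕ}
    {B X0 X1 : ℝ} (hT : T.det ≠ 0) (hI : 1 ≤ I) (hB : 0 < B) (h0 : 0 < X0) (h1 : 0 < X1)
    (l1 : Lam1 T ma c m I X1) (l2 : Lam2 T ma c m X0) (Q : Finset (Fin 3 → ℤ))
    (hQ : ∀ n ∈ Q, ‖Yv T n‖ ≤ B) (i j : Fin 3) (hij : i ≠ j) (e : ℝ)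
    (he : ∀ n ∈ Q, Yv T n i = e * Yv T n j) :
    (Q.card : ℝ) ≤ 16 * B ^ 2 * X0 + 2 * B * X1 + 2 := by
  classical
  have h := hCNT (Q.image (Yv T)) B X1⁻¹ X0⁻¹ (192 * B ^ 3) (by positivity) (by positivity)
    (by positivity) hB.le (by simpa using hQ) ?_ ?_ ?_
  · rw [Finset.card_image_of_injective _ (GOOD_inj hT), div_self (by positivity), div_inv_eq_mul,
      div_inv_eq_mul] at h
    linarith
  · simp only [Finset.forall_mem_image]
    intro a _ b _ hab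
    rw [← GOOD_sub, inv_le_iff_one_le_mul₀' h1]
    have := l1 (a - b) (sub_ne_zero.2 fun h => hab (h ▸ rfl)) 1 (one_dvd _) (by simp) (by simp) 1
      ‖Yv T (a - b)‖ le_rfl (by exact_mod_cast hI) (norm_le_pi_norm (Yv T (a - b)) 0)
      (by simpa using norm_le_pi_norm (Yv T (a - b)) 1)
      (by simpa using norm_le_pi_norm (Yv T (a - b)) 2)
    simpa using this
  · simp only [Finset.forall_mem_image]
    intro a _ b _ a' _ b' _ hab
    rw [← GOOD_sub, ← GOOD_sub] at hab ⊢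
    rw [inv_le_iff_one_le_mul₀' h0]
    simpa using l2 (a - b) (a' - b') 1 (one_dvd _) (by simp) (by simp) (by simp) (by simp) hab
  · simp only [Finset.forall_mem_image]
    intro a ha b hb a' ha' b' hb' a'' ha'' b'' hb'' hne
    refine absurd ?_ hne
    set M := Matrix.of ![Yv T a - Yv T b, Yv T a' - Yv T b', Yv T a'' - Yv T b'']
    have hM : ∀ k, M k i = e * M k j := fun k => by
      fin_cases k <;>
        simp [M, he a ha, he b hb, he a' ha', he b' hb', he a'' ha'', he b'' hb'', mul_sub]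
    refine Matrix.exists_mulVec_eq_zero_iff.1 ⟨Pi.single i 1 - Pi.single j e, fun h => ?_, ?_⟩
    · simpa [hij] using congrFun h i
    · ext k
      simp [Matrix.mulVec_sub, hM k]

theorem p_GOOD (hLB : S_LB) (hCNT : S_CNT) :
    S_GOOD := by
  classical
  intro T ma c m I B X0 X1 hT hI hB h0 h1 l1 l2
  obtain ⟨P, hP, hc⟩ := hLB T B hT hB
  refine ⟨P.filter (Good T), fun n hn => ⟨hP n (Finset.mem_filter.1 hn).1,
    (Finset.mem_filter.1 hn).2⟩, ?_⟩
  have k := fun (i j : Fin 3) (hij : i ≠ j) (e : ℝ) =>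
    GOOD_plane hCNT hT hI hB h0 h1 l1 l2 (P.filter fun n => Yv T n i = e * Yv T n j)
      (fun n hn => hP n (Finset.mem_filter.1 hn).1) i j hij e fun n hn => (Finset.mem_filter.1 hn).2
  have k0 := k 0 1 (by decide) 0
  have k1 := k 1 2 (by decide) 1
  have k2 := k 1 2 (by decide) (-1)
  have hs : P ⊆ P.filter (Good T) ∪ ((P.filter fun n => Yv T n 0 = 0 * Yv T n 1) ∪
      ((P.filter fun n => Yv T n 1 = 1 * Yv T n 2) ∪ P.filter fun n => Yv T n 1 = -1 * Yv T n 2)) :=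
    fun n hn => by
      simp only [Finset.mem_union, Finset.mem_filter, hn, true_and, Good, zero_mul, one_mul, neg_mul]
      tauto
  have h2 := (Finset.card_le_card hs).trans ((Finset.card_union_le _ _).trans
    (Nat.add_le_add_left ((Finset.card_union_le _ _).trans
      (Nat.add_le_add_left (Finset.card_union_le _ _) _)) _))
  have h3 := (Nat.cast_le (α := ℝ)).2 h2
  push_cast at h3
  have h4 : B ^ 3 / |T.det| ≤ P.card := by
    rw [div_le_iff₀' (abs_pos.2 hT)]; exact hc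
  linarith

end Pool.Agent.P.MP_7aad9f_nt.Sz

end

section
/-! Step HIT. -/

set_option autoImplicit false

open Polynomial

namespace Pool.Agent.P.MP_7aad9f_nt.Sz

open Pool.Agent.P.MP_7aad9f_nt.Sub (Gen S_GENSEL S_OMEGA)

theorem HIT_num (V w σ τ l q B X0 X1 p H S : ℝ) (hV : 0 < V) (hw : 1 ≤ w) (hτ : 1 ≤ τ)
    (hl : 1 ≤ l) (hq : 2 ≤ q) (hB : 1 ≤ B) (h0 : 1 ≤ X0) (h1 : 1 ≤ X1)
    (hσ : 2000000 * w * σ ≤ q)
    (hs : w * τ * l * (2000 * B ^ 2 * X0 + 200 * q * B * X1) ≤ B ^ 3 / (2 * V))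
    (hp : B ^ 3 / V - 3 * (16 * B ^ 2 * X0 + 2 * B * X1 + 2) ≤ p) (hc : p ≤ q ^ 2 * (H + S))
    (hS : S ≤ 24 * w * (1152 * (2 * B / q) ^ 3 / V * σ +
      τ * l * (16 * (2 * B / q) ^ 2 * X0 + 2 * (2 * B / q) * X1))) :
    B ^ 3 / (4 * V * q ^ 2) ≤ H := by
  have hq0 : 0 < q := by linarith
  have hB0 : 0 < B := by linarith
  set R := B ^ 3 / V with hR
  have hR0 : 0 < R := by positivity
  have e1 : q ^ 2 * (24 * w * (1152 * (2 * B / q) ^ 3 / V * σ +
      τ * l * (16 * (2 * B / q) ^ 2 * X0 + 2 * (2 * B / q) * X1))) =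
      221184 * (w * σ / q) * R + w * τ * l * (1536 * (B ^ 2 * X0) + 96 * (q * B * X1)) := by
    rw [hR]
    field_simp
    ring
  have e2 : w * σ / q ≤ 1 / 2000000 := by
    rw [div_le_div_iff₀ hq0 (by norm_num)]
    linarith
  have e3 : 221184 * (w * σ / q) * R ≤ R / 4 := by nlinarith
  have e4 : B ^ 3 / (2 * V) = R / 2 := by
    rw [hR]
    field_simp
  have a1 : 1 ≤ B ^ 2 * X0 := one_le_mul_of_one_le_of_one_le (one_le_pow₀ hB) h0
  have a2 : 1 ≤ B * X1 := one_le_mul_of_one_le_of_one_le hB h1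
  have a3 : 2 * (B * X1) ≤ q * B * X1 := by nlinarith
  have a4 : 1 ≤ w * τ * l :=
    one_le_mul_of_one_le_of_one_le (one_le_mul_of_one_le_of_one_le hw hτ) hl
  have a5 : 3 * (16 * B ^ 2 * X0 + 2 * B * X1 + 2) ≤ 464 * (B ^ 2 * X0) + 104 * (q * B * X1) := by
    nlinarith
  have a6 : 464 * (B ^ 2 * X0) + 104 * (q * B * X1) ≤
      w * τ * l * (464 * (B ^ 2 * X0) + 104 * (q * B * X1)) :=
    le_mul_of_one_le_left (by nlinarith) a4
  have a7 : q ^ 2 * S ≤ 221184 * (w * σ / q) * R +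
      w * τ * l * (1536 * (B ^ 2 * X0) + 96 * (q * B * X1)) := by
    rw [← e1]
    exact mul_le_mul_of_nonneg_left hS (by positivity)
  have a8 : R / 4 ≤ q ^ 2 * H := by
    rw [e4] at hs
    nlinarith
  have e5 : B ^ 3 / (4 * V * q ^ 2) = R / 4 / q ^ 2 := by
    rw [hR]
    field_simp
  rw [e5, div_le_iff₀ (by positivity)]
  linarith

theorem p_HIT (hGOOD : S_GOOD) (hFIB : S_FIB) (hTSUM : S_TSUM) (hMULTF : S_MULTF) (hMULTA : S_MULTA) :
    S_HIT := by
  intro T ma c m I q B X0 X1 hT hm hI hc hB h0 h1 hL1 hL2 hq hqm hσ h18 hs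
  classical
  have hB0 : 0 < B := by linarith
  have hq2 : (2 : ℝ) ≤ q := by exact_mod_cast hq.two_le
  obtain ⟨P, hP, hPc⟩ := hGOOD T ma c m I B X0 X1 hT hI hB0 (by linarith) (by linarith) hL1 hL2
  have hch : ∀ n : Fin 3 → ℤ, ∃ h : (ℕ × ℕ) × (ℤ × ℤ), n ∈ P →
      h ∈ FH m ×ˢ AH I ∧ InH T ma c m B h n := fun n => by
    by_cases hn : n ∈ P
    · obtain ⟨ρ, hρ, hd⟩ := ((hMULTF m hm).2.2 (uv ma c n) (n 2)).1
      obtain ⟨a, ha, hb⟩ := ((hMULTA I hI).2 B (Yv T n 1) (Yv T n 2)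
        ((norm_le_pi_norm (Yv T n) 1).trans (hP n hn).1)
        ((norm_le_pi_norm (Yv T n) 2).trans (hP n hn).1)).1
      exact ⟨(ρ, a), fun _ => ⟨Finset.mem_product.2 ⟨hρ, ha⟩, hd, hb⟩⟩
    · exact ⟨((0, 0), (0, 0)), fun h => absurd h hn⟩
  choose hf hhf using hch
  have hsub : P.image hf ⊆ FH m ×ˢ AH I := fun h hh => by
    obtain ⟨n, hn, rfl⟩ := Finset.mem_image.1 hh
    exact (hhf n hn).1
  have hQ : ∀ h : (ℕ × ℕ) × (ℤ × ℤ), ∃ Q : Finset (Fin 3 → ℤ), h ∈ P.image hf →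
      (∀ v ∈ Q, v ≠ 0 ∧ ‖Yv T v‖ ≤ 2 * B / q ∧ InH T ma c m (2 * B / q) h v) ∧
      (P.filter fun n => hf n = h).card ≤ q ^ 2 * (1 + Q.card) := fun h => by
    by_cases hh : h ∈ P.image hf
    · obtain ⟨Q, hQ⟩ := hFIB T ma c m I q B h (P.filter fun n => hf n = h) hm hI hc hq hqm h18
        (hsub hh) fun n hn => by
          obtain ⟨hn1, hn2⟩ := Finset.mem_filter.1 hn
          exact ⟨(hP n hn1).1, hn2 ▸ (hhf n hn1).2⟩
      exact ⟨Q, fun _ => hQ⟩
    · exact ⟨∅, fun h' => absurd h' hh⟩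
  choose Q hQ using hQ
  set Hs := P.image hf with hHs
  set U := Hs.biUnion Q with hU
  have c1 : P.card ≤ q ^ 2 * (Hs.card + ∑ h ∈ Hs, (Q h).card) := by
    rw [Finset.card_eq_sum_card_image hf P, Finset.card_eq_sum_ones Hs, ← Finset.sum_add_distrib,
      Finset.mul_sum]
    exact Finset.sum_le_sum fun h hh => (hQ h hh).2
  have c2 : ∑ h ∈ Hs, (Q h).card ≤ ∑ v ∈ U, mult T ma c m I (2 * B / q) v := by
    have e1 : ∑ h ∈ Hs, (Q h).card = ∑ h ∈ Hs, ∑ v ∈ U, if v ∈ Q h then 1 else 0 :=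
      Finset.sum_congr rfl fun h hh => by
        rw [← Finset.card_filter]
        congr 1
        ext v
        simp only [Finset.mem_filter]
        exact ⟨fun hv => ⟨Finset.mem_biUnion.2 ⟨h, hh, hv⟩, hv⟩, fun hv => hv.2⟩
    rw [e1, Finset.sum_comm]
    refine Finset.sum_le_sum fun v _ => ?_
    rw [← Finset.card_filter, mult]
    refine Finset.card_le_card fun h hh => ?_
    obtain ⟨hh1, hh2⟩ := Finset.mem_filter.1 hh
    exact Finset.mem_filter.2 ⟨hsub hh1, ((hQ h hh1).1 v hh2).2.2⟩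
  have c3 := hTSUM T ma c m I (2 * B / q) X0 X1 U hT hm hI hc (by positivity) (by linarith)
    (by linarith) hL1 hL2 fun v hv => by
      obtain ⟨h, hh, hv'⟩ := Finset.mem_biUnion.1 hv
      exact ⟨((hQ h hh).1 v hv').1, ((hQ h hh).1 v hv').2.1⟩
  refine ⟨Hs, hsub, ?_, fun h hh => ?_⟩
  · have hτ : (1 : ℝ) ≤ m.divisors.card := by
      exact_mod_cast Finset.card_pos.2 ⟨1, Nat.one_mem_divisors.2 hm.ne'⟩
    refine HIT_num |T.det| (2 ^ m.primeFactors.card) (∑ g ∈ m.divisors, (g : ℝ)⁻¹) m.divisors.card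
      (Nat.log 2 I + 1) q B X0 X1 P.card Hs.card
      ((∑ v ∈ U, mult T ma c m I (2 * B / q) v : ℕ) : ℝ) (abs_pos.2 hT) (one_le_pow₀ one_le_two) hτ
      (by simp) hq2 hB h0 h1 hσ hs hPc ?_ c3
    exact_mod_cast c1.trans (Nat.mul_le_mul_left _ (Nat.add_le_add_left c2 _))
  · obtain ⟨n, hn, rfl⟩ := Finset.mem_image.1 hh
    exact ⟨n, (hP n hn).2, (hP n hn).1, (hhf n hn).2⟩

end Pool.Agent.P.MP_7aad9f_nt.Sz

end

section
/-! Step ARITH. -/

set_option autoImplicit false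

open Polynomial

namespace Pool.Agent.P.MP_7aad9f_nt.Sz

open Pool.Agent.P.MP_7aad9f_nt.Sub (Gen S_GENSEL S_OMEGA)

theorem p_ARITH :
    S_ARITH := by
  intro m hm
  refine ⟨fun Q hQ => ?_, ?_, ?_⟩
  · have h : ∀ i : ℕ, ∃ q, q.Prime ∧ 2 ^ i * Q < q ∧ q ≤ 2 * (2 ^ i * Q) := fun i =>
      Nat.exists_prime_lt_and_le_two_mul _ (by positivity)
    choose q h1 h2 h3 using h
    have hq : StrictMono q := strictMono_nat_of_lt_succ fun i =>
      (h3 i).trans_lt (by have := h2 (i + 1); rwa [pow_succ', mul_assoc] at this)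
    by_contra hc
    have h4 : ∀ i ∈ Finset.range (m.primeFactors.card + 1), q i ∈ m.primeFactors := fun i hi => by
      refine Nat.mem_primeFactors.2 ⟨h1 i, by_contra fun hn => hc ⟨q i, h1 i, hn, ?_, ?_⟩, hm.ne'⟩
      · exact (Nat.le_mul_of_pos_left _ (by positivity)).trans (h2 i).le
      · refine (h3 i).trans ?_
        rw [← mul_assoc, ← pow_succ']
        exact Nat.mul_le_mul_right _ (Nat.pow_le_pow_right two_pos (Finset.mem_range.1 hi))
    have := Finset.card_le_card_of_injOn q h4 hq.injective.injOn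
    rw [Finset.card_range] at this
    omega
  · rw [Nat.card_divisors hm.ne', Real.log_nat_eq_sum_factorization, Finsupp.sum, Finset.sum_div,
      Real.exp_sum, Nat.support_factorization, ← Finset.prod_const, ← Finset.prod_mul_distrib,
      Nat.cast_prod]
    refine Finset.prod_le_prod (fun _ _ => Nat.cast_nonneg _) fun p hp => ?_
    have h2 : (2 : ℝ) ≤ p := by exact_mod_cast (Nat.prime_of_mem_primeFactors hp).two_le
    have h3 := Real.log_le_log two_pos h2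
    have h4 := Real.log_two_gt_d9
    have h5 := Real.add_one_le_exp ((m.factorization p : ℝ) * Real.log p / 4)
    have h6 : (0 : ℝ) ≤ m.factorization p := Nat.cast_nonneg _
    push_cast
    nlinarith
  · refine le_trans ?_ (harmonic_le_one_add_log m)
    rw [harmonic_eq_sum_Icc, Rat.cast_sum]
    simp only [Rat.cast_inv, Rat.cast_natCast]
    exact Finset.sum_le_sum_of_subset_of_nonneg
      (fun g hg => Finset.mem_Icc.2 ⟨Nat.pos_of_mem_divisors hg, Nat.divisor_le hg⟩)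
      fun _ _ _ => by positivity

end Pool.Agent.P.MP_7aad9f_nt.Sz

end

section
/-! Step PIG. -/

set_option autoImplicit false

open Polynomial

namespace Pool.Agent.P.MP_7aad9f_nt.Sz

open Pool.Agent.P.MP_7aad9f_nt.Sub (Gen S_GENSEL S_OMEGA)

theorem p_PIG :
    S_PIG := by
  classical
  intro Ho S Hol Hs cl J M0 n N h hlt
  have h1 : ((J : ℝ) + 1) * N ≤ (((Finset.range (J + 1)).sigma Hs).card : ℝ) := by
    rw [Finset.card_sigma]
    push_cast
    have h2 := Finset.card_nsmul_le_sum (Finset.range (J + 1)) (fun j => ((Hs j).card : ℝ)) N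
      fun j hj => (h j (Nat.lt_succ_iff.1 (Finset.mem_range.1 hj))).2.1
    simpa using h2
  obtain ⟨y, -, hy⟩ := Finset.exists_lt_card_fiber_of_mul_lt_card_of_maps_to
    (s := (Finset.range (J + 1)).sigma Hs)
    (t := Hol ×ˢ Fintype.piFinset fun _ : S => Finset.range n)
    (f := fun q => (q.2, fun p : S => cl q.1 p)) (n := M0)
    (fun q hq => by
      obtain ⟨hj, hh⟩ := Finset.mem_sigma.1 hq
      have h3 := h q.1 (Nat.lt_succ_iff.1 (Finset.mem_range.1 hj))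
      exact Finset.mem_product.2 ⟨h3.1 hh,
        Fintype.mem_piFinset.2 fun p => Finset.mem_range.2 (h3.2.2 p p.2)⟩)
    (by
      rw [Finset.card_product, Fintype.card_piFinset]
      simp only [Finset.card_range, Finset.prod_const, Finset.card_univ, Fintype.card_coe]
      have h4 := hlt.trans_le h1
      have h5 : ((Hol.card * n ^ S.card * M0 : ℕ) : ℝ) = M0 * n ^ S.card * Hol.card := by
        push_cast; ring
      exact_mod_cast h5.trans_lt h4)
  refine ⟨y.1, fun p => if hp : p ∈ S then y.2 ⟨p, hp⟩ else 0,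
    (((Finset.range (J + 1)).sigma Hs).filter
      fun q => (q.2, fun p : S => cl q.1 p) = y).image fun q => q.1, ?_, fun j hj => ?_⟩
  · rw [Finset.card_image_of_injOn]
    · exact hy
    · rintro ⟨j, a⟩ ha ⟨j', a'⟩ ha' e
      have e1 := congrArg Prod.fst (Finset.mem_filter.1 ha).2
      have e2 := congrArg Prod.fst (Finset.mem_filter.1 ha').2
      simp only at e e1 e2
      rw [e, e1, e2]
  · obtain ⟨q, hq, rfl⟩ := Finset.mem_image.1 hj
    obtain ⟨hq, e⟩ := Finset.mem_filter.1 hq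
    obtain ⟨hj', hh⟩ := Finset.mem_sigma.1 hq
    clear hj hy
    subst e
    exact ⟨Nat.lt_succ_iff.1 (Finset.mem_range.1 hj'), hh, fun p hp => by simp [hp]⟩

end Pool.Agent.P.MP_7aad9f_nt.Sz

end

section
/-! Step EVA. -/

set_option autoImplicit false

open Polynomial

namespace Pool.Agent.P.MP_7aad9f_nt.Sz

open Pool.Agent.P.MP_7aad9f_nt.Sub (Gen S_GENSEL S_OMEGA)

theorem EVA_idx (σ : Fin 3) :
    σ + 1 + 1 = σ + 2 ∧ σ + 1 + 2 = σ ∧ σ + 2 + 1 = σ ∧ σ + 2 + 2 = σ + 1 := by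
  revert σ; decide

theorem EVA_cases (σ s : Fin 3) : s = σ ∨ s = σ + 1 ∨ s = σ + 2 := by
  revert σ s; decide

theorem EVA_map_yv {K : Type} [Field K] (φ : K →+* ℂ) (ma mr : ℕ) (c : ℤ) (n : Fin 3 → ℤ)
    (e : K) : φ (yv ma mr c n e) = yv ma mr c n (φ e) := by
  simp [yv, map_ofNat]

section
variable {K : Type} [Field K] (C : Cfg K)

theorem EVA_M_pos : 0 < C.M := by
  have := C.τ_pos
  have := abs_nonneg C.es
  unfold Cfg.M Mf
  positivity

theorem EVA_d0 (i : Fin C.Pl.d) : C.Pl.φ i (C.δ (C.σa i)) = 2 * C.ι i * C.τ := by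
  unfold Cfg.δ dl
  rw [map_sub, C.arch1, C.arch2]; ring

theorem EVA_d1 (i : Fin C.Pl.d) :
    C.Pl.φ i (C.δ (C.σa i + 1)) = -(3 * (C.es : ℂ) / 2 + C.ι i * C.τ) := by
  unfold Cfg.δ dl
  rw [(EVA_idx _).1, (EVA_idx _).2.1, map_sub, C.arch0, C.arch2]; ring

theorem EVA_d2 (i : Fin C.Pl.d) :
    C.Pl.φ i (C.δ (C.σa i + 2)) = 3 * (C.es : ℂ) / 2 - C.ι i * C.τ := by
  unfold Cfg.δ dl
  rw [(EVA_idx _).2.2.1, (EVA_idx _).2.2.2, map_sub, C.arch0, C.arch1]; ring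

theorem EVA_disc : 9 * C.es ^ 2 / 4 - C.sg * C.τ ^ 2 ≠ 0 := by
  intro h
  have := C.V_ge
  unfold Vf at this
  rw [h] at this
  norm_num at this

theorem EVA_n1 (i : Fin C.Pl.d) : ‖C.ι i * C.τ‖ = C.τ := by
  rw [norm_mul, C.ι_norm, one_mul, Complex.norm_real, Real.norm_eq_abs, abs_of_pos C.τ_pos]

theorem EVA_n2 : ‖3 * (C.es : ℂ) / 2‖ = 3 * |C.es| / 2 := by
  rw [norm_div, norm_mul, Complex.norm_real, Real.norm_eq_abs]
  norm_num

theorem EVA_n0 (i : Fin C.Pl.d) : ‖C.Pl.φ i (C.δ (C.σa i))‖ = 2 * C.τ := by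
  rw [EVA_d0, mul_assoc, norm_mul, EVA_n1]
  norm_num

theorem EVA_ne (s : Fin 3) : C.δ s ≠ 0 := by
  let i : Fin C.Pl.d := ⟨0, C.Pl.d_pos⟩
  have hp : C.Pl.φ i (C.δ (C.σa i + 1)) * C.Pl.φ i (C.δ (C.σa i + 2)) ≠ 0 := by
    rw [EVA_d1, EVA_d2]
    have h : -(3 * (C.es : ℂ) / 2 + C.ι i * C.τ) * (3 * (C.es : ℂ) / 2 - C.ι i * C.τ) =
        -((9 * C.es ^ 2 / 4 - C.sg * C.τ ^ 2 : ℝ) : ℂ) := by
      push_cast
      linear_combination (C.τ : ℂ) ^ 2 * C.ι_sq i
    rw [h]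
    exact neg_ne_zero.mpr (Complex.ofReal_ne_zero.mpr (EVA_disc C))
  intro h0
  rcases EVA_cases (C.σa i) s with h | h | h
  · have := EVA_n0 C i
    rw [← h, h0, map_zero, norm_zero] at this
    have := C.τ_pos
    linarith
  · rw [← h, h0, map_zero, zero_mul] at hp
    exact hp rfl
  · rw [← h, h0, map_zero, mul_zero] at hp
    exact hp rfl

theorem EVA_le (i : Fin C.Pl.d) (s : Fin 3) : ‖C.Pl.φ i (C.δ s)‖ ≤ C.M := by
  have h1 := C.τ_pos
  have h2 := abs_nonneg C.es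
  unfold Cfg.M Mf
  rcases EVA_cases (C.σa i) s with h | h | h
  · rw [h, EVA_n0]; linarith
  · rw [h, EVA_d1, norm_neg]
    have := norm_add_le (3 * (C.es : ℂ) / 2) (C.ι i * C.τ)
    rw [EVA_n1, EVA_n2] at this
    linarith
  · rw [h, EVA_d2]
    have := norm_sub_le (3 * (C.es : ℂ) / 2) (C.ι i * C.τ)
    rw [EVA_n1, EVA_n2] at this
    linarith

theorem EVA_ma_pos (θ j : ℕ) : 0 < C.ma θ j :=
  Finset.prod_pos fun p hp => pow_pos (C.prime p hp).pos _

theorem EVA_cube (θ j : ℕ) : C.r θ j ^ 3 * C.ϖ θ ^ j = C.ma θ j := by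
  have hm : (0 : ℝ) < C.ma θ j := by exact_mod_cast EVA_ma_pos C θ j
  unfold Cfg.r Cfg.ϖ
  rw [← Real.exp_nat_mul, ← Real.exp_nat_mul, ← Real.exp_add]
  have : ((3 : ℕ) : ℝ) * ((Real.log (C.ma θ j) + j * (C.la / θ)) / 3) + j * -(C.la / θ) =
      Real.log (C.ma θ j) := by
    push_cast; ring
  rw [this, Real.exp_log hm]

theorem EVA_det (θ j : ℕ) : |(C.T θ j).det| = C.V := by
  have hr : 0 < C.r θ j := Real.exp_pos _
  have hw : 0 < C.ϖ θ ^ j := pow_pos (Real.exp_pos _) _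
  have hmr : (0 : ℝ) < C.mr := by exact_mod_cast C.mr_pos
  have hd : (C.T θ j).det = C.τ * (9 * C.es ^ 2 / 4 - C.sg * C.τ ^ 2) / C.mr := by
    unfold Cfg.T
    rw [Matrix.det_fin_three, ← EVA_cube C θ j]
    simp only [Matrix.of_apply, Matrix.cons_val', Matrix.cons_val_zero, Matrix.cons_val_one,
      Matrix.cons_val_two, Matrix.cons_val_fin_one, Matrix.head_cons, Matrix.tail_cons,
      Matrix.empty_val', Matrix.head_fin_const]
    generalize C.ϖ θ ^ j = w at hw ⊢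
    field_simp
    ring
  rw [hd, abs_div, abs_mul, abs_of_pos C.τ_pos, abs_of_pos hmr]
  rfl

theorem EVA_mem (θ j : ℕ) (n : Fin 3 → ℤ) (s : Fin 3) : C.y θ j n s ∈ C.Pl.O := by
  unfold Cfg.y yv
  have h2 : (2 : K) * C.c ∈ C.Pl.O := by
    have := intCast_mem C.Pl.O (2 * C.c)
    push_cast at this
    exact this
  have h1 := add_mem (C.e_mem s) h2
  rw [div_eq_mul_inv]
  exact add_mem (add_mem (mul_mem (intCast_mem _ _) (natCast_mem _ _))
    (mul_mem (intCast_mem _ _) h1)) (mul_mem (intCast_mem _ _)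
      (mul_mem (mul_mem h1 (sub_mem (C.e_mem s) (intCast_mem _ _))) C.mr_mem))

theorem EVA_Y0 (θ j : ℕ) (n : Fin 3 → ℤ) : C.r θ j * C.ϖ θ ^ j * Yv (C.T θ j) n 0 =
    n 0 * C.ma θ j + n 1 * (C.es + 2 * C.c) +
      n 2 * ((C.es + 2 * C.c) * (C.es - C.c) / C.mr) := by
  have hr : 0 < C.r θ j := Real.exp_pos _
  have hw : 0 < C.ϖ θ ^ j := pow_pos (Real.exp_pos _) _
  have hmr : (0 : ℝ) < C.mr := by exact_mod_cast C.mr_pos
  unfold Yv Cfg.T
  simp only [Matrix.mulVec, dotProduct, Fin.sum_univ_three, Matrix.of_apply, Matrix.cons_val',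
    Matrix.cons_val_zero, Matrix.cons_val_one, Matrix.cons_val_two, Matrix.cons_val_fin_one,
    Matrix.head_cons, Matrix.tail_cons, Matrix.empty_val', Matrix.head_fin_const]
  generalize C.ϖ θ ^ j = w at hw ⊢
  field_simp

theorem EVA_Y1 (θ j : ℕ) (n : Fin 3 → ℤ) : C.r θ j * Yv (C.T θ j) n 1 =
    n 0 * C.ma θ j + n 1 * (-C.es / 2 + 2 * C.c) +
      n 2 * (((-C.es / 2 + 2 * C.c) * (-C.es / 2 - C.c) + C.sg * C.τ ^ 2) / C.mr) := by
  have hr : 0 < C.r θ j := Real.exp_pos _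
  have hmr : (0 : ℝ) < C.mr := by exact_mod_cast C.mr_pos
  unfold Yv Cfg.T
  simp only [Matrix.mulVec, dotProduct, Fin.sum_univ_three, Matrix.of_apply, Matrix.cons_val',
    Matrix.cons_val_zero, Matrix.cons_val_one, Matrix.cons_val_two, Matrix.cons_val_fin_one,
    Matrix.head_cons, Matrix.tail_cons, Matrix.empty_val', Matrix.head_fin_const]
  field_simp

theorem EVA_Y2 (θ j : ℕ) (n : Fin 3 → ℤ) : C.r θ j * Yv (C.T θ j) n 2 =
    n 1 * C.τ + n 2 * (C.τ * (C.c - C.es) / C.mr) := by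
  have hr : 0 < C.r θ j := Real.exp_pos _
  have hmr : (0 : ℝ) < C.mr := by exact_mod_cast C.mr_pos
  unfold Yv Cfg.T
  simp only [Matrix.mulVec, dotProduct, Fin.sum_univ_three, Matrix.of_apply, Matrix.cons_val',
    Matrix.cons_val_zero, Matrix.cons_val_one, Matrix.cons_val_two, Matrix.cons_val_fin_one,
    Matrix.head_cons, Matrix.tail_cons, Matrix.empty_val', Matrix.head_fin_const]
  field_simp
  ring

end

theorem p_EVA :
    S_EVA := by
  intro K _ _ C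
  have hM := EVA_M_pos C
  have hτ := C.τ_pos
  refine ⟨hM, ?_, fun s => ⟨EVA_ne C s, sub_mem (C.e_mem _) (C.e_mem _)⟩, ?_, EVA_le C, ?_,
    fun θ j => ⟨EVA_det C θ j, fun n => ⟨EVA_mem C θ j n, fun i => ?_⟩⟩⟩
  · apply Real.log_nonneg
    rw [le_div_iff₀ (by positivity)]
    have := abs_nonneg C.es
    unfold Cfg.M Mf
    linarith
  · have h1 : ((0 : Fin 3) + 1 = 1) := by decide
    have h2 : ((0 : Fin 3) + 2 = 2) := by decide
    have h3 : ((1 : Fin 3) + 1 = 2) := by decide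
    have h4 : ((1 : Fin 3) + 2 = 0) := by decide
    have h5 : ((2 : Fin 3) + 1 = 0) := by decide
    have h6 : ((2 : Fin 3) + 2 = 1) := by decide
    unfold Cfg.δ dl
    rw [h1, h2, h3, h4, h5, h6]
    ring
  · intro i
    rw [EVA_n0, Real.exp_neg]
    unfold Cfg.la
    rw [Real.exp_log (by positivity)]
    field_simp
  · have e1 : (C.r θ j : ℂ) * (Yv (C.T θ j) n 1 : ℝ) = n 0 * C.ma θ j +
        n 1 * (-C.es / 2 + 2 * C.c) +
        n 2 * (((-C.es / 2 + 2 * C.c) * (-C.es / 2 - C.c) + C.sg * C.τ ^ 2) / C.mr) := by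
      have := congrArg (fun x : ℝ => (x : ℂ)) (EVA_Y1 C θ j n)
      push_cast at this
      exact this
    have e2 : (C.r θ j : ℂ) * (Yv (C.T θ j) n 2 : ℝ) =
        n 1 * C.τ + n 2 * (C.τ * (C.c - C.es) / C.mr) := by
      have := congrArg (fun x : ℝ => (x : ℂ)) (EVA_Y2 C θ j n)
      push_cast at this
      exact this
    refine ⟨?_, ?_, ?_⟩
    · rw [EVA_Y0]
      unfold Cfg.y
      rw [EVA_map_yv, C.arch0]
      unfold yv
      push_cast
      ring
    · unfold Cfg.y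
      rw [EVA_map_yv, C.arch1]
      unfold yv
      linear_combination -e1 - C.ι i * e2 + n 2 * (C.τ : ℂ) ^ 2 / C.mr * C.ι_sq i
    · unfold Cfg.y
      rw [EVA_map_yv, C.arch2]
      unfold yv
      linear_combination -e1 + C.ι i * e2 + n 2 * (C.τ : ℂ) ^ 2 / C.mr * C.ι_sq i

end Pool.Agent.P.MP_7aad9f_nt.Sz

end

section
/-! Step EVP. -/

set_option autoImplicit false

open Polynomial

namespace Pool.Agent.P.MP_7aad9f_nt.Sz

open Pool.Agent.P.MP_7aad9f_nt.Sub (Gen S_GENSEL S_OMEGA)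

section
variable {K : Type} [Field K] {w : AbsoluteValue K ℝ} {a b : K} {h : ℝ}

theorem EVP_add (na : IsNonarchimedean w) (h1 : w a ≤ h) (h2 : w b ≤ h) : w (a + b) ≤ h :=
  (na a b).trans (max_le h1 h2)

theorem EVP_sub (na : IsNonarchimedean w) (h1 : w a ≤ h) (h2 : w b ≤ h) : w (a - b) ≤ h := by
  rw [sub_eq_add_neg]
  exact EVP_add na h1 (by rwa [w.map_neg])

theorem EVP_mul (h1 : w a ≤ 1) (h2 : w b ≤ h) : w (a * b) ≤ h := by
  rw [map_mul]
  exact (mul_le_of_le_one_left (w.nonneg _) h1).trans h2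

end

theorem EVP_ma {K : Type} [Field K] (C : Cfg K) {p : ℕ} (hp : p ∈ C.S) (θ g : ℕ)
    (h : g ∣ C.ma θ 1) : g.factorization p ≤ C.av θ 1 p := by
  have h1 := (Nat.ordProj_dvd g p).trans h
  rw [Cfg.ma, ← Finset.mul_prod_erase _ _ hp] at h1
  refine (Nat.pow_dvd_pow_iff_le_right (C.prime p hp).one_lt).1
    (Nat.Coprime.dvd_of_dvd_mul_right (Nat.Coprime.pow_left _ ?_) h1)
  exact Nat.Coprime.prod_right fun q hq => Nat.Coprime.pow_right _ ((Nat.coprime_primes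
    (C.prime p hp) (C.prime q (Finset.mem_of_mem_erase hq))).2 (Finset.ne_of_mem_erase hq).symm)

theorem EVP_av {K : Type} [Field K] (C : Cfg K) {p θ j t : ℕ} (hj : j ≤ θ)
    (ht : t ≤ C.av θ j p) : Real.exp (-C.lp p) ≤ Real.exp (-(t * Real.log p)) := by
  have h1 : C.av θ j p ≤ C.n p / 2 := by
    rcases Nat.eq_zero_or_pos θ with rfl | h
    · simp [Cfg.av]
    · rw [← Nat.mul_div_mul_left _ _ h, mul_comm θ 2]
      exact Nat.div_le_div_right (Nat.mul_le_mul_right _ hj)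
  have h2 : (2 * t : ℝ) ≤ C.n p := by exact_mod_cast (by omega : 2 * t ≤ C.n p)
  have h3 := Real.log_natCast_nonneg p
  rw [Real.exp_le_exp, Cfg.lp]
  nlinarith

theorem p_EVP :
    S_EVP := by
  intro K _ _ C p hp i
  have na := C.Pl.na p hp i
  obtain ⟨l1, l2, l3, l4⟩ := C.loc p hp i
  have z : ∀ a : ℤ, C.Pl.W p i a ≤ 1 := fun a => na.apply_intCast_le_one
  have h0 : (0 : ℝ) < p := by exact_mod_cast (C.prime p hp).pos
  have k : ∀ (a : ℤ) (t : ℕ), (p : ℤ) ^ t ∣ a →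
      C.Pl.W p i (a : K) ≤ Real.exp (-(t * Real.log p)) := by
    rintro _ t ⟨b, rfl⟩
    rw [mul_comm, Int.cast_mul]
    refine EVP_mul (z b) (le_of_eq ?_)
    rw [Int.cast_pow, Int.cast_natCast, map_pow, C.Pl.val_p p hp, Real.exp_neg, Real.exp_nat_mul,
      Real.exp_log h0, inv_pow]
  have n1 : ∀ σ : Fin 3, σ + 1 ≠ σ ∧ σ + 2 ≠ σ := by decide
  refine ⟨k, fun s => EVP_sub na (l1 _) (l1 _), ?_, fun s hs => (l4 s hs).2.2,
    fun θ j h1 hj n => ⟨?_, fun s hs => ?_⟩⟩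
  · have := EVP_sub na (l4 _ (n1 _).1).1 (l4 _ (n1 _).2).1
    rwa [sub_sub_sub_cancel_right] at this
  · have e := EVP_av (p := p) C hj le_rfl
    refine EVP_add na (EVP_add na (EVP_mul (z _) ?_) (EVP_mul (z _) (l2.trans e)))
      (EVP_mul (z _) (l3.trans e))
    rw [← Int.cast_natCast]
    exact k _ _ (by exact_mod_cast Finset.dvd_prod_of_mem (fun p => p ^ C.av θ j p) hp)
  · have e : C.Pl.W p i (C.y θ j n s - ((uv (C.ma θ j) C.c n : ℤ) + n 2 * C.ξ s)) ≤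
        Real.exp (-C.lp p) := by
      have := EVP_add na (EVP_mul (z (n 1)) (l4 s hs).1) (EVP_mul (z (n 2)) (l4 s hs).2.1)
      refine (congrArg _ ?_).trans_le this
      simp only [Cfg.y, yv, uv, Cfg.ξ]
      push_cast
      ring
    refine ⟨e, fun g g1 g2 g3 => ?_⟩
    have d : (p : ℤ) ^ g.factorization p ∣ g := by exact_mod_cast Nat.ordProj_dvd g p
    have := EVP_add na (e.trans (EVP_av C h1 (EVP_ma C hp θ g g1))) (EVP_add na
      (k _ _ (d.trans g2)) (EVP_mul (l4 s hs).2.2 (k _ _ (d.trans g3))))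
    rwa [mul_comm _ (n 2 : K), ← Cfg.ξ, sub_add_cancel] at this

end Pool.Agent.P.MP_7aad9f_nt.Sz

end
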