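import Pool.Agent.P.MP_7aad9f_nt.Sz.If

section
/-! Step BAL. -/

set_option autoImplicit false

open Polynomial

namespace Pool.Agent.P.MP_7aad9f_nt.Sz

open Pool.Agent.P.MP_7aad9f_nt.Sub (Gen S_GENSEL S_OMEGA)

theorem p_BAL (hEVA : S_EVA) (hEVP : S_EVP) :
    S_BAL := by
  intro K _ _ C
  obtain ⟨hM, -, hδ, -, h1, h2, -⟩ := hEVA K C
  obtain ⟨A, hA⟩ : ∃ A : Fin 3 → ℝ, ∀ s, A s = ∑ i, (if C.σa i = s then C.la else 0) +
      ∑ p ∈ C.S, ∑ i, (if C.σ p i = s then C.lp p else 0) := ⟨_, fun _ => rfl⟩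
  have hH : Real.exp C.H = C.M := Real.exp_log hM
  have up : ∀ s, A s ≤ C.Pl.d * C.H := fun s => by
    have h3 := C.Pl.pf _ (hδ s).2 (hδ s).1
    have h4 : ∏ i, ‖C.Pl.φ i (C.δ s)‖ ≤
        Real.exp (∑ i, (C.H - if C.σa i = s then C.la else 0)) := by
      rw [Real.exp_sum]
      refine Finset.prod_le_prod (fun _ _ => norm_nonneg _) fun i _ => ?_
      split_ifs with h
      · rw [← h, h2, sub_eq_add_neg, Real.exp_add, hH]
      · rw [sub_zero, hH]; exact h1 i s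
    have h5 : ∏ p ∈ C.S, ∏ i, C.Pl.W p i (C.δ s) ≤
        Real.exp (∑ p ∈ C.S, ∑ i, -(if C.σ p i = s then C.lp p else 0)) := by
      rw [Real.exp_sum]
      refine Finset.prod_le_prod (fun _ _ => Finset.prod_nonneg fun _ _ => apply_nonneg _ _)
        fun p hp => ?_
      rw [Real.exp_sum]
      refine Finset.prod_le_prod (fun _ _ => apply_nonneg _ _) fun i _ => ?_
      obtain ⟨-, g1, g2, -⟩ := hEVP K C p hp i
      split_ifs with h
      · rw [← h]; exact g2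
      · rw [neg_zero, Real.exp_zero]; exact g1 s
    have h6 := h3.trans (mul_le_mul h4 h5
      (Finset.prod_nonneg fun _ _ => Finset.prod_nonneg fun _ _ => apply_nonneg _ _)
      (Real.exp_pos _).le)
    rw [← Real.exp_add, Real.one_le_exp_iff, Finset.sum_sub_distrib] at h6
    simp only [Finset.sum_neg_distrib, Finset.sum_const, Finset.card_univ, Fintype.card_fin,
      nsmul_eq_mul] at h6
    rw [hA]
    linarith
  have sm : A 0 + A 1 + A 2 = C.Pl.d * C.Lam := by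
    rw [← Fin.sum_univ_three]
    simp only [hA, Finset.sum_add_distrib]
    rw [Finset.sum_comm, Finset.sum_comm (s := Finset.univ) (t := C.S)]
    rw [Finset.sum_congr rfl fun p _ => Finset.sum_comm (s := Finset.univ) (t := Finset.univ)]
    simp only [Finset.sum_ite_eq, Finset.mem_univ, if_true, Finset.sum_const, Finset.card_univ,
      Fintype.card_fin, nsmul_eq_mul, Cfg.Lam, mul_add, Finset.mul_sum]
  have hd : (0 : ℝ) < C.Pl.d := by exact_mod_cast C.Pl.d_pos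
  have hL : 3 * C.H - C.η ≤ C.Lam := C.lam_lb
  have h7 : C.Lam ≤ 3 * C.H := le_of_mul_le_mul_left (by linarith [up 0, up 1, up 2]) hd
  have h8 := mul_le_mul_of_nonneg_left hL hd.le
  refine ⟨h7, by linarith, fun s => ?_⟩
  rw [← hA]
  refine ⟨?_, up s⟩
  fin_cases s <;> simp only [Fin.zero_eta, Fin.mk_one, Fin.reduceFinMk] <;>
    linarith [up 0, up 1, up 2]

end Pool.Agent.P.MP_7aad9f_nt.Sz

end

section
/-! Step ANCH. -/

set_option autoImplicit false

open Polynomial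

namespace Pool.Agent.P.MP_7aad9f_nt.Sz

open Pool.Agent.P.MP_7aad9f_nt.Sub (Gen S_GENSEL S_OMEGA)

theorem ANCH_nz (ι : ℂ) (sg a b : ℝ) (hsg : sg = 1 ∨ sg = -1) (hι : ι ^ 2 = (sg : ℂ))
    (h1 : a ≠ b) (h2 : a ≠ -b) : (a : ℂ) + ι * b ≠ 0 := by
  intro h
  have e1 : (a : ℂ) = -(ι * b) := eq_neg_of_add_eq_zero_left h
  have e2 : ((a ^ 2 : ℝ) : ℂ) = ((sg * b ^ 2 : ℝ) : ℂ) := by
    push_cast
    rw [e1, ← hι]
    ring
  have e3 : a ^ 2 = sg * b ^ 2 := by exact_mod_cast e2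
  rcases hsg with rfl | rfl
  · have : (a - b) * (a + b) = 0 := by linarith [e3, sq_sub_sq a b, mul_comm (a - b) (a + b)]
    rcases mul_eq_zero.1 this with h3 | h3
    · exact h1 (by linarith)
    · exact h2 (by linarith)
  · have ha : a = 0 := by nlinarith [sq_nonneg a, sq_nonneg b]
    have hb : b = 0 := by nlinarith [sq_nonneg a, sq_nonneg b]
    exact h1 (ha.trans hb.symm)

theorem ANCH_three (σ s : Fin 3) : s = σ ∨ s = σ + 1 ∨ s = σ + 2 := by
  revert σ s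
  decide

theorem ANCH_ne (σ : Fin 3) : σ + 2 ≠ σ + 1 := by
  revert σ
  decide

theorem ANCH_dir (I : ℕ) (hI : 0 < I) (a : ℤ × ℤ) (ha : a ∈ AH I) :
    ∃ α β : ℝ, |α| ≤ 1 ∧ |β| ≤ 1 ∧ ∀ (Y : Fin 3 → ℝ) (B : ℝ), ‖Y‖ ≤ B →
      |a.1 * Y 2 - a.2 * Y 1| ≤ B → ∃ u : ℝ, |u| ≤ B ∧ |Y 1 - u * α| + |Y 2 - u * β| ≤ B / I := by
  simp only [AH, Finset.mem_filter, Finset.mem_product, Finset.mem_Icc] at ha
  obtain ⟨⟨⟨h1, h2⟩, h3, h4⟩, h5⟩ := ha
  have hI' : (0 : ℝ) < I := by exact_mod_cast hI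
  have key : ∀ x : ℤ, -(I : ℤ) ≤ x → x ≤ I → |(x : ℝ) / I| ≤ 1 := by
    intro x hx hx'
    rw [abs_div, abs_of_pos hI', div_le_one hI', abs_le]
    exact ⟨by exact_mod_cast hx, by exact_mod_cast hx'⟩
  rcases h5 with h5 | h5
  · refine ⟨1, a.2 / I, by simp, key _ h3 h4, fun Y B hY hB => ⟨Y 1, ?_, ?_⟩⟩
    · exact (norm_le_pi_norm Y 1).trans hY
    · have e : Y 2 - Y 1 * (a.2 / I) = (a.1 * Y 2 - a.2 * Y 1) / I := by
        rw [h5]
        push_cast
        field_simp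
      rw [e, mul_one, sub_self, abs_zero, zero_add, abs_div, abs_of_pos hI']
      exact div_le_div_of_nonneg_right hB hI'.le
  · refine ⟨a.1 / I, 1, key _ h1 h2, by simp, fun Y B hY hB => ⟨Y 2, ?_, ?_⟩⟩
    · exact (norm_le_pi_norm Y 2).trans hY
    · have e : Y 1 - Y 2 * (a.1 / I) = -(a.1 * Y 2 - a.2 * Y 1) / I := by
        rw [h5]
        push_cast
        field_simp
        ring
      rw [e, mul_one, sub_self, abs_zero, add_zero, abs_div, abs_of_pos hI', abs_neg]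
      exact div_le_div_of_nonneg_right hB hI'.le

theorem ANCH_err (ι : ℂ) (hι : ‖ι‖ = 1) (r u α β a b E : ℝ) (hr : 0 ≤ r)
    (hE : |a - u * α| + |b - u * β| ≤ E) :
    ‖(r : ℂ) * ((a : ℂ) + ι * b) - ((r * u : ℝ) : ℂ) * ((α : ℂ) + ι * β)‖ ≤ r * E := by
  have e : (r : ℂ) * ((a : ℂ) + ι * b) - ((r * u : ℝ) : ℂ) * ((α : ℂ) + ι * β) =
      (r : ℂ) * (((a - u * α : ℝ) : ℂ) + ι * ((b - u * β : ℝ) : ℂ)) := by
    push_cast
    ring
  rw [e, norm_mul, Complex.norm_real, Real.norm_eq_abs, abs_of_nonneg hr]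
  refine mul_le_mul_of_nonneg_left ((norm_add_le _ _).trans ?_) hr
  rw [norm_mul, hι, one_mul, Complex.norm_real, Complex.norm_real]
  exact hE

theorem ANCH_two (ι : ℂ) (hι : ‖ι‖ = 1) (α β : ℝ) (hα : |α| ≤ 1) (hβ : |β| ≤ 1) :
    ‖(α : ℂ) + ι * β‖ ≤ 2 := by
  refine (norm_add_le _ _).trans ?_
  rw [norm_mul, hι, one_mul, Complex.norm_real, Complex.norm_real, Real.norm_eq_abs,
    Real.norm_eq_abs]
  linarith

theorem ANCH_fin (m p b : ℕ) (hm : m ≠ 0) (hp : p.Prime) (hb : p ^ b ∣ m) (ρ : ℕ × ℕ)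
    (hρ : ρ ∈ FH m) (u γ : ℤ) (hd : (m : ℤ) ∣ ρ.1 * γ - ρ.2 * u) :
    ∃ t : ℤ, (p : ℤ) ^ b ∣ u - t * ρ.1 ∧ (p : ℤ) ^ b ∣ γ - t * ρ.2 := by
  have hd' : (p : ℤ) ^ b ∣ ρ.1 * γ - ρ.2 * u := by
    refine dvd_trans ?_ hd
    exact_mod_cast hb
  have h1 : (p : ℤ) ^ b ∣ 1 - ρ.1 ∨ (p : ℤ) ^ b ∣ 1 - ρ.2 := by
    rcases Nat.eq_zero_or_pos b with rfl | hb0
    · simp
    · have hpm : p ∈ m.primeFactors :=
        Nat.mem_primeFactors.2 ⟨hp, (dvd_pow_self p hb0.ne').trans hb, hm⟩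
      have hle : b ≤ m.factorization p := (hp.pow_dvd_iff_le_factorization hm).1 hb
      have hdv : (p : ℤ) ^ b ∣ ((p ^ m.factorization p : ℕ) : ℤ) := by
        push_cast
        exact pow_dvd_pow _ hle
      rcases (Finset.mem_filter.1 hρ).2 p hpm with h | h
      · exact Or.inl (hdv.trans (by simpa using h.dvd))
      · exact Or.inr (hdv.trans (by simpa using h.dvd))
  rcases h1 with h1 | h1
  · refine ⟨u, ?_, ?_⟩
    · have : u - u * ρ.1 = u * (1 - ρ.1) := by ring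
      rw [this]
      exact h1.mul_left _
    · have : γ - u * ρ.2 = (ρ.1 * γ - ρ.2 * u) + γ * (1 - ρ.1) := by ring
      rw [this]
      exact hd'.add (h1.mul_left _)
  · refine ⟨γ, ?_, ?_⟩
    · have : u - γ * ρ.1 = u * (1 - ρ.2) - (ρ.1 * γ - ρ.2 * u) := by ring
      rw [this]
      exact (h1.mul_left _).sub hd'
    · have : γ - γ * ρ.2 = γ * (1 - ρ.2) := by ring
      rw [this]
      exact h1.mul_left _

theorem ANCH_pow (x : ℝ) (θ : ℕ) (hθ : 0 < θ) : Real.exp (-(x / θ)) ^ θ = Real.exp (-x) := by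
  have : (θ : ℝ) ≠ 0 := by exact_mod_cast hθ.ne'
  rw [← Real.exp_nat_mul]
  congr 1
  field_simp

theorem p_ANCH (hEVA : S_EVA) (hEVP : S_EVP) :
    S_ANCH := by
  intro K _ _ C θ k j nn h B A hθ hj hh hn hA
  obtain ⟨hM, hla, hδ, hsum, hδM, hδσ, hT⟩ := hEVA K C
  obtain ⟨hF, hAH⟩ := Finset.mem_product.1 hh
  have hr : ∀ i, 0 < C.r θ (j i) := fun i => Real.exp_pos _
  have hϖ : 0 < C.ϖ θ := Real.exp_pos _
  refine ⟨fun i s h0 => ?_, fun v => ?_, fun p hp v => ?_⟩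
  · let v : Fin C.Pl.d := ⟨0, C.Pl.d_pos⟩
    obtain ⟨e0, e1, e2⟩ := ((hT θ (j i)).2 (nn i)).2 v
    obtain ⟨g0, g1, g2⟩ := (hn i).1
    have hr' : (C.r θ (j i) : ℂ) ≠ 0 := by exact_mod_cast (hr i).ne'
    rcases ANCH_three (C.σa v) s with rfl | rfl | rfl
    · rw [h0, map_zero] at e0
      have : C.r θ (j i) * C.ϖ θ ^ j i * Yv (C.T θ (j i)) (nn i) 0 = 0 := by
        exact_mod_cast e0.symm
      exact mul_ne_zero (mul_pos (hr i) (pow_pos hϖ _)).ne' g0 this
    · rw [h0, map_zero] at e1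
      exact mul_ne_zero hr' (ANCH_nz _ _ _ _ C.sg_pm (C.ι_sq v) g1 g2) e1.symm
    · rw [h0, map_zero, sub_eq_add_neg, ← neg_mul] at e2
      exact mul_ne_zero hr' (ANCH_nz _ _ _ _ C.sg_pm (by rw [neg_sq, C.ι_sq v]) g1 g2) e2.symm
  · have hI : Real.exp (C.la / θ) ≤ C.I θ := Nat.le_ceil _
    have hI0 : (0 : ℝ) < C.I θ := (Real.exp_pos _).trans_le hI
    have hI1 : 1 / (C.I θ : ℝ) ≤ C.ϖ θ := by
      unfold Cfg.ϖ
      rw [Real.exp_neg, ← one_div]
      exact one_div_le_one_div_of_le (Real.exp_pos _) hI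
    obtain ⟨α, β, hα, hβ, hu⟩ := ANCH_dir (C.I θ) (by exact_mod_cast hI0) h.2 hAH
    choose u hu1 hu2 using fun i => hu _ B (hn i).2.1 (hn i).2.2.2
    have hB : 0 ≤ B := (norm_nonneg _).trans (hn 0).2.1
    have hE : ∀ i, C.r θ (j i) * (B / C.I θ) ≤ C.ϖ θ * (C.r θ (j i) * B) := by
      intro i
      have := mul_le_mul_of_nonneg_right hI1 (mul_nonneg (hr i).le hB)
      calc C.r θ (j i) * (B / C.I θ) = 1 / (C.I θ : ℝ) * (C.r θ (j i) * B) := by ring
        _ ≤ _ := this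
    have hι' : ‖-C.ι v‖ = 1 := by rw [norm_neg, C.ι_norm]
    refine ⟨C.σa v, fun s => if s = C.σa v + 1 then (α : ℂ) + C.ι v * β else (α : ℂ) + -C.ι v * β,
      fun i => ((C.r θ (j i) * u i : ℝ) : ℂ), fun s => hδM v s, ?_, fun i => ?_, fun s => ?_,
      fun i => ?_, fun i s hs => ?_⟩
    · rw [cabs_apply, hδσ v]
      unfold Cfg.ϖ
      rw [ANCH_pow _ _ hθ]
    · beta_reduce
      rw [cabs_apply, (((hT θ (j i)).2 (nn i)).2 v).1, Complex.norm_real, norm_mul,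
        Real.norm_of_nonneg (mul_pos (hr i) (pow_pos hϖ _)).le]
      have h1 := (norm_le_pi_norm _ 0).trans (hn i).2.1
      calc _ ≤ C.r θ (j i) * C.ϖ θ ^ j i * B :=
            mul_le_mul_of_nonneg_left h1 (mul_pos (hr i) (pow_pos hϖ _)).le
        _ = _ := by ring
    · rw [cabs_apply]
      beta_reduce
      split_ifs
      · exact ANCH_two _ (C.ι_norm v) _ _ hα hβ
      · exact ANCH_two _ hι' _ _ hα hβ
    · rw [cabs_apply, Complex.norm_real, norm_mul, Real.norm_of_nonneg (hr i).le]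
      exact mul_le_mul_of_nonneg_left (hu1 i) (hr i).le
    · obtain ⟨e0, e1, e2⟩ := ((hT θ (j i)).2 (nn i)).2 v
      rcases ANCH_three (C.σa v) s with rfl | rfl | rfl
      · exact absurd rfl hs
      · rw [cabs_apply]
        simp only [if_true]
        rw [e1]
        exact (ANCH_err _ (C.ι_norm v) _ _ _ _ _ _ _ (hr i).le (hu2 i)).trans (hE i)
      · rw [cabs_apply]
        simp only [if_neg (ANCH_ne (C.σa v))]
        rw [e2, sub_eq_add_neg ((Yv (C.T θ (j i)) (nn i) 1 : ℝ) : ℂ), ← neg_mul]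
        exact (ANCH_err _ hι' _ _ _ _ _ _ _ (hr i).le (hu2 i)).trans (hE i)
  · obtain ⟨w1, w2, w3, w4, w5⟩ := hEVP K C p hp v
    have hna := C.Pl.na p hp v
    have hpp := C.prime p hp
    have hm : C.ma θ 1 ≠ 0 :=
      Finset.prod_ne_zero_iff.2 fun q hq => pow_ne_zero _ (C.prime q hq).ne_zero
    have hb : p ^ C.av θ 1 p ∣ C.ma θ 1 := Finset.dvd_prod_of_mem (fun q => q ^ C.av θ 1 q) hp
    choose t ht1 ht2 using fun i => ANCH_fin _ p _ hm hpp hb h.1 hF _ _ (hn i).2.2.1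
    have wi : ∀ a : ℤ, C.Pl.W p v (a : K) ≤ 1 := fun a => by simpa using w1 a 0 (by simp)
    have hlp : Real.exp (-C.lp p) ≤ Real.exp (-(C.av θ 1 p * Real.log p)) := by
      refine Real.exp_le_exp.2 (neg_le_neg ?_)
      have h1 : C.av θ 1 p * 2 ≤ C.n p := by
        have h2 : C.av θ 1 p * (2 * θ) ≤ 1 * C.n p := Nat.div_mul_le_self _ _
        nlinarith
      have h2 : (C.av θ 1 p : ℝ) * 2 ≤ C.n p := by exact_mod_cast h1
      have h3 : 0 ≤ Real.log p := Real.log_natCast_nonneg p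
      unfold Cfg.lp
      nlinarith
    refine ⟨C.σ p v, fun s => if s = C.σ p v then 0 else ((h.1.1 : ℤ) : K) + ((h.1.2 : ℤ) : K) * C.ξ s,
      fun i => (t i : K), w2, ?_, fun i => ?_, fun s => ?_, fun i => wi _, fun i s hs => ?_⟩
    · unfold Cfg.ϖp
      rw [ANCH_pow _ _ hθ, one_mul]
      exact w3
    · rw [one_mul]
      exact (w5 θ (j i) hθ (hj i) (nn i)).1.trans (hA p hp i)
    · beta_reduce
      split_ifs with hs
      · simp
      · refine (hna _ _).trans (max_le (wi _) ?_)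
        rw [map_mul]
        exact mul_le_one₀ (wi _) (apply_nonneg _ _) (w4 s hs)
    · simp only [if_neg hs, mul_one]
      have e : C.y θ (j i) (nn i) s - (t i : K) * (((h.1.1 : ℤ) : K) + ((h.1.2 : ℤ) : K) * C.ξ s) =
          (C.y θ (j i) (nn i) s - ((uv (C.ma θ (j i)) C.c (nn i) : ℤ) + nn i 2 * C.ξ s)) +
            (((uv (C.ma θ (j i)) C.c (nn i) - t i * h.1.1 : ℤ) : K) +
              ((nn i 2 - t i * h.1.2 : ℤ) : K) * C.ξ s) := by
        push_cast
        ring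
      rw [e]
      refine (hna _ _).trans (max_le (((w5 θ (j i) hθ (hj i) (nn i)).2 s hs).1.trans hlp) ?_)
      refine (hna _ _).trans (max_le (w1 _ _ (ht1 i)) ?_)
      rw [map_mul]
      exact (mul_le_of_le_one_right (apply_nonneg _ _) (w4 s hs)).trans (w1 _ _ (ht2 i))

end Pool.Agent.P.MP_7aad9f_nt.Sz

end

section
/-! Step LAM1. -/

set_option autoImplicit false

open Polynomial

namespace Pool.Agent.P.MP_7aad9f_nt.Sz

open Pool.Agent.P.MP_7aad9f_nt.Sub (Gen S_GENSEL S_OMEGA)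

theorem LAM1_fact (S : Finset ℕ) (hS : ∀ p ∈ S, p.Prime) (a : ℕ → ℕ) (p : ℕ) :
    (∏ q ∈ S, q ^ a q).factorization p = if p ∈ S then a p else 0 := by
  rw [Nat.factorization_prod (fun q hq => pow_ne_zero _ (hS q hq).ne_zero), Finsupp.finsetSum_apply]
  rw [Finset.sum_congr rfl (g := fun q => if q = p then a q else 0)]
  · simp
  · intro q hq
    rw [(hS q hq).factorization_pow, Finsupp.single_apply]

theorem LAM1_pos (S : Finset ℕ) (hS : ∀ p ∈ S, p.Prime) (a : ℕ → ℕ) : 0 < ∏ q ∈ S, q ^ a q :=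
  Finset.prod_pos fun q hq => pow_pos (hS q hq).pos _

theorem LAM1_div (S : Finset ℕ) (hS : ∀ p ∈ S, p.Prime) (a : ℕ → ℕ) (g : ℕ)
    (hg : g ∣ ∏ q ∈ S, q ^ a q) :
    0 < g ∧ (∀ p ∈ S, g.factorization p ≤ a p) ∧
      Real.log g = ∑ p ∈ S, g.factorization p * Real.log p := by
  have hm := LAM1_pos S hS a
  have hg0 : 0 < g := Nat.pos_of_dvd_of_pos hg hm
  have hle : ∀ p, g.factorization p ≤ if p ∈ S then a p else 0 := fun p => by
    rw [← LAM1_fact S hS a p]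
    exact (Nat.factorization_le_iff_dvd hg0.ne' hm.ne').2 hg p
  refine ⟨hg0, fun p hp => by simpa [hp] using hle p, ?_⟩
  rw [Real.log_nat_eq_sum_factorization, Finsupp.sum]
  apply Finset.sum_subset
  · intro p hp
    by_contra h
    have := hle p
    rw [if_neg h] at this
    exact (Finsupp.mem_support_iff.1 hp) (by omega)
  · intro p _ hp
    rw [Finsupp.notMem_support_iff.1 hp]
    simp

theorem LAM1_logr {K : Type} [Field K] (C : Cfg K) (θ j : ℕ) (hθ : 0 < θ) :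
    Real.log (C.r θ j) ≤ j / θ * C.Lam / 3 := by
  have hθ' : (0 : ℝ) < θ := by exact_mod_cast hθ
  unfold Cfg.r Cfg.Lam
  rw [Real.log_exp]
  have h1 : Real.log (C.ma θ j) ≤ j / θ * ∑ p ∈ C.S, C.lp p := by
    unfold Cfg.ma
    push_cast
    rw [Real.log_prod (fun p hp => pow_ne_zero _ (by exact_mod_cast (C.prime p hp).ne_zero)),
      Finset.mul_sum]
    apply Finset.sum_le_sum
    intro p hp
    rw [Real.log_pow]
    have hl : 0 ≤ Real.log p := Real.log_natCast_nonneg p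
    have h2 : (C.av θ j p : ℝ) ≤ j * C.n p / (2 * θ) := by
      have := @Nat.cast_div_le ℝ _ _ _ (j * C.n p) (2 * θ)
      push_cast at this
      exact this
    unfold Cfg.lp
    calc (C.av θ j p : ℝ) * Real.log p ≤ j * C.n p / (2 * θ) * Real.log p :=
          mul_le_mul_of_nonneg_right h2 hl
      _ = _ := by field_simp
  have h3 : (j : ℝ) * (C.la / θ) = j / θ * C.la := by ring
  rw [h3, mul_add]
  linarith

theorem LAM1_av {K : Type} [Field K] (C : Cfg K) (θ j p t : ℕ) (hθ : 0 < θ) (ht : t ≤ C.av θ 1 p) :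
    -(C.av θ j p * Real.log p) ≤ -(t * Real.log p) + Real.log p - (j - 1) / θ * C.lp p := by
  have hθ' : (0 : ℝ) < θ := by exact_mod_cast hθ
  have hl : 0 ≤ Real.log p := Real.log_natCast_nonneg p
  have h1 : (t : ℝ) ≤ C.n p / (2 * θ) := by
    have h := @Nat.cast_div_le ℝ _ _ _ (C.n p) (2 * θ)
    have h' : (t : ℝ) ≤ (C.av θ 1 p : ℕ) := by exact_mod_cast ht
    push_cast at h
    refine h'.trans ?_
    unfold Cfg.av
    rw [one_mul]
    exact h
  have h2 : (j : ℝ) * C.n p / (2 * θ) ≤ C.av θ j p + 1 := by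
    rw [div_le_iff₀ (by positivity)]
    have h := Nat.lt_div_mul_add (a := j * C.n p) (b := 2 * θ) (by omega)
    have h' : ((j * C.n p : ℕ) : ℝ) ≤ ((j * C.n p / (2 * θ) * (2 * θ) + 2 * θ : ℕ) : ℝ) := by
      exact_mod_cast h.le
    unfold Cfg.av
    push_cast at h'
    linarith
  have h3 : ((j : ℝ) - 1) / θ * C.lp p = (j * C.n p / (2 * θ) - C.n p / (2 * θ)) * Real.log p := by
    unfold Cfg.lp
    field_simp
  rw [h3]
  nlinarith [mul_le_mul_of_nonneg_right h1 hl, mul_le_mul_of_nonneg_right h2 hl]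

theorem LAM1_fin3 (σ s : Fin 3) : s = σ ∨ s = σ + 1 ∨ s = σ + 2 := by
  revert σ s
  decide

theorem p_LAM1 (hEVA : S_EVA) (hEVP : S_EVP) (hBAL : S_BAL) :
    S_LAM1 := by
  intro K _ _ C θ j hθ hj n hn g hg hu h2 G s hG1 hGI h0 hY1 hY2
  obtain ⟨-, hla, -, -, -, -, hE⟩ := hEVA K C
  obtain ⟨hdet, hE⟩ := hE θ j
  obtain ⟨hO, hE⟩ := hE n
  obtain ⟨hLam, hη, hA⟩ := hBAL K C
  obtain ⟨hg0, hgle, hglog⟩ := LAM1_div C.S C.prime (C.av θ 1) g hg
  have hθ' : (0 : ℝ) < θ := by exact_mod_cast hθ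
  have hjθ : (j : ℝ) ≤ θ := by exact_mod_cast hj
  have hG0 : 0 < G := by linarith
  have hr : 0 < C.r θ j := Real.exp_pos _
  have hϖ : 0 < C.ϖ θ := Real.exp_pos _
  set Y := Yv (C.T θ j) n with hY
  have hYne : Y ≠ 0 := by
    intro h
    have hd : (C.T θ j).det ≠ 0 := by
      intro h'
      have := C.V_ge
      rw [h', abs_zero] at hdet
      unfold Cfg.V at hdet
      linarith
    have := Matrix.eq_zero_of_mulVec_eq_zero hd h
    apply hn
    funext t
    have := congrFun this t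
    simpa using this
  have hY3 : ¬ (Y 0 = 0 ∧ Y 1 = 0 ∧ Y 2 = 0) := by
    rintro ⟨a, b, c⟩
    apply hYne
    funext t
    fin_cases t
    · exact a
    · exact b
    · exact c
  have hs : 0 < s := by
    by_contra h
    push Not at h
    apply hY3
    refine ⟨abs_nonpos_iff.1 (by linarith), abs_nonpos_iff.1 ?_, abs_nonpos_iff.1 ?_⟩
    · nlinarith [abs_nonneg (Y 1)]
    · nlinarith [abs_nonneg (Y 2)]
  obtain ⟨s0, hs0⟩ : ∃ s0, C.y θ j n s0 ≠ 0 := by
    by_contra h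
    push Not at h
    obtain ⟨a, b, c⟩ := hE ⟨0, C.Pl.d_pos⟩
    rw [h, map_zero] at a b c
    have hι : C.ι ⟨0, C.Pl.d_pos⟩ ≠ 0 := by
      intro h'
      have := C.ι_norm ⟨0, C.Pl.d_pos⟩
      rw [h', norm_zero] at this
      exact zero_ne_one this
    have hr' : (C.r θ j : ℂ) ≠ 0 := by exact_mod_cast hr.ne'
    have b' := (mul_eq_zero.1 b.symm).resolve_left hr'
    have c' := (mul_eq_zero.1 c.symm).resolve_left hr'
    have a' : C.r θ j * C.ϖ θ ^ j * Y 0 = 0 := by exact_mod_cast a.symm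
    apply hY3
    refine ⟨(mul_eq_zero.1 a').resolve_left (by positivity), ?_, ?_⟩
    · have : ((Y 1 : ℝ) : ℂ) = 0 := by linear_combination (b' + c') / 2
      exact_mod_cast this
    · have : C.ι ⟨0, C.Pl.d_pos⟩ * ((Y 2 : ℝ) : ℂ) = 0 := by linear_combination (b' - c') / 2
      exact_mod_cast (mul_eq_zero.1 this).resolve_left hι
  set u : ℝ := ((j : ℝ) - 1) / θ with hu'
  set a0 : ℝ := Real.log (2 * C.r θ j * s / G) with ha0
  have hea : Real.exp a0 = 2 * C.r θ j * s / G := Real.exp_log (by positivity)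
  have hY12 : |Y 1| + |Y 2| ≤ 2 * s / G := by
    rw [le_div_iff₀ hG0]
    linarith
  have hB1 : ∀ i, ‖C.Pl.φ i (C.y θ j n s0)‖ ≤
      Real.exp (a0 - u * (if C.σa i = s0 then C.la else 0)) := by
    intro i
    obtain ⟨a, b, c⟩ := hE i
    by_cases hi : C.σa i = s0
    · rw [if_pos hi, ← hi, a, Complex.norm_real, Real.norm_eq_abs, abs_mul,
        abs_of_pos (by positivity), Real.exp_sub, hea]
      have hI : G ≤ 2 * Real.exp (C.la / θ) := by
        have h1 : 1 ≤ Real.exp (C.la / θ) := Real.one_le_exp (by positivity)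
        have h3 : (C.I θ : ℝ) < Real.exp (C.la / θ) + 1 := Nat.ceil_lt_add_one (by positivity)
        linarith
      have hw : C.ϖ θ ^ j * Real.exp (u * C.la) * Real.exp (C.la / θ) = 1 := by
        unfold Cfg.ϖ
        rw [← Real.exp_nat_mul, ← Real.exp_add, ← Real.exp_add, ← Real.exp_zero]
        congr 1
        rw [hu']
        field_simp
        ring
      rw [le_div_iff₀ (Real.exp_pos _), le_div_iff₀ hG0]
      have hp : 0 < C.r θ j * C.ϖ θ ^ j * Real.exp (u * C.la) := by positivity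
      calc C.r θ j * C.ϖ θ ^ j * |Y 0| * Real.exp (u * C.la) * G
          = (C.r θ j * C.ϖ θ ^ j * Real.exp (u * C.la)) * (|Y 0| * G) := by ring
        _ ≤ (C.r θ j * C.ϖ θ ^ j * Real.exp (u * C.la)) * (s * (2 * Real.exp (C.la / θ))) := by
          apply mul_le_mul_of_nonneg_left _ hp.le
          exact mul_le_mul h0 hI hG0.le hs.le
        _ = 2 * C.r θ j * s * (C.ϖ θ ^ j * Real.exp (u * C.la) * Real.exp (C.la / θ)) := by ring
        _ = _ := by rw [hw, mul_one]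
    · rw [if_neg hi, mul_zero, sub_zero, hea]
      have hb : 2 * C.r θ j * s / G = C.r θ j * (2 * s / G) := by ring
      have hn2 : ‖C.ι i * ((Y 2 : ℝ) : ℂ)‖ = |Y 2| := by
        rw [norm_mul, C.ι_norm, one_mul, Complex.norm_real, Real.norm_eq_abs]
      have hn1 : ‖((Y 1 : ℝ) : ℂ)‖ = |Y 1| := by rw [Complex.norm_real, Real.norm_eq_abs]
      rcases LAM1_fin3 (C.σa i) s0 with h | h | h
      · exact absurd h.symm hi
      · rw [h, b, norm_mul, Complex.norm_real, Real.norm_eq_abs, abs_of_pos hr, hb]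
        apply mul_le_mul_of_nonneg_left _ hr.le
        refine (norm_add_le _ _).trans ?_
        rw [hn1, hn2]
        exact hY12
      · rw [h, c, norm_mul, Complex.norm_real, Real.norm_eq_abs, abs_of_pos hr, hb]
        apply mul_le_mul_of_nonneg_left _ hr.le
        refine (norm_sub_le _ _).trans ?_
        rw [hn1, hn2]
        exact hY12
  have hB2 : ∀ p ∈ C.S, ∀ i, C.Pl.W p i (C.y θ j n s0) ≤
      Real.exp (-(g.factorization p * Real.log p) + Real.log p -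
        u * (if C.σ p i = s0 then C.lp p else 0)) := by
    intro p hp i
    obtain ⟨-, -, -, -, hP⟩ := hEVP K C p hp i
    obtain ⟨a, b⟩ := hP θ j hθ hj n
    by_cases hi : C.σ p i = s0
    · rw [if_pos hi, ← hi]
      exact a.trans (Real.exp_le_exp.2 (LAM1_av C θ j p _ hθ (hgle p hp)))
    · rw [if_neg hi, mul_zero, sub_zero]
      refine ((b s0 (Ne.symm hi)).2 g hg hu h2).trans (Real.exp_le_exp.2 ?_)
      linarith [Real.log_natCast_nonneg p]
  have hpf := C.Pl.pf _ (hO s0) hs0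
  have hP1 : ∏ i, ‖C.Pl.φ i (C.y θ j n s0)‖ ≤
      Real.exp (∑ i, (a0 - u * (if C.σa i = s0 then C.la else 0))) := by
    rw [Real.exp_sum]
    exact Finset.prod_le_prod (fun i _ => norm_nonneg _) fun i _ => hB1 i
  have hP2 : ∏ p ∈ C.S, ∏ i, C.Pl.W p i (C.y θ j n s0) ≤
      Real.exp (∑ p ∈ C.S, ∑ i, (-(g.factorization p * Real.log p) + Real.log p -
        u * (if C.σ p i = s0 then C.lp p else 0))) := by
    rw [Real.exp_sum]
    refine Finset.prod_le_prod (fun p _ => Finset.prod_nonneg fun i _ => (C.Pl.W p i).nonneg _)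
      fun p hp => ?_
    rw [Real.exp_sum]
    exact Finset.prod_le_prod (fun i _ => (C.Pl.W p i).nonneg _) fun i _ => hB2 p hp i
  have hS := hpf.trans (mul_le_mul hP1 hP2
    (Finset.prod_nonneg fun p _ => Finset.prod_nonneg fun i _ => (C.Pl.W p i).nonneg _)
    (Real.exp_pos _).le)
  rw [← Real.exp_add, Real.one_le_exp_iff] at hS
  obtain ⟨hA1, hA2⟩ := hA s0
  have e1 : ∑ i, (a0 - u * (if C.σa i = s0 then C.la else 0)) =
      C.Pl.d * a0 - u * ∑ i, (if C.σa i = s0 then C.la else 0) := by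
    rw [Finset.sum_sub_distrib, ← Finset.mul_sum]
    simp
  have e2 : ∑ p ∈ C.S, ∑ i, (-(g.factorization p * Real.log p) + Real.log p -
        u * (if C.σ p i = s0 then C.lp p else 0)) =
      C.Pl.d * (C.L - Real.log g) - u * ∑ p ∈ C.S, ∑ i, (if C.σ p i = s0 then C.lp p else 0) := by
    rw [hglog, Cfg.L, ← Finset.sum_sub_distrib, Finset.mul_sum, Finset.mul_sum,
      ← Finset.sum_sub_distrib]
    apply Finset.sum_congr rfl
    intro p _
    rw [Finset.sum_sub_distrib, ← Finset.mul_sum]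
    simp only [Finset.sum_const, Finset.card_univ, Fintype.card_fin, nsmul_eq_mul]
    ring
  rw [e1, e2] at hS
  set A := ∑ i, (if C.σa i = s0 then C.la else 0) +
    ∑ p ∈ C.S, ∑ i, (if C.σ p i = s0 then C.lp p else 0) with hAdef
  have hS' : u * A ≤ C.Pl.d * (a0 + C.L - Real.log g) := by
    rw [hAdef]
    linarith
  have hd : (0 : ℝ) < C.Pl.d := by exact_mod_cast C.Pl.d_pos
  have hlr : Real.log (C.r θ j) ≤ j / θ * C.H := by
    have := mul_le_mul_of_nonneg_left hLam (show (0 : ℝ) ≤ j / θ by positivity)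
    linarith [LAM1_logr C θ j hθ]
  have hkey : Real.log (C.r θ j) ≤ C.η + C.H / θ + (a0 + C.L - Real.log g) := by
    rcases Nat.eq_zero_or_pos j with h | h
    · have hu0 : u = -(1 / θ) := by rw [hu', h]; simp; ring
      have h5 : C.Pl.d * (-(C.H / θ)) ≤ C.Pl.d * (a0 + C.L - Real.log g) := by
        refine le_trans ?_ hS'
        rw [hu0]
        have := mul_le_mul_of_nonneg_left hA2 (show (0 : ℝ) ≤ 1 / θ by positivity)
        have e : 1 / (θ : ℝ) * (C.Pl.d * C.H) = C.Pl.d * (C.H / θ) := by ring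
        linarith
      have h6 := le_of_mul_le_mul_left h5 hd
      rw [h] at hlr ⊢
      simp only [Nat.cast_zero, zero_div, zero_mul] at hlr
      linarith
    · have h1 : (1 : ℝ) ≤ j := by exact_mod_cast h
      have hu0 : 0 ≤ u := div_nonneg (by linarith) hθ'.le
      have hu1 : u ≤ 1 := by rw [hu', div_le_one hθ']; linarith
      have h5 : C.Pl.d * (u * (C.H - C.η)) ≤ C.Pl.d * (a0 + C.L - Real.log g) := by
        refine le_trans ?_ hS'
        have := mul_le_mul_of_nonneg_left hA1 hu0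
        linarith
      have h6 := le_of_mul_le_mul_left h5 hd
      have e : (j : ℝ) / θ * C.H = u * C.H + C.H / θ := by rw [hu']; ring
      nlinarith
  have hg' : (0 : ℝ) < g := by exact_mod_cast hg0
  have hfin := Real.exp_le_exp.2 hkey
  rw [Real.exp_log hr, show C.η + C.H / θ + (a0 + C.L - Real.log g) =
    (C.η + C.L + C.H / θ) + a0 - Real.log g by ring, Real.exp_sub, Real.exp_add, hea,
    Real.exp_log hg', le_div_iff₀ hg', ← mul_div_assoc, le_div_iff₀ hG0] at hfin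
  have hE0 := Real.exp_pos (C.η + C.L + C.H / θ)
  have h7 : C.r θ j * (g * G) ≤ C.r θ j * (2 * Real.exp (C.η + C.L + C.H / θ) * s) := by
    linarith
  have h8 := le_of_mul_le_mul_left h7 hr
  nlinarith [mul_pos hE0 hs]

end Pool.Agent.P.MP_7aad9f_nt.Sz

end

section
/-! Step LAM2. -/

set_option autoImplicit false

open Polynomial

namespace Pool.Agent.P.MP_7aad9f_nt.Sz

open Pool.Agent.P.MP_7aad9f_nt.Sub (Gen S_GENSEL S_OMEGA)

theorem LAM2_ma_pos {K : Type} [Field K] (C : Cfg K) (θ j : ℕ) : 0 < C.ma θ j :=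
  Finset.prod_pos fun p hp => pow_pos (C.prime p hp).pos _

theorem LAM2_logg {K : Type} [Field K] (C : Cfg K) (θ g : ℕ) (hg : g ∣ C.ma θ 1) :
    Real.log g = ∑ p ∈ C.S, (g.factorization p : ℝ) * Real.log p := by
  rw [Real.log_nat_eq_sum_factorization]
  refine Finsupp.sum_of_support_subset _ ?_ _ (fun p _ => by simp)
  intro p hp
  rw [Nat.support_factorization] at hp
  have hpp := Nat.prime_of_mem_primeFactors hp
  have h1 : p ∣ C.ma θ 1 := (Nat.dvd_of_mem_primeFactors hp).trans hg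
  obtain ⟨q, hq, hpq⟩ := (Prime.dvd_finsetProd_iff hpp.prime _).1 h1
  have := (Nat.prime_dvd_prime_iff_eq hpp (C.prime q hq)).1 (hpp.dvd_of_dvd_pow hpq)
  exact this ▸ hq

theorem LAM2_logma {K : Type} [Field K] (C : Cfg K) (θ j : ℕ) :
    Real.log (C.ma θ j) = ∑ p ∈ C.S, (C.av θ j p : ℝ) * Real.log p := by
  unfold Cfg.ma
  rw [Nat.cast_prod, Real.log_prod]
  · exact Finset.sum_congr rfl fun p _ => by rw [Nat.cast_pow, Real.log_pow]
  · intro p hp
    exact_mod_cast (pow_pos (C.prime p hp).pos _).ne'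

theorem LAM2_av {K : Type} [Field K] (C : Cfg K) (θ j p : ℕ) (hθ : 0 < θ) :
    (C.av θ j p : ℝ) * Real.log p ≤ j / θ * C.lp p ∧
      j / θ * C.lp p - Real.log p ≤ (C.av θ j p : ℝ) * Real.log p := by
  have hl : 0 ≤ Real.log p := Real.log_natCast_nonneg p
  have hθ' : (0 : ℝ) < θ := by exact_mod_cast hθ
  have e : (j : ℝ) / θ * C.lp p = ((j * C.n p : ℕ) : ℝ) / ((2 * θ : ℕ) : ℝ) * Real.log p := by
    unfold Cfg.lp; push_cast; field_simp
  have h1 : (C.av θ j p : ℝ) ≤ ((j * C.n p : ℕ) : ℝ) / ((2 * θ : ℕ) : ℝ) := Nat.cast_div_le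
  have h2 : ((j * C.n p : ℕ) : ℝ) / ((2 * θ : ℕ) : ℝ) ≤ (C.av θ j p : ℝ) + 1 := by
    have h3 : 0 < 2 * θ := by omega
    rw [div_le_iff₀ (by exact_mod_cast h3)]
    have h4 : j * C.n p < (C.av θ j p + 1) * (2 * θ) := by
      unfold Cfg.av
      rw [← Nat.div_lt_iff_lt_mul h3]; omega
    exact_mod_cast h4.le
  rw [e]
  constructor
  · exact mul_le_mul_of_nonneg_right h1 hl
  · nlinarith [mul_le_mul_of_nonneg_right h2 hl]

theorem LAM2_f3 (σ s : Fin 3) : s = σ ∨ s = σ + 1 ∨ s = σ + 2 := by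
  revert σ s; decide

theorem LAM2_f4 (σ : Fin 3) : σ + 1 + 1 = σ + 2 ∧ σ + 1 + 2 = σ ∧ σ + 2 + 1 = σ ∧
    σ + 2 + 2 = σ + 1 ∧ σ + 1 ≠ σ ∧ σ + 2 ≠ σ := by
  revert σ; decide

theorem LAM2_na {K : Type} [Field K] (w : AbsoluteValue K ℝ) (hw : IsNonarchimedean w)
    (a b c d : K) (B : ℝ) (h1 : w a * w b ≤ B) (h2 : w c * w d ≤ B) : w (a * b - c * d) ≤ B := by
  have := hw (a * b) (-(c * d))
  rw [← sub_eq_add_neg, w.map_neg, w.map_mul, w.map_mul] at this
  exact this.trans (max_le h1 h2)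

theorem p_LAM2 (hEVA : S_EVA) (hEVP : S_EVP) (hBAL : S_BAL) :
    S_LAM2 := by
  intro K _ _ C θ j hθ hj n n' g hg hu h2 hu' h2' hX
  obtain ⟨-, hla, -, -, -, -, hA⟩ := hEVA K C
  obtain ⟨-, hA⟩ := hA θ j
  obtain ⟨-, hη, hB⟩ := hBAL K C
  set Y := Yv (C.T θ j) n with hY
  set Y' := Yv (C.T θ j) n' with hY'
  set X := crossProduct Y Y' with hXd
  have X0 : X 0 = Y 1 * Y' 2 - Y 2 * Y' 1 := by rw [hXd, cross_apply]; rfl
  have X1 : X 1 = Y 2 * Y' 0 - Y 0 * Y' 2 := by rw [hXd, cross_apply]; rfl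
  have X2 : X 2 = Y 0 * Y' 1 - Y 1 * Y' 0 := by rw [hXd, cross_apply]; rfl
  set cr : Fin 3 → K := fun s => C.y θ j n (s + 1) * C.y θ j n' (s + 2) -
    C.y θ j n (s + 2) * C.y θ j n' (s + 1) with hcr
  set r := C.r θ j with hr
  set v := C.ϖ θ ^ j with hv
  have hr0 : 0 < r := Real.exp_pos _
  have hθ' : (0 : ℝ) < θ := by exact_mod_cast hθ
  have hve : v = Real.exp (-(j / θ * C.la)) := by
    rw [hv, Cfg.ϖ, ← Real.exp_nat_mul]; congr 1; field_simp
  have hv0 : 0 < v := hve ▸ Real.exp_pos _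
  have hφ : ∀ i, C.Pl.φ i (cr (C.σa i)) = -2 * C.ι i * (r : ℂ) ^ 2 * (X 0 : ℝ) ∧
      C.Pl.φ i (cr (C.σa i + 1)) = (r : ℂ) ^ 2 * (v : ℝ) * (-(X 2 : ℝ) - C.ι i * (X 1 : ℝ)) ∧
      C.Pl.φ i (cr (C.σa i + 2)) = (r : ℂ) ^ 2 * (v : ℝ) * ((X 2 : ℝ) - C.ι i * (X 1 : ℝ)) := by
    intro i
    obtain ⟨a0, a1, a2⟩ := (hA n).2 i
    obtain ⟨b0, b1, b2⟩ := (hA n').2 i
    obtain ⟨f1, f2, f3, f4, -, -⟩ := LAM2_f4 (C.σa i)
    simp only [hcr, map_sub, map_mul, f1, f2, f3, f4, a0, a1, a2, b0, b1, b2, X0, X1, X2]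
    push_cast
    refine ⟨by ring, by ring, by ring⟩
  have hN : 0 < ‖X‖ := norm_pos_iff.2 hX
  have hXs : ∀ s, |X s| ≤ ‖X‖ := fun s => norm_le_pi_norm X s
  obtain ⟨s0, hs0⟩ : ∃ s0, cr s0 ≠ 0 := by
    by_contra hcon
    push Not at hcon
    obtain ⟨e0, e1, e2⟩ := hφ ⟨0, C.Pl.d_pos⟩
    rw [hcon, map_zero] at e0 e1 e2
    have hι : C.ι ⟨0, C.Pl.d_pos⟩ ≠ 0 := by
      intro h; have := C.ι_norm ⟨0, C.Pl.d_pos⟩; rw [h] at this; simp at this
    have hrc : (r : ℂ) ≠ 0 := by exact_mod_cast hr0.ne'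
    have hvc : ((v : ℝ) : ℂ) ≠ 0 := by exact_mod_cast hv0.ne'
    have z0 : ((X 0 : ℝ) : ℂ) = 0 := by
      have := e0.symm
      simpa [hι, hrc] using this
    have w1 := (mul_eq_zero.1 e1.symm).resolve_left (mul_ne_zero (pow_ne_zero _ hrc) hvc)
    have w2 := (mul_eq_zero.1 e2.symm).resolve_left (mul_ne_zero (pow_ne_zero _ hrc) hvc)
    have z2 : ((X 2 : ℝ) : ℂ) = 0 := by linear_combination (w2 - w1) / 2
    have z1 : ((X 1 : ℝ) : ℂ) = 0 := by
      have : C.ι ⟨0, C.Pl.d_pos⟩ * ((X 1 : ℝ) : ℂ) = 0 := by linear_combination (-w2 - w1) / 2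
      exact (mul_eq_zero.1 this).resolve_left hι
    apply hX
    funext s
    fin_cases s
    · exact_mod_cast z0
    · exact_mod_cast z1
    · exact_mod_cast z2
  have hmem : cr s0 ∈ C.Pl.O :=
    sub_mem (mul_mem ((hA n).1 _) ((hA n').1 _)) (mul_mem ((hA n).1 _) ((hA n').1 _))
  have hpf := C.Pl.pf _ hmem hs0
  set u : ℝ := j / θ with hud
  have hu0 : 0 ≤ u := by positivity
  have hu1 : u ≤ 1 := by rw [hud, div_le_one hθ']; exact_mod_cast hj
  set E : ℝ := Real.log (2 * ‖X‖) + 2 * Real.log r - u * C.la with hE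
  have hEe : Real.exp E = 2 * ‖X‖ * r ^ 2 * v := by
    rw [hE, sub_eq_add_neg, Real.exp_add, Real.exp_add, ← hve, Real.exp_log (by positivity),
      two_mul (Real.log r), Real.exp_add, Real.exp_log hr0]
    ring
  have hc : ∀ i, ‖C.Pl.φ i (cr s0)‖ ≤ Real.exp (E + u * (if C.σa i = s0 then C.la else 0)) := by
    intro i
    obtain ⟨e0, e1, e2⟩ := hφ i
    obtain ⟨-, -, -, -, f5, f6⟩ := LAM2_f4 (C.σa i)
    have hb : ∀ a : ℂ, ‖a‖ ≤ ‖X‖ → ‖(r : ℂ) ^ 2 * (v : ℝ) * (a - C.ι i * (X 1 : ℝ))‖ ≤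
        Real.exp (E + u * 0) := by
      intro a ha
      rw [mul_zero, add_zero, hEe, norm_mul, norm_mul, norm_pow, Complex.norm_real,
        Complex.norm_real, Real.norm_of_nonneg hr0.le, Real.norm_of_nonneg hv0.le]
      have : ‖a - C.ι i * (X 1 : ℝ)‖ ≤ 2 * ‖X‖ := by
        refine (norm_sub_le _ _).trans ?_
        rw [norm_mul, C.ι_norm, one_mul, Complex.norm_real, Real.norm_eq_abs]
        linarith [hXs 1]
      calc r ^ 2 * v * ‖a - C.ι i * (X 1 : ℝ)‖ ≤ r ^ 2 * v * (2 * ‖X‖) := by gcongr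
        _ = _ := by ring
    rcases LAM2_f3 (C.σa i) s0 with h | h | h
    · rw [h, e0, if_pos rfl, Real.exp_add, hEe, hve, mul_assoc (2 * ‖X‖ * r ^ 2), ← Real.exp_add,
        neg_add_cancel, Real.exp_zero, mul_one, norm_mul, norm_mul, norm_mul, C.ι_norm, norm_pow,
        Complex.norm_real, Complex.norm_real, Real.norm_of_nonneg hr0.le, Real.norm_eq_abs]
      have : ‖(-2 : ℂ)‖ = 2 := by simp
      rw [this]
      nlinarith [hXs 0, mul_le_mul_of_nonneg_left (hXs 0) (sq_nonneg r)]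
    · rw [h, e1, if_neg f5.symm]
      exact hb _ (by rw [norm_neg, Complex.norm_real, Real.norm_eq_abs]; exact hXs 2)
    · rw [h, e2, if_neg f6.symm]
      exact hb _ (by rw [Complex.norm_real, Real.norm_eq_abs]; exact hXs 2)
  have hf : ∀ p ∈ C.S, ∀ i, C.Pl.W p i (cr s0) ≤ Real.exp (-((g.factorization p : ℝ) * Real.log p) -
      (C.av θ j p : ℝ) * Real.log p + u * (if C.σ p i = s0 then C.lp p else 0)) := by
    intro p hp i
    obtain ⟨-, -, -, -, hP⟩ := hEVP K C p hp i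
    obtain ⟨a0, a1⟩ := hP θ j hθ hj n
    obtain ⟨b0, b1⟩ := hP θ j hθ hj n'
    have a2 := fun s hs => (a1 s hs).2 g hg hu h2
    have b2 := fun s hs => (b1 s hs).2 g hg hu' h2'
    obtain ⟨f1, f2, f3, f4, f5, f6⟩ := LAM2_f4 (C.σ p i)
    have hw := C.Pl.na p hp i
    have ht : 0 ≤ (g.factorization p : ℝ) * Real.log p :=
      mul_nonneg (Nat.cast_nonneg _) (Real.log_natCast_nonneg p)
    have key : ∀ (a b : K) (α β γ : ℝ), C.Pl.W p i a ≤ Real.exp α → C.Pl.W p i b ≤ Real.exp β →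
        α + β ≤ γ → C.Pl.W p i a * C.Pl.W p i b ≤ Real.exp γ := by
      intro a b α β γ h1 h2 h3
      calc _ ≤ Real.exp α * Real.exp β :=
            mul_le_mul h1 h2 ((C.Pl.W p i).nonneg _) (Real.exp_pos _).le
        _ ≤ _ := by rw [← Real.exp_add]; exact Real.exp_le_exp.2 h3
    have hav := (LAM2_av C θ j p hθ).1
    rcases LAM2_f3 (C.σ p i) s0 with h | h | h
    · rw [h, if_pos rfl]
      exact LAM2_na _ hw _ _ _ _ _ (key _ _ _ _ _ (a2 _ f5) (b2 _ f6) (by linarith))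
        (key _ _ _ _ _ (a2 _ f6) (b2 _ f5) (by linarith))
    · rw [h, if_neg f5.symm]
      simp only [hcr, f1, f2]
      exact LAM2_na _ hw _ _ _ _ _ (key _ _ _ _ _ (a2 _ f6) b0 (by linarith))
        (key _ _ _ _ _ a0 (b2 _ f6) (by linarith))
    · rw [h, if_neg f6.symm]
      simp only [hcr, f3, f4]
      exact LAM2_na _ hw _ _ _ _ _ (key _ _ _ _ _ a0 (b2 _ f5) (by linarith))
        (key _ _ _ _ _ (a2 _ f5) b0 (by linarith))
  have hprod : (∏ i, ‖C.Pl.φ i (cr s0)‖) * ∏ p ∈ C.S, ∏ i, C.Pl.W p i (cr s0) ≤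
      Real.exp (∑ i, (E + u * (if C.σa i = s0 then C.la else 0)) +
        ∑ p ∈ C.S, ∑ i, (-((g.factorization p : ℝ) * Real.log p) -
          (C.av θ j p : ℝ) * Real.log p + u * (if C.σ p i = s0 then C.lp p else 0))) := by
    rw [Real.exp_add, Real.exp_sum, Real.exp_sum]
    refine mul_le_mul (Finset.prod_le_prod (fun i _ => norm_nonneg _) fun i _ => hc i) ?_
      (Finset.prod_nonneg fun p _ => Finset.prod_nonneg fun i _ => (C.Pl.W p i).nonneg _)
      (Finset.prod_nonneg fun i _ => (Real.exp_pos _).le)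
    refine Finset.prod_le_prod
      (fun p _ => Finset.prod_nonneg fun i _ => (C.Pl.W p i).nonneg _) fun p hp => ?_
    rw [Real.exp_sum]
    exact Finset.prod_le_prod (fun i _ => (C.Pl.W p i).nonneg _) fun i _ => hf p hp i
  have hpos := Real.one_le_exp_iff.1 (hpf.trans hprod)
  have hsum : ∑ i, (E + u * (if C.σa i = s0 then C.la else 0)) +
        ∑ p ∈ C.S, ∑ i, (-((g.factorization p : ℝ) * Real.log p) -
          (C.av θ j p : ℝ) * Real.log p + u * (if C.σ p i = s0 then C.lp p else 0)) =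
      C.Pl.d * (E - Real.log g - Real.log (C.ma θ j)) +
        u * (∑ i, (if C.σa i = s0 then C.la else 0) +
          ∑ p ∈ C.S, ∑ i, (if C.σ p i = s0 then C.lp p else 0)) := by
    rw [LAM2_logg C θ g hg, LAM2_logma]
    simp only [Finset.sum_add_distrib, Finset.sum_const, Finset.card_univ, Fintype.card_fin,
      nsmul_eq_mul, ← Finset.mul_sum, Finset.sum_sub_distrib, Finset.sum_neg_distrib]
    ring
  rw [hsum] at hpos
  have hd : (0 : ℝ) < C.Pl.d := by exact_mod_cast C.Pl.d_pos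
  have h3 : 0 ≤ E - Real.log g - Real.log (C.ma θ j) + u * C.H := by
    have := mul_le_mul_of_nonneg_left (hB s0).2 hu0
    refine le_of_mul_le_mul_left ?_ hd
    nlinarith
  have hlr : 3 * Real.log r = Real.log (C.ma θ j) + u * C.la := by
    rw [hr, Cfg.r, Real.log_exp, hud]; field_simp
  have hma : u * ∑ p ∈ C.S, C.lp p - C.L ≤ Real.log (C.ma θ j) := by
    rw [LAM2_logma, Cfg.L, Finset.mul_sum, ← Finset.sum_sub_distrib]
    exact Finset.sum_le_sum fun p _ => (LAM2_av C θ j p hθ).2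
  have hlam : 3 * C.H - C.η ≤ C.la + ∑ p ∈ C.S, C.lp p := C.lam_lb
  have hL : 0 ≤ C.L := Finset.sum_nonneg fun p _ => Real.log_natCast_nonneg p
  have hg0 : (0 : ℝ) < g := by exact_mod_cast Nat.pos_of_dvd_of_pos hg (LAM2_ma_pos C θ 1)
  have hfin : Real.log g ≤ Real.log (2 * ‖X‖) + (C.η + C.L) := by
    have k1 := mul_le_mul_of_nonneg_left hlam hu0
    have k2 := mul_le_mul_of_nonneg_right hu1 hη
    nlinarith
  calc (g : ℝ) = Real.exp (Real.log g) := (Real.exp_log hg0).symm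
    _ ≤ Real.exp (Real.log (2 * ‖X‖) + (C.η + C.L)) := Real.exp_le_exp.2 hfin
    _ = _ := by rw [Real.exp_add, Real.exp_log (by positivity)]; ring

end Pool.Agent.P.MP_7aad9f_nt.Sz

end
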