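import Pool.Agent.P.MP_7aad9f_nt.Sz.If

section
/-! Step COUNT. -/

set_option autoImplicit false

open Polynomial

namespace Pool.Agent.P.MP_7aad9f_nt.Sz

open Pool.Agent.P.MP_7aad9f_nt.Sub (Gen S_GENSEL S_OMEGA)

lemma COUNT_exp {x : ℝ} (h : |x| ≤ 1 / 2) : Real.exp (x - x ^ 2) ≤ 1 + x := by
  obtain ⟨h1, h2⟩ := abs_le.1 h
  have h3 := Real.exp_pos (x - x ^ 2)
  have h4 : Real.exp (x - x ^ 2) * Real.exp (x ^ 2 - x) = 1 := by
    rw [← Real.exp_add]; simp
  rcases le_total 0 (x ^ 2 - x) with h5 | h5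
  · have h6 := Real.quadratic_le_exp_of_nonneg h5
    have h7 : 1 ≤ (1 + x) * (1 + (x ^ 2 - x) + (x ^ 2 - x) ^ 2 / 2) := by
      have : 0 ≤ x ^ 2 * (1 + x - x ^ 2 + x ^ 3) := by
        refine mul_nonneg (sq_nonneg _) ?_
        nlinarith [sq_nonneg x, mul_nonneg (sq_nonneg x) (by linarith : 0 ≤ x + 1 / 2)]
      nlinarith
    have h8 : 1 ≤ (1 + x) * Real.exp (x ^ 2 - x) :=
      h7.trans (mul_le_mul_of_nonneg_left h6 (by linarith))
    nlinarith
  · have h0 : 0 ≤ x := by nlinarith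
    have h6 := Real.add_one_le_exp (x ^ 2 - x)
    have h7 : 1 ≤ (1 + x) * (x ^ 2 - x + 1) := by nlinarith [pow_nonneg h0 3]
    have h8 : 1 ≤ (1 + x) * Real.exp (x ^ 2 - x) :=
      h7.trans (mul_le_mul_of_nonneg_left h6 (by linarith))
    nlinarith

lemma COUNT_sum (θ : ℕ) (s : Fin 3) :
    ∑ r ∈ Finset.piAntidiag (Finset.univ : Finset (Fin 3)) θ, (r s : ℝ) =
      (Finset.piAntidiag (Finset.univ : Finset (Fin 3)) θ).card * θ / 3 := by
  have h1 : ∀ s' : Fin 3, ∑ r ∈ Finset.piAntidiag (Finset.univ : Finset (Fin 3)) θ, (r s' : ℝ) =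
      ∑ r ∈ Finset.piAntidiag (Finset.univ : Finset (Fin 3)) θ, (r s : ℝ) := fun s' => by
    have k : ∀ r ∈ Finset.piAntidiag (Finset.univ : Finset (Fin 3)) θ,
        r ∘ Equiv.swap s s' ∈ Finset.piAntidiag (Finset.univ : Finset (Fin 3)) θ := fun r hr => by
      simp only [Finset.mem_piAntidiag, Finset.mem_univ, implies_true, and_true] at hr ⊢
      exact (Equiv.sum_comp (Equiv.swap s s') r).trans hr
    refine Finset.sum_nbij' (· ∘ Equiv.swap s s') (· ∘ Equiv.swap s s') k k (fun r _ => ?_)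
      (fun r _ => ?_) fun r _ => by simp
    all_goals ext i; simp
  have h2 : ∑ s' : Fin 3, ∑ r ∈ Finset.piAntidiag (Finset.univ : Finset (Fin 3)) θ, (r s' : ℝ) =
      (Finset.piAntidiag (Finset.univ : Finset (Fin 3)) θ).card * θ := by
    rw [Finset.sum_comm, ← nsmul_eq_mul, ← Finset.sum_const]
    refine Finset.sum_congr rfl fun r hr => ?_
    exact_mod_cast (Finset.mem_piAntidiag.1 hr).1
  simp only [h1, Finset.sum_const, Finset.card_univ, Fintype.card_fin, nsmul_eq_mul] at h2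
  push_cast at h2
  linarith

theorem p_COUNT :
    S_COUNT := by
  intro k θ ε sgn s A hθ hε hε1 hs hA
  set X := Finset.piAntidiag (Finset.univ : Finset (Fin 3)) θ with hX
  have hθ' : (0 : ℝ) < θ := by exact_mod_cast hθ
  let f : (Fin 3 → ℕ) → ℝ := fun r => sgn * (r s / θ - 1 / 3)
  have hf : ∀ r ∈ X, |f r| ≤ 1 := fun r hr => by
    have h1 : (r s : ℝ) ≤ θ := by
      have := Finset.single_le_sum (f := r) (fun _ _ => Nat.zero_le _) (Finset.mem_univ s)
      exact_mod_cast this.trans_eq (Finset.mem_piAntidiag.1 hr).1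
    have h2 : (r s : ℝ) / θ ≤ 1 := (div_le_one hθ').2 h1
    have h3 : 0 ≤ (r s : ℝ) / θ := by positivity
    rcases hs with rfl | rfl <;> simp only [f] <;> rw [abs_le] <;> constructor <;> linarith
  have hx : ∀ r ∈ X, |ε / 2 * f r| ≤ 1 / 2 := fun r hr => by
    rw [abs_mul, abs_of_pos (half_pos hε)]
    nlinarith [hf r hr, abs_nonneg (f r)]
  have h0 : ∑ r ∈ X, (1 + ε / 2 * f r) = X.card := by
    simp only [f, Finset.sum_add_distrib, ← Finset.mul_sum, Finset.sum_sub_distrib,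
      ← Finset.sum_div, hX, COUNT_sum, Finset.sum_const, nsmul_eq_mul]
    field_simp
    ring
  have hsub : A ⊆ Fintype.piFinset fun _ : Fin k => X := fun z hz =>
    Fintype.mem_piFinset.2 fun i => Finset.mem_piAntidiag.2 ⟨(hA z hz).1 i, by simp⟩
  have h1 : ∀ z ∈ A, Real.exp (ε ^ 2 * k / 4) ≤ ∏ i, (1 + ε / 2 * f (z i)) := fun z hz => by
    have hz' := Fintype.mem_piFinset.1 (hsub hz)
    refine le_trans ?_ (Finset.prod_le_prod (fun i _ => (Real.exp_pos _).le)
      fun i _ => COUNT_exp (hx _ (hz' i)))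
    rw [← Real.exp_sum, Real.exp_le_exp, Finset.sum_sub_distrib, ← Finset.mul_sum]
    have h2 : ε * k ≤ ∑ i, f (z i) := by
      have h3 : ∑ i, f (z i) = sgn * (∑ i, (z i s : ℝ) - k * θ / 3) / θ := by
        simp only [f, ← Finset.mul_sum, Finset.sum_sub_distrib, ← Finset.sum_div,
          Finset.sum_const, Finset.card_univ, Fintype.card_fin, nsmul_eq_mul]
        field_simp
      rw [h3, le_div_iff₀ hθ']
      exact (hA z hz).2
    have h3 : ∑ i, (ε / 2 * f (z i)) ^ 2 ≤ ∑ _i : Fin k, ε ^ 2 / 4 :=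
      Finset.sum_le_sum fun i _ => by
        have := sq_le_one_iff_abs_le_one _ |>.2 (hf _ (hz' i))
        nlinarith [sq_nonneg ε]
    simp only [Finset.sum_const, Finset.card_univ, Fintype.card_fin, nsmul_eq_mul] at h3
    nlinarith
  have h2 : A.card * Real.exp (ε ^ 2 * k / 4) ≤ (X.card : ℝ) ^ k := calc
    _ = ∑ _z ∈ A, Real.exp (ε ^ 2 * k / 4) := by simp
    _ ≤ ∑ z ∈ A, ∏ i, (1 + ε / 2 * f (z i)) := Finset.sum_le_sum h1
    _ ≤ ∑ z ∈ Fintype.piFinset fun _ : Fin k => X, ∏ i, (1 + ε / 2 * f (z i)) :=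
      Finset.sum_le_sum_of_subset_of_nonneg hsub fun z hz _ => Finset.prod_nonneg fun i _ => by
        linarith [(abs_le.1 (hx _ (Fintype.mem_piFinset.1 hz i))).1]
    _ = ∏ _i : Fin k, ∑ r ∈ X, (1 + ε / 2 * f r) :=
      (Finset.prod_univ_sum (fun _ => X) fun _ r => 1 + ε / 2 * f r).symm
    _ = _ := by simp [h0]
  rwa [Real.exp_neg, ← div_eq_inv_mul, le_div_iff₀ (Real.exp_pos _)]

end Pool.Agent.P.MP_7aad9f_nt.Sz

end

section
/-! Step SPAN. -/

set_option autoImplicit false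

open Polynomial

namespace Pool.Agent.P.MP_7aad9f_nt.Sz

open Pool.Agent.P.MP_7aad9f_nt.Sub (Gen S_GENSEL S_OMEGA)

/-- The weights `g` kill all binomial products of degree less than `w - m`. -/
def SPAN_K {k : ℕ} {ι : Type} (w : ℕ) (P : Finset ι) (v : ι → Fin k → ℕ) (m : ℕ) (g : ι → ℚ) :
    Prop :=
  ∀ d : Fin k → ℕ, ∑ i, d i + m < w → ∑ p ∈ P, g p * ∏ i, ((v p i).choose (d i) : ℚ) = 0

theorem SPAN_choose (n j : ℕ) :
    (n.choose (j + 1) : ℚ) * (j + 1) = n.choose j * ((n : ℚ) - j) := by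
  rcases le_or_gt j n with h | h
  · have := Nat.choose_succ_right_eq n j
    rw [← Nat.cast_sub h]
    exact_mod_cast this
  · rw [Nat.choose_eq_zero_of_lt h, Nat.choose_eq_zero_of_lt (by omega)]
    simp

theorem SPAN_coord {k : ℕ} {ι : Type} {w : ℕ} {P : Finset ι} {v : ι → Fin k → ℕ} {m : ℕ}
    {g : ι → ℚ} (h : SPAN_K w P v m g) (i : Fin k) (d : Fin k → ℕ) (hd : ∑ i, d i + (m + 1) < w) :
    ∑ p ∈ P, g p * (v p i : ℚ) * ∏ l, ((v p l).choose (d l) : ℚ) = 0 := by
  have hs : ∑ l, Function.update d i (d i + 1) l = ∑ l, d l + 1 := by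
    rw [Finset.sum_update_of_mem (Finset.mem_univ i),
      ← Finset.add_sum_erase _ d (Finset.mem_univ i), Finset.sdiff_singleton_eq_erase]
    ring
  have h1 := h (Function.update d i (d i + 1)) (by rw [hs]; omega)
  have h2 := h d (by omega)
  have key : ∀ p, g p * (v p i : ℚ) * ∏ l, ((v p l).choose (d l) : ℚ) =
      ((d i : ℚ) + 1) * (g p * ∏ l, ((v p l).choose (Function.update d i (d i + 1) l) : ℚ)) +
        (d i : ℚ) * (g p * ∏ l, ((v p l).choose (d l) : ℚ)) := by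
    intro p
    have e1 : ∏ l, ((v p l).choose (Function.update d i (d i + 1) l) : ℚ) =
        ((v p i).choose (d i + 1) : ℚ) *
          ∏ l ∈ Finset.univ.erase i, ((v p l).choose (d l) : ℚ) := by
      rw [← Finset.mul_prod_erase _ _ (Finset.mem_univ i), Function.update_self]
      congr 1
      exact Finset.prod_congr rfl fun l hl => by
        rw [Function.update_of_ne (Finset.ne_of_mem_erase hl)]
    rw [e1, ← Finset.mul_prod_erase _ _ (Finset.mem_univ i)]
    have := SPAN_choose (v p i) (d i)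
    linear_combination (-(g p * ∏ l ∈ Finset.univ.erase i, ((v p l).choose (d l) : ℚ))) * this
  rw [Finset.sum_congr rfl fun p _ => key p, Finset.sum_add_distrib, ← Finset.mul_sum,
    ← Finset.mul_sum, h1, h2]
  simp

theorem SPAN_aff {k : ℕ} {ι : Type} {w : ℕ} {P : Finset ι} {v : ι → Fin k → ℕ} {m : ℕ}
    {g : ι → ℚ} (h : SPAN_K w P v m g) (a : ℚ) (c : Fin k → ℚ) (g' : ι → ℚ)
    (hg : ∀ p ∈ P, g' p = g p * (a + ∑ i, c i * v p i)) : SPAN_K w P v (m + 1) g' := by
  intro d hd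
  have h2 := h d (by omega)
  have key : ∀ p ∈ P, g' p * ∏ l, ((v p l).choose (d l) : ℚ) =
      a * (g p * ∏ l, ((v p l).choose (d l) : ℚ)) +
        ∑ i, c i * (g p * (v p i : ℚ) * ∏ l, ((v p l).choose (d l) : ℚ)) := by
    intro p hp
    rw [hg p hp, mul_add, add_mul, Finset.mul_sum, Finset.sum_mul]
    congr 1
    · ring
    · exact Finset.sum_congr rfl fun i _ => by ring
  rw [Finset.sum_congr rfl key, Finset.sum_add_distrib, ← Finset.mul_sum, h2, Finset.sum_comm]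
  simp only [← Finset.mul_sum, SPAN_coord h _ d hd]
  simp

theorem SPAN_bin {k : ℕ} {ι : Type} {w : ℕ} {P : Finset ι} {v : ι → Fin k → ℕ} {m : ℕ}
    {g : ι → ℚ} (h : SPAN_K w P v m g) (f : ι → ℕ) (a : ℚ) (c : Fin k → ℚ)
    (hf : ∀ p ∈ P, (f p : ℚ) = a + ∑ i, c i * v p i) (j : ℕ) :
    SPAN_K w P v (m + j) fun p => g p * ((f p).choose j : ℚ) := by
  induction j with
  | zero => simpa using h
  | succ j ih =>
    have hj : (j : ℚ) + 1 ≠ 0 := by positivity
    refine SPAN_aff ih ((a - j) / (j + 1)) (fun i => c i / (j + 1)) _ fun p hp => ?_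
    have e : (a - j) / (j + 1) + ∑ i, c i / (j + 1) * (v p i : ℚ) = ((f p : ℚ) - j) / (j + 1) := by
      rw [hf p hp, add_sub_right_comm, add_div, Finset.sum_div]
      congr 1
      exact Finset.sum_congr rfl fun i _ => by ring
    rw [e, mul_assoc, ← mul_div_assoc, ← SPAN_choose, mul_div_assoc, div_self hj, mul_one]

theorem p_SPAN :
    S_SPAN := by
  classical
  intro k w ι N _ P v μ f c0 c dd h0 hf hw
  have key : ∀ s : Finset N, SPAN_K w P v (∑ ν ∈ s, dd ν)
      fun p => (μ p : ℚ) * ∏ ν ∈ s, ((f ν p).choose (dd ν) : ℚ) := by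
    intro s
    induction s using Finset.induction_on with
    | empty =>
      intro d hd
      have := h0 d (by simpa using hd)
      simp only [Finset.prod_empty, mul_one]
      exact_mod_cast this
    | insert ν s hν ih =>
      have := SPAN_bin ih (f ν) (c0 ν) (fun i => c ν i)
        (fun p hp => by exact_mod_cast hf p hp ν) (dd ν)
      rw [Finset.sum_insert hν, add_comm]
      simp only [Finset.prod_insert hν]
      convert this using 2
      ring
  have := key Finset.univ 0 (by simpa using hw)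
  simp only [Pi.zero_apply, Nat.choose_zero_right, Nat.cast_one, Finset.prod_const_one,
    mul_one] at this
  exact_mod_cast this

end Pool.Agent.P.MP_7aad9f_nt.Sz

end

section
/-! Step SIEA. -/

set_option autoImplicit false

open Polynomial

namespace Pool.Agent.P.MP_7aad9f_nt.Sz

open Pool.Agent.P.MP_7aad9f_nt.Sub (Gen S_GENSEL S_OMEGA)
open Finset

theorem SIEA_eta {q : ℝ} (hq : 1 ≤ q) :
    Real.exp (-((1 / (3 * q)) ^ 2 * (3 * q * (20000 * q ^ 3)) / 4)) *
      (18 * (3 * q * (20000 * q ^ 3)) + 3) ≤ 1 := by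
  have h0 : 0 < q := by linarith
  have e : (1 / (3 * q)) ^ 2 * (3 * q * (20000 * q ^ 3)) / 4 = 5000 / 3 * q ^ 2 := by
    field_simp; ring
  have h1 := Real.quadratic_le_exp_of_nonneg (x := 5000 / 3 * q ^ 2) (by positivity)
  have h2 : 1 ≤ q ^ 2 := one_le_pow₀ hq
  rw [e, Real.exp_neg, inv_mul_le_iff₀ (Real.exp_pos _)]
  nlinarith [sq_nonneg (q ^ 2)]

theorem SIEA_T (θ : ℕ) : 0 < (piAntidiag (univ : Finset (Fin 3)) θ).card ∧
    (piAntidiag (univ : Finset (Fin 3)) θ).card ≤ 2 ^ (3 * θ) := by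
  refine ⟨card_pos.2 ⟨![θ, 0, 0], by simp [Fin.sum_univ_three]⟩, ?_⟩
  have h : piAntidiag (univ : Finset (Fin 3)) θ ⊆ Fintype.piFinset fun _ => range (θ + 1) := by
    intro z hz
    simp only [mem_piAntidiag, Fintype.mem_piFinset, mem_range] at hz ⊢
    exact fun s => Nat.lt_succ_of_le (hz.1 ▸ single_le_sum (fun _ _ => Nat.zero_le _) (mem_univ s))
  refine (card_le_card h).trans ?_
  rw [Fintype.card_piFinset_const, card_range, mul_comm, pow_mul]
  exact Nat.pow_le_pow_left Nat.lt_two_pow_self 3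

theorem p_SIEA (hCOUNT : S_COUNT) :
    S_SIEA := by
  intro q hq
  have hq3 : 1 ≤ q ^ 3 := Nat.one_le_pow _ _ hq
  refine ⟨20000 * q ^ 3, by omega, fun k hk θ X0 xs hθ hxs => ?_⟩
  have hqR : (1 : ℝ) ≤ q := by exact_mod_cast hq
  have hη := SIEA_eta hqR
  have hkR : (k : ℝ) = 3 * q * (20000 * q ^ 3) := by rw [hk]; push_cast; ring
  have hk0 : (0 : ℝ) < k := by rw [hkR]; positivity
  rw [← hkR] at hη
  generalize 20000 * q ^ 3 = k' at hk hxs ⊢
  clear hkR
  have hkR : (k : ℝ) = 3 * q * k' := by rw [hk]; push_cast; ring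
  have hC := fun sgn s A => hCOUNT k θ (1 / (3 * q)) sgn s A hθ (by positivity)
    (by rw [div_le_one (by positivity)]; linarith)
  have e1 : 1 / (3 * (q : ℝ)) * k * θ = k' * θ := by rw [hkR]; field_simp
  have e2 : (k : ℝ) * θ / 3 = q * k' * θ := by rw [hkR]; ring
  simp only [e1, e2] at hC
  obtain ⟨hT0, hT1⟩ := SIEA_T θ
  set η := Real.exp (-((1 / (3 * (q : ℝ))) ^ 2 * k / 4))
  have hη0 : 0 < η := Real.exp_pos _
  set Tn := piAntidiag (univ : Finset (Fin 3)) θ with hTn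
  set Z := (q + 1) * k' * θ with hZ
  let Rw : Finset (Fin k → Fin 3 → ℕ) := Fintype.piFinset fun _ => Tn
  have mR : ∀ z, z ∈ Rw ↔ ∀ i, ∑ s, z i s = θ := fun z => by simp [Rw, hTn]
  have cR : Rw.card = Tn.card ^ k := by simp [Rw]
  let G := Rw.filter fun z => ∀ s, ∑ i, z i s ≤ Z
  let F : (Fin k → Fin 3 → ℕ) → Fin (k + 1) → Fin 3 → ℕ :=
    fun z => Fin.cons (fun s => Z - ∑ i, z i s) z
  have hF : Function.Injective F := fun z z' h => funext fun i => congrFun h i.succ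
  have hA : ∀ z ∈ G, Adm θ Z (F z) := fun z hz =>
    ⟨(mR z).1 (mem_filter.1 hz).1, fun s => by
      rw [Fin.sum_univ_succ]
      exact Nat.sub_add_cancel ((mem_filter.1 hz).2 s)⟩
  have hB : ∀ s, ((Rw.filter fun z => Z < ∑ i, z i s).card : ℝ) ≤ η * Tn.card ^ k := fun s =>
    hC 1 s _ (Or.inl rfl) fun z hz => ⟨(mR z).1 (mem_filter.1 hz).1, by
      have : ((Z : ℕ) : ℝ) < (∑ i, z i s : ℕ) := Nat.cast_lt.2 (mem_filter.1 hz).2
      rw [hZ] at this
      push_cast at this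
      linarith⟩
  have hG : Rw.card ≤ G.card + ∑ s, (Rw.filter fun z => Z < ∑ i, z i s).card := by
    refine le_trans (card_le_card fun z hz => ?_)
      ((card_union_le G _).trans (Nat.add_le_add_left card_biUnion_le _))
    by_cases h : ∀ s, ∑ i, z i s ≤ Z
    · exact mem_union_left _ (mem_filter.2 ⟨hz, h⟩)
    · obtain ⟨s, hs⟩ := not_forall.1 h
      exact mem_union_right _ (mem_biUnion.2 ⟨s, mem_univ _, mem_filter.2 ⟨hz, not_le.1 hs⟩⟩)
  obtain ⟨X, -, hX⟩ : ∃ X ∈ Icc X0 (X0 + 2),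
      G.card ≤ 3 * (G.filter fun z => xs (F z) = X).card := by
    refine exists_le_of_sum_le ⟨X0, by simp⟩ ?_
    rw [← mul_sum, ← card_eq_sum_card_fiberwise (f := fun z => xs (F z))
      fun z hz => mem_coe.2 (mem_Icc.2 (hxs _ (hA z hz))), sum_const, Nat.card_Icc, smul_eq_mul]
    exact Nat.mul_le_mul_right _ (by omega)
  let E0 := Rw.filter fun z => ∑ i, z i 1 ≤ (q - 1) * k' * θ
  have hE : (E0.card : ℝ) ≤ η * Tn.card ^ k :=
    hC (-1) 1 _ (Or.inr rfl) fun z hz => ⟨(mR z).1 (mem_filter.1 hz).1, by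
      have : ((∑ i, z i 1 : ℕ) : ℝ) ≤ ((q - 1) * k' * θ : ℕ) := Nat.cast_le.2 (mem_filter.1 hz).2
      push_cast [Nat.cast_sub hq] at this
      linarith⟩
  have hG' : (Tn.card : ℝ) ^ k ≤ G.card + 3 * (η * Tn.card ^ k) := by
    have : ((Tn.card ^ k : ℕ) : ℝ) ≤ _ := Nat.cast_le.2 (cR ▸ hG)
    push_cast [Fin.sum_univ_three] at this
    linarith [hB 0, hB 1, hB 2]
  have hX' : (G.card : ℝ) ≤ 3 * (G.filter fun z => xs (F z) = X).card := by exact_mod_cast hX
  have hT : (0 : ℝ) < Tn.card ^ k := by positivity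
  have hη' := mul_le_mul_of_nonneg_right hη hT.le
  refine ⟨X, (G.filter fun z => xs (F z) = X).image F,
    E0.image fun z => (fun i => z i 0, fun i => z i 1), fun z hz => ?_, fun a d h1 h2 => ?_, ?_⟩
  · obtain ⟨y, hy, rfl⟩ := mem_image.1 hz
    exact ⟨hA y (mem_filter.1 hy).1, (mem_filter.1 hy).2⟩
  · refine mem_image.2 ⟨fun i => ![a i, d i, θ - (a i + d i)], mem_filter.2
      ⟨(mR _).2 fun i => ?_, h2.le⟩, rfl⟩
    rw [Fin.sum_univ_three]
    exact Nat.add_sub_cancel' (h1 i)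
  · rw [card_image_of_injective _ hF]
    refine ⟨(Nat.mul_le_mul_left _ card_image_le).trans ?_, ?_, ?_⟩
    · have : (6 * k * E0.card : ℝ) ≤ (G.filter fun z => xs (F z) = X).card := by
        nlinarith [mul_le_mul_of_nonneg_left hE hk0.le]
      exact_mod_cast this
    · have : (0 : ℝ) < (G.filter fun z => xs (F z) = X).card := by
        nlinarith [mul_pos hk0 (mul_pos hη0 hT)]
      exact_mod_cast this
    · refine ((card_filter_le _ _).trans (card_filter_le _ _)).trans (cR.trans_le ?_)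
      rw [mul_right_comm, pow_mul]
      exact Nat.pow_le_pow_left hT1 k

end Pool.Agent.P.MP_7aad9f_nt.Sz

end

section
/-! Step SIEGEL. -/

set_option autoImplicit false

open Polynomial

namespace Pool.Agent.P.MP_7aad9f_nt.Sz

open Pool.Agent.P.MP_7aad9f_nt.Sub (Gen S_GENSEL S_OMEGA)

section

attribute [local instance] Matrix.seminormedAddCommGroup

theorem SIEGEL_gen {ρ ι : Type} [Fintype ρ] (P : Finset ι) (A : ρ → ι → ℤ) (B : ℕ)
    (hB : 1 ≤ B) (hA : ∀ r, ∀ z ∈ P, |A r z| ≤ B) (h2 : 2 * Fintype.card ρ ≤ P.card)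
    (hP : 0 < P.card) :
    ∃ lam : ι → ℤ, (∃ z ∈ P, lam z ≠ 0) ∧ (∀ z ∈ P, |lam z| ≤ P.card * B) ∧
      ∀ r, ∑ z ∈ P, A r z * lam z = 0 := by
  classical
  rcases Nat.eq_zero_or_pos (Fintype.card ρ) with h0 | hm
  · obtain ⟨z, hz⟩ := Finset.card_pos.1 hP
    refine ⟨fun _ => 1, ⟨z, hz, one_ne_zero⟩, fun z _ => ?_, fun r => ?_⟩
    · have : 1 ≤ P.card * B := Nat.mul_pos hP hB
      rw [abs_one]
      exact_mod_cast this
    · have : 0 < Fintype.card ρ := Fintype.card_pos_iff.2 ⟨r⟩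
      omega
  · let M : Matrix ρ P ℤ := fun r z => A r z
    have hn : Fintype.card P = P.card := Fintype.card_coe P
    obtain ⟨t, ht0, ht1, ht2⟩ := Int.Matrix.exists_ne_zero_int_vec_norm_le M (by omega) hm
    have hB' : (1 : ℝ) ≤ B := by exact_mod_cast hB
    have hM : ‖M‖ ≤ (B : ℝ) := by
      rw [Matrix.norm_le_iff (by positivity)]
      intro r z
      have := hA r z z.2
      rw [Int.norm_eq_abs]
      exact_mod_cast this
    have hnorm : ‖t‖ ≤ (P.card : ℝ) * B := by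
      refine ht2.trans ?_
      have hn1 : (1 : ℝ) ≤ Fintype.card P := by
        exact_mod_cast (by omega : 1 ≤ Fintype.card P)
      have hb : (1 : ℝ) ≤ Fintype.card P * max 1 ‖M‖ :=
        one_le_mul_of_one_le_of_one_le hn1 (le_max_left _ _)
      have h8 : (2 : ℝ) * Fintype.card ρ ≤ Fintype.card P := by
        rw [hn]; exact_mod_cast h2
      have h9 : (0 : ℝ) < Fintype.card ρ := by exact_mod_cast hm
      have he : (Fintype.card ρ : ℝ) / (Fintype.card P - Fintype.card ρ) ≤ 1 := by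
        rw [div_le_one (by linarith)]; linarith
      calc _ ≤ (Fintype.card P * max 1 ‖M‖) ^ (1 : ℝ) :=
            Real.rpow_le_rpow_of_exponent_le hb he
        _ = Fintype.card P * max 1 ‖M‖ := Real.rpow_one _
        _ ≤ (P.card : ℝ) * B := by
          rw [hn]
          gcongr
          exact max_le hB' hM
    refine ⟨fun z => if h : z ∈ P then t ⟨z, h⟩ else 0, ?_, fun z hz => ?_, fun r => ?_⟩
    · obtain ⟨z, hz⟩ := Function.ne_iff.1 ht0
      exact ⟨z, z.2, by simpa [z.2] using hz⟩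
    · have h10 := (norm_le_pi_norm t ⟨z, hz⟩).trans hnorm
      rw [Int.norm_eq_abs] at h10
      simp only [hz, dite_true]
      exact_mod_cast h10
    · have h11 := congrFun ht1 r
      simp only [Matrix.mulVec, dotProduct, Pi.zero_apply] at h11
      rw [← Finset.sum_coe_sort P, ← h11]
      refine Finset.sum_congr rfl fun z _ => ?_
      simp [M, z.2]

end

theorem SIEGEL_three (σ : Fin 3) (f : Fin 3 → ℕ) : ∑ s, f s = f σ + f (σ + 1) + f (σ + 2) := by
  rw [Fin.sum_univ_three]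
  fin_cases σ
  · rfl
  · show _ = f 1 + f 2 + f 0
    omega
  · show _ = f 2 + f 0 + f 1
    omega

theorem SIEGEL_aff {k : ℕ} (θ Z : ℕ) (σ : Fin 3) (a : Fin (k + 1) → ℕ) (i : Fin (k + 1))
    (s : Fin 3) : ∃ (c0 : ℤ) (c : Fin k → ℤ), ∀ z : Fin (k + 1) → Fin 3 → ℕ, Adm θ Z z →
      col z σ = a → (z i s : ℤ) = c0 + ∑ i', c i' * (z i'.succ (σ + 1) : ℕ) := by
  classical
  have hs : s = σ ∨ s = σ + 1 ∨ s = σ + 2 := by revert s σ; decide
  have key : ∀ z : Fin (k + 1) → Fin 3 → ℕ, Adm θ Z z → col z σ = a → ∀ i' : Fin k,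
      (z i'.succ (σ + 2) : ℤ) = θ - a i'.succ - z i'.succ (σ + 1) := by
    intro z hz ha i'
    have h1 := hz.1 i'
    rw [SIEGEL_three σ] at h1
    have h2 : z i'.succ σ = a i'.succ := congrFun ha i'.succ
    omega
  have top : ∀ z : Fin (k + 1) → Fin 3 → ℕ, Adm θ Z z → ∀ s',
      (z 0 s' : ℤ) = Z - ∑ i' : Fin k, (z i'.succ s' : ℤ) := by
    intro z hz s'
    have h1 := hz.2 s'
    rw [Fin.sum_univ_succ] at h1
    rw [← h1]
    push_cast
    ring
  rcases hs with rfl | rfl | rfl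
  · refine ⟨a i, 0, fun z _ ha => ?_⟩
    have h2 : z i s = a i := congrFun ha i
    simp [h2]
  · refine Fin.cases ?_ (fun i0 => ?_) i
    · refine ⟨Z, fun _ => -1, fun z hz _ => ?_⟩
      rw [top z hz]
      simp [sub_eq_add_neg]
    · refine ⟨0, Pi.single i0 1, fun z _ _ => ?_⟩
      simp [Pi.single_apply]
  · refine Fin.cases ?_ (fun i0 => ?_) i
    · refine ⟨Z - ∑ i' : Fin k, ((θ : ℤ) - a i'.succ), fun _ => 1, fun z hz ha => ?_⟩
      rw [top z hz, Finset.sum_congr rfl fun i' _ => key z hz ha i', Finset.sum_sub_distrib]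
      simp only [one_mul]
      ring
    · refine ⟨θ - a i0.succ, Pi.single i0 (-1), fun z hz ha => ?_⟩
      rw [key z hz ha]
      simp [Pi.single_apply, sub_eq_add_neg]

theorem p_SIEGEL (hSIEA : S_SIEA) (hSPAN : S_SPAN) :
    S_SIEGEL := by
  classical
  intro q hq
  obtain ⟨k', hk', H⟩ := hSIEA q hq
  refine ⟨k', hk', fun k hk θ X0 xf hθ hxf => ?_⟩
  obtain ⟨X, P, E, hP, hE, hcard, hpos, hle⟩ :=
    H k hk θ X0 (fun z => ∑ s, xf (col z s)) hθ fun z hz => (hxf z hz).2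
  have hkZ : k * θ ≤ 3 * ((q + 1) * k' * θ) := by
    rw [hk]
    nlinarith [Nat.zero_le (k' * θ)]
  generalize (q + 1) * k' * θ = Z at *
  generalize (q - 1) * k' * θ = wd at *
  let A : Fin 3 × Fin k × E → (Fin (k + 1) → Fin 3 → ℕ) → ℤ := fun r z =>
    if ∀ i : Fin k, z i.succ r.1 = r.2.2.1.1 i then
      (-1) ^ xf (col z (r.1 + 1)) * (((xf (col z (r.1 + 1))).choose r.2.1 : ℕ) : ℤ) *
        ((∏ i : Fin k, (z i.succ (r.1 + 1)).choose (r.2.2.1.2 i) : ℕ) : ℤ)
    else 0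
  have hA : ∀ r, ∀ z ∈ P, |A r z| ≤ ((2 ^ Z * 2 ^ Z : ℕ) : ℤ) := by
    intro r z hz
    simp only [A]
    split_ifs
    · have h5 : (xf (col z (r.1 + 1))).choose r.2.1 ≤ 2 ^ Z :=
        (Nat.choose_le_two_pow _ _).trans
          (Nat.pow_le_pow_right (by norm_num) ((hxf z (hP z hz).1).1 _))
      have h6 : ∏ i : Fin k, (z i.succ (r.1 + 1)).choose (r.2.2.1.2 i) ≤ 2 ^ Z := by
        calc _ ≤ ∏ i : Fin k, 2 ^ (z i.succ (r.1 + 1)) :=
              Finset.prod_le_prod' fun s _ => Nat.choose_le_two_pow _ _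
          _ = 2 ^ ∑ i : Fin k, z i.succ (r.1 + 1) := Finset.prod_pow_eq_pow_sum _ _ _
          _ ≤ 2 ^ Z := by
            refine Nat.pow_le_pow_right (by norm_num) ?_
            have := (hP z hz).1.2 (r.1 + 1)
            rw [Fin.sum_univ_succ] at this
            omega
      rw [mul_assoc, abs_mul, abs_pow, abs_neg, abs_one, one_pow, one_mul, ← Nat.cast_mul,
        Nat.abs_cast]
      exact_mod_cast Nat.mul_le_mul h5 h6
    · rw [abs_zero]
      positivity
  obtain ⟨lam, hl0, hl1, hl2⟩ := SIEGEL_gen P A (2 ^ Z * 2 ^ Z) (Nat.succ_le_of_lt (by positivity))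
    hA (by simp only [Fintype.card_prod, Fintype.card_fin, Fintype.card_coe]; linarith) hpos
  refine ⟨X, P, lam, hP, hl0, ?_, ?_⟩
  · have h1 : P.card * (P.card * (2 ^ Z * 2 ^ Z)) ≤ 2 ^ (20 * Z) := by
      calc _ ≤ 2 ^ (3 * k * θ) * (2 ^ (3 * k * θ) * (2 ^ Z * 2 ^ Z)) := by gcongr
        _ = 2 ^ (6 * (k * θ) + 2 * Z) := by ring
        _ ≤ 2 ^ (20 * Z) := Nat.pow_le_pow_right (by norm_num) (by omega)
    calc ∑ z ∈ P, |lam z| ≤ P.card • ((P.card : ℤ) * ((2 ^ Z * 2 ^ Z : ℕ) : ℤ)) :=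
          Finset.sum_le_card_nsmul _ _ _ hl1
      _ ≤ 2 ^ (20 * Z) := by
        rw [nsmul_eq_mul]
        exact_mod_cast h1
  · intro σ a j d e hj hde
    rcases (P.filter fun z => col z σ = a).eq_empty_or_nonempty with h0 | ⟨z0, hz0⟩
    · rw [h0, Finset.sum_empty]
    rw [Finset.mem_filter] at hz0
    have hiff : ∀ z ∈ P, col z σ = a ↔ ∀ i : Fin k, z i.succ σ = a i.succ := by
      intro z hz
      refine ⟨fun h i => congrFun h i.succ, fun h => funext fun i => ?_⟩
      refine Fin.cases ?_ h i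
      have h1 := (hP z hz).1.2 σ
      have h2 := (hP z0 hz0.1).1.2 σ
      rw [Fin.sum_univ_succ] at h1 h2
      have h3 : ∑ i : Fin k, z i.succ σ = ∑ i : Fin k, z0 i.succ σ :=
        Finset.sum_congr rfl fun i _ => (h i).trans (congrFun hz0.2 i.succ).symm
      have h4 : z0 0 σ = a 0 := congrFun hz0.2 0
      show z 0 σ = a 0
      omega
    choose c0 c hc using SIEGEL_aff θ Z σ a
    let π : (Fin (k + 1) × Fin 3) ⊕ (Fin (k + 1) × Fin 3) → Fin (k + 1) × Fin 3 := Sum.elim id id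
    have h := hSPAN k wd _ ((Fin (k + 1) × Fin 3) ⊕ (Fin (k + 1) × Fin 3))
      (P.filter fun z => col z σ = a) (fun z i => z i.succ (σ + 1))
      (fun z => lam z * (-1) ^ xf (col z (σ + 1)) * (((xf (col z (σ + 1))).choose j : ℕ) : ℤ))
      (fun ν z => z (π ν).1 (π ν).2) (fun ν => c0 (π ν).1 (π ν).2) (fun ν => c (π ν).1 (π ν).2)
      (Sum.elim (fun ν => d ν.1 ν.2) (fun ν => e ν.1 ν.2)) ?_ ?_ ?_
    · rw [← h]
      refine Finset.sum_congr rfl fun z _ => ?_
      simp only [Fintype.prod_sum_type, Fintype.prod_prod_type, π, Sum.elim_inl, Sum.elim_inr, id,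
        bin, Nat.cast_mul]
      ring
    · intro d' hd'
      by_cases hb : ∀ i : Fin k, a i.succ + d' i ≤ θ
      · have h1 := hl2 (σ, ⟨j, hj⟩, ⟨(fun i => a i.succ, d'), hE _ _ hb hd'⟩)
        rw [Finset.sum_filter]
        refine Eq.trans (Finset.sum_congr rfl fun z hz => ?_) h1
        simp only [A, hiff z hz]
        split_ifs
        · ring
        · rw [zero_mul]
      · push Not at hb
        obtain ⟨i, hi⟩ := hb
        refine Finset.sum_eq_zero fun z hz => ?_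
        rw [Finset.mem_filter] at hz
        have h1 := (hP z hz.1).1.1 i
        rw [SIEGEL_three σ] at h1
        have h2 : z i.succ σ = a i.succ := congrFun hz.2 i.succ
        rw [Finset.prod_eq_zero (Finset.mem_univ i) (Nat.choose_eq_zero_of_lt (by omega))]
        simp
    · intro z hz ν
      rw [Finset.mem_filter] at hz
      exact hc _ _ z (hP z hz.1).1 hz.2
    · simpa only [Fintype.sum_sum_type, Fintype.sum_prod_type, Sum.elim_inl, Sum.elim_inr, tot]
        using hde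

end Pool.Agent.P.MP_7aad9f_nt.Sz

end
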