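import Pool.Agent.P.MP_7aad9f_nt.Sz.ZDefs

/-! The coefficient norms. -/

set_option autoImplicit false

open Polynomial

namespace Pool.Agent.P.MP_7aad9f_nt.Sz

theorem nrm1_sub (f : ℤ[X]) {s : Finset ℕ} (h : f.support ⊆ s) :
    nrm1 f = ∑ i ∈ s, (f.coeff i).natAbs :=
  Finset.sum_subset h fun d _ hd => by simp [notMem_support_iff.1 hd]

theorem nrm1_zero : nrm1 0 = 0 := by simp [nrm1]

theorem nrm1_add (f g : ℤ[X]) : nrm1 (f + g) ≤ nrm1 f + nrm1 g := by
  rw [nrm1_sub (f + g) support_add, nrm1_sub f (s := f.support ∪ g.support)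
    Finset.subset_union_left, nrm1_sub g (s := f.support ∪ g.support)
    Finset.subset_union_right, ← Finset.sum_add_distrib]
  exact Finset.sum_le_sum fun d _ => by rw [coeff_add]; exact Int.natAbs_add_le _ _

theorem nrm1_sum {ι : Type} (s : Finset ι) (f : ι → ℤ[X]) :
    nrm1 (∑ i ∈ s, f i) ≤ ∑ i ∈ s, nrm1 (f i) :=
  Finset.le_sum_of_subadditive nrm1 nrm1_zero.le nrm1_add s f

theorem nrm1_monomial (i : ℕ) (a : ℤ) : nrm1 (monomial i a) = a.natAbs := by
  rw [nrm1_sub _ (support_monomial_subset i a)]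
  simp

theorem nrm1_mul (f g : ℤ[X]) : nrm1 (f * g) ≤ nrm1 f * nrm1 g := by
  conv_lhs => rw [f.as_sum_support, g.as_sum_support, Finset.sum_mul_sum]
  rw [nrm1.eq_1 f, nrm1.eq_1 g, Finset.sum_mul_sum]
  refine (nrm1_sum _ _).trans (Finset.sum_le_sum fun d _ => ?_)
  refine (nrm1_sum _ _).trans (Finset.sum_le_sum fun e _ => ?_)
  rw [monomial_mul_monomial, nrm1_monomial, Int.natAbs_mul]

theorem nrm1_C (a : ℤ) : nrm1 (C a) = a.natAbs := nrm1_monomial 0 a

theorem nrm1_smul (k : ℤ) (f : ℤ[X]) : nrm1 (k • f) ≤ k.natAbs * nrm1 f := by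
  rw [smul_eq_C_mul, ← nrm1_C]
  exact nrm1_mul _ _

theorem nrm1_pow (f : ℤ[X]) (e : ℕ) : nrm1 (f ^ e) ≤ nrm1 f ^ e := by
  induction e with
  | zero => simpa using (nrm1_C 1).le
  | succ e ih =>
    rw [pow_succ, pow_succ]
    exact (nrm1_mul _ _).trans (Nat.mul_le_mul_right _ ih)

theorem nrm1_cusp (lam : ℤ) (a b : ℕ) :
    nrm1 (C lam * X ^ a * (1 - X) ^ b) ≤ lam.natAbs * 2 ^ b := by
  have h1 : nrm1 (1 - X) ≤ 2 := by
    have h2 := nrm1_add (monomial 0 1) (monomial 1 (-1))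
    rw [nrm1_monomial, nrm1_monomial] at h2
    rw [show (1 - X : ℤ[X]) = monomial 0 1 + monomial 1 (-1) by
      rw [map_neg, monomial_one_one_eq_X, monomial_zero_one, sub_eq_add_neg]]
    simpa using h2
  refine (nrm1_mul _ _).trans (Nat.mul_le_mul ?_ ((nrm1_pow _ _).trans (Nat.pow_le_pow_left h1 b)))
  rw [C_mul_X_pow_eq_monomial, nrm1_monomial]

variable {n : ℕ}

theorem znrm_sub (F : MvPolynomial (Fin n) ℤ[X]) {s : Finset (Fin n →₀ ℕ)} (h : F.support ⊆ s) :
    znrm F = ∑ d ∈ s, nrm1 (F.coeff d) :=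
  Finset.sum_subset h fun d _ hd => by rw [MvPolynomial.notMem_support_iff.1 hd, nrm1_zero]

theorem znrm_add (F G : MvPolynomial (Fin n) ℤ[X]) : znrm (F + G) ≤ znrm F + znrm G := by
  rw [znrm_sub (F + G) MvPolynomial.support_add, znrm_sub F (s := F.support ∪ G.support)
    Finset.subset_union_left, znrm_sub G (s := F.support ∪ G.support)
    Finset.subset_union_right, ← Finset.sum_add_distrib]
  exact Finset.sum_le_sum fun d _ => by rw [MvPolynomial.coeff_add]; exact nrm1_add _ _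

theorem znrm_sum {ι : Type} (s : Finset ι) (F : ι → MvPolynomial (Fin n) ℤ[X]) :
    znrm (∑ i ∈ s, F i) ≤ ∑ i ∈ s, znrm (F i) :=
  Finset.le_sum_of_subadditive znrm (by simp [znrm]) znrm_add s F

theorem znrm_monomial (d : Fin n →₀ ℕ) (a : ℤ[X]) : znrm (MvPolynomial.monomial d a) = nrm1 a := by
  rw [znrm_sub _ MvPolynomial.support_monomial_subset]
  simp

theorem znrm_mul (F G : MvPolynomial (Fin n) ℤ[X]) : znrm (F * G) ≤ znrm F * znrm G := by
  conv_lhs => rw [F.as_sum, G.as_sum, Finset.sum_mul_sum]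
  rw [znrm.eq_1 F, znrm.eq_1 G, Finset.sum_mul_sum]
  refine (znrm_sum _ _).trans (Finset.sum_le_sum fun d _ => ?_)
  refine (znrm_sum _ _).trans (Finset.sum_le_sum fun e _ => ?_)
  rw [MvPolynomial.monomial_mul, znrm_monomial]
  exact nrm1_mul _ _

theorem znrm_smul (k : ℤ) (F : MvPolynomial (Fin n) ℤ[X]) : znrm (k • F) ≤ k.natAbs * znrm F := by
  rw [znrm_sub _ MvPolynomial.support_smul, znrm, Finset.mul_sum]
  exact Finset.sum_le_sum fun d _ => by rw [MvPolynomial.coeff_smul]; exact nrm1_smul _ _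

theorem znrm_prod {ι : Type} (s : Finset ι) (F : ι → MvPolynomial (Fin n) ℤ[X]) :
    znrm (∏ i ∈ s, F i) ≤ ∏ i ∈ s, znrm (F i) := by
  classical
  induction s using Finset.induction_on with
  | empty =>
    have h := (znrm_monomial (0 : Fin n →₀ ℕ) (C 1)).trans (nrm1_C 1)
    simpa using h.le
  | insert a s ha ih =>
    rw [Finset.prod_insert ha, Finset.prod_insert ha]
    exact (znrm_mul _ _).trans (Nat.mul_le_mul_left _ ih)

theorem znrm_coeff (F : MvPolynomial (Fin (n + 1)) ℤ[X]) (i : ℕ) :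
    znrm ((MvPolynomial.finSuccEquiv ℤ[X] n F).coeff i) ≤ znrm F := by
  have hinj : Function.Injective (Finsupp.cons i : (Fin n →₀ ℕ) → Fin (n + 1) →₀ ℕ) :=
    fun d e h => by rw [← Finsupp.tail_cons i d, h, Finsupp.tail_cons]
  unfold znrm
  simp only [MvPolynomial.finSuccEquiv_coeff_coeff]
  rw [← Finset.sum_image (f := fun d => nrm1 (F.coeff d)) hinj.injOn]
  refine Finset.sum_le_sum_of_subset fun d hd => ?_
  obtain ⟨e, he, rfl⟩ := Finset.mem_image.1 hd
  exact MvPolynomial.mem_support_coeff_finSuccEquiv.1 he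

theorem znrm_det (F : MvPolynomial (Fin (n + 1)) ℤ[X]) {N K : ℕ}
    (M : Matrix (Fin N) (Fin N) (MvPolynomial (Fin n) ℤ[X]))
    (hM : ∀ ρ c, M ρ c = 0 ∨ ∃ (κ : ℤ) (i : ℕ), |κ| ≤ K ∧
      M ρ c = κ • (MvPolynomial.finSuccEquiv ℤ[X] n F).coeff i) :
    znrm M.det ≤ N.factorial * (K * znrm F) ^ N := by
  have h2 : ∀ ρ c : Fin N, znrm (M ρ c) ≤ K * znrm F := by
    intro ρ c
    rcases hM ρ c with h | ⟨κ, i, hk, h⟩
    · simp [h, znrm]
    · rw [h]
      refine (znrm_smul _ _).trans (Nat.mul_le_mul ?_ (znrm_coeff F i))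
      rw [← Int.natCast_natAbs] at hk
      exact_mod_cast hk
  rw [Matrix.det_apply]
  simp only [Units.smul_def]
  refine (znrm_sum _ _).trans ((Finset.sum_le_card_nsmul _ _ ((K * znrm F) ^ N)
    fun σ _ => ?_).trans ?_)
  · refine (znrm_smul _ _).trans ?_
    rw [Int.units_natAbs, one_mul]
    refine (znrm_prod _ _).trans ((Finset.prod_le_pow_card _ _ _ fun c _ => h2 _ c).trans ?_)
    simp
  · simp [Fintype.card_perm]

end Pool.Agent.P.MP_7aad9f_nt.Sz
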