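import Pool.Agent.P.MP_7aad9f_nt.Sz.If
import Pool.Agent.P.MP_7aad9f_nt.Sz.ZSize
import Pool.Agent.P.MP_7aad9f_nt.SubVANISH

section
/-! Step LOCAL. -/

set_option autoImplicit false

open Polynomial

namespace Pool.Agent.P.MP_7aad9f_nt.Sz

open Pool.Agent.P.MP_7aad9f_nt.Sub (Gen S_GENSEL S_OMEGA)

open Finset

lemma LOCAL_prod3 {N : Type} [CommMonoid N] (f : Fin 3 → N) (σ : Fin 3) :
    ∏ s, f s = f σ * f (σ + 1) * f (σ + 2) := by
  rw [Fin.prod_univ_three]
  fin_cases σ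
  · rfl
  · change _ = f 1 * f 2 * f 0
    ac_rfl
  · change _ = f 2 * f 0 * f 1
    ac_rfl

lemma LOCAL_sum3 {N : Type} [AddCommMonoid N] (f : Fin 3 → N) (σ : Fin 3) :
    ∑ s, f s = f σ + f (σ + 1) + f (σ + 2) :=
  LOCAL_prod3 (N := Multiplicative N) f σ

lemma LOCAL_ne1 (σ : Fin 3) : σ + 1 ≠ σ := by revert σ; decide

lemma LOCAL_ne2 (σ : Fin 3) : σ + 2 ≠ σ := by revert σ; decide

lemma LOCAL_pow {Ω : Type} [CommRing Ω] (a b : Ω) {x N : ℕ} (h : x ≤ N) :
    (a + b) ^ x = ∑ n ∈ range (N + 1), a ^ n * b ^ (x - n) * (x.choose n : Ω) := by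
  rw [add_pow]
  refine sum_subset (range_subset_range.2 (by omega)) fun n _ hn => ?_
  rw [Nat.choose_eq_zero_of_lt (by simpa using hn)]
  simp

lemma LOCAL_choose (s : Finset ℕ) (x : ℕ) : ∑ n ∈ s, x.choose n ≤ 2 ^ x := by
  rw [← Nat.sum_range_choose]
  refine sum_le_sum_of_ne_zero fun n _ hn => ?_
  by_contra h
  exact hn (Nat.choose_eq_zero_of_lt (by simpa using h))

/-- Admissible exponents in the expansion. -/
def LOCAL_Es (σ : Fin 3) (Z : ℕ) (s : Fin 3) : Finset ℕ := if s = σ then {0} else range (Z + 1)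

/-- Admissible exponent matrices in the expansion. -/
def LOCAL_E (k : ℕ) (σ : Fin 3) (Z : ℕ) : Finset (Fin (k + 1) → Fin 3 → ℕ) :=
  Fintype.piFinset fun _ => Fintype.piFinset (LOCAL_Es σ Z)

lemma LOCAL_exp {N : Type} [CommSemiring N] {k : ℕ} (σ : Fin 3) (Z : ℕ)
    (F : Fin (k + 1) → Fin 3 → ℕ → N) :
    ∏ i, ∏ s, ∑ n ∈ LOCAL_Es σ Z s, F i s n = ∑ e ∈ LOCAL_E k σ Z, ∏ i, ∏ s, F i s (e i s) := by
  simp_rw [prod_univ_sum]
  rfl

lemma LOCAL_E0 {k Z : ℕ} {σ : Fin 3} {e : Fin (k + 1) → Fin 3 → ℕ} (h : e ∈ LOCAL_E k σ Z)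
    (i : Fin (k + 1)) : e i σ = 0 := by
  have := Fintype.mem_piFinset.1 (Fintype.mem_piFinset.1 h i) σ
  simpa [LOCAL_Es] using this

lemma LOCAL_le {k : ℕ} {z e : Fin (k + 1) → Fin 3 → ℕ} (h : bin z e ≠ 0) (i : Fin (k + 1))
    (s : Fin 3) : e i s ≤ z i s := by
  by_contra hc
  exact h (prod_eq_zero (mem_univ i) (prod_eq_zero (mem_univ s)
    (Nat.choose_eq_zero_of_lt (not_le.1 hc))))

lemma LOCAL_bin {k Z : ℕ} {z : Fin (k + 1) → Fin 3 → ℕ} (hz : ∀ s, ∑ i, z i s = Z)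
    (d : Fin (k + 1) → Fin 3 → ℕ) : bin z d ≤ 2 ^ (3 * Z) := by
  calc bin z d ≤ ∏ i, ∏ s, 2 ^ z i s :=
        prod_le_prod' fun i _ => prod_le_prod' fun s _ => Nat.choose_le_two_pow _ _
    _ = 2 ^ (3 * Z) := by
        rw [prod_comm]
        simp_rw [prod_pow_eq_pow_sum, hz]
        simp

lemma LOCAL_sumbin {k Z : ℕ} {z : Fin (k + 1) → Fin 3 → ℕ} (hz : ∀ s, ∑ i, z i s = Z)
    (σ : Fin 3) : ∑ e ∈ LOCAL_E k σ Z, bin z e ≤ 2 ^ (2 * Z) := by
  unfold bin
  rw [← LOCAL_exp σ Z fun i s n => (z i s).choose n]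
  calc _ ≤ ∏ i, ∏ s, if s = σ then 1 else 2 ^ z i s := by
        refine prod_le_prod' fun i _ => prod_le_prod' fun s _ => ?_
        split_ifs with h
        · simp [LOCAL_Es, h]
        · exact LOCAL_choose _ _
    _ = 2 ^ (2 * Z) := by
        simp_rw [LOCAL_prod3 _ σ, if_neg (LOCAL_ne1 σ), if_neg (LOCAL_ne2 σ), if_true, one_mul,
          prod_mul_distrib, prod_pow_eq_pow_sum, hz, two_mul, pow_add]

lemma LOCAL_bd {Ω ι : Type} [Field Ω] (w : AbsoluteValue Ω ℝ) (s : Finset ι) (n : ι → ℤ)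
    (T : ι → Ω) {b : ℝ} (hb : 0 ≤ b) (h : ∀ i ∈ s, n i ≠ 0 → w (T i) ≤ b) :
    w (∑ i ∈ s, n i * T i) ≤ ((∑ i ∈ s, |n i| : ℤ) : ℝ) * b ∧
      (IsNonarchimedean w → w (∑ i ∈ s, n i * T i) ≤ b) := by
  constructor
  · refine (w.sum_le _ _).trans ?_
    rw [Int.cast_sum, sum_mul]
    refine sum_le_sum fun i hi => ?_
    by_cases h0 : n i = 0
    · simp [h0]
    · rw [map_mul, ← w.apply_natAbs_eq, ← Int.natCast_natAbs, Int.cast_natCast]
      exact mul_le_mul (w.apply_nat_le_self _) (h i hi h0) (w.nonneg _) (Nat.cast_nonneg _)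
  · intro hna
    refine sum_induction _ (fun a => w a ≤ b) (fun a a' h1 h2 => (hna a a').trans (max_le h1 h2))
      (by simpa using hb) fun i hi => ?_
    by_cases h0 : n i = 0
    · simpa [h0] using hb
    · rw [map_mul]
      exact (mul_le_of_le_one_left (w.nonneg _) hna.apply_intCast_le_one).trans (h i hi h0)

theorem p_LOCAL :
    S_LOCAL := by
  intro Ω _ w k θ Z X Γ wd l R j xf P lam δ y M ϖ A c C0 ρ d hP hM hδ hA hϖ hϖc hc1 hC0 hwd
    ⟨σ, r, t, hδM, hδσ, hyσ, hr, ht, hε⟩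
  have hc : 0 ≤ c := hϖ.trans hϖc
  have hM0 : 0 ≤ M := (w.nonneg _).trans (hδM σ)
  have hρ : ∀ i, 0 ≤ ρ i := fun i => (w.nonneg _).trans (ht i)
  have hC : 0 ≤ C0 := zero_le_one.trans hC0
  set b := M ^ X * ϖ ^ Γ * A ^ Z * (∏ i, ρ i ^ R i) * C0 ^ (2 * Z) * c ^ (wd - tot d) with hb
  have hρR : 0 ≤ ∏ i, ρ i ^ R i := prod_nonneg fun i _ => pow_nonneg (hρ i) _
  have hb0 : 0 ≤ b := by positivity
  obtain ⟨u, hu⟩ : ∃ u : Fin (k + 1) → Fin 3 → Ω,
    u = fun i s => if s = σ then y i σ else t i * r s := ⟨_, rfl⟩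
  have huσ : ∀ i, u i σ = y i σ := fun i => by simp [hu]
  have hu1 : ∀ i, u i (σ + 1) = t i * r (σ + 1) := fun i => by simp [hu]
  have hu2 : ∀ i, u i (σ + 2) = t i * r (σ + 2) := fun i => by simp [hu]
  let cf : (Fin (k + 1) → Fin 3 → ℕ) → ℕ × (Fin (k + 1) → Fin 3 → ℕ) → ℤ := fun z q =>
    lam z * (-1) ^ xf (col z (σ + 1)) *
      (((xf (col z (σ + 1))).choose q.1 * bin z d * bin z q.2 : ℕ) : ℤ)
  let T : (Fin (k + 1) → Fin 3 → ℕ) → ℕ × (Fin (k + 1) → Fin 3 → ℕ) → Ω := fun z q =>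
    δ σ ^ (xf (col z σ) + q.1) * δ (σ + 2) ^ (X - xf (col z σ) - q.1) *
      ∏ i, ∏ s, (y i s - u i s) ^ q.2 i s * u i s ^ (z i s - q.2 i s)
  let G : (Fin (k + 1) → ℕ) → ℕ × (Fin (k + 1) → Fin 3 → ℕ) → Ω := fun a q =>
    δ σ ^ (xf a + q.1) * δ (σ + 2) ^ (X - xf a - q.1) * ((∏ i, ∏ s, (y i s - u i s) ^ q.2 i s) *
      (∏ i, y i σ ^ a i) * (∏ i, t i ^ (R i - a i - q.2 i (σ + 1) - q.2 i (σ + 2))) *
      r (σ + 1) ^ (Z - ∑ i, q.2 i (σ + 1)) * r (σ + 2) ^ (Z - ∑ i, q.2 i (σ + 2)))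
  let Q := range (X + 1) ×ˢ LOCAL_E k σ Z
  have hne : ∀ z q, cf z q ≠ 0 → q.1 ≤ xf (col z (σ + 1)) ∧ ∀ i s, q.2 i s ≤ z i s := by
    intro z q h
    have h1 := Nat.cast_ne_zero.1 (right_ne_zero_of_mul h)
    refine ⟨?_, LOCAL_le (right_ne_zero_of_mul h1)⟩
    by_contra hc
    exact h1 (by rw [Nat.choose_eq_zero_of_lt (not_le.1 hc)]; simp)
  have hX : ∀ z ∈ P, xf (col z σ) + xf (col z (σ + 1)) + xf (col z (σ + 2)) = X := fun z hz => by
    rw [← (hP z hz).2.2.1, LOCAL_sum3 _ σ]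
  -- the expansion
  have hexp : Dval P lam xf δ y d = ∑ z ∈ P, ∑ q ∈ Q, cf z q * T z q := by
    refine sum_congr rfl fun z hz => ?_
    have hx := hX z hz
    have h1 : δ (σ + 1) = -1 * (δ σ + δ (σ + 2)) := by
      have := LOCAL_sum3 δ σ
      rw [Fin.sum_univ_three, hδ] at this
      linear_combination -this
    have h2 : ∏ i, ∏ s, y i s ^ z i s = ∑ e ∈ LOCAL_E k σ Z, ∏ i, ∏ s,
        (y i s - u i s) ^ e i s * u i s ^ (z i s - e i s) * ((z i s).choose (e i s) : Ω) := by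
      rw [← LOCAL_exp σ Z fun i s n =>
        (y i s - u i s) ^ n * u i s ^ (z i s - n) * ((z i s).choose n : Ω)]
      refine prod_congr rfl fun i _ => prod_congr rfl fun s _ => ?_
      by_cases h : s = σ
      · simp [LOCAL_Es, h, huσ]
      · rw [LOCAL_Es, if_neg h, ← LOCAL_pow, sub_add_cancel]
        rw [← (hP z hz).2.1 s]
        exact single_le_sum (f := fun i => z i s) (fun _ _ => Nat.zero_le _) (mem_univ i)
    rw [LOCAL_prod3 _ σ, h1, mul_pow, LOCAL_pow _ _ (show xf (col z (σ + 1)) ≤ X by omega), h2,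
      sum_product]
    simp only [mul_sum, sum_mul]
    rw [sum_comm]
    refine sum_congr rfl fun jj _ => sum_congr rfl fun e _ => ?_
    by_cases hj : jj ≤ xf (col z (σ + 1))
    · have h3 : X - xf (col z σ) - jj = xf (col z (σ + 1)) - jj + xf (col z (σ + 2)) := by omega
      simp only [cf, T, h3, bin, prod_mul_distrib, pow_add]
      push_cast
      ring
    · simp [cf, Nat.choose_eq_zero_of_lt (not_le.1 hj)]
  -- the monomial depends on the column only
  have hG : ∀ z ∈ P, ∀ q ∈ Q, cf z q * T z q = cf z q * G (col z σ) q := by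
    intro z hz q hq
    by_cases h0 : cf z q = 0
    · simp [h0]
    obtain ⟨-, hle⟩ := hne z q h0
    have h1 : ∀ s, Z - ∑ i, q.2 i s = ∑ i, (z i s - q.2 i s) := fun s => by
      rw [sum_tsub_distrib _ fun i _ => hle i s, (hP z hz).2.1 s]
    have h2 : ∀ i, R i - col z σ i - q.2 i (σ + 1) - q.2 i (σ + 2) =
        (z i (σ + 1) - q.2 i (σ + 1)) + (z i (σ + 2) - q.2 i (σ + 2)) := fun i => by
      have := (hP z hz).1 i
      rw [LOCAL_sum3 _ σ] at this
      have := hle i (σ + 1)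
      have := hle i (σ + 2)
      simp only [col]
      omega
    have h3 : ∀ i, ∏ s, u i s ^ (z i s - q.2 i s) = y i σ ^ col z σ i *
        (t i ^ (R i - col z σ i - q.2 i (σ + 1) - q.2 i (σ + 2)) *
        (r (σ + 1) ^ (z i (σ + 1) - q.2 i (σ + 1)) * r (σ + 2) ^ (z i (σ + 2) - q.2 i (σ + 2)))) :=
      fun i => by
      rw [LOCAL_prod3 _ σ, h2, huσ, hu1, hu2, LOCAL_E0 (mem_product.1 hq).2]
      simp only [col, mul_pow, pow_add, tsub_zero]
      ring
    simp only [T, G, h1, prod_mul_distrib, h3, prod_pow_eq_pow_sum]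
    ring
  let good : ℕ × (Fin (k + 1) → Fin 3 → ℕ) → Prop := fun q => q.1 < l ∧ tot d + tot q.2 < wd
  have hcan : ∑ z ∈ P, ∑ q ∈ Q.filter good, cf z q * T z q = 0 := by
    rw [sum_comm]
    refine sum_eq_zero fun q hq => ?_
    obtain ⟨hq, hg⟩ := mem_filter.1 hq
    rw [sum_congr rfl fun z hz => hG z hz q hq,
      ← sum_fiberwise_of_maps_to (g := fun z => col z σ) fun z hz => mem_image_of_mem _ hz]
    refine sum_eq_zero fun a _ => ?_
    rw [sum_congr rfl fun z hz => by rw [(mem_filter.1 hz).2], ← sum_mul, ← Int.cast_sum,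
      hM σ a q.1 d q.2 hg.1 hg.2]
    simp
  have hD : Dval P lam xf δ y d =
      ∑ v ∈ P ×ˢ Q.filter fun q => ¬ good q, cf v.1 v.2 * T v.1 v.2 := by
    rw [hexp, sum_product, ← zero_add (∑ z ∈ P, ∑ q ∈ Q.filter _, _), ← hcan, ← sum_add_distrib]
    exact sum_congr rfl fun z _ => (sum_filter_add_sum_filter_not _ _ _).symm
  -- the bound for one monomial
  have hT : ∀ v ∈ P ×ˢ Q.filter fun q => ¬ good q, cf v.1 v.2 ≠ 0 → w (T v.1 v.2) ≤ b := by
    rintro ⟨z, jj, e⟩ hv h0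
    obtain ⟨hz, hq⟩ := mem_product.1 hv
    obtain ⟨hq, hg⟩ := mem_filter.1 hq
    obtain ⟨hj, hle⟩ := hne _ _ h0
    dsimp only at hz hj hle hg
    have hx := hX z hz
    have he0 : ∀ i, e i σ = 0 := LOCAL_E0 (mem_product.1 hq).2
    have hs : ∀ i s, s ≠ σ → u i s = t i * r s → w ((y i s - u i s) ^ e i s *
        u i s ^ (z i s - e i s)) ≤ c ^ e i s * (ρ i ^ z i s * C0 ^ z i s) := fun i s h1 h2 => by
      have h3 : w (t i * r s) ≤ ρ i * C0 := by
        rw [map_mul]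
        exact mul_le_mul (ht i) (hr s) (w.nonneg _) (hρ i)
      have := hρ i
      calc _ ≤ (c * ρ i) ^ e i s * (ρ i * C0) ^ (z i s - e i s) := by
            rw [map_mul, map_pow, map_pow, h2]
            gcongr
            exact hε i s h1
        _ = c ^ e i s * (ρ i ^ (e i s + (z i s - e i s)) * C0 ^ (z i s - e i s)) := by ring
        _ ≤ _ := by
            rw [add_tsub_cancel_of_le (hle i s)]
            gcongr
            exact tsub_le_self
    have hi : ∀ i, ∏ s, w ((y i s - u i s) ^ e i s * u i s ^ (z i s - e i s)) ≤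
        c ^ (∑ s, e i s) * (ρ i ^ R i * (A ^ z i σ * (ϖ ^ (j i * z i σ) *
          (C0 ^ z i (σ + 1) * C0 ^ z i (σ + 2))))) := fun i => by
      have h0 : w ((y i σ - u i σ) ^ e i σ * u i σ ^ (z i σ - e i σ)) ≤
          (ρ i * A * ϖ ^ j i) ^ z i σ := by
        rw [he0, huσ, pow_zero, one_mul, tsub_zero, map_pow]
        exact pow_le_pow_left₀ (w.nonneg _) (hyσ i) _
      have := hρ i
      rw [LOCAL_prod3 _ σ, LOCAL_sum3 _ σ, ← (hP z hz).1 i, LOCAL_sum3 _ σ]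
      refine (mul_le_mul (mul_le_mul h0 (hs i _ (LOCAL_ne1 σ) (hu1 i)) (w.nonneg _)
        (by positivity)) (hs i _ (LOCAL_ne2 σ) (hu2 i)) (w.nonneg _) (by positivity)).trans_eq ?_
      rw [he0]
      ring
    have h1 : w (∏ i, ∏ s, (y i s - u i s) ^ e i s * u i s ^ (z i s - e i s)) ≤
        c ^ tot e * ((∏ i, ρ i ^ R i) * (A ^ Z * (ϖ ^ (∑ i, j i * z i σ) * (C0 ^ Z * C0 ^ Z)))) := by
      simp only [map_prod]
      refine (prod_le_prod (fun i _ => prod_nonneg fun s _ => w.nonneg _)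
        fun i _ => hi i).trans_eq ?_
      simp only [prod_mul_distrib, prod_pow_eq_pow_sum, (hP z hz).2.1, tot]
    have h2 : w (δ σ ^ (xf (col z σ) + jj) * δ (σ + 2) ^ (X - xf (col z σ) - jj)) ≤
        M ^ X * ϖ ^ (θ * xf (col z σ)) * ϖ ^ (θ * jj) := by
      calc _ ≤ (M * ϖ ^ θ) ^ (xf (col z σ) + jj) * M ^ (X - xf (col z σ) - jj) := by
            rw [map_mul, map_pow, map_pow]
            gcongr
            exact hδM _
        _ = M ^ (xf (col z σ) + jj + (X - xf (col z σ) - jj)) * ϖ ^ (θ * xf (col z σ)) *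
            ϖ ^ (θ * jj) := by ring
        _ = _ := by rw [show xf (col z σ) + jj + (X - xf (col z σ) - jj) = X by omega]
    have h3 : ϖ ^ (θ * xf (col z σ) + ∑ i, j i * z i σ) ≤ ϖ ^ Γ :=
      pow_le_pow_of_le_one hϖ (hϖc.trans hc1) ((hP z hz).2.2.2 σ)
    have h4 : ϖ ^ (θ * jj) * c ^ tot e ≤ c ^ (wd - tot d) := by
      refine (mul_le_mul_of_nonneg_right (pow_le_pow_left₀ hϖ hϖc _) (pow_nonneg hc _)).trans ?_
      rw [← pow_add]
      refine pow_le_pow_of_le_one hc hc1 ?_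
      by_cases h : jj < l
      · have : ¬ tot d + tot e < wd := fun h' => hg ⟨h, h'⟩
        omega
      · have := Nat.mul_le_mul_left θ (not_lt.1 h)
        omega
    calc w (T z (jj, e)) ≤ M ^ X * ϖ ^ (θ * xf (col z σ)) * ϖ ^ (θ * jj) * (c ^ tot e *
          ((∏ i, ρ i ^ R i) * (A ^ Z * (ϖ ^ (∑ i, j i * z i σ) * (C0 ^ Z * C0 ^ Z))))) := by
          simp only [T]
          rw [map_mul]
          exact mul_le_mul h2 h1 (w.nonneg _) (by positivity)
      _ = M ^ X * ϖ ^ (θ * xf (col z σ) + ∑ i, j i * z i σ) * A ^ Z * (∏ i, ρ i ^ R i) *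
          C0 ^ (2 * Z) * (ϖ ^ (θ * jj) * c ^ tot e) := by ring
      _ ≤ b := by rw [hb]; gcongr
  obtain ⟨h1, h2⟩ := LOCAL_bd w _ _ _ hb0 hT
  rw [hD]
  refine ⟨h1.trans (mul_le_mul_of_nonneg_right ?_ hb0), h2⟩
  norm_cast
  rw [sum_product, sum_mul]
  refine sum_le_sum fun z hz => ?_
  refine (sum_le_sum_of_subset_of_nonneg (filter_subset _ _) fun _ _ _ => abs_nonneg _).trans ?_
  have h3 : ∑ q ∈ Q, (xf (col z (σ + 1))).choose q.1 * bin z d * bin z q.2 ≤ 2 ^ (X + 5 * Z) := by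
    rw [sum_product]
    dsimp only
    rw [← sum_mul_sum, ← sum_mul, show X + 5 * Z = X + 3 * Z + 2 * Z by ring, pow_add, pow_add]
    have := hX z hz
    exact Nat.mul_le_mul (Nat.mul_le_mul ((LOCAL_choose _ _).trans
      (Nat.pow_le_pow_right two_pos (by omega))) (LOCAL_bin (hP z hz).2.1 d))
      (LOCAL_sumbin (hP z hz).2.1 σ)
  simp only [cf, abs_mul, abs_pow, abs_neg, abs_one, one_pow, mul_one, Nat.abs_cast]
  rw [← mul_sum, ← Nat.cast_sum]
  exact mul_le_mul_of_nonneg_left (by exact_mod_cast h3) (abs_nonneg _)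

end Pool.Agent.P.MP_7aad9f_nt.Sz

end

section
/-! Step ZLM. -/

set_option autoImplicit false

open Polynomial Finset

namespace Pool.Agent.P.MP_7aad9f_nt.Sz

open Pool.Agent.P.MP_7aad9f_nt.Sub (Gen vanish_add_pow)

theorem zlm_ord {K : Type} [Field K] {n : ℕ} {ι : Type} (P : Finset ι) (e : ι → Fin n → ℕ)
    (f : ι → ℤ[X]) (u : K) (α : Fin n → K) (ϑ Z : ℕ) (hα : ∀ r, α r ≠ 0)
    (he : ∀ z ∈ P, ∀ r, e z r ≤ Z)
    (h : ∀ l : Fin n → ℕ, ∑ r, l r < ϑ → ∑ z ∈ P, (f z).eval₂ (Int.castRingHom K) u *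
      ((∏ r, ((e z r).choose (l r) : K)) * ∏ r, α r ^ e z r) = 0) :
    ZOrd u α ϑ ϑ (∑ z ∈ P, MvPolynomial.monomial (Finsupp.equivFunOnFinite.symm (e z)) (f z)) := by
  intro b0 b
  have h1 : (X : K[X]) ^ ϑ ∣ zsb u α ϑ b0 b
      (∑ z ∈ P, MvPolynomial.monomial (Finsupp.equivFunOnFinite.symm (e z)) (f z)) -
      ∑ z ∈ P, C ((f z).eval₂ (Int.castRingHom K) u) * ∏ r, (C (α r) + C (b r) * X) ^ e z r := by
    rw [map_sum, ← sum_sub_distrib]
    refine dvd_sum fun z _ => ?_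
    rw [zsb, MvPolynomial.eval₂Hom_monomial, Finsupp.prod_fintype _ _ (fun _ => pow_zero _)]
    simp only [Finsupp.equivFunOnFinite_symm_apply_apply]
    rw [← sub_mul]
    refine Dvd.dvd.mul_right ?_ _
    rw [hom_eval₂, coe_eval₂RingHom, RingHom.ext_int (C.comp (Int.castRingHom K))
      (Int.castRingHom K[X]), eval₂_eq_eval_map, eval₂_eq_eval_map]
    refine Dvd.dvd.trans ?_ (sub_dvd_eval_sub _ _ _)
    rw [add_sub_cancel_left]
    exact dvd_mul_left _ _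
  refine (dvd_sub_left ?_).1 h1
  have h2 : ∑ z ∈ P, C ((f z).eval₂ (Int.castRingHom K) u) *
      ∏ r, (C (α r) + C (b r) * X) ^ e z r =
      ∑ l ∈ Fintype.piFinset fun _ : Fin n => range (Z + 1),
        C (∑ z ∈ P, (f z).eval₂ (Int.castRingHom K) u *
          ∏ r, (((e z r).choose (l r) : K) * α r ^ (e z r - l r))) * ∏ r, (C (b r) * X) ^ l r := by
    simp_rw [map_sum, sum_mul]
    rw [sum_comm]
    refine sum_congr rfl fun z hz => ?_
    simp_rw [fun r => vanish_add_pow (C (α r)) (C (b r) * X) (he z hz r)]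
    rw [prod_univ_sum, mul_sum]
    refine sum_congr rfl fun l _ => ?_
    rw [prod_mul_distrib, map_mul, map_prod, mul_assoc]
    simp
  rw [h2]
  refine dvd_sum fun l _ => ?_
  by_cases h3 : ∑ r, l r < ϑ
  · have h4 : (∑ z ∈ P, (f z).eval₂ (Int.castRingHom K) u *
        ∏ r, (((e z r).choose (l r) : K) * α r ^ (e z r - l r))) * ∏ r, α r ^ l r = 0 := by
      rw [← h l h3, sum_mul]
      refine sum_congr rfl fun z _ => ?_
      rw [mul_assoc, ← prod_mul_distrib, ← prod_mul_distrib]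
      congr 1
      refine prod_congr rfl fun r _ => ?_
      by_cases h5 : e z r < l r
      · rw [Nat.choose_eq_zero_of_lt h5]
        simp
      · rw [mul_assoc, pow_sub_mul_pow _ (not_lt.1 h5)]
    rw [(mul_eq_zero.1 h4).resolve_right (prod_ne_zero_iff.2 fun r _ => pow_ne_zero _ (hα r)),
      map_zero, zero_mul]
    exact dvd_zero _
  refine Dvd.dvd.mul_left ((pow_dvd_pow _ (not_lt.1 h3)).trans ?_) _
  rw [← prod_pow_eq_pow_sum]
  exact prod_dvd_prod_of_dvd _ _ fun r _ => pow_dvd_pow_of_dvd (Dvd.intro_left _ rfl) _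

theorem zlm_gen {k θ D : ℕ} {g : Fin (k + 1) → ℕ} (hl : g (Fin.last k) = θ) (hg : ∀ i, g i ≤ θ)
    (hG : Gen ((k + 1) * D + 1) g) : D < θ ∧ ∀ c : Fin k → ℤ, c ≠ 0 → (∀ i, |c i| ≤ D) →
      ∀ t : ℤ, (D : ℤ) < |θ * t + ∑ i, (g i.castSucc : ℤ) * c i| := by
  have hD : D ≤ (k + 1) * D + 1 := by nlinarith
  have hD' : (D : ℤ) ≤ (((k + 1) * D + 1 : ℕ) : ℤ) := by exact_mod_cast hD
  have key : ∀ (c : Fin k → ℤ) (t : ℤ), c ≠ 0 ∨ t ≠ 0 → (∀ i, |c i| ≤ D) →
      |t| ≤ (((k + 1) * D + 1 : ℕ) : ℤ) →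
      (((k + 1) * D + 1 : ℕ) : ℤ) < |θ * t + ∑ i, (g i.castSucc : ℤ) * c i| := by
    intro c t h0 hc ht
    have := hG (Fin.snoc (α := fun _ => ℤ) c t) (fun h => by
      rcases h0 with h0 | h0
      · exact h0 (funext fun i => by simpa using congrFun h i.castSucc)
      · exact h0 (by simpa using congrFun h (Fin.last k))) (fun r => by
      refine Fin.lastCases ?_ (fun i => ?_) r
      · simpa using ht
      · simpa using (hc i).trans hD')
    rwa [Fin.sum_univ_castSucc, Fin.snoc_last, hl, add_comm (∑ i, _),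
      sum_congr rfl fun i _ => by rw [Fin.snoc_castSucc]] at this
  have hθ : D < θ := by
    have := key 0 1 (Or.inr one_ne_zero) (fun i => by simp) (by
      rw [abs_one]; exact_mod_cast Nat.le_add_left 1 _)
    simp only [mul_one, Pi.zero_apply, mul_zero, sum_const_zero, add_zero, Nat.abs_cast] at this
    omega
  refine ⟨hθ, fun c hc hb t => ?_⟩
  rcases le_or_gt |t| (((k + 1) * D + 1 : ℕ) : ℤ) with ht | ht
  · exact lt_of_le_of_lt hD' (key c t (Or.inl hc) hb ht)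
  have h1 : |∑ i, (g i.castSucc : ℤ) * c i| ≤ k * ((θ : ℤ) * D) := by
    refine (abs_sum_le_sum_abs _ _).trans ((sum_le_card_nsmul _ _ ((θ : ℤ) * D)
      fun i _ => ?_).trans (by simp))
    rw [abs_mul, Nat.abs_cast]
    exact mul_le_mul (by exact_mod_cast hg _) (hb i) (abs_nonneg _) (Int.natCast_nonneg _)
  have h2 := abs_sub_abs_le_abs_sub ((θ : ℤ) * t) (-∑ i, (g i.castSucc : ℤ) * c i)
  rw [sub_neg_eq_add, abs_neg, abs_mul, Nat.abs_cast] at h2
  have h3 : (D : ℤ) < θ := by exact_mod_cast hθ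
  have h4 : (0 : ℤ) ≤ D := Int.natCast_nonneg _
  push_cast at ht
  have h5 := mul_le_mul_of_nonneg_left ht.le (show (0 : ℤ) ≤ θ by omega)
  nlinarith [mul_nonneg h4 (show (0 : ℤ) ≤ θ by omega)]

theorem zlm_mono {K : Type} [Field K] {k θ Z : ℕ} (y : Fin (k + 1) → Fin 3 → K)
    (hy : ∀ i s, y i s ≠ 0) (z : Fin (k + 1) → Fin 3 → ℕ) (hz : Adm θ Z z) :
    (∏ i, ∏ s, y i s ^ z i s) * y 0 2 ^ (k * θ) =
      ((∏ i : Fin k, y i.succ 2 ^ θ) * (y 0 0 * y 0 1 * y 0 2) ^ Z) *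
        ((∏ i : Fin k, (y i.succ 0 * y 0 2 / (y 0 0 * y i.succ 2)) ^ z i.succ 0) *
          ∏ i : Fin k, (y i.succ 1 * y 0 2 / (y 0 1 * y i.succ 2)) ^ z i.succ 1) := by
  obtain ⟨h1, h2⟩ := hz
  have h3 : ∀ i : Fin k, y i.succ 2 ^ θ * ((y i.succ 0 * y 0 2 / (y 0 0 * y i.succ 2)) ^ z i.succ 0 *
      (y i.succ 1 * y 0 2 / (y 0 1 * y i.succ 2)) ^ z i.succ 1) =
      (∏ s, y i.succ s ^ z i.succ s) *
        ((y 0 2 / y 0 0) ^ z i.succ 0 * (y 0 2 / y 0 1) ^ z i.succ 1) := fun i => by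
    have := hy i.succ 2
    have := hy 0 0
    have := hy 0 1
    rw [← h1 i, Fin.sum_univ_three, Fin.prod_univ_three]
    simp only [div_pow, mul_pow, pow_add]
    field_simp
  have h4 : k * θ = ∑ i : Fin k, z i.succ 0 + ∑ i : Fin k, z i.succ 1 + ∑ i : Fin k, z i.succ 2 := by
    rw [← sum_add_distrib, ← sum_add_distrib, sum_congr rfl fun i _ =>
      (Fin.sum_univ_three (z i.succ)).symm.trans (h1 i)]
    simp
  have e0 := h2 0
  have e1 := h2 1
  have e2 := h2 2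
  rw [Fin.sum_univ_succ] at e0 e1 e2
  rw [mul_right_comm, ← prod_mul_distrib, ← prod_mul_distrib, prod_congr rfl fun i _ => h3 i,
    prod_mul_distrib, prod_mul_distrib, prod_pow_eq_pow_sum, prod_pow_eq_pow_sum,
    Fin.prod_univ_succ, Fin.prod_univ_three, h4, mul_pow, mul_pow]
  nth_rewrite 1 [← e0]
  nth_rewrite 1 [← e1]
  rw [← e2]
  have := hy 0 0
  have := hy 0 1
  simp only [div_pow, pow_add]
  field_simp

theorem p_ZLM (hZL : S_ZL) : S_ZLM := by
  classical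
  intro k ε Cc hε hε1 hC
  obtain ⟨D, μ0, H⟩ := hZL (k + k) ε (Cc + 1) hε hε1 (by linarith)
  refine ⟨(k + 1) * D + 1, μ0, ?_⟩
  intro K _ _ δ y θ Z X0 Γ j g xf P lam h0 hδ hy hs hθ hZ hεZ hgl hj hg hG hB hμ hP hlam hsum hD
  obtain ⟨hG1, hG2⟩ := zlm_gen hgl hg hG
  have h1u : 1 - -(δ 0 / δ 2) = -(δ 1 / δ 2) := by
    have := hδ 2
    field_simp
    linear_combination hs
  let e : (Fin (k + 1) → Fin 3 → ℕ) → Fin (k + k) → ℕ := fun z =>
    Fin.append (fun i : Fin k => z i.succ 0) fun i : Fin k => z i.succ 1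
  let f : (Fin (k + 1) → Fin 3 → ℕ) → ℤ[X] := fun z =>
    C (lam z * (-1) ^ (xf (col z 0) + xf (col z 1))) * X ^ xf (col z 0) * (1 - X) ^ xf (col z 1)
  let α : Fin (k + k) → K := Fin.append (fun i : Fin k => y i.succ 0 * y 0 2 / (y 0 0 * y i.succ 2))
    fun i : Fin k => y i.succ 1 * y 0 2 / (y 0 1 * y i.succ 2)
  have hα : ∀ r, α r ≠ 0 := fun r => by
    refine Fin.addCases (fun i => ?_) (fun i => ?_) r
    · simp [α, hy]
    · simp only [α, Fin.append_right]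
      simp [hy]
  have hinj : ∀ z ∈ P, ∀ z' ∈ P, e z = e z' → z = z' := by
    intro z hz z' hz' h
    obtain ⟨a1, a2⟩ := (hP z hz).1
    obtain ⟨b1, b2⟩ := (hP z' hz').1
    have h1 : ∀ (i : Fin k) s, z i.succ s = z' i.succ s := fun i s => by
      have c0 := congrFun h (Fin.castAdd k i)
      have c1 := congrFun h (Fin.natAdd k i)
      simp only [e, Fin.append_left, Fin.append_right] at c0 c1
      have c2 := (a1 i).trans (b1 i).symm
      rw [Fin.sum_univ_three, Fin.sum_univ_three] at c2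
      have c3 : z i.succ 2 = z' i.succ 2 := by omega
      fin_cases s
      exacts [c0, c1, c3]
    funext i s
    refine Fin.cases ?_ (fun i => h1 i s) i
    have c := (a2 s).trans (b2 s).symm
    rw [Fin.sum_univ_succ, Fin.sum_univ_succ, sum_congr rfl fun i _ => h1 i s] at c
    omega
  have hco : ∀ z ∈ P, (∑ z ∈ P, MvPolynomial.monomial (Finsupp.equivFunOnFinite.symm (e z))
      (f z)).coeff (Finsupp.equivFunOnFinite.symm (e z)) = f z := fun z hz => by
    rw [MvPolynomial.coeff_sum, sum_eq_single_of_mem z hz fun z' hz' hne => by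
      rw [MvPolynomial.coeff_monomial, if_neg fun h =>
        hne (hinj _ hz' _ hz (Finsupp.equivFunOnFinite.symm.injective h))]]
    rw [MvPolynomial.coeff_monomial, if_pos rfl]
  have heZ : ∀ z ∈ P, ∀ r, e z r ≤ Z := fun z hz r => by
    have h1 : ∀ i s, z i s ≤ Z := fun i s => by
      rw [← (hP z hz).1.2 s]
      exact single_le_sum (f := fun i => z i s) (fun _ _ => Nat.zero_le _) (mem_univ i)
    refine Fin.addCases (fun i => ?_) (fun i => ?_) r
    · simp only [e, Fin.append_left, h1]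
    · simp only [e, Fin.append_right, h1]
  refine H K (-(δ 0 / δ 2)) α θ (Fin.append (fun i : Fin k => (g i.castSucc : ℤ)) fun _ => 0)
    (Fin.append (fun _ => 0) fun i : Fin k => (g i.castSucc : ℤ)) h0 Z θ
    (∑ z ∈ P, MvPolynomial.monomial (Finsupp.equivFunOnFinite.symm (e z)) (f z))
    (neg_ne_zero.2 (div_ne_zero (hδ 0) (hδ 2))) (fun h => ?_) hα ⟨hG1, fun c hc hb => ?_⟩ hB hμ
    (by omega) ?_ ⟨Γ - j 0 * Z, Γ - j 0 * Z, fun d hd => ?_⟩ ?_ hεZ
    (zlm_ord P e f _ α θ Z hα heZ fun l hl => ?_)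
  · rw [h, sub_self] at h1u
    exact neg_ne_zero.2 (div_ne_zero (hδ 1) (hδ 2)) h1u.symm
  · simp only [Fin.sum_univ_add, Fin.append_left, Fin.append_right, zero_mul, sum_const_zero,
      add_zero, zero_add]
    by_cases h1 : (fun i => c (Fin.castAdd k i)) = 0
    · refine Or.inr (hG2 (fun i => c (Fin.natAdd k i)) (fun h2 => hc (funext fun r => ?_))
        fun i => hb _)
      exact Fin.addCases (fun i => congrFun h1 i) (fun i => congrFun h2 i) r
    · exact Or.inl (hG2 (fun i => c (Fin.castAdd k i)) h1 fun i => hb _)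
  · obtain ⟨z, hz, h1⟩ := hlam
    intro h
    have h2 := hco z hz
    rw [h, MvPolynomial.coeff_zero] at h2
    refine mul_ne_zero (mul_ne_zero (C_ne_zero.2 (mul_ne_zero h1 (pow_ne_zero _ (by norm_num))))
      (pow_ne_zero _ X_ne_zero)) (pow_ne_zero _ fun h3 => ?_) h2.symm
    simpa using congrArg (eval 0) h3
  · obtain ⟨z, hz, h1⟩ := mem_biUnion.1 (MvPolynomial.support_sum hd)
    obtain rfl := mem_singleton.1 (MvPolynomial.support_monomial_subset h1)
    rw [hco z hz]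
    have h2 : ∀ s, ((∑ i, j i * z i s : ℕ) : ℤ) =
        j 0 * Z + ∑ i : Fin k, (g i.castSucc : ℤ) * z i.succ s := fun s => by
      rw [← (hP z hz).1.2 s, Fin.sum_univ_succ, Fin.sum_univ_succ]
      simp only [hj]
      push_cast
      simp only [add_mul, sum_add_distrib, mul_add, mul_sum, add_assoc]
    obtain ⟨-, a1, a2⟩ := (hP z hz).2.2 0
    obtain ⟨-, b1, b2⟩ := (hP z hz).2.2 1
    have h3 : (f z).natDegree ≤ xf (col z 0) + xf (col z 1) := by
      refine natDegree_mul_le.trans (add_le_add (natDegree_C_mul_X_pow_le _ _)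
        (natDegree_pow_le.trans ?_))
      have h4 : (1 - X : ℤ[X]).natDegree ≤ 1 := (natDegree_sub_le _ _).trans (by simp)
      exact (Nat.mul_le_mul_left _ h4).trans (mul_one _).le
    have h4 := Nat.mul_le_mul_left θ h3
    rw [mul_add] at h4
    refine ⟨heZ z hz, xf (col z 0), xf (col z 1), (dvd_mul_left _ _).mul_right _,
      dvd_mul_left _ _, ?_⟩
    simp only [Finsupp.equivFunOnFinite_symm_apply_apply, e, Fin.sum_univ_add, Fin.append_left,
      Fin.append_right, zero_mul, sum_const_zero, add_zero, zero_add]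
    have c0 := h2 0
    have c1 := h2 1
    zify at a1 a2 b1 b2 h4 hZ
    push_cast at c0 c1
    refine ⟨?_, ?_, ?_⟩ <;> linarith
  · have h1 : znrm (∑ z ∈ P, MvPolynomial.monomial (Finsupp.equivFunOnFinite.symm (e z)) (f z)) ≤
        (∑ z ∈ P, (lam z).natAbs) * 2 ^ Z := by
      rw [sum_mul]
      refine (znrm_sum _ _).trans (sum_le_sum fun z hz => ?_)
      rw [znrm_monomial]
      refine (nrm1_cusp _ _ _).trans (Nat.mul_le_mul (by simp [Int.natAbs_mul, Int.natAbs_pow])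
        (Nat.pow_le_pow_right two_pos ((hP z hz).2.2 1).1))
    have h2 : (2 : ℝ) ^ Z ≤ Real.exp Z := by
      rw [← Real.exp_one_pow]
      exact pow_le_pow_left₀ zero_le_two (by linarith [Real.add_one_le_exp (1 : ℝ)]) _
    have h3 : ((∑ z ∈ P, (lam z).natAbs : ℕ) : ℝ) = ((∑ z ∈ P, |lam z| : ℤ) : ℝ) := by
      push_cast
      exact sum_congr rfl fun z _ => by rw [Nat.cast_natAbs, Int.cast_abs]
    refine (Nat.cast_le.2 h1).trans ?_
    rw [Nat.cast_mul, h3, add_mul, one_mul, Real.exp_add, Nat.cast_pow, Nat.cast_ofNat]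
    exact mul_le_mul hsum h2 (by positivity) (Real.exp_nonneg _)
  · let d : Fin (k + 1) → Fin 3 → ℕ := Fin.cons (fun _ => 0)
      fun i => ![l (Fin.castAdd k i), l (Fin.natAdd k i), 0]
    have h1 : tot d = ∑ r, l r := by
      simp [tot, d, Fin.sum_univ_succ, Fin.sum_univ_add, sum_add_distrib]
    have h2 : ∀ z, bin z d = ∏ r, (e z r).choose (l r) := fun z => by
      rw [Fin.prod_univ_add]
      simp only [e, Fin.append_left, Fin.append_right]
      simp [bin, d, Fin.prod_univ_succ, prod_mul_distrib]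
    have h3 := hD d (h1 ▸ hl)
    have h4 : δ 2 ^ X0 * ((∏ i : Fin k, y i.succ 2 ^ θ) * (y 0 0 * y 0 1 * y 0 2) ^ Z) ≠ 0 :=
      mul_ne_zero (pow_ne_zero _ (hδ 2)) (mul_ne_zero
        (prod_ne_zero_iff.2 fun i _ => pow_ne_zero _ (hy _ _))
        (pow_ne_zero _ (mul_ne_zero (mul_ne_zero (hy _ _) (hy _ _)) (hy _ _))))
    refine mul_left_cancel₀ h4 ?_
    rw [mul_zero, ← zero_mul (y 0 2 ^ (k * θ)), ← h3, Dval, sum_mul, mul_sum]
    refine sum_congr rfl fun z hz => ?_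
    have h5 : ∏ r, α r ^ e z r =
        (∏ i : Fin k, (y i.succ 0 * y 0 2 / (y 0 0 * y i.succ 2)) ^ z i.succ 0) *
          ∏ i : Fin k, (y i.succ 1 * y 0 2 / (y 0 1 * y i.succ 2)) ^ z i.succ 1 := by
      rw [Fin.prod_univ_add]
      simp only [e, α, Fin.append_left, Fin.append_right]
    have h6 : δ 2 ^ X0 * (f z).eval₂ (Int.castRingHom K) (-(δ 0 / δ 2)) =
        lam z * ∏ s, δ s ^ xf (col z s) := by
      have := hδ 2
      rw [← (hP z hz).2.1, Fin.sum_univ_three, Fin.prod_univ_three]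
      simp only [f, eval₂_mul, eval₂_pow, eval₂_C, eval₂_X, eval₂_sub, eval₂_one, h1u]
      rw [neg_pow (δ 0 / δ 2), neg_pow (δ 1 / δ 2)]
      simp only [eq_intCast, Int.cast_mul, Int.cast_pow, Int.cast_neg, Int.cast_one, pow_add,
        div_pow]
      have e1 : ((-1 : K) ^ xf (col z 0)) ^ 2 = 1 := by rw [← pow_mul, mul_comm, pow_mul]; simp
      have e2 : ((-1 : K) ^ xf (col z 1)) ^ 2 = 1 := by rw [← pow_mul, mul_comm, pow_mul]; simp
      field_simp
      rw [e1, e2]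
      ring
    have h7 := zlm_mono y hy z (hP z hz).1
    rw [← h5] at h7
    rw [h2]
    push_cast
    linear_combination ((∏ i : Fin k, y i.succ 2 ^ θ) * (y 0 0 * y 0 1 * y 0 2) ^ Z *
      ((∏ r, ((e z r).choose (l r) : K)) * ∏ r, α r ^ e z r)) * h6 -
      (lam z * (∏ r, ((e z r).choose (l r) : K)) * ∏ s, δ s ^ xf (col z s)) * h7

end Pool.Agent.P.MP_7aad9f_nt.Sz

end
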