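import Pool.Agent.P.MP_7aad9f_nt.Sz.If

section
/-! Step CORE. -/

set_option autoImplicit false

open Polynomial Finset

namespace Pool.Agent.P.MP_7aad9f_nt.Sz

theorem core_num {κ q k θ J X B0 lM lam a cc sR w η β μ l2 : ℝ} (hκ : 8 ≤ κ * (q + 1))
    (hk : 3 ≤ k) (hq : 2 ≤ q) (hθ : 0 < θ) (hl0 : 0 ≤ l2) (hl2 : l2 ≤ 1)
    (hX : X ≤ 3 * ((q + 1) * k * θ)) (hX0 : 0 ≤ X) (hM : 0 ≤ lM) (hη : 0 ≤ η) (hμ : 50 ≤ κ * μ)
    (hμ0 : 0 ≤ μ) (hR : 3 * sR ≤ 3 * ((q + 1) * k * θ) * (β - a) - lam * B0)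
    (hXB : θ * X + B0 ≤ 3 * ((q + 1) * k * θ * J) + 2 * θ) (hB0 : 0 ≤ B0)
    (hB1 : B0 ≤ 3 * ((q + 1) * k * θ * J)) (hlam : θ * lam ≤ η - 3 * lM) (hc : cc ≤ -μ)
    (hw : (q - 1) * k * θ - θ ≤ w) (hβ : β * θ + η * J ≤ (1 - κ) * μ * θ) (hMμ : lM ≤ θ * μ)
    (h : 0 ≤ (27 * ((q + 1) * k * θ) + X) * l2 + X * lM + (q + 1) * k * θ * J * lam +
      (q + 1) * k * θ * a + sR + w * cc) : False := by
  set Z := (q + 1) * k * θ with hZ
  have hZ0 : 0 < Z := by positivity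
  have hw0 : 0 ≤ (q - 1) * k * θ - θ := by
    have : 1 * θ ≤ (q - 1) * k * θ := mul_le_mul_of_nonneg_right (by nlinarith) hθ.le
    linarith
  have h1 : (27 * Z + X) * l2 ≤ 30 * Z :=
    (mul_le_of_le_one_right (by positivity) hl2).trans (by linarith)
  have h2 : w * cc ≤ -(((q - 1) * k * θ - θ) * μ) := by nlinarith
  have h3 : (3 * (Z * J) - B0) * (θ * lam) ≤ (3 * (Z * J) - B0) * (η - 3 * lM) :=
    mul_le_mul_of_nonneg_left hlam (by linarith)
  have h4 : θ * X * lM ≤ (3 * (Z * J) - B0 + 2 * θ) * lM :=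
    mul_le_mul_of_nonneg_right (by linarith) hM
  have h5 : θ * lM ≤ θ * (θ * μ) := mul_le_mul_of_nonneg_left hMμ hθ.le
  have h6 : Z * (β * θ + η * J) ≤ Z * ((1 - κ) * μ * θ) := mul_le_mul_of_nonneg_left hβ hZ0.le
  have h7 : 0 ≤ B0 * η := mul_nonneg hB0 hη
  have h8 : 0 ≤ 30 * Z + X * lM + Z * J * lam + Z * a + sR - ((q - 1) * k * θ - θ) * μ := by
    linarith
  have h9 : 0 ≤ 90 * Z + 3 * X * lM + (3 * (Z * J) - B0) * lam + 3 * Z * β -
      3 * ((q - 1) * k * θ - θ) * μ := by linarith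
  have h10 := mul_nonneg hθ.le h9
  have h11 : 0 ≤ θ * θ * (30 * ((q + 1) * k) + (q + 1) * k * ((1 - κ) * μ) + 3 * μ -
      (q - 1) * k * μ) := by
    have e : θ * θ * (30 * ((q + 1) * k) + (q + 1) * k * ((1 - κ) * μ) + 3 * μ -
        (q - 1) * k * μ) = 30 * θ * Z + Z * ((1 - κ) * μ * θ) + 2 * (θ * (θ * μ)) -
          θ * (((q - 1) * k * θ - θ) * μ) := by
      rw [hZ]; ring
    rw [e]
    linarith
  have h12 := (mul_nonneg_iff_of_pos_left (mul_pos hθ hθ)).1 h11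
  have h13 : 3 * μ ≤ k * μ := mul_le_mul_of_nonneg_right hk hμ0
  have h14 : 8 * (k * μ) ≤ κ * (q + 1) * (k * μ) :=
    mul_le_mul_of_nonneg_right hκ (by positivity)
  have h15 : 50 * ((q + 1) * k) ≤ κ * μ * ((q + 1) * k) :=
    mul_le_mul_of_nonneg_right hμ (by positivity)
  have h16 : 0 < (q + 1) * k := by positivity
  linarith

theorem core_map {Ω Ω' : Type} [CommRing Ω] [CommRing Ω'] (φ : Ω →+* Ω') {k : ℕ}
    (P : Finset (Fin (k + 1) → Fin 3 → ℕ)) (lam : (Fin (k + 1) → Fin 3 → ℕ) → ℤ)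
    (xf : (Fin (k + 1) → ℕ) → ℕ) (δ : Fin 3 → Ω) (y : Fin (k + 1) → Fin 3 → Ω)
    (d : Fin (k + 1) → Fin 3 → ℕ) :
    φ (Dval P lam xf δ y d) = Dval P lam xf (fun s => φ (δ s)) (fun i s => φ (y i s)) d := by
  simp only [Dval, map_sum, map_mul, map_prod, map_pow, map_intCast]

theorem core_comb {k q k' θ J : ℕ} (hk : k = 3 * q * k') (hθ : 0 < θ) (hJ : J ≤ θ)
    (j : Fin (k + 1) → ℕ) (hj : ∀ i, j i ≤ J) (z : Fin (k + 1) → Fin 3 → ℕ)
    (hz : Adm θ ((q + 1) * k' * θ) z) (x : Fin 3 → ℕ)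
    (hx : ∀ s, x s = ((q + 1) * k' * θ * J - ∑ i, j i * z i s + θ - 1) / θ) :
    (∀ i, ∑ s, z i s = (Fin.cons (3 * k' * θ) (fun _ => θ) : Fin (k + 1) → ℕ) i) ∧
    (∀ s, x s ≤ (q + 1) * k' * θ ∧ (q + 1) * k' * θ * J ≤ θ * x s + ∑ i, j i * z i s ∧
      θ * x s + ∑ i, j i * z i s < (q + 1) * k' * θ * J + θ) ∧
    3 * ((q + 1) * k' * J) ≤ ∑ s, x s + (3 * k' * j 0 + ∑ i : Fin k, j i.succ) ∧
    ∑ s, x s + (3 * k' * j 0 + ∑ i : Fin k, j i.succ) ≤ 3 * ((q + 1) * k' * J) + 2 := by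
  obtain ⟨h1, h2⟩ := hz
  have h3 : ∑ s, z 0 s = 3 * k' * θ := by
    have e : ∑ s, ∑ i, z i s = 3 * ((q + 1) * k' * θ) := by simp [h2]
    rw [sum_comm, Fin.sum_univ_succ, sum_congr rfl fun i _ => h1 i] at e
    simp only [sum_const, card_univ, Fintype.card_fin, smul_eq_mul] at e
    have e2 : 3 * ((q + 1) * k' * θ) = 3 * k' * θ + k * θ := by rw [hk]; ring
    omega
  have h4 : ∀ s, (q + 1) * k' * θ * J ≤ θ * x s + ∑ i, j i * z i s ∧
      θ * x s + ∑ i, j i * z i s < (q + 1) * k' * θ * J + θ := fun s => by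
    have e1 : ∑ i, j i * z i s ≤ (q + 1) * k' * θ * J := by
      rw [← h2 s, sum_mul]
      exact sum_le_sum fun i _ => by rw [mul_comm]; exact Nat.mul_le_mul_left _ (hj i)
    have e2 := Nat.div_add_mod ((q + 1) * k' * θ * J - ∑ i, j i * z i s + θ - 1) θ
    have e3 := Nat.mod_lt ((q + 1) * k' * θ * J - ∑ i, j i * z i s + θ - 1) hθ
    rw [← hx s] at e2
    omega
  have h5 : ∑ s, ∑ i, j i * z i s = θ * (3 * k' * j 0 + ∑ i : Fin k, j i.succ) := by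
    rw [sum_comm, Fin.sum_univ_succ, ← mul_sum, h3, sum_congr rfl fun i _ => by
      rw [← mul_sum, h1 i], ← sum_mul]
    ring
  have a0 := h4 0
  have a1 := h4 1
  have a2 := h4 2
  rw [Fin.sum_univ_three] at h5
  refine ⟨fun i => Fin.cases h3 (fun i => h1 i) i, fun s => ⟨?_, h4 s⟩, ?_, ?_⟩
  · have e1 := (h4 s).2
    have e2 := Nat.mul_le_mul_left ((q + 1) * k' * θ) hJ
    have e3 : θ * x s < θ * ((q + 1) * k' * θ + 1) := by
      rw [mul_add, mul_one, mul_comm θ ((q + 1) * k' * θ)]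
      omega
    exact Nat.lt_succ_iff.1 (Nat.lt_of_mul_lt_mul_left e3)
  · refine Nat.le_of_mul_le_mul_left ?_ hθ
    rw [mul_add, ← h5, Fin.sum_univ_three, mul_add, mul_add,
      show θ * (3 * ((q + 1) * k' * J)) = 3 * ((q + 1) * k' * θ * J) by ring]
    omega
  · refine Nat.lt_succ_iff.1 (Nat.lt_of_mul_lt_mul_left (a := θ) ?_)
    rw [mul_add, ← h5, Fin.sum_univ_three, mul_add, mul_add,
      show θ * (3 * ((q + 1) * k' * J) + 2).succ = 3 * ((q + 1) * k' * θ * J) + 3 * θ by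
        rw [Nat.succ_eq_add_one]; ring]
    omega

theorem p_CORE (hSIEGEL : S_SIEGEL) (hLOCAL : S_LOCAL) (hZLM : S_ZLM) : S_CORE := by
  intro κ hκ hκ1
  obtain ⟨q, hq⟩ : ∃ q : ℕ, 8 / κ ≤ q := ⟨_, Nat.le_ceil _⟩
  rw [div_le_iff₀ hκ] at hq
  have hq8 : (8 : ℝ) ≤ q := by nlinarith [q.cast_nonneg (α := ℝ)]
  have hq2 : 2 ≤ q := by exact_mod_cast (show (2 : ℝ) ≤ q by linarith)
  obtain ⟨k', hk', hS⟩ := hSIEGEL q (by omega)
  have hk3 : (3 : ℝ) ≤ k' := by exact_mod_cast hk'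
  have hqk : (1 : ℝ) ≤ (q + 1) * k' := by nlinarith
  obtain ⟨k, hk⟩ : ∃ k, k = 3 * q * k' := ⟨_, rfl⟩
  obtain ⟨D, μ1, hZ⟩ := hZLM k (1 / ((q + 1) * k')) 20 (by positivity)
    ((div_le_one (by positivity)).2 hqk) (by norm_num)
  refine ⟨k, D, max μ1 (50 / κ), ?_⟩
  intro K _ _ S Pl δ y θ J j g M ϖ c η β μ h0 ρ ϖp Ap cp hδ hy hs hθ hJ hj hgl hjg hG hB hμ1 hM hϖ
    hϖc hc1 hρ hp hL1 hL2 hη hlam hβ1 hcc hβ hMμ hμ
  have hθ' : (0 : ℝ) < θ := by exact_mod_cast hθ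
  let xf : (Fin (k + 1) → ℕ) → ℕ := fun a =>
    ((q + 1) * k' * θ * J - ∑ i, j i * a i + θ - 1) / θ
  have hco := fun z hz => core_comb hk hθ hJ j hj z hz (fun s => xf (col z s)) fun _ => rfl
  set B1 := 3 * k' * j 0 + ∑ i : Fin k, j i.succ with hB1
  have hB2 : B1 ≤ 3 * ((q + 1) * k' * J) := by
    have e1 := sum_le_card_nsmul univ (fun i : Fin k => j i.succ) J fun i _ => hj _
    rw [card_univ, Fintype.card_fin, smul_eq_mul] at e1
    have e2 := Nat.mul_le_mul_left (3 * k') (hj 0)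
    have e3 : 3 * ((q + 1) * k' * J) = 3 * k' * J + k * J := by rw [hk]; ring
    omega
  obtain ⟨X0, P, lam, hP, hlam0, hsum, hMom⟩ := hS k hk θ (3 * ((q + 1) * k' * J) - B1) xf hθ
    fun z hz => by
      obtain ⟨-, e1, e2, e3⟩ := hco z hz
      exact ⟨fun s => (e1 s).1, by omega, by omega⟩
  have hsum' : ((∑ z ∈ P, |lam z| : ℤ) : ℝ) ≤ 2 ^ (20 * ((q + 1) * k' * θ)) := by
    exact_mod_cast hsum
  have hl2 : Real.log 2 ≤ 1 := by
    linarith [Real.log_le_sub_one_of_pos (show (0 : ℝ) < 2 by norm_num)]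
  refine hZ K δ y θ ((q + 1) * k' * θ) X0 ((q + 1) * k' * θ * J) j g xf P lam h0
    (fun s => (hδ s).1) (fun i s => (hy i s).1) hs hθ
    (Nat.mul_le_mul_right _ (by nlinarith)) (le_of_eq (by push_cast; field_simp)) hgl hjg
    (fun i => ?_) hG hB ((mul_le_mul_of_nonneg_right (le_max_left _ _) hθ'.le).trans hμ1)
    (fun z hz => ?_) hlam0 (hsum'.trans ?_) fun d hd => ?_
  · refine Fin.lastCases hgl.le (fun i => ?_) i
    have := hjg i
    have := hj i.succ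
    omega
  · obtain ⟨-, e1, -⟩ := hco z (hP z hz).1
    exact ⟨(hP z hz).1, (hP z hz).2, fun s => ⟨(e1 s).1, (e1 s).2.1, (e1 s).2.2.le⟩⟩
  · rw [← Real.exp_log two_pos, ← Real.exp_nat_mul, Real.exp_le_exp, Nat.cast_mul, Nat.cast_ofNat]
    exact mul_le_of_le_one_right (by positivity) hl2
  by_contra hne
  obtain ⟨z0, hz0, -⟩ := hlam0
  obtain ⟨-, b1, -, b2⟩ := hco z0 (hP z0 hz0).1
  rw [(hP z0 hz0).2] at b2
  have hX3 : X0 ≤ 3 * ((q + 1) * k' * θ) := by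
    have := (b1 0).1
    have := (b1 1).1
    have := (b1 2).1
    rw [← (hP z0 hz0).2, Fin.sum_univ_three]
    omega
  set Z := (q + 1) * k' * θ with hZd
  set R : Fin (k + 1) → ℕ := Fin.cons (3 * k' * θ) fun _ => θ with hR
  set wd := (q - 1) * k' * θ with hwd
  have hH : ∀ z ∈ P, (∀ i, ∑ s, z i s = R i) ∧ (∀ s, ∑ i, z i s = Z) ∧
      ∑ s, xf (col z s) = X0 ∧ ∀ s, Z * J ≤ θ * xf (col z s) + ∑ i, j i * z i s := fun z hz =>
    ⟨(hco z (hP z hz).1).1, (hP z hz).1.2, (hP z hz).2, fun s => ((hco z (hP z hz).1).2.1 s).2.1⟩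
  have hwl : wd ≤ θ * k := by
    rw [hwd, mul_comm θ, hk]
    exact Nat.mul_le_mul_right _ (Nat.mul_le_mul_right _ (by omega))
  have hc0 : 0 < c := hϖ.trans_le hϖc
  have hM0 : 0 < M := one_pos.trans_le hM
  have hρ0 : 0 < ∏ i, ρ i ^ R i := prod_pos fun i _ => pow_pos (hρ i) _
  set b : ℝ := 2 ^ (27 * Z + X0) * M ^ X0 * ϖ ^ (Z * J) * (∏ i, ρ i ^ R i) * c ^ (wd - tot d)
    with hb
  set bp : ℕ → ℝ := fun p => ϖp p ^ (Z * J) * Ap p ^ Z * cp p ^ (wd - tot d) with hbp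
  have hbp0 : ∀ p ∈ S, 0 < bp p := fun p h => by
    obtain ⟨e1, e2, -, e3⟩ := hp p h
    have := e1.trans_le e2
    positivity
  have a1 : ∀ v, ‖Pl.φ v (Dval P lam xf δ y d)‖ ≤ b := fun v => by
    rw [core_map, ← cabs_apply]
    refine (hLOCAL ℂ cabs k θ Z X0 (Z * J) wd k R j xf P lam _ _ M ϖ 1 c 2 ρ d hH hMom
      (by rw [← map_add, ← map_add, hs, map_zero]) zero_le_one hϖ.le hϖc hc1 one_le_two hwl
      (hL1 v)).1.trans ?_
    refine (mul_le_mul_of_nonneg_right (mul_le_mul_of_nonneg_right hsum' (by positivity))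
      (by positivity)).trans (le_of_eq ?_)
    rw [hb]
    ring
  have a2 : ∀ p ∈ S, ∀ v, Pl.W p v (Dval P lam xf δ y d) ≤ bp p := fun p h v => by
    obtain ⟨e1, e2, e3, e4⟩ := hp p h
    refine ((hLOCAL K (Pl.W p v) k θ Z X0 (Z * J) wd k R j xf P lam δ y 1 (ϖp p) (Ap p) (cp p) 1
      (fun _ => 1) d hH hMom hs e4.le e1.le e2 e3 le_rfl hwl (hL2 p h v)).2
      (Pl.na p h v)).trans (le_of_eq ?_)
    simp [hbp]
  have a3 : 1 ≤ (b * ∏ p ∈ S, bp p) ^ Pl.d := by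
    refine (Pl.pf _ (sum_mem fun z _ => mul_mem (intCast_mem _ _) (mul_mem
      (prod_mem fun s _ => pow_mem (hδ s).2 _) (prod_mem fun i _ => prod_mem fun s _ =>
        pow_mem (hy i s).2 _))) hne).trans ?_
    rw [mul_pow, ← prod_pow]
    refine mul_le_mul ((prod_le_prod (fun _ _ => norm_nonneg _) fun v _ => a1 v).trans (by simp))
      (prod_le_prod (fun p _ => prod_nonneg fun v _ => (Pl.W p v).nonneg _) fun p h =>
        (prod_le_prod (fun v _ => (Pl.W p v).nonneg _) fun v _ => a2 p h v).trans (by simp))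
      (prod_nonneg fun p _ => prod_nonneg fun v _ => (Pl.W p v).nonneg _) (by positivity)
  have hb0 : 0 < b := by positivity
  have a4 := Real.log_nonneg ((one_le_pow_iff_of_nonneg (mul_pos hb0 (prod_pos hbp0)).le
    Pl.d_pos.ne').1 a3)
  have a5 : ∑ p ∈ S, Real.log (bp p) = (Z * J : ℕ) * ∑ p ∈ S, Real.log (ϖp p) +
      Z * ∑ p ∈ S, Real.log (Ap p) + (wd - tot d : ℕ) * ∑ p ∈ S, Real.log (cp p) := by
    rw [mul_sum, mul_sum, mul_sum, ← sum_add_distrib, ← sum_add_distrib]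
    refine sum_congr rfl fun p h => ?_
    obtain ⟨e1, e2, -, e3⟩ := hp p h
    have := e1.trans_le e2
    rw [hbp, Real.log_mul (by positivity) (by positivity),
      Real.log_mul (by positivity) (by positivity), Real.log_pow, Real.log_pow, Real.log_pow]
  rw [Real.log_mul hb0.ne' (prod_pos hbp0).ne', Real.log_prod fun p h => (hbp0 p h).ne', a5, hb,
    Real.log_mul (by positivity) (by positivity), Real.log_mul (by positivity) (by positivity),
    Real.log_mul (by positivity) (by positivity), Real.log_mul (by positivity) (by positivity),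
    Real.log_prod fun i _ => (pow_pos (hρ i) _).ne'] at a4
  simp only [Real.log_pow] at a4
  have hZr : (Z : ℝ) = (q + 1) * k' * θ := by rw [hZd]; push_cast; ring
  have hμ2 : 50 ≤ κ * μ := by
    have := (le_max_right _ _).trans hμ
    rwa [div_le_iff₀' hκ] at this
  refine core_num (κ := κ) (q := q) (k := k') (θ := θ) (J := J) (X := X0) (B0 := θ * B1)
    (lM := Real.log M) (lam := Real.log ϖ + ∑ p ∈ S, Real.log (ϖp p))
    (a := ∑ p ∈ S, Real.log (Ap p)) (cc := Real.log c + ∑ p ∈ S, Real.log (cp p))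
    (sR := ∑ i, R i * Real.log (ρ i)) (w := (wd - tot d : ℕ)) (η := η) (β := β) (μ := μ)
    (l2 := Real.log 2) (by linarith) hk3 (by linarith) hθ' (Real.log_nonneg one_le_two) hl2
    (by rw [← hZr]; exact_mod_cast hX3) X0.cast_nonneg (Real.log_nonneg hM) hη hμ2
    (by nlinarith) ?_ ?_ (by positivity) ?_ hlam hcc ?_ hβ hMμ ?_
  · have e1 : ∑ i, (R i : ℝ) = 3 * ((q + 1) * k' * θ) := by
      simp only [hR, Fin.sum_univ_succ, Fin.cons_zero, Fin.cons_succ, sum_const, card_univ,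
        Fintype.card_fin, nsmul_eq_mul]
      rw [hk]
      push_cast
      ring
    have e2 : ∑ i, (R i : ℝ) * j i = θ * B1 := by
      simp only [hR, hB1, Fin.sum_univ_succ, Fin.cons_zero, Fin.cons_succ, ← mul_sum]
      push_cast
      ring
    rw [← e1, ← e2, mul_sum, sum_mul, mul_sum, ← sum_sub_distrib]
    refine sum_le_sum fun i _ => ?_
    have e3 := mul_le_mul_of_nonneg_left (hβ1 i) (R i).cast_nonneg
    linarith
  · have e1 : (X0 : ℝ) + B1 ≤ 3 * ((q + 1) * k' * J) + 2 := by exact_mod_cast b2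
    have e2 := mul_le_mul_of_nonneg_left e1 hθ'.le
    linarith
  · have e1 : (B1 : ℝ) ≤ 3 * ((q + 1) * k' * J) := by exact_mod_cast hB2
    have e2 := mul_le_mul_of_nonneg_left e1 hθ'.le
    linarith
  · have e1 : wd ≤ wd - tot d + θ := by omega
    have e2 : (wd : ℝ) ≤ (wd - tot d : ℕ) + θ := by exact_mod_cast e1
    have e3 : (wd : ℝ) = (q - 1) * k' * θ := by
      rw [hwd, Nat.cast_mul, Nat.cast_mul, Nat.cast_sub (by omega), Nat.cast_one]
    linarith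
  · rw [← hZr]
    rw [Nat.cast_add, Nat.cast_mul 27 Z, Nat.cast_mul Z J, Nat.cast_ofNat] at a4
    linarith

end Pool.Agent.P.MP_7aad9f_nt.Sz

end
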