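import Mathlib

/-! Definitions for the zero lemma with three cusps. -/

set_option autoImplicit false

open Polynomial

namespace Pool.Agent.P.MP_7aad9f_nt.Sz

/-- The substitution `T ↦ u + b0 * X ^ ϑ`, `S_r ↦ α r + b r * X`. -/
noncomputable def zsb {K : Type} [Field K] {n : ℕ} (u : K) (α : Fin n → K) (ϑ : ℕ) (b0 : K)
    (b : Fin n → K) : MvPolynomial (Fin n) ℤ[X] →+* K[X] :=
  MvPolynomial.eval₂Hom (eval₂RingHom (Int.castRingHom K[X]) (C u + C b0 * X ^ ϑ))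
    (fun r => C (α r) + C (b r) * X)

/-- `F` vanishes at `(u, α)` to weighted order at least `m`; `T` has weight `ϑ`. -/
def ZOrd {K : Type} [Field K] {n : ℕ} (u : K) (α : Fin n → K) (ϑ m : ℕ)
    (F : MvPolynomial (Fin n) ℤ[X]) : Prop :=
  ∀ (b0 : K) (b : Fin n → K), (X : K[X]) ^ m ∣ zsb u α ϑ b0 b F

/-- Box `[0, Z]^n` and the three slab conditions at `T = 0, 1, ∞`, of total width `Z`. -/
def ZSlab {n : ℕ} (ϑ : ℕ) (g0 g1 : Fin n → ℤ) (Z : ℕ) (F : MvPolynomial (Fin n) ℤ[X]) : Prop :=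
  ∃ l0 l1 : ℤ, ∀ d ∈ F.support, (∀ r, d r ≤ Z) ∧ ∃ a b : ℕ,
    X ^ a ∣ F.coeff d ∧ (1 - X) ^ b ∣ F.coeff d ∧
    l0 ≤ ϑ * a + ∑ r, g0 r * d r ∧ l1 ≤ ϑ * b + ∑ r, g1 r * d r ∧
    ϑ * (F.coeff d).natDegree + ∑ r, (g0 r + g1 r) * d r ≤ l0 + l1 + Z

/-- Sum of the absolute values of the coefficients. -/
noncomputable def nrm1 (f : ℤ[X]) : ℕ := ∑ i ∈ f.support, (f.coeff i).natAbs

/-- Sum of the absolute values of all integer coefficients. -/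
noncomputable def znrm {n : ℕ} (F : MvPolynomial (Fin n) ℤ[X]) : ℕ :=
  ∑ d ∈ F.support, nrm1 (F.coeff d)

/-- No small relation modulo `ϑ` in both slabs at once. -/
def ZGen {n : ℕ} (ϑ D : ℕ) (g0 g1 : Fin n → ℤ) : Prop :=
  D < ϑ ∧ ∀ c : Fin n → ℤ, c ≠ 0 → (∀ r, |c r| ≤ D) →
    (∀ t : ℤ, (D : ℤ) < |ϑ * t + ∑ r, g0 r * c r|) ∨ ∀ t : ℤ, (D : ℤ) < |ϑ * t + ∑ r, g1 r * c r|

/-- `u` has height at least `L`, in the form used by the zero lemma. -/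
def Big {K : Type} [Field K] (u : K) (L : ℝ) : Prop :=
  ∀ (f : ℤ[X]) (e : ℕ), f ≠ 0 → (X - C u) ^ e ∣ f.map (Int.castRingHom K) →
    e * L ≤ Real.log (nrm1 f)

/-- The arithmetic zero lemma with three cusps. -/
def S_ZL : Prop :=
  ∀ (n : ℕ) (ε C : ℝ), 0 < ε → ε ≤ 1 → 0 ≤ C → ∃ (D : ℕ) (μ0 : ℝ),
    ∀ (K : Type) [Field K] [CharZero K] (u : K) (α : Fin n → K) (ϑ : ℕ) (g0 g1 : Fin n → ℤ)
      (L : ℝ) (Z m : ℕ) (F : MvPolynomial (Fin n) ℤ[X]),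
      u ≠ 0 → u ≠ 1 → (∀ r, α r ≠ 0) → ZGen ϑ D g0 g1 → Big u L → μ0 * ϑ ≤ L → 1 ≤ Z → F ≠ 0 →
      ZSlab ϑ g0 g1 Z F → (znrm F : ℝ) ≤ Real.exp (C * Z) → ε * Z ≤ m → ZOrd u α ϑ m F → False

/-- The height of a number-field element in the form `Big`. -/
def S_BIG : Prop :=
  ∀ (K : Type) [Field K] [NumberField K] (u : K),
    Big u (Height.logHeight₁ u / Module.finrank ℚ K)

end Pool.Agent.P.MP_7aad9f_nt.Sz
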