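import Pool.Agent.P.MP_7aad9f_nt.SubDefs
import Pool.Agent.P.MP_7aad9f_nt.Sz.ZDefs

/-! Definitions for the bound `log max (|x|^3, y^2) ≤ log gcd + K √D R^ε`. -/

set_option autoImplicit false

open Polynomial

namespace Pool.Agent.P.MP_7aad9f_nt.Sz

/-! ### Places -/

/-- The usual absolute value on `ℂ`. -/
noncomputable def cabs : AbsoluteValue ℂ ℝ := NormedField.toAbsoluteValue ℂ

theorem cabs_apply (z : ℂ) : cabs z = ‖z‖ := rfl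

/-- `d` complex embeddings and `d` absolute values above every `p ∈ S`, with one half of the
product formula on a subring `O`. -/
structure Places (K : Type) [Field K] (S : Finset ℕ) : Type where
  d : ℕ
  d_pos : 0 < d
  φ : Fin d → K →+* ℂ
  W : ℕ → Fin d → AbsoluteValue K ℝ
  na : ∀ p ∈ S, ∀ i, IsNonarchimedean (W p i)
  val_p : ∀ p ∈ S, ∀ i, W p i (p : K) = (p : ℝ)⁻¹
  val_unit : ∀ p ∈ S, ∀ i, ∀ a : ℤ, ¬ (p : ℤ) ∣ a → W p i (a : K) = 1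
  O : Subring K
  inv_mem : ∀ p ∈ S, (p : K)⁻¹ ∈ O
  pf : ∀ a ∈ O, a ≠ 0 → 1 ≤ (∏ i, ‖φ i a‖) * ∏ p ∈ S, ∏ i, W p i a

/-- `e 0, e 1, e 2` are the roots of `X^3 - 3 x X - 2 y`. -/
def Vieta {Ω : Type} [CommRing Ω] (x y : ℤ) (e : Fin 3 → Ω) : Prop :=
  e 0 + e 1 + e 2 = 0 ∧ e 0 * e 1 + e 1 * e 2 + e 2 * e 0 = -3 * (x : Ω) ∧
    e 0 * e 1 * e 2 = 2 * (y : Ω)

/-- Differences of roots. -/
def dl {Ω : Type} [CommRing Ω] (e : Fin 3 → Ω) (s : Fin 3) : Ω := e (s + 1) - e (s + 2)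

/-- Position of the roots at a finite place: `e σ` is close to `-2 c`, the others to `c`. -/
def LocP {K : Type} [Field K] (w : AbsoluteValue K ℝ) (e : Fin 3 → K) (c : ℤ) (mr : ℕ) (h : ℝ)
    (σ : Fin 3) : Prop :=
  (∀ s, w (e s) ≤ 1) ∧ w (e σ + 2 * c) ≤ h ∧ w ((e σ + 2 * c) * (e σ - c) / mr) ≤ h ∧
    ∀ s, s ≠ σ → w (e s - c) ≤ h ∧ w ((e s - c) ^ 2 / mr) ≤ h ∧ w (3 * c * (e s - c) / mr) ≤ 1

/-- Size of the largest difference of roots. -/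
noncomputable def Mf (es τ : ℝ) : ℝ := 3 * |es| / 2 + 2 * τ

/-- Covolume of the anchor lattices. -/
noncomputable def Vf (es τ sg : ℝ) (mr : ℕ) : ℝ := τ * |9 * es ^ 2 / 4 - sg * τ ^ 2| / mr

/-- All data attached to a primitive pair `(x, y)`. -/
structure Cfg (K : Type) [Field K] : Type where
  S : Finset ℕ
  prime : ∀ p ∈ S, p.Prime
  Pl : Places K S
  e : Fin 3 → K
  e_mem : ∀ s, e s ∈ Pl.O
  e_sum : e 0 + e 1 + e 2 = 0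
  c : ℤ
  mr : ℕ
  mr_pos : 0 < mr
  mr_mem : (mr : K)⁻¹ ∈ Pl.O
  n : ℕ → ℕ
  c_unit : ∀ p ∈ S, 0 < n p → ¬ (p : ℤ) ∣ c
  σ : ℕ → Fin Pl.d → Fin 3
  loc : ∀ p ∈ S, ∀ i, LocP (Pl.W p i) e c mr (Real.exp (-(n p * Real.log p / 2))) (σ p i)
  es : ℝ
  τ : ℝ
  sg : ℝ
  τ_pos : 0 < τ
  sg_pm : sg = 1 ∨ sg = -1
  σa : Fin Pl.d → Fin 3
  ι : Fin Pl.d → ℂ
  ι_norm : ∀ i, ‖ι i‖ = 1
  ι_sq : ∀ i, ι i ^ 2 = (sg : ℂ)
  arch0 : ∀ i, Pl.φ i (e (σa i)) = (es : ℂ)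
  arch1 : ∀ i, Pl.φ i (e (σa i + 1)) = -(es : ℂ) / 2 + ι i * τ
  arch2 : ∀ i, Pl.φ i (e (σa i + 2)) = -(es : ℂ) / 2 - ι i * τ
  η : ℝ
  lam_lb : 3 * Real.log (Mf es τ) - η ≤
    Real.log (Mf es τ / (2 * τ)) + ∑ p ∈ S, n p * Real.log p / 2
  ht : Big (-(dl e 0 / dl e 2)) (Real.log (Mf es τ) - η)
  V_ge : 1 ≤ Vf es τ sg mr

/-- The value at `e` of the polynomial attached to the lattice point `n`. -/
def yv {Ω : Type} [Field Ω] (ma mr : ℕ) (c : ℤ) (n : Fin 3 → ℤ) (e : Ω) : Ω :=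
  n 0 * ma + n 1 * (e + 2 * c) + n 2 * ((e + 2 * c) * (e - c) / mr)

/-- Real coordinates of a lattice point. -/
def Yv (T : Matrix (Fin 3) (Fin 3) ℝ) (n : Fin 3 → ℤ) : Fin 3 → ℝ :=
  T.mulVec fun s => (n s : ℝ)

/-- The first finite coordinate of a lattice point (the second one is `n 2`). -/
def uv (ma : ℕ) (c : ℤ) (n : Fin 3 → ℤ) : ℤ := n 0 * ma + 3 * c * n 1

namespace Cfg

variable {K : Type} [Field K] (C : Cfg K)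

noncomputable def M : ℝ := Mf C.es C.τ
noncomputable def H : ℝ := Real.log C.M
noncomputable def V : ℝ := Vf C.es C.τ C.sg C.mr
noncomputable def L : ℝ := ∑ p ∈ C.S, Real.log p
noncomputable def la : ℝ := Real.log (C.M / (2 * C.τ))
noncomputable def lp (p : ℕ) : ℝ := C.n p * Real.log p / 2
noncomputable def Lam : ℝ := C.la + ∑ p ∈ C.S, C.lp p
noncomputable def ϖ (θ : ℕ) : ℝ := Real.exp (-(C.la / θ))
noncomputable def ϖp (θ p : ℕ) : ℝ := Real.exp (-(C.lp p / θ))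
def av (θ j p : ℕ) : ℕ := j * C.n p / (2 * θ)
def ma (θ j : ℕ) : ℕ := ∏ p ∈ C.S, p ^ C.av θ j p
noncomputable def r (θ j : ℕ) : ℝ := Real.exp ((Real.log (C.ma θ j) + j * (C.la / θ)) / 3)
noncomputable def I (θ : ℕ) : ℕ := ⌈Real.exp (C.la / θ)⌉₊
def δ (s : Fin 3) : K := dl C.e s
def ξ (s : Fin 3) : K := 3 * C.c * (C.e s - C.c) / C.mr
def y (θ j : ℕ) (n : Fin 3 → ℤ) (s : Fin 3) : K := yv (C.ma θ j) C.mr C.c n (C.e s)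

/-- The matrix of the `j`-th anchor lattice in normalised real coordinates. -/
noncomputable def T (θ j : ℕ) : Matrix (Fin 3) (Fin 3) ℝ :=
  !![C.ma θ j / (C.r θ j * C.ϖ θ ^ j), (C.es + 2 * C.c) / (C.r θ j * C.ϖ θ ^ j),
      (C.es + 2 * C.c) * (C.es - C.c) / C.mr / (C.r θ j * C.ϖ θ ^ j);
    C.ma θ j / C.r θ j, (-C.es / 2 + 2 * C.c) / C.r θ j,
      ((-C.es / 2 + 2 * C.c) * (-C.es / 2 - C.c) + C.sg * C.τ ^ 2) / C.mr / C.r θ j;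
    0, C.τ / C.r θ j, C.τ * (C.c - C.es) / C.mr / C.r θ j]

end Cfg

/-! ### Holes -/

/-- Directions modulo `m`. -/
def FH (m : ℕ) : Finset (ℕ × ℕ) :=
  (Finset.range m ×ˢ Finset.range m).filter fun ρ =>
    ∀ p ∈ m.primeFactors, ρ.1 ≡ 1 [MOD p ^ m.factorization p] ∨ ρ.2 ≡ 1 [MOD p ^ m.factorization p]

/-- Real directions with precision `1 / I`. -/
noncomputable def AH (I : ℕ) : Finset (ℤ × ℤ) :=
  (Finset.Icc (-(I : ℤ)) I ×ˢ Finset.Icc (-(I : ℤ)) I).filter fun a => a.1 = I ∨ a.2 = I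

/-- The lattice point `n` lies in the hole `h` at scale `t`. -/
def InH (T : Matrix (Fin 3) (Fin 3) ℝ) (ma : ℕ) (c : ℤ) (m : ℕ) (t : ℝ) (h : (ℕ × ℕ) × (ℤ × ℤ))
    (n : Fin 3 → ℤ) : Prop :=
  (m : ℤ) ∣ h.1.1 * n 2 - h.1.2 * uv ma c n ∧ |h.2.1 * Yv T n 2 - h.2.2 * Yv T n 1| ≤ t

open Classical in
/-- The number of holes containing `n`. -/
noncomputable def mult (T : Matrix (Fin 3) (Fin 3) ℝ) (ma : ℕ) (c : ℤ) (m I : ℕ) (t : ℝ)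
    (n : Fin 3 → ℤ) : ℕ :=
  ((FH m ×ˢ AH I).filter fun h => InH T ma c m t h n).card

/-- The polynomial attached to `n` vanishes at no root. -/
def Good (T : Matrix (Fin 3) (Fin 3) ℝ) (n : Fin 3 → ℤ) : Prop :=
  Yv T n 0 ≠ 0 ∧ Yv T n 1 ≠ Yv T n 2 ∧ Yv T n 1 ≠ -Yv T n 2

/-- No very short vectors. -/
def Lam1 (T : Matrix (Fin 3) (Fin 3) ℝ) (ma : ℕ) (c : ℤ) (m I : ℕ) (X1 : ℝ) : Prop :=
  ∀ n : Fin 3 → ℤ, n ≠ 0 → ∀ g : ℕ, g ∣ m → (g : ℤ) ∣ uv ma c n → (g : ℤ) ∣ n 2 →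
    ∀ G s : ℝ, 1 ≤ G → G ≤ I → |Yv T n 0| ≤ s → G * |Yv T n 1| ≤ s → G * |Yv T n 2| ≤ s →
      g * G ≤ X1 * s

/-- No planes of very small covolume. -/
def Lam2 (T : Matrix (Fin 3) (Fin 3) ℝ) (ma : ℕ) (c : ℤ) (m : ℕ) (X0 : ℝ) : Prop :=
  ∀ n n' : Fin 3 → ℤ, ∀ g : ℕ, g ∣ m → (g : ℤ) ∣ uv ma c n → (g : ℤ) ∣ n 2 →
    (g : ℤ) ∣ uv ma c n' → (g : ℤ) ∣ n' 2 → crossProduct (Yv T n) (Yv T n') ≠ 0 →
      g ≤ X0 * ‖crossProduct (Yv T n) (Yv T n')‖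

/-! ### The auxiliary polynomial -/

/-- A column of an exponent matrix. -/
def col {k : ℕ} (z : Fin (k + 1) → Fin 3 → ℕ) (s : Fin 3) : Fin (k + 1) → ℕ := fun i => z i s

/-- Product of binomial coefficients. -/
def bin {k : ℕ} (z d : Fin (k + 1) → Fin 3 → ℕ) : ℕ := ∏ i, ∏ s, (z i s).choose (d i s)

/-- Sum of all entries. -/
def tot {k : ℕ} (d : Fin (k + 1) → Fin 3 → ℕ) : ℕ := ∑ i, ∑ s, d i s

/-- Rows `1, …, k` have sum `θ`, all columns have sum `Z`. -/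
def Adm {k : ℕ} (θ Z : ℕ) (z : Fin (k + 1) → Fin 3 → ℕ) : Prop :=
  (∀ i : Fin k, ∑ s, z i.succ s = θ) ∧ ∀ s, ∑ i, z i s = Z

/-- The value of the `d`-th derivative of the auxiliary polynomial. -/
def Dval {Ω : Type} [CommRing Ω] {k : ℕ} (P : Finset (Fin (k + 1) → Fin 3 → ℕ))
    (lam : (Fin (k + 1) → Fin 3 → ℕ) → ℤ) (xf : (Fin (k + 1) → ℕ) → ℕ) (δ : Fin 3 → Ω)
    (y : Fin (k + 1) → Fin 3 → Ω) (d : Fin (k + 1) → Fin 3 → ℕ) : Ω :=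
  ∑ z ∈ P, ((lam z * bin z d : ℤ) : Ω) *
    ((∏ s, δ s ^ xf (col z s)) * ∏ i, ∏ s, y i s ^ z i s)

/-- The moment conditions imposed by Siegel's lemma. -/
def Mom {k : ℕ} (P : Finset (Fin (k + 1) → Fin 3 → ℕ)) (lam : (Fin (k + 1) → Fin 3 → ℕ) → ℤ)
    (xf : (Fin (k + 1) → ℕ) → ℕ) (wd l : ℕ) : Prop :=
  ∀ (σ : Fin 3) (a : Fin (k + 1) → ℕ) (j : ℕ) (d e : Fin (k + 1) → Fin 3 → ℕ), j < l →
    tot d + tot e < wd →
    ∑ z ∈ P.filter (fun z => col z σ = a), lam z * (-1) ^ xf (col z (σ + 1)) *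
      (((xf (col z (σ + 1))).choose j * bin z d * bin z e : ℕ) : ℤ) = 0

/-- The local shape of the point `δ` and of the anchors `y i` at one place. -/
def Loc {Ω : Type} [Field Ω] {k : ℕ} (w : AbsoluteValue Ω ℝ) (δ : Fin 3 → Ω)
    (y : Fin (k + 1) → Fin 3 → Ω) (θ : ℕ) (j : Fin (k + 1) → ℕ) (M ϖ A c C0 : ℝ)
    (ρ : Fin (k + 1) → ℝ) : Prop :=
  ∃ (σ : Fin 3) (r : Fin 3 → Ω) (t : Fin (k + 1) → Ω),
    (∀ s, w (δ s) ≤ M) ∧ w (δ σ) ≤ M * ϖ ^ θ ∧ (∀ i, w (y i σ) ≤ ρ i * A * ϖ ^ j i) ∧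
    (∀ s, w (r s) ≤ C0) ∧ (∀ i, w (t i) ≤ ρ i) ∧
    ∀ i s, s ≠ σ → w (y i s - t i * r s) ≤ c * ρ i

/-! ### Integer data -/

/-- Exponent of approximation at `p`. -/
def nf (x k : ℤ) (p : ℕ) : ℕ :=
  if (p : ℤ) ∣ x then 0 else if p ≤ 3 then k.natAbs.factorization p - 4 else k.natAbs.factorization p

/-- Exponent of the denominator at `p`. -/
def rf (x y k : ℤ) (p : ℕ) : ℕ :=
  if (p : ℤ) ∣ x then (if (p : ℤ) ^ 2 ∣ y then 1 else 0) else nf x k p / 2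

/-- The denominator. -/
def mrf (x y k : ℤ) : ℕ := ∏ p ∈ k.natAbs.primeFactors, p ^ rf x y k p

/-- The quantity `D`. -/
noncomputable def Df (x k : ℤ) : ℝ := ∏ p ∈ k.natAbs.primeFactors,
  if (p : ℤ) ∣ x then (p : ℝ) ^ 2 else if Odd (k.natAbs.factorization p) then (p : ℝ) else 1

/-- The pair cannot be divided by `(p^2, p^3)`. -/
def Prim (x y : ℤ) : Prop := ∀ p : ℕ, p.Prime → ¬ ((p : ℤ) ^ 2 ∣ x ∧ (p : ℤ) ^ 3 ∣ y)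

end Pool.Agent.P.MP_7aad9f_nt.Sz
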