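import Pool.Agent.P.MP_7aad9f_nt.Sz.If

section
/-! The pigeonhole step: from the numerical inequalities to the core contradiction. -/

set_option autoImplicit false

open Polynomial

namespace Pool.Agent.P.MP_7aad9f_nt.Sz

open Pool.Agent.P.MP_7aad9f_nt.Sub (Gen S_GENSEL S_OMEGA)

variable {K : Type} [Field K] (C : Cfg K)

theorem MA_ma_pos (θ j : ℕ) : 0 < C.ma θ j :=
  Finset.prod_pos fun p hp => pow_pos (C.prime p hp).pos _

theorem MA_log_ma (θ j : ℕ) :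
    Real.log (C.ma θ j) = ∑ p ∈ C.S, (C.av θ j p : ℝ) * Real.log p := by
  rw [Cfg.ma, Nat.cast_prod, Real.log_prod]
  · exact Finset.sum_congr rfl fun p _ => by rw [Nat.cast_pow, Real.log_pow]
  · intro p hp
    exact_mod_cast (pow_pos (C.prime p hp).pos _).ne'

theorem MA_logp {p : ℕ} : 0 ≤ Real.log p := Real.log_natCast_nonneg p

theorem MA_sub (θ j : ℕ) : (C.ma θ j).primeFactors ⊆ C.S := by
  intro q hq
  have h1 := Nat.prime_of_mem_primeFactors hq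
  obtain ⟨p, hp, h2⟩ := (Prime.dvd_finsetProd_iff h1.prime _).1 (Nat.dvd_of_mem_primeFactors hq)
  rwa [(Nat.prime_dvd_prime_iff_eq h1 (C.prime p hp)).1 (h1.dvd_of_dvd_pow h2)]

theorem MA_cop (θ : ℕ) : IsCoprime C.c (C.ma θ 1 : ℤ) := by
  rw [Cfg.ma, Nat.cast_prod]
  refine IsCoprime.prod_right fun p hp => ?_
  rcases Nat.eq_zero_or_pos (C.n p) with h | h
  · simp [Cfg.av, h, isCoprime_one_right]
  · rw [Nat.cast_pow]
    refine IsCoprime.pow_right ?_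
    have hp' : Prime (p : ℤ) := Nat.prime_iff_prime_int.1 (C.prime p hp)
    exact ((Prime.coprime_iff_not_dvd hp').2 (C.c_unit p hp h)).symm

theorem MA_av_le (θ j p : ℕ) : (C.av θ j p : ℝ) * Real.log p ≤ j * (C.lp p / θ) := by
  have h1 : (C.av θ j p : ℝ) ≤ (j * C.n p : ℕ) / (2 * θ : ℕ) := Nat.cast_div_le
  calc (C.av θ j p : ℝ) * Real.log p ≤ (j * C.n p : ℕ) / (2 * θ : ℕ) * Real.log p :=
        mul_le_mul_of_nonneg_right h1 MA_logp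
    _ = j * (C.lp p / θ) := by
      rw [Cfg.lp]; push_cast; ring

theorem MA_av_eq {θ : ℕ} (hθ : 0 < θ) (j p : ℕ) : j * (C.lp p / θ) =
    (C.av θ j p + ((j * C.n p % (2 * θ) : ℕ) : ℝ) / (2 * θ)) * Real.log p := by
  have h1 : ((j * C.n p : ℕ) : ℝ) = (2 * θ : ℕ) * (C.av θ j p : ℝ) + (j * C.n p % (2 * θ) : ℕ) := by
    exact_mod_cast (Nat.div_add_mod (j * C.n p) (2 * θ)).symm
  have h2 : (θ : ℝ) ≠ 0 := by exact_mod_cast hθ.ne'
  push_cast [Nat.cast_mul] at h1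
  rw [Cfg.lp]
  field_simp
  linear_combination Real.log p * h1

theorem MA_I (θ : ℕ) (hla : 0 ≤ C.la) : 1 ≤ C.I θ ∧ Real.exp (C.la / θ) ≤ C.I θ ∧
    (C.I θ : ℝ) ≤ 2 * Real.exp (C.la / θ) := by
  have h1 : 1 ≤ Real.exp (C.la / θ) := Real.one_le_exp (by positivity)
  refine ⟨Nat.one_le_iff_ne_zero.2 (Nat.ceil_pos.2 (by linarith)).ne', Nat.le_ceil _, ?_⟩
  have := Nat.ceil_lt_add_one (a := Real.exp (C.la / θ)) (by linarith)
  rw [Cfg.I]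
  linarith

theorem MA_cl {n x t : ℕ} (hn : 0 < n) (ht : 0 < t) (hx : x < t) : n * x / t < n ∧
    ((n * x / t : ℕ) : ℝ) / n ≤ (x : ℝ) / t ∧ (x : ℝ) / t ≤ (((n * x / t : ℕ) : ℝ) + 1) / n := by
  have hn' : (0 : ℝ) < n := by exact_mod_cast hn
  have ht' : (0 : ℝ) < t := by exact_mod_cast ht
  refine ⟨(Nat.div_lt_iff_lt_mul ht).2 (Nat.mul_lt_mul_of_pos_left hx hn), ?_, ?_⟩
  · rw [div_le_div_iff₀ hn' ht']
    have : n * x / t * t ≤ x * n := by rw [mul_comm x]; exact Nat.div_mul_le_self _ _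
    exact_mod_cast this
  · rw [div_le_div_iff₀ ht' hn']
    have : x * n ≤ (n * x / t + 1) * t := by
      rw [mul_comm x, mul_comm _ t]; exact (Nat.lt_mul_div_succ _ ht).le
    exact_mod_cast this

/-- The statement of the core for fixed constants. -/
def CoreAt (κ : ℝ) (k D : ℕ) (μ0 : ℝ) : Prop :=
    ∀ (K : Type) [Field K] [CharZero K] (S : Finset ℕ) (Pl : Places K S) (δ : Fin 3 → K)
      (y : Fin (k + 1) → Fin 3 → K) (θ J : ℕ) (j g : Fin (k + 1) → ℕ) (M ϖ c η β μ h0 : ℝ)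
      (ρ : Fin (k + 1) → ℝ) (ϖp Ap cp : ℕ → ℝ),
      (∀ s, δ s ≠ 0 ∧ δ s ∈ Pl.O) → (∀ i s, y i s ≠ 0 ∧ y i s ∈ Pl.O) → δ 0 + δ 1 + δ 2 = 0 →
      0 < θ → J ≤ θ → (∀ i, j i ≤ J) → g (Fin.last k) = θ →
      (∀ i : Fin k, j i.succ = j 0 + g i.castSucc) → Gen D g → Big (-(δ 0 / δ 2)) h0 →
      μ0 * θ ≤ h0 →
      1 ≤ M → 0 < ϖ → ϖ ≤ c → c ≤ 1 → (∀ i, 0 < ρ i) →
      (∀ p ∈ S, 0 < ϖp p ∧ ϖp p ≤ cp p ∧ cp p ≤ 1 ∧ 0 < Ap p) →
      (∀ v, Loc cabs (fun s => Pl.φ v (δ s)) (fun i s => Pl.φ v (y i s)) θ j M ϖ 1 c 2 ρ) →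
      (∀ p ∈ S, ∀ v, Loc (Pl.W p v) δ y θ j 1 (ϖp p) (Ap p) (cp p) 1 (fun _ => 1)) →
      0 ≤ η → θ * (Real.log ϖ + ∑ p ∈ S, Real.log (ϖp p)) ≤ η - 3 * Real.log M →
      (∀ i, 3 * Real.log (ρ i) + ∑ p ∈ S, Real.log (Ap p) +
        j i * (Real.log ϖ + ∑ p ∈ S, Real.log (ϖp p)) ≤ β) →
      Real.log c + ∑ p ∈ S, Real.log (cp p) ≤ -μ → β * θ + η * J ≤ (1 - κ) * μ * θ →
      Real.log M ≤ θ * μ → μ0 ≤ μ → False

theorem MA_main [CharZero K] (hHIT : S_HIT) (hLAM1 : S_LAM1) (hLAM2 : S_LAM2) (hANCH : S_ANCH)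
    (hEVA : S_EVA) (hBAL : S_BAL) (hMULTF : S_MULTF) (hMULTA : S_MULTA) (hPIG : S_PIG)
    {κ μ0 : ℝ} {k D M0 : ℕ} (hcore : CoreAt κ k D μ0)
    (hgen : ∀ (ϑ : ℕ) (E : Finset ℕ), D < ϑ → M0 < E.card →
      ∃ j0 ∈ E, ∃ g : Fin (k + 1) → ℕ, g (Fin.last k) = ϑ ∧
        (∀ i : Fin k, j0 + g i.castSucc ∈ E) ∧ Gen D g)
    (θ n q : ℕ) (B μ : ℝ) (hμ : μ = Real.log (C.ma θ 1) + C.la / θ) (hD : D < θ) (hn : 0 < n)
    (hB : 1 ≤ B) (hq : q.Prime) (hqm : ¬ q ∣ C.ma θ 1)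
    (hq1 : 2000000 * 2 ^ (C.ma θ 1).primeFactors.card * ∑ g ∈ (C.ma θ 1).divisors, (g : ℝ)⁻¹ ≤ q)
    (h18 : 18 * B ^ 3 < C.V * C.ma θ 1 * C.I θ)
    (hlow : 2 ^ (C.ma θ 1).primeFactors.card * (C.ma θ 1).divisors.card * (Nat.log 2 (C.I θ) + 1) *
      (2000 * B ^ 2 * (2 * Real.exp (C.η + C.L)) +
        200 * q * B * (4 * Real.exp (C.η + C.L + C.H / θ))) ≤ B ^ 3 / (2 * C.V))
    (hpig : (M0 : ℝ) * n ^ C.S.card * (2 ^ (C.ma θ 1).primeFactors.card * C.ma θ 1 * (6 * C.I θ)) <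
      ((θ / n : ℕ) + 1) * (B ^ 3 / (4 * C.V * q ^ 2)))
    (hht : μ0 * θ ≤ C.H - C.η) (hH0 : 0 ≤ C.H)
    (hβ : (3 * Real.log B + C.L / n) * θ + C.η * (θ / n : ℕ) ≤ (1 - κ) * μ * θ)
    (hH : C.H ≤ θ * μ) (hμ0 : μ0 ≤ μ) : False := by
  classical
  obtain ⟨hM, hla, hδ, hδs, -, -, hev⟩ := hEVA K C
  obtain ⟨-, hη, -⟩ := hBAL K C
  have hθ : 0 < θ := by omega
  have hθ' : (0 : ℝ) < θ := by exact_mod_cast hθ
  have hL : 0 ≤ C.L := Finset.sum_nonneg fun p _ => MA_logp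
  have hV : 1 ≤ C.V := C.V_ge
  obtain ⟨hI, -, -⟩ := MA_I C θ hla
  have hJ : θ / n ≤ θ := Nat.div_le_self _ _
  have hhit : ∀ j, ∃ Hs : Finset ((ℕ × ℕ) × (ℤ × ℤ)), j ≤ θ / n →
      Hs ⊆ FH (C.ma θ 1) ×ˢ AH (C.I θ) ∧ B ^ 3 / (4 * C.V * q ^ 2) ≤ Hs.card ∧
      ∀ h ∈ Hs, ∃ v, Good (C.T θ j) v ∧ ‖Yv (C.T θ j) v‖ ≤ B ∧
        InH (C.T θ j) (C.ma θ j) C.c (C.ma θ 1) B h v := by
    intro j
    by_cases hj : j ≤ θ / n
    · have hd := (hev θ j).1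
      obtain ⟨Hs, h1⟩ := hHIT (C.T θ j) (C.ma θ j) C.c (C.ma θ 1) (C.I θ) q B
        (2 * Real.exp (C.η + C.L)) (4 * Real.exp (C.η + C.L + C.H / θ))
        (by rw [← abs_pos, hd]; linarith) (MA_ma_pos C θ 1) hI (MA_cop C θ) hB
        (by linarith [Real.one_le_exp (add_nonneg hη hL)])
        (by linarith [Real.one_le_exp (add_nonneg (add_nonneg hη hL) (div_nonneg hH0 hθ'.le))])
        (hLAM1 K C θ j hθ (hj.trans hJ)) (hLAM2 K C θ j hθ (hj.trans hJ)) hq hqm hq1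
        (by rw [hd]; exact h18) (by rw [hd]; exact hlow)
      rw [hd] at h1
      exact ⟨Hs, fun _ => h1⟩
    · exact ⟨∅, fun h => absurd h hj⟩
  choose Hs hHs using hhit
  have hcard : ((FH (C.ma θ 1) ×ˢ AH (C.I θ)).card : ℝ) ≤
      2 ^ (C.ma θ 1).primeFactors.card * C.ma θ 1 * (6 * C.I θ) := by
    rw [Finset.card_product]
    exact_mod_cast Nat.mul_le_mul (hMULTF _ (MA_ma_pos C θ 1)).1 (hMULTA _ hI).1
  have h2θ : 0 < 2 * θ := by omega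
  obtain ⟨h, f, E, hE, hE'⟩ := hPIG _ C.S (FH (C.ma θ 1) ×ˢ AH (C.I θ)) Hs
    (fun j p => n * (j * C.n p % (2 * θ)) / (2 * θ)) (θ / n) M0 n (B ^ 3 / (4 * C.V * q ^ 2))
    (fun j hj => ⟨(hHs j hj).1, (hHs j hj).2.1, fun p _ =>
      (MA_cl hn h2θ (Nat.mod_lt _ h2θ)).1⟩)
    (lt_of_le_of_lt (mul_le_mul_of_nonneg_left hcard (by positivity)) hpig)
  obtain ⟨j0, hj0, g, hg1, hg2, hg3⟩ := hgen θ E hD hE
  let j : Fin (k + 1) → ℕ := Fin.cons j0 fun i => j0 + g i.castSucc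
  have hjE : ∀ i, j i ∈ E := fun i => Fin.cases hj0 hg2 i
  have hjJ : ∀ i, j i ≤ θ / n := fun i => (hE' _ (hjE i)).1
  choose nn hnn using fun i => (hHs (j i) (hjJ i)).2.2 h (hE' _ (hjE i)).2.1
  let A : ℕ → ℝ := fun p => Real.exp (((f p : ℝ) + 1) / n * Real.log p)
  have hcl : ∀ i, ∀ p ∈ C.S, (f p : ℝ) / n ≤ ((j i * C.n p % (2 * θ) : ℕ) : ℝ) / (2 * θ) ∧
      ((j i * C.n p % (2 * θ) : ℕ) : ℝ) / (2 * θ) ≤ ((f p : ℝ) + 1) / n := by
    intro i p hp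
    have h1 := (MA_cl hn h2θ (Nat.mod_lt (j i * C.n p) h2θ)).2
    have h2 : n * (j i * C.n p % (2 * θ)) / (2 * θ) = f p := (hE' _ (hjE i)).2.2 p hp
    rw [h2] at h1
    push_cast at h1 ⊢
    exact h1
  obtain ⟨hy, hA1, hA2⟩ := hANCH K C θ k j nn h B A hθ (fun i => (hjJ i).trans hJ)
    ((hHs j0 (hE' _ hj0).1).1 (hE' _ hj0).2.1) hnn (by
      intro p hp i
      rw [Cfg.ϖp, ← Real.exp_nat_mul, ← Real.exp_add, Real.exp_le_exp, mul_neg, MA_av_eq C hθ]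
      nlinarith [(hcl i p hp).2, MA_logp (p := p)])
  have hlϖ : Real.log (C.ϖ θ) + ∑ p ∈ C.S, Real.log (C.ϖp θ p) =
      -(C.la / θ) - ∑ p ∈ C.S, C.lp p / θ := by
    simp only [Cfg.ϖ, Cfg.ϖp, Real.log_exp, Finset.sum_neg_distrib]
    ring
  have hB0 : 0 < B := by linarith
  refine hcore K C.S C.Pl C.δ (fun i s => C.y θ (j i) (nn i) s) θ (θ / n) j g C.M (C.ϖ θ) (C.ϖ θ)
    C.η (3 * Real.log B + C.L / n) μ (C.H - C.η) (fun i => C.r θ (j i) * B) (C.ϖp θ) A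
    (fun p => Real.exp (-(C.av θ 1 p * Real.log p))) hδ
    (fun i s => ⟨hy i s, ((hev θ (j i)).2 (nn i)).1 s⟩) hδs hθ hJ hjJ hg1 (fun i => rfl) hg3 C.ht
    hht ?_ (Real.exp_pos _) le_rfl ?_ (fun i => mul_pos (Real.exp_pos _) hB0) ?_ hA1 hA2 hη ?_ ?_ ?_
    hβ hH hμ0
  · have := Real.one_le_exp hH0
    rwa [Cfg.H, Real.exp_log hM] at this
  · exact Real.exp_le_one_iff.2 (neg_nonpos.2 (div_nonneg hla hθ'.le))
  · intro p _
    refine ⟨Real.exp_pos _, Real.exp_le_exp.2 ?_, Real.exp_le_one_iff.2 ?_, Real.exp_pos _⟩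
    · have := MA_av_le C θ 1 p
      push_cast at this
      linarith
    · exact neg_nonpos.2 (mul_nonneg (Nat.cast_nonneg _) MA_logp)
  · rw [hlϖ, ← Finset.sum_div]
    have h1 : 3 * C.H - C.η ≤ C.la + ∑ p ∈ C.S, C.lp p := C.lam_lb
    have h2 : (θ : ℝ) * (-(C.la / θ) - (∑ p ∈ C.S, C.lp p) / θ) =
        -(C.la + ∑ p ∈ C.S, C.lp p) := by field_simp; ring
    rw [h2]
    change _ ≤ C.η - 3 * C.H
    linarith
  · intro i
    rw [hlϖ, Cfg.r, Real.log_mul (Real.exp_pos _).ne' hB0.ne', Real.log_exp, MA_log_ma, mul_sub,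
      Finset.mul_sum, Cfg.L, Finset.sum_div]
    have h1 : ∑ p ∈ C.S, (C.av θ (j i) p : ℝ) * Real.log p + ∑ p ∈ C.S, Real.log (A p) -
        ∑ p ∈ C.S, (j i : ℝ) * (C.lp p / θ) ≤ ∑ p ∈ C.S, Real.log p / n := by
      rw [← Finset.sum_add_distrib, ← Finset.sum_sub_distrib]
      refine Finset.sum_le_sum fun p hp => ?_
      rw [Real.log_exp, MA_av_eq C hθ, add_div, div_eq_mul_inv (Real.log p), one_div]
      nlinarith [(hcl i p hp).1, MA_logp (p := p)]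
    linarith
  · rw [hμ, MA_log_ma]
    simp only [Cfg.ϖ, Real.log_exp, Finset.sum_neg_distrib]
    linarith

end Pool.Agent.P.MP_7aad9f_nt.Sz

end

section
/-! The choice of the parameters. -/

set_option autoImplicit false

open Polynomial

namespace Pool.Agent.P.MP_7aad9f_nt.Sz

open Pool.Agent.P.MP_7aad9f_nt.Sub (Gen S_GENSEL S_OMEGA)

theorem MB_low {L μ κ w τ l V q X0 X1 B : ℝ} (hL : 10000 ≤ L) (h1 : 596 * L ≤ μ)
    (h2 : μ ≤ 1200 * L) (hκ : κ ≤ 1 / 40) (hB : B = Real.exp ((1 - 2 * κ) * μ / 3))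
    (hw0 : 0 ≤ w) (hw : w ≤ Real.exp L) (hτ0 : 0 ≤ τ) (hτ : τ ≤ w ^ 3 * Real.exp (μ / 4))
    (hl0 : 0 ≤ l) (hl : l ≤ 2 + 2 * μ) (hV0 : 0 < V) (hV : V ≤ 500 * Real.exp L)
    (hq0 : 0 ≤ q) (hq : q ≤ 5000000 * w ^ 2 * (1 + μ)) (hX00 : 0 ≤ X0)
    (hX0 : X0 ≤ 2 * Real.exp (4 * L)) (hX10 : 0 ≤ X1) (hX1 : X1 ≤ 4 * Real.exp (6 * L + μ / 3)) :
    w * τ * l * (2000 * B ^ 2 * X0 + 200 * q * B * X1) ≤ B ^ 3 / (2 * V) := by
  set E := Real.exp L with hE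
  set a := Real.exp (μ / 12) with ha
  have hE0 : 0 < E := Real.exp_pos _
  have ha0 : 0 < a := Real.exp_pos _
  have hB0 : 0 < B := hB ▸ Real.exp_pos _
  have hE2 : L ^ 2 / 2 ≤ E := by
    have := Real.pow_div_factorial_le_exp L (by linarith) 2
    simpa [Nat.factorial] using this
  have hE3 : 50000000 ≤ E := by nlinarith
  have hE4 : 2 + 2 * μ ≤ E := by nlinarith
  have ea : ∀ (i j : ℕ), E ^ i * a ^ j = Real.exp (i * L + j * (μ / 12)) := fun i j => by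
    rw [Real.exp_add, Real.exp_nat_mul, Real.exp_nat_mul]
  have e1 : Real.exp (μ / 4) = a ^ 3 := by
    rw [ha, ← Real.exp_nat_mul]; congr 1; push_cast; ring
  have e2 : Real.exp (4 * L) = E ^ 4 := by
    rw [hE, ← Real.exp_nat_mul]; congr 1
  have e3 : Real.exp (6 * L + μ / 3) = E ^ 6 * a ^ 4 := by
    rw [ea]; congr 1; push_cast; ring
  have b1 : E ^ 11 * a ^ 3 ≤ B := by
    rw [ea, hB, Real.exp_le_exp]; push_cast; nlinarith
  have b2 : E ^ 17 * a ^ 7 ≤ B ^ 2 := by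
    rw [ea, hB, ← Real.exp_nat_mul, Real.exp_le_exp]; push_cast; nlinarith
  rw [e1] at hτ
  rw [e2] at hX0
  rw [e3] at hX1
  have hτ' : τ ≤ E ^ 3 * a ^ 3 := hτ.trans (by gcongr)
  have hl' : l ≤ E := hl.trans hE4
  have hq' : q ≤ 5000000 * E ^ 2 * E := hq.trans (by gcongr <;> linarith)
  rw [le_div_iff₀ (by positivity)]
  calc w * τ * l * (2000 * B ^ 2 * X0 + 200 * q * B * X1) * (2 * V)
      ≤ E * (E ^ 3 * a ^ 3) * E * (2000 * B ^ 2 * (2 * E ^ 4) +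
        200 * (5000000 * E ^ 2 * E) * B * (4 * (E ^ 6 * a ^ 4))) * (2 * (500 * E)) := by gcongr
    _ = 8000000 * (E ^ 10 * a ^ 3) * B ^ 2 / 2 + 8000000000000 * (E ^ 15 * a ^ 7) * B / 2 := by ring
    _ ≤ E * (E ^ 10 * a ^ 3) * B ^ 2 / 2 + E ^ 2 * (E ^ 15 * a ^ 7) * B / 2 := by
        gcongr
        · linarith
        · nlinarith
    _ = E ^ 11 * a ^ 3 * B ^ 2 / 2 + E ^ 17 * a ^ 7 * B / 2 := by ring
    _ ≤ B * B ^ 2 / 2 + B ^ 2 * B / 2 := by gcongr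
    _ = B ^ 3 := by ring

variable {K : Type} [Field K] (C : Cfg K)

theorem MB_two : (2 : ℝ) ^ C.S.card ≤ Real.exp C.L := by
  rw [Cfg.L, Real.exp_sum, ← Finset.prod_const]
  refine Finset.prod_le_prod (fun _ _ => by norm_num) fun p hp => ?_
  have h := (C.prime p hp).two_le
  rw [Real.exp_log (by exact_mod_cast (by omega : 0 < p))]
  exact_mod_cast h

theorem MB_om (hOM : S_OMEGA) (n : ℕ) (ε : ℝ) (hε : 0 < ε) : ∃ C1 : ℝ, 0 < C1 ∧
    ∀ (K : Type) [Field K] (C : Cfg K), (n : ℝ) ^ C.S.card ≤ C1 * Real.exp (ε * C.L) := by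
  obtain ⟨C1, h0, h⟩ := hOM n ε hε
  refine ⟨C1, h0, fun K _ C => ?_⟩
  have h1 := h (∏ p ∈ C.S, p)
  have h2 : (∏ p ∈ C.S, p).primeFactors = C.S := Nat.primeFactors_prod C.prime
  have h3 : (0 : ℝ) < ∏ p ∈ C.S, (p : ℝ) :=
    Finset.prod_pos fun p hp => by exact_mod_cast (C.prime p hp).pos
  rw [Sub.rad, h2, Nat.cast_prod, Real.rpow_def_of_pos h3, Real.log_prod, mul_comm _ ε] at h1
  · exact h1
  · intro p hp
    exact_mod_cast (C.prime p hp).pos.ne'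

theorem MB_mu {θ : ℕ} (hθ : 0 < θ) : Real.log (C.ma θ 1) + C.la / θ ≤ C.Lam / θ ∧
    C.Lam / θ - C.L ≤ Real.log (C.ma θ 1) + C.la / θ := by
  rw [MA_log_ma, Cfg.Lam, add_div, Finset.sum_div, Cfg.L]
  constructor
  · have : ∑ p ∈ C.S, (C.av θ 1 p : ℝ) * Real.log p ≤ ∑ p ∈ C.S, C.lp p / θ :=
      Finset.sum_le_sum fun p _ => by simpa using MA_av_le C θ 1 p
    linarith
  · have : ∑ p ∈ C.S, C.lp p / θ ≤ ∑ p ∈ C.S, ((C.av θ 1 p : ℝ) * Real.log p + Real.log p) := by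
      refine Finset.sum_le_sum fun p _ => ?_
      have h1 := MA_av_eq C hθ 1 p
      have h2 : ((1 * C.n p % (2 * θ) : ℕ) : ℝ) / (2 * θ) ≤ 1 := by
        rw [div_le_one (by positivity)]
        exact_mod_cast (Nat.mod_lt _ (by omega)).le
      rw [Nat.cast_one, one_mul] at h1
      rw [h1]
      nlinarith [MA_logp (p := p)]
    rw [Finset.sum_add_distrib] at this
    linarith

theorem MB_log2 {I : ℕ} {μ : ℝ} (hI : 1 ≤ I) (hμ : 0 ≤ μ) (h : (I : ℝ) ≤ 2 * Real.exp μ) :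
    (Nat.log 2 I : ℝ) + 1 ≤ 2 + 2 * μ := by
  have h1 : (2 : ℝ) ^ Nat.log 2 I ≤ I := by exact_mod_cast Nat.pow_log_le_self 2 (by omega)
  have h2 := Real.log_le_log (by positivity) (h1.trans h)
  rw [Real.log_pow, Real.log_mul (by norm_num) (Real.exp_pos _).ne', Real.log_exp] at h2
  have h3 := Real.log_two_gt_d9
  nlinarith [Nat.cast_nonneg (α := ℝ) (Nat.log 2 I)]

theorem MB_theta [CharZero K] (hHIT : S_HIT) (hLAM1 : S_LAM1) (hLAM2 : S_LAM2) (hANCH : S_ANCH)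
    (hEVA : S_EVA) (hBAL : S_BAL) (hMULTF : S_MULTF) (hMULTA : S_MULTA) (hARITH : S_ARITH)
    (hPIG : S_PIG) {κ μ0 : ℝ} {k D M0 : ℕ} (hcore : CoreAt κ k D μ0)
    (hgen : ∀ (ϑ : ℕ) (E : Finset ℕ), D < ϑ → M0 < E.card →
      ∃ j0 ∈ E, ∃ g : Fin (k + 1) → ℕ, g (Fin.last k) = ϑ ∧
        (∀ i : Fin k, j0 + g i.castSucc ∈ E) ∧ Gen D g)
    (θ n : ℕ) (L : ℝ) (hκ0 : 0 < κ) (hκ : κ ≤ 1 / 40) (hn : 1 / κ ≤ n) (hL1 : C.L ≤ L)
    (hL2 : 10000 ≤ L) (hL3 : μ0 ≤ L) (hL4 : 1 / κ ≤ L) (hη : C.η ≤ 2 * C.L + 20)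
    (hV : C.V ≤ 500 * Real.exp C.L) (hD : D < θ) (hθ1 : 200 * L * θ ≤ C.H)
    (hθ2 : C.H ≤ 200 * L * (θ + 1)) :
    (θ : ℝ) ≤ 10 ^ 16 * M0 * n * (C.V * ((32 * n : ℕ) : ℝ) ^ C.S.card * (1 + 1200 * L) ^ 2 *
      Real.exp (2400 * κ * L)) := by
  by_contra hcon
  rw [not_le] at hcon
  obtain ⟨-, hla, -⟩ := hEVA K C
  obtain ⟨hΛ, hη0, -⟩ := hBAL K C
  have hΛ' : 3 * C.H - C.η ≤ C.Lam := C.lam_lb
  have hθ : 0 < θ := by omega
  have hθ' : (1 : ℝ) ≤ θ := by exact_mod_cast hθ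
  have hθ0 : (0 : ℝ) < θ := by linarith
  have hV1 : 1 ≤ C.V := C.V_ge
  have hL0 : 0 ≤ C.L := Finset.sum_nonneg fun p _ => MA_logp
  have hn0 : (0 : ℝ) < n := lt_of_lt_of_le (by positivity) hn
  have hLp : 0 ≤ L := by linarith
  have hκn : 1 ≤ κ * n := by rwa [div_le_iff₀' hκ0] at hn
  have hκL : 1 ≤ κ * L := by rwa [div_le_iff₀' hκ0] at hL4
  obtain ⟨hI1, hI2, hI3⟩ := MA_I C θ hla
  obtain ⟨hm1, hm2⟩ := MB_mu C hθ
  set m := C.ma θ 1 with hm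
  have hm0 : 0 < m := MA_ma_pos C θ 1
  have hm0' : (0 : ℝ) < m := by exact_mod_cast hm0
  set μ := Real.log m + C.la / θ with hμ
  have hx1 : 200 * L ≤ C.H / θ := by rwa [le_div_iff₀ hθ0]
  have hx2 : C.H / θ ≤ 400 * L := by
    rw [div_le_iff₀ hθ0]
    linarith [mul_le_mul_of_nonneg_left hθ' hLp]
  have hη3 : C.η ≤ 3 * L := by linarith
  have hy1 : C.Lam / θ ≤ 3 * (C.H / θ) := by
    rw [← mul_div_assoc]; exact div_le_div_of_nonneg_right hΛ hθ0.le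
  have hy2 : 3 * (C.H / θ) - C.η ≤ C.Lam / θ := by
    have h1 : C.η / θ ≤ C.η := div_le_self hη0 hθ'
    have h2 : (3 * C.H - C.η) / θ ≤ C.Lam / θ := div_le_div_of_nonneg_right hΛ' hθ0.le
    rw [sub_div, mul_div_assoc] at h2
    linarith
  have hμ1 : 596 * L ≤ μ := by linarith
  have hμ2 : μ ≤ 1200 * L := by linarith
  have hμ0 : 0 ≤ μ := by linarith
  have hlm : 0 ≤ Real.log m := Real.log_natCast_nonneg m
  have hlθ : 0 ≤ C.la / θ := div_nonneg hla hθ0.le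
  have heμ : Real.exp μ = m * Real.exp (C.la / θ) := by rw [hμ, Real.exp_add, Real.exp_log hm0']
  obtain ⟨hQ, hτ, hσ⟩ := hARITH m hm0
  set w : ℝ := 2 ^ m.primeFactors.card with hw
  have hw1 : 1 ≤ w := one_le_pow₀ (by norm_num)
  have hw2 : w ≤ 2 ^ C.S.card :=
    pow_le_pow_right₀ (by norm_num) (Finset.card_le_card (MA_sub C θ 1))
  have hw3 : 1 ≤ w * (1 + μ) := one_le_mul_of_one_le_of_one_le hw1 (by linarith)
  have hQ0 : (1 : ℝ) ≤ 2000000 * w * (1 + μ) := by linarith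
  obtain ⟨q, hq, hqm, hq1, hq2⟩ := hQ ⌈2000000 * w * (1 + μ)⌉₊
    (Nat.one_le_iff_ne_zero.2 (Nat.ceil_pos.2 (by linarith)).ne')
  have hq1' : 2000000 * w * (1 + μ) ≤ q := (Nat.le_ceil _).trans (by exact_mod_cast hq1)
  have hq2' : (q : ℝ) ≤ 5000000 * w ^ 2 * (1 + μ) := by
    have h1 : (q : ℝ) ≤ 2 ^ (m.primeFactors.card + 1) * (⌈2000000 * w * (1 + μ)⌉₊ : ℝ) := by
      exact_mod_cast hq2
    have h2 := Nat.ceil_lt_add_one (a := 2000000 * w * (1 + μ)) (by linarith)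
    rw [pow_succ, ← hw] at h1
    calc (q : ℝ) ≤ w * 2 * (2500000 * w * (1 + μ)) :=
          h1.trans (mul_le_mul_of_nonneg_left (by linarith) (by linarith))
      _ = _ := by ring
  have hq0 : (0 : ℝ) < q := by exact_mod_cast hq.pos
  set B := Real.exp ((1 - 2 * κ) * μ / 3) with hB
  have hB3 : B ^ 3 * Real.exp (2 * κ * μ) = Real.exp μ := by
    rw [hB, ← Real.exp_nat_mul, ← Real.exp_add]; congr 1; push_cast; ring
  have hB0 : 0 < B := Real.exp_pos _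
  have hE : Real.exp C.L ≤ Real.exp L := Real.exp_le_exp.2 hL1
  refine MA_main C hHIT hLAM1 hLAM2 hANCH hEVA hBAL hMULTF hMULTA hPIG hcore hgen θ n q B μ rfl hD
    (by exact_mod_cast hn0)
    (Real.one_le_exp (div_nonneg (mul_nonneg (by linarith) hμ0) (by norm_num))) hq hqm ?_ ?_ ?_ ?_ ?_
    (le_trans (by positivity) hθ1)
    ?_ ?_ (by linarith)
  · refine le_trans ?_ hq1'
    gcongr
    linarith
  · have h1 : 18 < Real.exp (2 * κ * μ) := by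
      linarith [Real.add_one_le_exp (2 * κ * μ), mul_le_mul_of_nonneg_left hμ1 hκ0.le]
    calc 18 * B ^ 3 < B ^ 3 * Real.exp (2 * κ * μ) := by
          rw [mul_comm]; exact mul_lt_mul_of_pos_left h1 (pow_pos hB0 3)
      _ = 1 * m * Real.exp (C.la / θ) := by rw [hB3, heμ, one_mul]
      _ ≤ C.V * m * C.I θ := by gcongr
  · refine MB_low hL2 hμ1 hμ2 hκ hB (by linarith) (hw2.trans ((MB_two C).trans hE))
      (Nat.cast_nonneg _) ?_ (by positivity) (MB_log2 hI1 hμ0 (hI3.trans ?_)) (by linarith)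
      (by linarith) hq0.le hq2' (by positivity) ?_ (by positivity) ?_
    · refine hτ.trans ?_
      change _ ≤ w ^ 3 * _
      rw [hw, ← pow_mul, mul_comm _ 3, pow_mul, show (2 : ℝ) ^ 3 = 8 by norm_num]
      exact mul_le_mul_of_nonneg_left (Real.exp_le_exp.2 (by linarith)) (by positivity)
    · exact mul_le_mul_of_nonneg_left (Real.exp_le_exp.2 (by linarith)) (by norm_num)
    · exact mul_le_mul_of_nonneg_left (Real.exp_le_exp.2 (by linarith)) (by norm_num)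
    · exact mul_le_mul_of_nonneg_left (Real.exp_le_exp.2 (by linarith)) (by norm_num)
  · have h1 : (θ : ℝ) / n < (θ / n : ℕ) + 1 := by
      rw [div_lt_iff₀ hn0]
      have := Nat.lt_mul_div_succ θ (by exact_mod_cast hn0 : 0 < n)
      rw [mul_comm] at this
      exact_mod_cast this
    refine lt_of_le_of_lt ?_ (mul_lt_mul_of_pos_right h1 (by positivity))
    rw [div_mul_div_comm, le_div_iff₀ (by positivity)]
    have h2 : (m : ℝ) * (6 * C.I θ) ≤ 12 * (B ^ 3 * Real.exp (2400 * κ * L)) := by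
      have h3 : Real.exp (2 * κ * μ) ≤ Real.exp (2400 * κ * L) :=
        Real.exp_le_exp.2 (by linarith [mul_le_mul_of_nonneg_left hμ2 hκ0.le])
      calc (m : ℝ) * (6 * C.I θ) ≤ m * (6 * (2 * Real.exp (C.la / θ))) := by gcongr
        _ = 12 * (B ^ 3 * Real.exp (2 * κ * μ)) := by rw [hB3, heμ]; ring
        _ ≤ _ := by gcongr
    have h4 : ((32 * n : ℕ) : ℝ) ^ C.S.card = n ^ C.S.card * (2 ^ C.S.card) ^ 5 := by
      rw [← pow_mul, mul_comm _ 5, pow_mul, ← mul_pow]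
      push_cast
      congr 1
      ring
    calc (M0 : ℝ) * n ^ C.S.card * (w * m * (6 * C.I θ)) * (n * (4 * C.V * q ^ 2))
        = M0 * n ^ C.S.card * (w * (m * (6 * C.I θ))) * (n * (4 * C.V * q ^ 2)) := by ring
      _ ≤ M0 * n ^ C.S.card * (2 ^ C.S.card * (12 * (B ^ 3 * Real.exp (2400 * κ * L)))) *
          (n * (4 * C.V * (5000000 * (2 ^ C.S.card) ^ 2 * (1 + 1200 * L)) ^ 2)) := by
          gcongr
          exact hq2'.trans (by gcongr)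
      _ = 1200000000000000 * M0 * n * (C.V * ((32 * n : ℕ) : ℝ) ^ C.S.card * (1 + 1200 * L) ^ 2 *
          Real.exp (2400 * κ * L)) * B ^ 3 := by rw [h4]; ring
      _ ≤ 10 ^ 16 * M0 * n * (C.V * ((32 * n : ℕ) : ℝ) ^ C.S.card * (1 + 1200 * L) ^ 2 *
          Real.exp (2400 * κ * L)) * B ^ 3 := by gcongr; norm_num
      _ ≤ θ * B ^ 3 := by gcongr
  · linarith [mul_le_mul_of_nonneg_right hL3 hθ0.le, mul_le_mul_of_nonneg_left hθ' hLp,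
      mul_nonneg hLp hθ0.le]
  · rw [hB, Real.log_exp]
    have h1 : ((θ / n : ℕ) : ℝ) ≤ θ / n := Nat.cast_div_le
    have h2 : C.η * ((θ / n : ℕ) : ℝ) ≤ 3 * L * (θ / n) := by gcongr
    have h3 : C.L / n ≤ L / n := by gcongr
    have h4 : L / n ≤ κ * L := by
      rw [div_le_iff₀ hn0]
      linarith [mul_le_mul_of_nonneg_left hκn hLp]
    have h5 : 3 * L * (θ / n) = 3 * (L / n) * θ := by ring
    have h6 : 4 * (κ * L) ≤ κ * μ := by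
      linarith [mul_le_mul_of_nonneg_left hμ1 hκ0.le, mul_nonneg hκ0.le hLp]
    have h7 : C.L / n + 3 * (L / n) ≤ κ * μ := by linarith
    linarith [mul_le_mul_of_nonneg_right h7 hθ0.le]
  · rw [← div_le_iff₀' hθ0]
    linarith

theorem p_MAINC (hHIT : S_HIT) (hLAM1 : S_LAM1) (hLAM2 : S_LAM2) (hANCH : S_ANCH)
    (hEVA : S_EVA) (hBAL : S_BAL) (hMULTF : S_MULTF) (hMULTA : S_MULTA) (hARITH : S_ARITH)
    (hPIG : S_PIG) (hCORE : S_CORE) (hGEN : S_GENSEL) (hOM : S_OMEGA) : S_MAINC := by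
  intro ε hε
  set κ := min (1 / 40) (ε / 9600) with hκ
  have hκ0 : 0 < κ := lt_min (by norm_num) (by positivity)
  have hκ1 : κ ≤ 1 / 40 := min_le_left _ _
  have hκ2 : κ ≤ ε / 9600 := min_le_right _ _
  obtain ⟨k, D, μ0, hcore⟩ := hCORE κ hκ0 (by linarith)
  obtain ⟨M0, hgen⟩ := hGEN k D
  set n := ⌈1 / κ⌉₊ with hn
  have hn1 : 1 / κ ≤ n := Nat.le_ceil _
  have hn2 : 0 < n := Nat.ceil_pos.2 (by positivity)
  obtain ⟨C1, hC1, hom⟩ := MB_om hOM (32 * n) (ε / 4) (by positivity)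
  set L0 := max (max 10000 μ0) (1 / κ) with hL0
  have hL01 : 10000 ≤ L0 := (le_max_left _ _).trans (le_max_left _ _)
  refine ⟨200 * (D + 1 + 10 ^ 16 * M0 * n) * C1 * (1201 ^ 2 * (6 * (4 / ε) ^ 3)) *
    Real.exp (ε / 2 * L0), ?_⟩
  intro K _ _ C hη hV
  have hL : 0 ≤ C.L := Finset.sum_nonneg fun p _ => MA_logp
  set L := C.L + L0 with hLd
  have hL2 : 10000 ≤ L := by linarith
  have hV1 : 1 ≤ C.V := C.V_ge
  set θ := ⌊C.H / (200 * L)⌋₊ with hθ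
  have hθ2 : C.H ≤ 200 * L * (θ + 1) := by
    rw [← div_le_iff₀' (by positivity)]
    exact (Nat.lt_floor_add_one _).le
  set W := C.V * ((32 * n : ℕ) : ℝ) ^ C.S.card * (1 + 1200 * L) ^ 2 * Real.exp (2400 * κ * L)
    with hW
  have hW1 : 1 ≤ W := by
    have h1 : (1 : ℝ) ≤ ((32 * n : ℕ) : ℝ) ^ C.S.card :=
      one_le_pow₀ (by exact_mod_cast (by omega : 1 ≤ 32 * n))
    have h2 : (1 : ℝ) ≤ (1 + 1200 * L) ^ 2 := one_le_pow₀ (by linarith)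
    have h3 : 1 ≤ Real.exp (2400 * κ * L) := Real.one_le_exp (by positivity)
    calc (1 : ℝ) = 1 * 1 * 1 * 1 := by ring
      _ ≤ W := by rw [hW]; gcongr
  have hθ3 : (θ : ℝ) + 1 ≤ (D + 1 + 10 ^ 16 * M0 * n) * W := by
    have h0 : (0 : ℝ) ≤ 10 ^ 16 * M0 * n * W := by positivity
    have h1 : (D : ℝ) + 1 ≤ (D + 1) * W := le_mul_of_one_le_right (by positivity) hW1
    rcases le_or_gt θ D with h | h
    · have : (θ : ℝ) ≤ D := by exact_mod_cast h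
      linarith
    · have hp : 0 < θ := by omega
      have h2 : 200 * L * θ ≤ C.H := by
        rw [← le_div_iff₀' (by positivity)]
        exact Nat.floor_le (Nat.pos_of_floor_pos hp).le
      have h3 := MB_theta C hHIT hLAM1 hLAM2 hANCH hEVA hBAL hMULTF hMULTA hARITH hPIG hcore hgen
        θ n L hκ0 hκ1 hn1 (by linarith) hL2
        (by linarith [(le_max_right 10000 μ0).trans (le_max_left _ (1 / κ))])
        (by linarith [le_max_right (max 10000 μ0) (1 / κ)]) hη hV h h2 hθ2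
      have : (0 : ℝ) ≤ D := Nat.cast_nonneg _
      linarith
  have h1 : L ^ 3 ≤ 6 * (4 / ε) ^ 3 * Real.exp (ε / 4 * L) := by
    have h2 := Real.pow_div_factorial_le_exp (ε / 4 * L) (by positivity) 3
    have h3 : L ^ 3 = 6 * (4 / ε) ^ 3 * ((ε / 4 * L) ^ 3 / (Nat.factorial 3 : ℕ)) := by
      simp only [Nat.factorial]
      field_simp
      norm_num
    rw [h3]
    gcongr
  have h2 : L * (1 + 1200 * L) ^ 2 ≤ 1201 ^ 2 * (6 * (4 / ε) ^ 3 * Real.exp (ε / 4 * L)) := by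
    calc L * (1 + 1200 * L) ^ 2 ≤ L * (1201 * L) ^ 2 := by gcongr; linarith
      _ = 1201 ^ 2 * L ^ 3 := by ring
      _ ≤ _ := by gcongr
  have h3 : Real.exp (2400 * κ * L) ≤ Real.exp (ε / 4 * L) := Real.exp_le_exp.2 (by nlinarith)
  have h4 : Real.exp (ε / 4 * C.L) * Real.exp (ε / 4 * L) * Real.exp (ε / 4 * L) ≤
      Real.exp (ε / 2 * L0) * Real.exp (ε * C.L) := by
    rw [← Real.exp_add, ← Real.exp_add, ← Real.exp_add, Real.exp_le_exp, hLd]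
    nlinarith
  calc C.H ≤ 200 * L * (θ + 1) := hθ2
    _ ≤ 200 * L * ((D + 1 + 10 ^ 16 * M0 * n) * W) := by gcongr
    _ = 200 * (D + 1 + 10 ^ 16 * M0 * n) * C.V * ((32 * n : ℕ) : ℝ) ^ C.S.card *
        (L * (1 + 1200 * L) ^ 2) * Real.exp (2400 * κ * L) := by rw [hW]; ring
    _ ≤ 200 * (D + 1 + 10 ^ 16 * M0 * n) * C.V * (C1 * Real.exp (ε / 4 * C.L)) *
        (1201 ^ 2 * (6 * (4 / ε) ^ 3 * Real.exp (ε / 4 * L))) * Real.exp (ε / 4 * L) := by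
        gcongr
        exact hom K C
    _ = 200 * (D + 1 + 10 ^ 16 * M0 * n) * C1 * (1201 ^ 2 * (6 * (4 / ε) ^ 3)) * C.V *
        (Real.exp (ε / 4 * C.L) * Real.exp (ε / 4 * L) * Real.exp (ε / 4 * L)) := by ring
    _ ≤ 200 * (D + 1 + 10 ^ 16 * M0 * n) * C1 * (1201 ^ 2 * (6 * (4 / ε) ^ 3)) * C.V *
        (Real.exp (ε / 2 * L0) * Real.exp (ε * C.L)) := by gcongr
    _ = _ := by ring

end Pool.Agent.P.MP_7aad9f_nt.Sz

end
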