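import Pool.Agent.P.MP_7aad9f_nt.Sz.ZDefs
import Pool.Agent.P.MP_7aad9f_nt.SubORD

/-! Weighted order of vanishing at a point with coordinates in a field. -/

set_option autoImplicit false

open Polynomial

namespace Pool.Agent.P.MP_7aad9f_nt.Sz

open _root_.Pool.Agent.P.MP_7aad9f_nt.Sub

variable {K : Type} [Field K]

/-- Evaluation at the point `(u, α)`. -/
noncomputable def zev {n : ℕ} (u : K) (α : Fin n → K) : MvPolynomial (Fin n) ℤ[X] →+* K :=
  MvPolynomial.eval₂Hom (eval₂RingHom (Int.castRingHom K) u) α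

theorem zord_mono {n : ℕ} {u : K} {α : Fin n → K} {ϑ m m' : ℕ} {F : MvPolynomial (Fin n) ℤ[X]}
    (h : ZOrd u α ϑ m F) (hm : m' ≤ m) : ZOrd u α ϑ m' F :=
  fun b0 b => (pow_dvd_pow _ hm).trans (h b0 b)

theorem zord_mul {n : ℕ} {u : K} {α : Fin n → K} {ϑ m : ℕ} {F : MvPolynomial (Fin n) ℤ[X]}
    (G : MvPolynomial (Fin n) ℤ[X]) (h : ZOrd u α ϑ m F) : ZOrd u α ϑ m (G * F) := fun b0 b => by
  rw [map_mul]; exact (h b0 b).mul_left _

theorem zord_key {n : ℕ} (u : K) (α : Fin (n + 1) → K) (ϑ : ℕ) (b0 : K) (b : Fin (n + 1) → K)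
    (P : (MvPolynomial (Fin n) ℤ[X])[X]) :
    zsb u α ϑ b0 b ((MvPolynomial.finSuccEquiv ℤ[X] n).symm P) =
      eval (C (b 0) * X) (taylor (C (α 0)) (P.map (zsb u (Fin.tail α) ϑ b0 (Fin.tail b)))) := by
  obtain ⟨F, rfl⟩ := (MvPolynomial.finSuccEquiv ℤ[X] n).surjective P
  rw [AlgEquiv.symm_apply_apply, taylor_eval]
  have key : zsb u α ϑ b0 b = ((evalRingHom (C (b 0) * X + C (α 0))).comp
      (mapRingHom (zsb u (Fin.tail α) ϑ b0 (Fin.tail b)))).comp
      (MvPolynomial.finSuccEquiv ℤ[X] n : MvPolynomial (Fin (n + 1)) ℤ[X] →+* _) := by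
    refine MvPolynomial.ringHom_ext (fun r => ?_) fun i => ?_
    · have h1 : MvPolynomial.finSuccEquiv ℤ[X] n (MvPolynomial.C r) = C (MvPolynomial.C r) :=
        (MvPolynomial.finSuccEquiv ℤ[X] n).commutes r
      simp only [RingHom.comp_apply, RingHom.coe_coe, h1, coe_mapRingHom, map_C, coe_evalRingHom,
        eval_C, zsb, MvPolynomial.eval₂Hom_C]
    · refine Fin.cases ?_ (fun j => ?_) i
      · simp [zsb, MvPolynomial.finSuccEquiv_X_zero, add_comm]
      · simp [zsb, MvPolynomial.finSuccEquiv_X_succ, Fin.tail]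
  rw [key]
  rfl

theorem zord_interp [CharZero K] (T : K[X][X]) (m : ℕ)
    (h : ∀ β : K, (X : K[X]) ^ m ∣ T.eval (C β * X)) (c : ℕ) :
    (X : K[X]) ^ (m - c) ∣ T.coeff c := by
  rw [X_pow_dvd_iff]
  intro d hd
  by_cases hc : T.natDegree < c
  · rw [coeff_eq_zero_of_natDegree_lt hc, coeff_zero]
  have h1 : (∑ i ∈ Finset.range (T.natDegree + 1),
      monomial i ((T.coeff i * X ^ i).coeff (d + c)) : K[X]) = 0 := by
    refine Polynomial.funext fun β => ?_
    have h2 := X_pow_dvd_iff.mp (h β) (d + c) (by omega)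
    rw [eval_eq_sum_range, finsetSum_coeff] at h2
    rw [eval_zero, ← h2, eval_finsetSum]
    refine Finset.sum_congr rfl fun i _ => ?_
    rw [eval_monomial, mul_pow, ← C_pow, mul_left_comm, coeff_C_mul, mul_comm]
  have h2 := congrArg (fun p : K[X] => p.coeff c) h1
  simp only [finsetSum_coeff, coeff_monomial, Finset.sum_ite_eq', Finset.mem_range, coeff_zero,
    coeff_mul_X_pow] at h2
  rwa [if_pos (by omega)] at h2

theorem zord1 [CharZero K] {n : ℕ} (u : K) (α : Fin (n + 1) → K) (ϑ m : ℕ)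
    (P : (MvPolynomial (Fin n) ℤ[X])[X])
    (hP : ZOrd u α ϑ m ((MvPolynomial.finSuccEquiv ℤ[X] n).symm P)) :
    (∀ e : ℕ, ZOrd u α ϑ (m - e) ((MvPolynomial.finSuccEquiv ℤ[X] n).symm (hasseDeriv e P))) ∧
      ∀ (b0 : K) (b : Fin n → K) (c : ℕ), (X : K[X]) ^ (m - c) ∣
        (taylor (C (α 0)) (P.map (zsb u (Fin.tail α) ϑ b0 b))).coeff c := by
  have key : ∀ (b0 : K) (b : Fin n → K) (c : ℕ), (X : K[X]) ^ (m - c) ∣
      (taylor (C (α 0)) (P.map (zsb u (Fin.tail α) ϑ b0 b))).coeff c := fun b0 b =>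
    zord_interp _ m fun β => by
      have h1 := hP b0 (Fin.cons β b)
      rwa [zord_key] at h1
  refine ⟨fun e b0 b => ?_, key⟩
  rw [zord_key, eval_eq_sum_range]
  refine Finset.dvd_sum fun c _ => ?_
  rw [ord_hasse, nsmul_eq_mul, mul_pow, mul_assoc]
  refine Dvd.dvd.mul_left ?_ _
  refine (pow_dvd_pow X (show m - e ≤ m - (c + e) + c by omega)).trans ?_
  rw [pow_add]
  exact mul_dvd_mul (key _ _ _) (dvd_mul_left _ _)

theorem zord2 {n : ℕ} (u : K) (α : Fin n → K) {ϑ : ℕ} (m : ℕ) (h : 0 < ϑ)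
    (G F : MvPolynomial (Fin n) ℤ[X]) (hG : zev u α G ≠ 0) (hF : ZOrd u α ϑ m (G * F)) :
    ZOrd u α ϑ m F := by
  intro b0 b
  have key : (evalRingHom (0 : K)).comp (zsb u α ϑ b0 b) = zev u α := by
    refine MvPolynomial.ringHom_ext' ?_ fun i => by simp [zsb, zev]
    refine Polynomial.ringHom_ext (fun a => by simp) ?_
    simp [zsb, zev, h.ne']
  have h1 := hF b0 b
  rw [map_mul] at h1
  refine prime_X.pow_dvd_of_dvd_mul_left m (fun h2 => hG ?_) h1
  rw [X_dvd_iff, coeff_zero_eq_eval_zero] at h2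
  rw [← key]
  exact h2

/-- The case without `S` variables. -/
theorem zbase [CharZero K] (u : K) (α : Fin 0 → K) {ϑ : ℕ} (m : ℕ) (h : 0 < ϑ) (f : ℤ[X])
    (hf : f ≠ 0) (hO : ZOrd u α ϑ m (MvPolynomial.C f)) :
    ∃ e : ℕ, m ≤ e * ϑ ∧ (X - C u) ^ e ∣ f.map (Int.castRingHom K) := by
  have hq0 : f.map (Int.castRingHom K) ≠ 0 :=
    (Polynomial.map_ne_zero_iff (Int.castRingHom K).injective_int).2 hf
  obtain ⟨q, hq, hq'⟩ := exists_eq_pow_rootMultiplicity_mul_and_not_dvd _ hq0 u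
  set e := (f.map (Int.castRingHom K)).rootMultiplicity u
  refine ⟨e, ?_, ⟨q, hq⟩⟩
  by_contra hlt
  have h0 : zsb u α ϑ 1 α (MvPolynomial.C f) =
      (f.map (Int.castRingHom K)).comp (C u + X ^ ϑ) := by
    rw [zsb, MvPolynomial.eval₂Hom_C, coe_eval₂RingHom, comp, eval₂_map, map_one, one_mul]
    congr 1
  have h1 := hO 1 α
  rw [h0, hq, mul_comp, pow_comp, sub_comp, X_comp, C_comp, add_sub_cancel_left,
    ← pow_mul, X_pow_dvd_iff] at h1
  have h2 := h1 (0 + ϑ * e) (by rw [zero_add, mul_comm]; omega)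
  rw [coeff_X_pow_mul, coeff_zero_eq_eval_zero, eval_comp] at h2
  simp only [eval_add, eval_C, eval_pow, eval_X, zero_pow h.ne', add_zero] at h2
  exact hq' (dvd_iff_isRoot.2 h2)

end Pool.Agent.P.MP_7aad9f_nt.Sz
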