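import Pool.Agent.P.MP_7aad9f_nt.Sz.ZVal
import Pool.Agent.P.MP_7aad9f_nt.Sz.ZOrd

/-! The three cusp valuations and the multiplicity of a factor through the point. -/

set_option autoImplicit false

open Polynomial

namespace Pool.Agent.P.MP_7aad9f_nt.Sz

/-- `ϑ` times the order at an integer `a`. -/
noncomputable def vA (ϑ : ℕ) (a : ℤ) (f : ℤ[X]) : ℤ := ϑ * (f.rootMultiplicity a : ℤ)

/-- `ϑ` times the order at infinity. -/
noncomputable def vI (ϑ : ℕ) (f : ℤ[X]) : ℤ := -(ϑ * (f.natDegree : ℤ))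

theorem isV_vA (ϑ : ℕ) (a : ℤ) : IsV (vA ϑ a) where
  mul f g hf hg := by
    rw [vA, rootMultiplicity_mul (mul_ne_zero hf hg), vA, vA]
    push_cast
    ring
  add f g _ _ h := by
    have h1 := rootMultiplicity_add a h
    have h0 : (0 : ℤ) ≤ ϑ := Int.natCast_nonneg _
    rcases min_le_iff.1 h1 with h2 | h2
    · exact (min_le_left _ _).trans (mul_le_mul_of_nonneg_left (by exact_mod_cast h2) h0)
    · exact (min_le_right _ _).trans (mul_le_mul_of_nonneg_left (by exact_mod_cast h2) h0)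
  int κ _ := by
    rw [vA, show (κ : ℤ[X]) = C κ by simp, rootMultiplicity_C]
    simp

theorem isV_vI (ϑ : ℕ) : IsV (vI ϑ) where
  mul f g hf hg := by
    rw [vI, natDegree_mul hf hg, vI, vI]
    push_cast
    ring
  add f g _ _ _ := by
    have h1 := natDegree_add_le f g
    have h0 : (0 : ℤ) ≤ ϑ := Int.natCast_nonneg _
    rcases le_max_iff.1 h1 with h2 | h2
    · exact (min_le_left _ _).trans
        (neg_le_neg (mul_le_mul_of_nonneg_left (by exact_mod_cast h2) h0))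
    · exact (min_le_right _ _).trans
        (neg_le_neg (mul_le_mul_of_nonneg_left (by exact_mod_cast h2) h0))
  int κ _ := by simp [vI]

theorem isV_zero : IsV (fun _ : ℤ[X] => (0 : ℤ)) where
  mul _ _ _ _ := by simp
  add _ _ _ _ _ := by simp
  int _ _ := rfl

/-- The slab conditions in terms of valuations. -/
def ISlab {n : ℕ} (ϑ : ℕ) (g0 g1 : Fin n → ℤ) (Z : ℕ) (F : MvPolynomial (Fin n) ℤ[X]) : Prop :=
  (∀ r, Lb (fun _ => 0) (Pi.single r (-1)) (-Z) F) ∧ ∃ l0 l1 : ℤ,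
    Lb (vA ϑ 0) g0 l0 F ∧ Lb (vA ϑ 1) g1 l1 F ∧ Lb (vI ϑ) (-(g0 + g1)) (-(l0 + l1 + Z)) F

theorem dot_single {n : ℕ} (r : Fin n) (c : ℤ) (d : Fin n →₀ ℕ) :
    dot (Pi.single r c) d = c * d r := by
  simp [dot, Pi.single_apply]

theorem dot_neg_add {n : ℕ} (g0 g1 : Fin n → ℤ) (d : Fin n →₀ ℕ) :
    dot (-(g0 + g1)) d = -dot g0 d - dot g1 d := by
  simp only [dot, Pi.neg_apply, Pi.add_apply, neg_mul, add_mul, Finset.sum_neg_distrib,
    Finset.sum_add_distrib]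
  ring

theorem islab_of_zslab {n ϑ Z : ℕ} {g0 g1 : Fin n → ℤ} {F : MvPolynomial (Fin n) ℤ[X]}
    (h : ZSlab ϑ g0 g1 Z F) : ISlab ϑ g0 g1 Z F := by
  obtain ⟨l0, l1, h⟩ := h
  have h0 : (0 : ℤ) ≤ ϑ := Int.natCast_nonneg _
  refine ⟨fun r d hd => ?_, l0, l1, fun d hd => ?_, fun d hd => ?_, fun d hd => ?_⟩
  · have := (h d (MvPolynomial.mem_support_iff.2 hd)).1 r
    rw [dot_single]
    beta_reduce
    omega
  · obtain ⟨-, a, b, h1, -, h2, -⟩ := h d (MvPolynomial.mem_support_iff.2 hd)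
    have h3 : a ≤ (F.coeff d).rootMultiplicity 0 :=
      (le_rootMultiplicity_iff hd).2 (by simpa using h1)
    refine h2.trans (add_le_add_left ?_ _)
    exact mul_le_mul_of_nonneg_left (by exact_mod_cast h3) h0
  · obtain ⟨-, a, b, -, h1, -, h2, -⟩ := h d (MvPolynomial.mem_support_iff.2 hd)
    have h3 : b ≤ (F.coeff d).rootMultiplicity 1 := (le_rootMultiplicity_iff hd).2
      ((pow_dvd_pow_of_dvd ⟨-1, by simp⟩ b).trans h1)
    refine h2.trans (add_le_add_left ?_ _)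
    exact mul_le_mul_of_nonneg_left (by exact_mod_cast h3) h0
  · obtain ⟨-, a, b, -, -, -, -, h2⟩ := h d (MvPolynomial.mem_support_iff.2 hd)
    have h3 : dot (-(g0 + g1)) d = -∑ r, (g0 r + g1 r) * d r := by
      simp only [dot, Pi.neg_apply, Pi.add_apply, neg_mul, Finset.sum_neg_distrib]
    rw [vI, h3]
    omega

theorem cusp_split {f : ℤ[X]} (hf : f ≠ 0) : ∃ q : ℤ[X], q ≠ 0 ∧
    f = X ^ f.rootMultiplicity 0 * (X - 1) ^ f.rootMultiplicity 1 * q ∧
    f.natDegree = f.rootMultiplicity 0 + f.rootMultiplicity 1 + q.natDegree := by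
  have h0 : X ^ f.rootMultiplicity 0 ∣ f := by simpa using pow_rootMultiplicity_dvd f 0
  have h1 : (X - 1) ^ f.rootMultiplicity 1 ∣ f := by simpa using pow_rootMultiplicity_dvd f 1
  have hc : IsCoprime (X : ℤ[X]) (X - 1) := ⟨1, -1, by ring⟩
  obtain ⟨q, hq⟩ := hc.pow.mul_dvd h0 h1
  generalize f.rootMultiplicity 0 = a at hq ⊢
  generalize f.rootMultiplicity 1 = b at hq ⊢
  have hq0 : q ≠ 0 := fun h => hf (by rw [hq, h, mul_zero])
  refine ⟨q, hq0, hq, ?_⟩
  have h2 : (X - 1 : ℤ[X]).Monic := by simpa using monic_X_sub_C (1 : ℤ)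
  have h3 : (X - 1 : ℤ[X]).natDegree = 1 := by simpa using natDegree_X_sub_C (1 : ℤ)
  rw [hq, natDegree_mul (mul_ne_zero (pow_ne_zero _ X_ne_zero) (pow_ne_zero _ h2.ne_zero)) hq0,
    natDegree_mul (pow_ne_zero _ X_ne_zero) (pow_ne_zero _ h2.ne_zero), natDegree_X_pow,
    h2.natDegree_pow, h3, mul_one]

theorem cusp_sum (ϑ : ℕ) {f : ℤ[X]} (hf : f ≠ 0) : vA ϑ 0 f + vA ϑ 1 f + vI ϑ f ≤ 0 := by
  obtain ⟨q, -, -, h⟩ := cusp_split hf
  rw [vA, vA, vI, h]
  push_cast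
  have : (0 : ℤ) ≤ ϑ * (q.natDegree : ℤ) := by positivity
  linarith

theorem ztop {K : Type} [Field K] [CharZero K] {n ϑ Z D e : ℕ} {g0 g1 : Fin n → ℤ} {u : K}
    {α : Fin n → K} {F Q : MvPolynomial (Fin n) ℤ[X]} (hZ : 1 ≤ Z) (hF : F ≠ 0)
    (hS : ISlab ϑ g0 g1 Z F) (hG : ZGen ϑ D g0 g1) (hu0 : u ≠ 0) (hu1 : u ≠ 1)
    (hα : ∀ r, α r ≠ 0) (hQ : zev u α Q = 0) (hdvd : Q ^ e ∣ F) : e * D < Z := by
  classical
  obtain ⟨H, rfl⟩ := hdvd
  rcases Nat.eq_zero_or_pos e with rfl | he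
  · omega
  have hH : H ≠ 0 := right_ne_zero_of_mul hF
  have hQ0 : Q ≠ 0 := fun h => hF (by rw [h, zero_pow he.ne', zero_mul])
  obtain ⟨a, ha⟩ := MvPolynomial.ne_zero_iff.1 hQ0
  obtain ⟨b, hb⟩ := MvPolynomial.ne_zero_iff.1 hH
  by_contra hc
  have hZD : (Z : ℤ) ≤ e * D := by exact_mod_cast not_lt.1 hc
  have he' : (0 : ℤ) < e := by exact_mod_cast he
  obtain ⟨hB, l0, l1, hL0, hL1, hL2⟩ := hS
  have key : ∀ x y z : Fin n →₀ ℕ, Q.coeff x ≠ 0 → Q.coeff y ≠ 0 → Q.coeff z ≠ 0 →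
      -(D : ℤ) ≤ (vA ϑ 0 (Q.coeff x) + dot g0 x) + (vA ϑ 1 (Q.coeff y) + dot g1 y) +
        (vI ϑ (Q.coeff z) + dot (-(g0 + g1)) z) := by
    intro x y z hx hy hz
    have h0 := lb_pow (isV_vA ϑ 0) hL0 hx hb
    have h1 := lb_pow (isV_vA ϑ 1) hL1 hy hb
    have h2 := lb_pow (isV_vI ϑ) hL2 hz hb
    have h3 := cusp_sum ϑ hb
    have h4 := dot_neg_add g0 g1 b
    refine le_of_mul_le_mul_left ?_ he'
    linarith
  have box : ∀ (r : Fin n) (x y : Fin n →₀ ℕ), Q.coeff x ≠ 0 → Q.coeff y ≠ 0 →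
      (x r : ℤ) - y r ≤ D := by
    intro r x y hx _
    have h0 := lb_pow isV_zero (hB r) hx hb
    rw [dot_single, dot_single] at h0
    have h1 : (0 : ℤ) ≤ b r := Int.natCast_nonneg _
    have h2 : (0 : ℤ) ≤ y r := Int.natCast_nonneg _
    have h3 : (x r : ℤ) ≤ D := le_of_mul_le_mul_left (by linarith) he'
    linarith
  have hone : ∀ x, Q.coeff x ≠ 0 → x = a := by
    intro x hx
    by_contra hne
    have e1 := cusp_sum ϑ ha
    have e2 := cusp_sum ϑ hx
    have e3 := dot_neg_add g0 g1 a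
    have e4 := dot_neg_add g0 g1 x
    have hd : ∀ g : Fin n → ℤ, ∑ r, g r * ((x r : ℤ) - a r) = dot g x - dot g a := fun g => by
      simp only [dot, mul_sub, Finset.sum_sub_distrib]
    rcases hG.2 (fun r => (x r : ℤ) - a r) (fun h0 => hne (Finsupp.ext fun r => by
        have := congrFun h0 r
        simp only [Pi.zero_apply] at this
        omega)) (fun r => abs_sub_le_iff.2 ⟨box r x a hx ha, box r a x ha hx⟩) with h | h
    · have h1 := h (((Q.coeff x).rootMultiplicity 0 : ℤ) - (Q.coeff a).rootMultiplicity 0)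
      have h2 := key x a a hx ha ha
      have h3 := key a x x ha hx hx
      rw [hd, mul_sub] at h1
      refine absurd (abs_le.2 ⟨?_, ?_⟩) (not_le.2 h1)
      · simp only [vA] at *; linarith
      · simp only [vA] at *; linarith
    · have h1 := h (((Q.coeff x).rootMultiplicity 1 : ℤ) - (Q.coeff a).rootMultiplicity 1)
      have h2 := key a x a ha hx ha
      have h3 := key x a x hx ha hx
      rw [hd, mul_sub] at h1
      refine absurd (abs_le.2 ⟨?_, ?_⟩) (not_le.2 h1)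
      · simp only [vA] at *; linarith
      · simp only [vA] at *; linarith
  have h1 : Q = MvPolynomial.monomial a (Q.coeff a) := by
    have hs : Q.support = {a} := Finset.eq_singleton_iff_unique_mem.2
      ⟨MvPolynomial.mem_support_iff.2 ha, fun x hx => hone x (MvPolynomial.mem_support_iff.1 hx)⟩
    conv_lhs => rw [Q.as_sum, hs, Finset.sum_singleton]
  obtain ⟨q, hq0, hq, hdeg⟩ := cusp_split ha
  have h2 := key a a a ha ha ha
  rw [dot_neg_add, vA, vA, vI, hdeg] at h2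
  have h3 : q.natDegree = 0 := by
    by_contra h4
    have h5 : (ϑ : ℤ) * 1 ≤ ϑ * (q.natDegree : ℤ) :=
      mul_le_mul_of_nonneg_left (by omega) (Int.natCast_nonneg _)
    have h6 : (D : ℤ) < ϑ := by exact_mod_cast hG.1
    push_cast at h2
    linarith
  rw [h1, zev, MvPolynomial.eval₂Hom_monomial, hq, eq_C_of_natDegree_eq_zero h3] at hQ
  refine mul_ne_zero ?_ ?_ hQ
  · have h4 : q.coeff 0 ≠ 0 := fun h => hq0 (by rw [eq_C_of_natDegree_eq_zero h3, h, map_zero])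
    rw [map_mul, map_mul, map_pow, map_pow, map_sub, map_one, coe_eval₂RingHom, eval₂_X, eval₂_C]
    exact mul_ne_zero (mul_ne_zero (pow_ne_zero _ hu0) (pow_ne_zero _ (sub_ne_zero.2 hu1)))
      (by simpa using h4)
  · exact Finset.prod_ne_zero_iff.2 fun r _ => pow_ne_zero _ (hα r)

end Pool.Agent.P.MP_7aad9f_nt.Sz
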