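import Pool.Agent.P.MP_7aad9f_nt.Sz.ZGreedy
import Pool.Agent.P.MP_7aad9f_nt.Sz.ZTop
import Pool.Agent.P.MP_7aad9f_nt.Sz.ZSize
import Pool.Agent.P.MP_7aad9f_nt.SubTRI
import Pool.Agent.P.MP_7aad9f_nt.SubZL

/-! The arithmetic zero lemma with three cusps. -/

set_option autoImplicit false

open Polynomial

namespace Pool.Agent.P.MP_7aad9f_nt.Sz

open _root_.Pool.Agent.P.MP_7aad9f_nt.Sub

theorem zgen_mono {n ϑ D D' : ℕ} {g0 g1 : Fin n → ℤ} (h : ZGen ϑ D g0 g1) (hD : D' ≤ D) :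
    ZGen ϑ D' g0 g1 := by
  have h1 : (D' : ℤ) ≤ D := by exact_mod_cast hD
  refine ⟨lt_of_le_of_lt hD h.1, fun c hc hb => ?_⟩
  exact (h.2 c hc fun r => (hb r).trans h1).imp (fun h2 t => lt_of_le_of_lt h1 (h2 t))
    fun h2 t => lt_of_le_of_lt h1 (h2 t)

theorem zgen_tail {n ϑ D : ℕ} {g0 g1 : Fin (n + 1) → ℤ} (h : ZGen ϑ D g0 g1) :
    ZGen ϑ D (Fin.tail g0) (Fin.tail g1) := by
  refine ⟨h.1, fun c hc hb => ?_⟩
  have := h.2 (Fin.cons 0 c) (by
    intro h0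
    apply hc
    funext r
    have := congrFun h0 r.succ
    simpa using this) (by
    intro r
    refine Fin.cases ?_ (fun r => ?_) r
    · simp
    · simpa using hb r)
  simpa [Fin.sum_univ_succ, Fin.tail] using this

theorem zelim {K : Type} [Field K] [CharZero K] {n : ℕ} (u : K) (α : Fin (n + 1) → K) (ϑ : ℕ)
    (g0 g1 : Fin (n + 1) → ℤ) (Z D m m' : ℕ) (F : MvPolynomial (Fin (n + 1)) ℤ[X])
    (hu0 : u ≠ 0) (hu1 : u ≠ 1) (hα : ∀ r, α r ≠ 0) (hG : ZGen ϑ D g0 g1) (hZ : 1 ≤ Z)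
    (hF : F ≠ 0) (hS : ISlab ϑ g0 g1 Z F) (hm : ∀ e : ℕ, e * D < Z → m' + e ≤ m)
    (hO : ZOrd u α ϑ m F) :
    ∃ (N : ℕ) (R : MvPolynomial (Fin n) ℤ[X]), 0 < N ∧ N ≤ 2 * Z + 1 ∧ R ≠ 0 ∧
      ISlab ϑ (Fin.tail g0) (Fin.tail g1) (N * Z) R ∧
      znrm R ≤ N.factorial * (8 ^ Z * znrm F) ^ N ∧
      ZOrd u (Fin.tail α) ϑ (∑ c : Fin N, (m' - c)) R := by
  classical
  set E := MvPolynomial.finSuccEquiv ℤ[X] n with hE
  set P := E F with hP
  have hFP : E.symm P = F := by simp [hP]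
  have hP0 : P ≠ 0 := by
    intro h
    apply hF
    rw [← hFP, h, map_zero]
  have hϑ : 0 < ϑ := lt_of_le_of_lt (Nat.zero_le _) hG.1
  let ev : (MvPolynomial (Fin n) ℤ[X])[X] →+* K := (zev u α).comp (E.symm : _ →+* _)
  have hev : ∀ Q, ev Q = zev u α (E.symm Q) := fun Q => rfl
  have hXs : E.symm X = MvPolynomial.X 0 := by
    rw [AlgEquiv.symm_apply_eq, hE, MvPolynomial.finSuccEquiv_X_zero]
  have hevX : ev X ≠ 0 := by
    rw [hev, hXs]
    simpa [zev] using hα 0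
  have hdeg : P.natDegree ≤ Z := by
    rw [hP, hE, MvPolynomial.natDegree_finSuccEquiv, MvPolynomial.degreeOf_le_iff]
    intro d hd
    have := hS.1 0 d (MvPolynomial.mem_support_iff.1 hd)
    rw [dot_single] at this
    beta_reduce at this
    omega
  have hm0 : m' ≤ m := by simpa using hm 0 (by omega)
  obtain ⟨F₂, hspan, hcoef, hcop⟩ := zgreedy P ev (m - m' + 1) hP0 hevX (by
    intro Q _ _ hQ0 e he
    have h1 : (E.symm Q) ^ e ∣ F := by
      rw [← hFP, ← map_pow]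
      exact map_dvd _ he
    have := hm e (ztop hZ hF hS hG hu0 hu1 hα hQ0 h1)
    omega)
  have hO1 : ZOrd u α ϑ m' (E.symm P) := by
    rw [hFP]; exact zord_mono hO hm0
  have hO2 : ZOrd u α ϑ m' (E.symm F₂) := by
    clear hcoef hcop
    induction hspan using Submodule.span_induction with
    | mem x hx =>
      obtain ⟨e, he, rfl⟩ := hx
      rw [map_mul]
      refine zord_mul _ (zord_mono ((zord1 u α ϑ m P (hFP ▸ hO)).1 e) (by omega))
    | zero => intro b0 b; simp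
    | add x y _ _ hx hy =>
      intro b0 b
      rw [map_add, map_add]
      exact dvd_add (hx b0 b) (hy b0 b)
    | smul a x _ hx =>
      intro b0 b
      rw [map_zsmul, map_zsmul, zsmul_eq_mul]
      exact (hx b0 b).mul_left _
  have hdeg2 : F₂.natDegree ≤ Z := by
    rw [natDegree_le_iff_coeff_eq_zero]
    intro i hi
    obtain ⟨κ, -, hκ⟩ := hcoef i
    rw [hκ, coeff_eq_zero_of_natDegree_lt (lt_of_le_of_lt hdeg hi), smul_zero]
  obtain ⟨N, G, q, r, hN0, hN, hG0, hqd, hq, hdet⟩ := zsylv P F₂ ev hP0 hcop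
  have hGne : G ≠ 0 := by
    intro h
    apply hG0
    rw [h, map_zero]
  obtain ⟨hT1, -⟩ := tri _ N q hqd
  have hqO : ∀ ρ, ZOrd u α ϑ m' (E.symm (q ρ)) := by
    intro ρ
    refine zord2 u α m' hϑ (E.symm G) _ hG0 ?_
    rw [← map_mul]
    rcases hq ρ with h | h
    · rw [h, map_mul]; exact zord_mul _ hO1
    · rw [h, map_mul]; exact zord_mul _ hO2
  have h8 : (8 : ℤ) ^ P.natDegree ≤ ((8 ^ Z : ℕ) : ℤ) := by
    push_cast
    exact pow_le_pow_right₀ (by norm_num) hdeg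
  set M : Matrix (Fin N) (Fin N) (MvPolynomial (Fin n) ℤ[X]) :=
    Matrix.of fun (ρ c : Fin N) => (G * q ρ).coeff (c + G.natDegree) with hM
  have hent : ∀ ρ c, M ρ c = 0 ∨ ∃ (κ : ℤ) (i : ℕ), |κ| ≤ ((8 ^ Z : ℕ) : ℤ) ∧
      i + r ρ = c + G.natDegree ∧ M ρ c = κ • P.coeff i := by
    intro ρ c
    by_cases hle : r ρ ≤ c + G.natDegree
    · right
      rcases hq ρ with h | h
      · refine ⟨1, c + G.natDegree - r ρ, ?_, by omega, ?_⟩
        · have : (1 : ℤ) ≤ 8 ^ P.natDegree := one_le_pow₀ (by norm_num)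
          simpa using this.trans h8
        · rw [hM, Matrix.of_apply, h, coeff_X_pow_mul', if_pos hle, one_smul]
      · obtain ⟨κ, hκ, hκ'⟩ := hcoef (c + G.natDegree - r ρ)
        refine ⟨κ, c + G.natDegree - r ρ, hκ.trans h8, by omega, ?_⟩
        rw [hM, Matrix.of_apply, h, coeff_X_pow_mul', if_pos hle, hκ']
    · left
      rcases hq ρ with h | h
      · rw [hM, Matrix.of_apply, h, coeff_X_pow_mul', if_neg hle]
      · rw [hM, Matrix.of_apply, h, coeff_X_pow_mul', if_neg hle]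
  have hent1 : ∀ ρ c, M ρ c = 0 ∨ ∃ (κ : ℤ) (i : ℕ), i + r ρ = c + G.natDegree ∧
      M ρ c = κ • P.coeff i := fun ρ c =>
    (hent ρ c).imp_right fun ⟨κ, i, _, h1, h2⟩ => ⟨κ, i, h1, h2⟩
  have hn' := znrm_det F M fun ρ c => (hent ρ c).imp_right fun ⟨κ, i, h0, _, h2⟩ => ⟨κ, i, h0, h2⟩
  have hS' : ISlab ϑ (Fin.tail g0) (Fin.tail g1) (N * Z) M.det := by
    obtain ⟨hB, l0, l1, h0, h1, h2⟩ := hS
    refine ⟨fun s => ?_, _, _, lb_det (isV_vA ϑ 0) h0 r M hent1,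
      lb_det (isV_vA ϑ 1) h1 r M hent1, ?_⟩
    · have h3 := lb_det isV_zero (hB s.succ) r M hent1
      have h4 : Fin.tail (Pi.single s.succ (-1) : Fin (n + 1) → ℤ) = Pi.single s (-1) := by
        funext t
        simp [Fin.tail, Pi.single_apply]
      rw [h4, Pi.single_eq_of_ne (Fin.succ_ne_zero s).symm] at h3
      convert h3 using 1
      push_cast
      ring
    · have h3 := lb_det (isV_vI ϑ) h2 r M hent1
      have h4 : Fin.tail (-(g0 + g1)) = -(Fin.tail g0 + Fin.tail g1) := rfl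
      rw [h4, Pi.neg_apply, Pi.add_apply] at h3
      convert h3 using 1
      push_cast
      ring
  refine ⟨N, M.det, hN0, by omega, ?_, hS', hn', ?_⟩
  · rw [hT1 G]
    exact mul_ne_zero (pow_ne_zero _ (leadingCoeff_ne_zero.mpr hGne)) hdet
  · rw [hT1 G]
    refine zord_mul _ ?_
    intro b0 b
    set φ := zsb u (Fin.tail α) ϑ b0 b with hφ
    have h1 : φ (Matrix.of fun (ρ c : Fin N) => (q ρ).coeff c).det =
        (Matrix.of fun (ρ c : Fin N) => ((q ρ).map φ).coeff c).det := by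
      rw [RingHom.map_det]
      congr 1
      ext ρ c : 2
      simp [coeff_map]
    rw [h1, ← (tri _ N (fun ρ => (q ρ).map φ)
      (fun ρ => lt_of_le_of_lt natDegree_map_le (hqd ρ))).2 (C (α 0)),
      ← Finset.prod_pow_eq_pow_sum]
    refine zl_det_dvd _ _ fun ρ c => ?_
    exact (zord1 u α ϑ m' (q ρ) (hqO ρ)).2 b0 b c

theorem zl_aux (k : ℕ) : ∀ ε C : ℝ, 0 < ε → ε ≤ 1 → 0 ≤ C → ∃ (D : ℕ) (μ0 : ℝ),
    ∀ (K : Type) [Field K] [CharZero K] (u : K) (α : Fin k → K) (ϑ : ℕ) (g0 g1 : Fin k → ℤ)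
      (L : ℝ) (Z m : ℕ) (F : MvPolynomial (Fin k) ℤ[X]),
      u ≠ 0 → u ≠ 1 → (∀ r, α r ≠ 0) → ZGen ϑ D g0 g1 → Big u L → μ0 * ϑ ≤ L → 1 ≤ Z → F ≠ 0 →
      ISlab ϑ g0 g1 Z F → (znrm F : ℝ) ≤ Real.exp (C * Z) → ε * Z ≤ m → ZOrd u α ϑ m F →
      False := by
  induction k with
  | zero =>
    intro ε C hε _ hC
    refine ⟨0, C / ε + 1, ?_⟩
    intro K _ _ u α ϑ g0 g1 L Z m F _ _ _ hG hB hμ hZ hF _ hn hm hO
    obtain ⟨f, rfl⟩ := MvPolynomial.C_surjective (Fin 0) F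
    have hf : f ≠ 0 := fun h => hF (by rw [h, map_zero])
    obtain ⟨e, he1, he2⟩ := zbase u α m hG.1 f hf hO
    have hn1 : znrm (MvPolynomial.C f : MvPolynomial (Fin 0) ℤ[X]) = nrm1 f := znrm_monomial 0 f
    rw [hn1] at hn
    have hZ' : (1 : ℝ) ≤ Z := by exact_mod_cast hZ
    have h1 : (e : ℝ) * L ≤ C * Z := by
      refine (hB f e hf he2).trans ?_
      rcases Nat.eq_zero_or_pos (nrm1 f) with h | h
      · rw [h, Nat.cast_zero, Real.log_zero]
        positivity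
      · rwa [Real.log_le_iff_le_exp (by exact_mod_cast h)]
    have h2 : (m : ℝ) ≤ e * ϑ := by exact_mod_cast he1
    have h3 : (0 : ℝ) ≤ C / ε + 1 := by positivity
    have h4 : (C / ε + 1) * (ε * Z) ≤ C * Z := by
      calc (C / ε + 1) * (ε * Z) ≤ (C / ε + 1) * (e * ϑ) :=
            mul_le_mul_of_nonneg_left (hm.trans h2) h3
        _ = e * ((C / ε + 1) * ϑ) := by ring
        _ ≤ e * L := by gcongr
        _ ≤ C * Z := h1
    have h5 : (C / ε + 1) * (ε * Z) = C * Z + ε * Z := by field_simp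
    nlinarith [mul_pos hε (lt_of_lt_of_le one_pos hZ')]
  | succ k ih =>
    intro ε C hε hε1 hC
    obtain ⟨D', μ0, H⟩ := ih (ε ^ 2 / 24) (C + 6) (by positivity) (by nlinarith) (by positivity)
    refine ⟨max D' ⌈2 / ε⌉₊, μ0, ?_⟩
    intro K _ _ u α ϑ g0 g1 L Z m F hu0 hu1 hα hG hB hμ hZ hF hS hn hm hO
    have hZ' : (1 : ℝ) ≤ Z := by exact_mod_cast hZ
    set m' := ⌈ε * Z / 2⌉₊ with hm'
    have hm'1 : ε * Z / 2 ≤ m' := Nat.le_ceil _
    have hm'2 : m' ≤ Z := by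
      rw [hm', Nat.ceil_le]
      nlinarith
    obtain ⟨N, R, hN0, hN, hR, hS', hn', hO'⟩ := zelim u α ϑ g0 g1 Z (max D' ⌈2 / ε⌉₊) m m' F
      hu0 hu1 hα hG hZ hF hS (by
        intro e he
        have h1 : (e : ℝ) * (2 / ε) < Z := by
          have h2 : (2 / ε : ℝ) ≤ ((max D' ⌈2 / ε⌉₊ : ℕ) : ℝ) :=
            (Nat.le_ceil _).trans (by exact_mod_cast le_max_right _ _)
          have h3 : (e : ℝ) * ((max D' ⌈2 / ε⌉₊ : ℕ) : ℝ) < Z := by exact_mod_cast he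
          exact lt_of_le_of_lt (by gcongr) h3
        have h4 : (e : ℝ) < ε * Z / 2 := by
          rw [← mul_div_assoc, div_lt_iff₀ hε] at h1
          linarith
        have h5 : (e : ℝ) ≤ m := by linarith [mul_nonneg hε.le (le_trans zero_le_one hZ')]
        have h6 : e ≤ m := by exact_mod_cast h5
        have h7 : m' ≤ m - e := by
          rw [hm', Nat.ceil_le, Nat.cast_sub h6]
          linarith
        omega) hO
    have hN' : (N : ℝ) ≤ 3 * Z := by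
      have : N ≤ 3 * Z := by omega
      exact_mod_cast this
    have hN1 : (1 : ℝ) ≤ N := by exact_mod_cast hN0
    refine H K u (Fin.tail α) ϑ (Fin.tail g0) (Fin.tail g1) L (N * Z) _ R hu0 hu1 (fun r => hα _)
      (zgen_tail (zgen_mono hG (le_max_left _ _))) hB hμ (Nat.mul_pos hN0 hZ) hR hS' ?_ ?_ hO'
    · have h1 : (znrm R : ℝ) ≤ (N.factorial : ℝ) * (8 ^ Z * znrm F) ^ N := by
        exact_mod_cast hn'
      have h2 : (N.factorial : ℝ) ≤ Real.exp (3 * Z) ^ N := by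
        have h3 : (N.factorial : ℝ) ≤ (N : ℝ) ^ N := by exact_mod_cast Nat.factorial_le_pow N
        refine h3.trans (pow_le_pow_left₀ (by positivity) ?_ _)
        linarith [Real.add_one_le_exp (3 * (Z : ℝ))]
      have h4 : (8 : ℝ) ^ Z ≤ Real.exp (3 * Z) := by
        rw [mul_comm, Real.exp_nat_mul]
        refine pow_le_pow_left₀ (by norm_num) ?_ _
        have h5 : (2 : ℝ) ≤ Real.exp 1 := by linarith [Real.add_one_le_exp (1 : ℝ)]
        have h6 : Real.exp 3 = Real.exp 1 ^ 3 := by rw [← Real.exp_nat_mul]; norm_num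
        rw [h6]
        calc (8 : ℝ) = 2 ^ 3 := by norm_num
          _ ≤ _ := by gcongr
      calc (znrm R : ℝ) ≤ (N.factorial : ℝ) * (8 ^ Z * znrm F) ^ N := h1
        _ ≤ Real.exp (3 * Z) ^ N * (Real.exp (3 * Z) * Real.exp (C * Z)) ^ N := by gcongr
        _ = Real.exp ((C + 6) * ((N * Z : ℕ) : ℝ)) := by
          rw [← mul_pow, ← Real.exp_add, ← Real.exp_add, ← Real.exp_nat_mul]
          congr 1
          push_cast
          ring
    · have h1 : ((min N m' : ℕ) : ℝ) * m' ≤ 2 * ((∑ c : Fin N, (m' - c) : ℕ) : ℝ) := by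
        exact_mod_cast zl_sum_lb N m'
      have hm'3 : (m' : ℝ) ≤ Z := by exact_mod_cast hm'2
      have hm'0 : (0 : ℝ) ≤ m' := by positivity
      have h2 : (N : ℝ) * m' ≤ 3 * Z * ((min N m' : ℕ) : ℝ) := by
        rcases le_total N m' with h | h
        · rw [min_eq_left h]; nlinarith
        · rw [min_eq_right h]; nlinarith
      have h3 : (N : ℝ) * (ε * Z / 2) ^ 2 ≤ N * (m' : ℝ) ^ 2 := by gcongr
      have h4 : (N : ℝ) * (m' : ℝ) ^ 2 ≤ 6 * Z * ((∑ c : Fin N, (m' - c) : ℕ) : ℝ) := by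
        calc (N : ℝ) * (m' : ℝ) ^ 2 = (N * m') * m' := by ring
          _ ≤ (3 * Z * ((min N m' : ℕ) : ℝ)) * m' := by gcongr
          _ = 3 * Z * (((min N m' : ℕ) : ℝ) * m') := by ring
          _ ≤ 3 * Z * (2 * ((∑ c : Fin N, (m' - c) : ℕ) : ℝ)) := by gcongr
          _ = _ := by ring
      have h5 : Z * (ε ^ 2 / 24 * ((N * Z : ℕ) : ℝ)) ≤ Z * ((∑ c : Fin N, (m' - c) : ℕ) : ℝ) := by
        push_cast at h4 ⊢
        nlinarith
      exact le_of_mul_le_mul_left h5 (by linarith)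

theorem zl : S_ZL := by
  intro n ε C hε hε1 hC
  obtain ⟨D, μ0, H⟩ := zl_aux n ε C hε hε1 hC
  exact ⟨D, μ0, fun K _ _ u α ϑ g0 g1 L Z m F h1 h2 h3 h4 h5 h6 h7 h8 h9 =>
    H K u α ϑ g0 g1 L Z m F h1 h2 h3 h4 h5 h6 h7 h8 (islab_of_zslab h9)⟩

end Pool.Agent.P.MP_7aad9f_nt.Sz
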