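import Pool.Agent.P.MP_7aad9f_nt.SubGENSEL
import Pool.Agent.P.MP_7aad9f_nt.SubARITH
import Pool.Agent.P.MP_7aad9f_nt.Sz.ZL
import Pool.Agent.P.MP_7aad9f_nt.Sz.A1
import Pool.Agent.P.MP_7aad9f_nt.Sz.A2
import Pool.Agent.P.MP_7aad9f_nt.Sz.B1
import Pool.Agent.P.MP_7aad9f_nt.Sz.B2
import Pool.Agent.P.MP_7aad9f_nt.Sz.B3
import Pool.Agent.P.MP_7aad9f_nt.Sz.C1
import Pool.Agent.P.MP_7aad9f_nt.Sz.D1
import Pool.Agent.P.MP_7aad9f_nt.Sz.D2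
import Pool.Agent.P.MP_7aad9f_nt.Sz.D3
import Pool.Agent.P.MP_7aad9f_nt.Sz.M1

/-! Assembly. -/

set_option autoImplicit false

namespace Pool.Agent.P.MP_7aad9f_nt.Sz

theorem cfg_final : S_CFG := p_CFG p_PF p_SETA p_SETB p_LOC p_ARCH (p_HTB p_HTA)

theorem hit_final : S_HIT :=
  p_HIT (p_GOOD p_LB p_CNT) (p_FIB p_MULTF p_PLANE) (p_TSUM (p_CNTG p_CNT) p_MULTF p_MULTA)
    p_MULTF p_MULTA

theorem core_final : S_CORE :=
  p_CORE (p_SIEGEL (p_SIEA p_COUNT) p_SPAN) p_LOCAL (p_ZLM zl)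

theorem bal_final : S_BAL := p_BAL p_EVA p_EVP

theorem mainc_final : S_MAINC :=
  p_MAINC hit_final (p_LAM1 p_EVA p_EVP bal_final) (p_LAM2 p_EVA p_EVP bal_final)
    (p_ANCH p_EVA p_EVP) p_EVA bal_final p_MULTF p_MULTA p_ARITH p_PIG core_final
    Sub.gensel Sub.omega_

theorem final : S_FINAL := p_FINAL cfg_final mainc_final

end Pool.Agent.P.MP_7aad9f_nt.Sz
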