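import Pool.Agent.P.MP_7aad9f_nt.Sz.Defs

/-! Interface of the project.  Every `S_*` is proved in its own file. -/

set_option autoImplicit false

open Polynomial

namespace Pool.Agent.P.MP_7aad9f_nt.Sz

open Pool.Agent.P.MP_7aad9f_nt.Sub (Gen S_GENSEL S_OMEGA)

/-! ### A. The configuration -/

-- deps:
def S_PF : Prop :=
  ∀ (x y : ℤ) (S : Finset ℕ), (∀ p ∈ S, p.Prime) →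
    ∃ (K : Type) (_ : Field K) (_ : CharZero K) (e : Fin 3 → K) (Pl : Places K S),
      Vieta x y e ∧ ∀ s, e s ∈ Pl.O

-- deps:
def S_SETA : Prop :=
  ∀ x y : ℤ, x ^ 3 ≠ y ^ 2 → ∃ c : ℤ, ∀ p ∈ (x ^ 3 - y ^ 2).natAbs.primeFactors,
    ((p : ℤ) ∣ x → (p : ℤ) ∣ c) ∧ (¬ (p : ℤ) ∣ x → ¬ (p : ℤ) ∣ c ∧
      (p : ℤ) ^ (x ^ 3 - y ^ 2).natAbs.factorization p ∣ c ^ 2 - x ∧
      (p : ℤ) ^ (x ^ 3 - y ^ 2).natAbs.factorization p ∣ c ^ 3 + y)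

-- deps:
def S_SETB : Prop :=
  ∀ x y k : ℤ, k = x ^ 3 - y ^ 2 → k ≠ 0 → Prim x y →
    (∀ p ∈ k.natAbs.primeFactors, (p : ℤ) ∣ x → k.natAbs.factorization p ≤ 4) ∧
    Real.log |(k : ℝ)| ≤ 4 * ∑ p ∈ k.natAbs.primeFactors, Real.log p +
      ∑ p ∈ k.natAbs.primeFactors, nf x k p * Real.log p ∧
    |(k : ℝ)| ≤ 6 ^ 5 * Df x k * (mrf x y k : ℝ) ^ 2 ∧ (mrf x y k : ℝ) ^ 2 ≤ |(k : ℝ)|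

-- deps:
def S_LOC : Prop :=
  ∀ (K : Type) [Field K] (w : AbsoluteValue K ℝ) (p : ℕ) (x y c : ℤ) (N n r mr : ℕ)
    (e : Fin 3 → K), p.Prime → IsNonarchimedean w → w (p : K) = (p : ℝ)⁻¹ →
    (∀ a : ℤ, ¬ (p : ℤ) ∣ a → w (a : K) = 1) → Vieta x y e → (p : ℝ) ^ r * w (mr : K) = 1 →
    ((¬ (p : ℤ) ∣ c ∧ (p : ℤ) ^ N ∣ c ^ 2 - x ∧ (p : ℤ) ^ N ∣ c ^ 3 + y ∧ 2 * r ≤ n ∧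
        (n = 0 ∨ n + 4 ≤ N ∨ (5 ≤ p ∧ n ≤ N))) ∨
      ((p : ℤ) ∣ x ∧ (p : ℤ) ∣ c ∧ n = 0 ∧ (r = 0 ∨ (r = 1 ∧ (p : ℤ) ^ 2 ∣ y)))) →
    ∃ σ, LocP w e c mr (Real.exp (-(n * Real.log p / 2))) σ

-- deps:
def S_ARCH : Prop :=
  ∀ x y : ℤ, x ^ 3 ≠ y ^ 2 → ∃ es τ sg : ℝ, 0 < τ ∧ (sg = 1 ∨ sg = -1) ∧
    3 * (x : ℝ) = sg * τ ^ 2 + 3 * es ^ 2 / 4 ∧ 2 * (y : ℝ) = es * (es ^ 2 / 4 - sg * τ ^ 2) ∧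
    Mf es τ ^ 2 / 9 ≤ |9 * es ^ 2 / 4 - sg * τ ^ 2| ∧
    ∀ a : Fin 3 → ℂ, Vieta x y a → ∃ (σ : Fin 3) (ι : ℂ), ‖ι‖ = 1 ∧ ι ^ 2 = (sg : ℂ) ∧
      a σ = (es : ℂ) ∧ a (σ + 1) = -(es : ℂ) / 2 + ι * τ ∧ a (σ + 2) = -(es : ℂ) / 2 - ι * τ

-- deps:
def S_HTA : Prop :=
  ∀ (K : Type) [Field K] [CharZero K] (S : Finset ℕ) (Pl : Places K S) (a b : K) (A Cc : ℝ)
    (B : ℕ → ℝ), b ≠ 0 → 0 < A → 0 < Cc → (∀ p ∈ S, 0 < B p) →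
    (∀ i, A ≤ max ‖Pl.φ i a‖ ‖Pl.φ i b‖) → (∀ p ∈ S, ∀ i, B p ≤ max (Pl.W p i a) (Pl.W p i b)) →
    (∏ i, ‖Pl.φ i b‖) * ∏ p ∈ S, ∏ i, Pl.W p i b ≤ Cc ^ Pl.d →
    Big (a / b) (Real.log A + ∑ p ∈ S, Real.log (B p) - Real.log Cc)

-- deps: HTA
def S_HTB : Prop :=
  ∀ (K : Type) [Field K] [CharZero K] (x y : ℤ) (S : Finset ℕ) (Pl : Places K S) (e : Fin 3 → K)
    (M : ℝ), x ^ 3 ≠ y ^ 2 → S = (x ^ 3 - y ^ 2).natAbs.primeFactors → Vieta x y e →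
    (∀ s, e s ∈ Pl.O) → (∀ p ∈ S, (p : ℤ) ∣ x → (x ^ 3 - y ^ 2).natAbs.factorization p ≤ 4) →
    0 < M → (∀ i, ∃ s, M / 3 ≤ ‖Pl.φ i (dl e s)‖) →
    Big (-(dl e 0 / dl e 2)) (Real.log M - (2 * ∑ p ∈ S, Real.log p + 20))

-- deps: PF SETA SETB LOC ARCH HTB
def S_CFG : Prop :=
  ∀ x y : ℤ, x ^ 3 ≠ y ^ 2 → Prim x y →
    ∃ (K : Type) (_ : Field K) (_ : CharZero K) (C : Cfg K),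
      C.S = (x ^ 3 - y ^ 2).natAbs.primeFactors ∧ C.η = 2 * C.L + 20 ∧
      C.V ≤ 500 * √(Df x (x ^ 3 - y ^ 2)) ∧
      Real.log (max (|(x : ℝ)| ^ 3) ((y : ℝ) ^ 2)) ≤ 6 * C.H

/-! ### B. Geometry of numbers -/

-- deps:
def S_LB : Prop :=
  ∀ (T : Matrix (Fin 3) (Fin 3) ℝ) (B : ℝ), T.det ≠ 0 → 0 < B →
    ∃ P : Finset (Fin 3 → ℤ), (∀ n ∈ P, ‖Yv T n‖ ≤ B) ∧ B ^ 3 ≤ |T.det| * P.card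

-- deps:
def S_CNT : Prop :=
  ∀ (P : Finset (Fin 3 → ℝ)) (t l1 l2 V : ℝ), 0 < l1 → 0 < l2 → 0 < V → 0 ≤ t →
    (∀ a ∈ P, ‖a‖ ≤ t) → (∀ a ∈ P, ∀ b ∈ P, a ≠ b → l1 ≤ ‖a - b‖) →
    (∀ a ∈ P, ∀ b ∈ P, ∀ a' ∈ P, ∀ b' ∈ P, crossProduct (a - b) (a' - b') ≠ 0 →
      l2 ≤ ‖crossProduct (a - b) (a' - b')‖) →
    (∀ a ∈ P, ∀ b ∈ P, ∀ a' ∈ P, ∀ b' ∈ P, ∀ a'' ∈ P, ∀ b'' ∈ P,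
      Matrix.det (Matrix.of ![a - b, a' - b', a'' - b'']) ≠ 0 →
        V ≤ |Matrix.det (Matrix.of ![a - b, a' - b', a'' - b''])|) →
    (P.card : ℝ) ≤ 192 * t ^ 3 / V + 16 * t ^ 2 / l2 + 2 * t / l1 + 1

-- deps:
def S_MULTF : Prop :=
  ∀ m : ℕ, 0 < m → (FH m).card ≤ 2 ^ m.primeFactors.card * m ∧
    (∀ ρ ∈ FH m, ∀ D : ℤ, (m : ℤ) ∣ ρ.1 * D → (m : ℤ) ∣ ρ.2 * D → (m : ℤ) ∣ D) ∧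
    ∀ u γ : ℤ, (∃ ρ ∈ FH m, (m : ℤ) ∣ ρ.1 * γ - ρ.2 * u) ∧
      ((FH m).filter fun ρ => (m : ℤ) ∣ ρ.1 * γ - ρ.2 * u).card ≤
        2 ^ m.primeFactors.card * Nat.gcd (Int.gcd u γ) m

-- deps:
def S_MULTA : Prop :=
  ∀ I : ℕ, 1 ≤ I → (AH I).card ≤ 6 * I ∧ ∀ t Y1 Y2 : ℝ, |Y1| ≤ t → |Y2| ≤ t →
    (∃ a ∈ AH I, |a.1 * Y2 - a.2 * Y1| ≤ t) ∧
    ∃ i : ℕ, 2 ^ i ≤ I ∧ 2 ^ i * |Y1| ≤ t ∧ 2 ^ i * |Y2| ≤ t ∧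
      ∀ A : Finset (ℤ × ℤ), A ⊆ AH I → (∀ a ∈ A, |a.1 * Y2 - a.2 * Y1| ≤ t) → A.card ≤ 24 * 2 ^ i

-- deps: CNT
def S_CNTG : Prop :=
  ∀ (T : Matrix (Fin 3) (Fin 3) ℝ) (ma : ℕ) (c : ℤ) (m I g : ℕ) (t X0 X1 G : ℝ)
    (P : Finset (Fin 3 → ℤ)), T.det ≠ 0 → 0 < m → IsCoprime c (m : ℤ) → 0 < t → 0 < X0 → 0 < X1 →
    Lam1 T ma c m I X1 → Lam2 T ma c m X0 → g ∣ m → 1 ≤ G → G ≤ I →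
    (∀ n ∈ P, n ≠ 0 ∧ (g : ℤ) ∣ uv ma c n ∧ (g : ℤ) ∣ n 2 ∧
      |Yv T n 0| ≤ t ∧ G * |Yv T n 1| ≤ t ∧ G * |Yv T n 2| ≤ t) →
    (P.card : ℝ) ≤ 576 * t ^ 3 / (G ^ 2 * g ^ 2 * |T.det|) + (16 * t ^ 2 * X0 + 2 * t * X1) / (g * G)

-- deps: CNTG MULTF MULTA
def S_TSUM : Prop :=
  ∀ (T : Matrix (Fin 3) (Fin 3) ℝ) (ma : ℕ) (c : ℤ) (m I : ℕ) (t X0 X1 : ℝ)
    (P : Finset (Fin 3 → ℤ)), T.det ≠ 0 → 0 < m → 1 ≤ I → IsCoprime c (m : ℤ) → 0 < t → 0 < X0 →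
    0 < X1 → Lam1 T ma c m I X1 → Lam2 T ma c m X0 → (∀ n ∈ P, n ≠ 0 ∧ ‖Yv T n‖ ≤ t) →
    ((∑ n ∈ P, mult T ma c m I t n : ℕ) : ℝ) ≤ 24 * 2 ^ m.primeFactors.card *
      (1152 * t ^ 3 / |T.det| * ∑ g ∈ m.divisors, (g : ℝ)⁻¹ +
        m.divisors.card * (Nat.log 2 I + 1) * (16 * t ^ 2 * X0 + 2 * t * X1))

-- deps:
def S_PLANE : Prop :=
  ∀ (q : ℕ) (F : Finset (Fin 3 → ℤ)), q.Prime →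
    (∀ a ∈ F, ∀ b ∈ F, ∀ c ∈ F, Matrix.det (Matrix.of ![a, b, c]) = 0) →
    ∃ Q : Finset (Fin 3 → ℤ), (∀ v ∈ Q, v ≠ 0 ∧ ∃ a ∈ F, ∃ b ∈ F, (q : ℤ) • v = a - b) ∧
      F.card ≤ q ^ 2 * (1 + Q.card)

-- deps: MULTF PLANE
def S_FIB : Prop :=
  ∀ (T : Matrix (Fin 3) (Fin 3) ℝ) (ma : ℕ) (c : ℤ) (m I q : ℕ) (B : ℝ) (h : (ℕ × ℕ) × (ℤ × ℤ))
    (F : Finset (Fin 3 → ℤ)), 0 < m → 1 ≤ I → IsCoprime c (m : ℤ) → q.Prime → ¬ q ∣ m →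
    18 * B ^ 3 < |T.det| * m * I → h ∈ FH m ×ˢ AH I →
    (∀ n ∈ F, ‖Yv T n‖ ≤ B ∧ InH T ma c m B h n) →
    ∃ Q : Finset (Fin 3 → ℤ),
      (∀ v ∈ Q, v ≠ 0 ∧ ‖Yv T v‖ ≤ 2 * B / q ∧ InH T ma c m (2 * B / q) h v) ∧
      F.card ≤ q ^ 2 * (1 + Q.card)

-- deps: LB CNT
def S_GOOD : Prop :=
  ∀ (T : Matrix (Fin 3) (Fin 3) ℝ) (ma : ℕ) (c : ℤ) (m I : ℕ) (B X0 X1 : ℝ), T.det ≠ 0 → 1 ≤ I →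
    0 < B → 0 < X0 → 0 < X1 → Lam1 T ma c m I X1 → Lam2 T ma c m X0 →
    ∃ P : Finset (Fin 3 → ℤ), (∀ n ∈ P, ‖Yv T n‖ ≤ B ∧ Good T n) ∧
      B ^ 3 / |T.det| - 3 * (16 * B ^ 2 * X0 + 2 * B * X1 + 2) ≤ P.card

-- deps: GOOD FIB TSUM MULTF MULTA
def S_HIT : Prop :=
  ∀ (T : Matrix (Fin 3) (Fin 3) ℝ) (ma : ℕ) (c : ℤ) (m I q : ℕ) (B X0 X1 : ℝ), T.det ≠ 0 → 0 < m →
    1 ≤ I → IsCoprime c (m : ℤ) → 1 ≤ B → 1 ≤ X0 → 1 ≤ X1 → Lam1 T ma c m I X1 →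
    Lam2 T ma c m X0 → q.Prime → ¬ q ∣ m →
    2000000 * 2 ^ m.primeFactors.card * ∑ g ∈ m.divisors, (g : ℝ)⁻¹ ≤ q →
    18 * B ^ 3 < |T.det| * m * I →
    2 ^ m.primeFactors.card * m.divisors.card * (Nat.log 2 I + 1) *
      (2000 * B ^ 2 * X0 + 200 * q * B * X1) ≤ B ^ 3 / (2 * |T.det|) →
    ∃ Hs : Finset ((ℕ × ℕ) × (ℤ × ℤ)), Hs ⊆ FH m ×ˢ AH I ∧ B ^ 3 / (4 * |T.det| * q ^ 2) ≤ Hs.card ∧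
      ∀ h ∈ Hs, ∃ n, Good T n ∧ ‖Yv T n‖ ≤ B ∧ InH T ma c m B h n

-- deps:
def S_ARITH : Prop :=
  ∀ m : ℕ, 0 < m →
    (∀ Q : ℕ, 1 ≤ Q → ∃ q : ℕ, q.Prime ∧ ¬ q ∣ m ∧ Q ≤ q ∧ q ≤ 2 ^ (m.primeFactors.card + 1) * Q) ∧
    (m.divisors.card : ℝ) ≤ 8 ^ m.primeFactors.card * Real.exp (Real.log m / 4) ∧
    ∑ g ∈ m.divisors, (g : ℝ)⁻¹ ≤ 1 + Real.log m

/-! ### C. Local evaluation and balance -/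

-- deps:
def S_EVA : Prop :=
  ∀ (K : Type) [Field K] [CharZero K] (C : Cfg K),
    0 < C.M ∧ 0 ≤ C.la ∧ (∀ s, C.δ s ≠ 0 ∧ C.δ s ∈ C.Pl.O) ∧ C.δ 0 + C.δ 1 + C.δ 2 = 0 ∧
    (∀ i s, ‖C.Pl.φ i (C.δ s)‖ ≤ C.M) ∧
    (∀ i, ‖C.Pl.φ i (C.δ (C.σa i))‖ = C.M * Real.exp (-C.la)) ∧
    ∀ θ j : ℕ, |(C.T θ j).det| = C.V ∧ ∀ n : Fin 3 → ℤ, (∀ s, C.y θ j n s ∈ C.Pl.O) ∧ ∀ i,
      C.Pl.φ i (C.y θ j n (C.σa i)) = ((C.r θ j * C.ϖ θ ^ j * Yv (C.T θ j) n 0 : ℝ) : ℂ) ∧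
      C.Pl.φ i (C.y θ j n (C.σa i + 1)) =
        (C.r θ j : ℂ) * ((Yv (C.T θ j) n 1 : ℝ) + C.ι i * (Yv (C.T θ j) n 2 : ℝ)) ∧
      C.Pl.φ i (C.y θ j n (C.σa i + 2)) =
        (C.r θ j : ℂ) * ((Yv (C.T θ j) n 1 : ℝ) - C.ι i * (Yv (C.T θ j) n 2 : ℝ))

-- deps:
def S_EVP : Prop :=
  ∀ (K : Type) [Field K] [CharZero K] (C : Cfg K), ∀ p ∈ C.S, ∀ i,
    (∀ (a : ℤ) (t : ℕ), (p : ℤ) ^ t ∣ a → C.Pl.W p i (a : K) ≤ Real.exp (-(t * Real.log p))) ∧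
    (∀ s, C.Pl.W p i (C.δ s) ≤ 1) ∧ C.Pl.W p i (C.δ (C.σ p i)) ≤ Real.exp (-C.lp p) ∧
    (∀ s, s ≠ C.σ p i → C.Pl.W p i (C.ξ s) ≤ 1) ∧
    ∀ θ j : ℕ, 0 < θ → j ≤ θ → ∀ n : Fin 3 → ℤ,
      C.Pl.W p i (C.y θ j n (C.σ p i)) ≤ Real.exp (-(C.av θ j p * Real.log p)) ∧
      ∀ s, s ≠ C.σ p i →
        C.Pl.W p i (C.y θ j n s - ((uv (C.ma θ j) C.c n : ℤ) + n 2 * C.ξ s)) ≤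
          Real.exp (-C.lp p) ∧
        ∀ g : ℕ, g ∣ C.ma θ 1 → (g : ℤ) ∣ uv (C.ma θ j) C.c n → (g : ℤ) ∣ n 2 →
          C.Pl.W p i (C.y θ j n s) ≤ Real.exp (-(g.factorization p * Real.log p))

-- deps: EVA EVP
def S_BAL : Prop :=
  ∀ (K : Type) [Field K] [CharZero K] (C : Cfg K), C.Lam ≤ 3 * C.H ∧ 0 ≤ C.η ∧ ∀ s : Fin 3,
    C.Pl.d * (C.H - C.η) ≤ ∑ i, (if C.σa i = s then C.la else 0) +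
      ∑ p ∈ C.S, ∑ i, (if C.σ p i = s then C.lp p else 0) ∧
    ∑ i, (if C.σa i = s then C.la else 0) +
      ∑ p ∈ C.S, ∑ i, (if C.σ p i = s then C.lp p else 0) ≤ C.Pl.d * C.H

-- deps: EVA EVP BAL
def S_LAM1 : Prop :=
  ∀ (K : Type) [Field K] [CharZero K] (C : Cfg K) (θ j : ℕ), 0 < θ → j ≤ θ →
    Lam1 (C.T θ j) (C.ma θ j) C.c (C.ma θ 1) (C.I θ) (4 * Real.exp (C.η + C.L + C.H / θ))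

-- deps: EVA EVP BAL
def S_LAM2 : Prop :=
  ∀ (K : Type) [Field K] [CharZero K] (C : Cfg K) (θ j : ℕ), 0 < θ → j ≤ θ →
    Lam2 (C.T θ j) (C.ma θ j) C.c (C.ma θ 1) (2 * Real.exp (C.η + C.L))

-- deps: EVA EVP
def S_ANCH : Prop :=
  ∀ (K : Type) [Field K] [CharZero K] (C : Cfg K) (θ k : ℕ) (j : Fin (k + 1) → ℕ)
    (nn : Fin (k + 1) → Fin 3 → ℤ) (h : (ℕ × ℕ) × (ℤ × ℤ)) (B : ℝ) (A : ℕ → ℝ), 0 < θ →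
    (∀ i, j i ≤ θ) → h ∈ FH (C.ma θ 1) ×ˢ AH (C.I θ) →
    (∀ i, Good (C.T θ (j i)) (nn i) ∧ ‖Yv (C.T θ (j i)) (nn i)‖ ≤ B ∧
      InH (C.T θ (j i)) (C.ma θ (j i)) C.c (C.ma θ 1) B h (nn i)) →
    (∀ p ∈ C.S, ∀ i, Real.exp (-(C.av θ (j i) p * Real.log p)) ≤ A p * C.ϖp θ p ^ j i) →
    (∀ i s, C.y θ (j i) (nn i) s ≠ 0) ∧
    (∀ v, Loc cabs (fun s => C.Pl.φ v (C.δ s)) (fun i s => C.Pl.φ v (C.y θ (j i) (nn i) s)) θ j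
      C.M (C.ϖ θ) 1 (C.ϖ θ) 2 (fun i => C.r θ (j i) * B)) ∧
    ∀ p ∈ C.S, ∀ v, Loc (C.Pl.W p v) C.δ (fun i s => C.y θ (j i) (nn i) s) θ j
      1 (C.ϖp θ p) (A p) (Real.exp (-(C.av θ 1 p * Real.log p))) 1 (fun _ => 1)

/-! ### D. The auxiliary polynomial -/

-- deps:
def S_COUNT : Prop :=
  ∀ (k θ : ℕ) (ε sgn : ℝ) (s : Fin 3) (A : Finset (Fin k → Fin 3 → ℕ)), 0 < θ → 0 < ε → ε ≤ 1 →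
    (sgn = 1 ∨ sgn = -1) → (∀ z ∈ A, (∀ i, ∑ s', z i s' = θ) ∧
      ε * k * θ ≤ sgn * (∑ i, (z i s : ℝ) - k * θ / 3)) →
    (A.card : ℝ) ≤ Real.exp (-(ε ^ 2 * k / 4)) *
      ((Finset.piAntidiag (Finset.univ : Finset (Fin 3)) θ).card : ℝ) ^ k

-- deps:
def S_SPAN : Prop :=
  ∀ (k w : ℕ) (ι N : Type) [Fintype N] (P : Finset ι) (v : ι → Fin k → ℕ) (μ : ι → ℤ)
    (f : N → ι → ℕ) (c0 : N → ℤ) (c : N → Fin k → ℤ) (dd : N → ℕ),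
    (∀ d : Fin k → ℕ, ∑ i, d i < w → ∑ p ∈ P, μ p * ((∏ i, (v p i).choose (d i) : ℕ) : ℤ) = 0) →
    (∀ p ∈ P, ∀ ν, (f ν p : ℤ) = c0 ν + ∑ i, c ν i * v p i) → ∑ ν, dd ν < w →
    ∑ p ∈ P, μ p * ((∏ ν, (f ν p).choose (dd ν) : ℕ) : ℤ) = 0

-- deps: COUNT
def S_SIEA : Prop :=
  ∀ q : ℕ, 1 ≤ q → ∃ k' : ℕ, 3 ≤ k' ∧ ∀ k : ℕ, k = 3 * q * k' →
    ∀ (θ X0 : ℕ) (xs : (Fin (k + 1) → Fin 3 → ℕ) → ℕ), 0 < θ →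
    (∀ z, Adm θ ((q + 1) * k' * θ) z → X0 ≤ xs z ∧ xs z ≤ X0 + 2) →
    ∃ (X : ℕ) (P : Finset (Fin (k + 1) → Fin 3 → ℕ)) (E : Finset ((Fin k → ℕ) × (Fin k → ℕ))),
      (∀ z ∈ P, Adm θ ((q + 1) * k' * θ) z ∧ xs z = X) ∧
      (∀ a d : Fin k → ℕ, (∀ i, a i + d i ≤ θ) → ∑ i, d i < (q - 1) * k' * θ → (a, d) ∈ E) ∧
      6 * k * E.card ≤ P.card ∧ 0 < P.card ∧ P.card ≤ 2 ^ (3 * k * θ)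

-- deps: SIEA SPAN
def S_SIEGEL : Prop :=
  ∀ q : ℕ, 1 ≤ q → ∃ k' : ℕ, 3 ≤ k' ∧ ∀ k : ℕ, k = 3 * q * k' →
    ∀ (θ X0 : ℕ) (xf : (Fin (k + 1) → ℕ) → ℕ), 0 < θ →
    (∀ z, Adm θ ((q + 1) * k' * θ) z → (∀ s, xf (col z s) ≤ (q + 1) * k' * θ) ∧
      X0 ≤ ∑ s, xf (col z s) ∧ ∑ s, xf (col z s) ≤ X0 + 2) →
    ∃ (X : ℕ) (P : Finset (Fin (k + 1) → Fin 3 → ℕ)) (lam : (Fin (k + 1) → Fin 3 → ℕ) → ℤ),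
      (∀ z ∈ P, Adm θ ((q + 1) * k' * θ) z ∧ ∑ s, xf (col z s) = X) ∧ (∃ z ∈ P, lam z ≠ 0) ∧
      ∑ z ∈ P, |lam z| ≤ 2 ^ (20 * ((q + 1) * k' * θ)) ∧ Mom P lam xf ((q - 1) * k' * θ) k

-- deps:
def S_LOCAL : Prop :=
  ∀ (Ω : Type) [Field Ω] (w : AbsoluteValue Ω ℝ) (k θ Z X Γ wd l : ℕ) (R j : Fin (k + 1) → ℕ)
    (xf : (Fin (k + 1) → ℕ) → ℕ) (P : Finset (Fin (k + 1) → Fin 3 → ℕ))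
    (lam : (Fin (k + 1) → Fin 3 → ℕ) → ℤ) (δ : Fin 3 → Ω) (y : Fin (k + 1) → Fin 3 → Ω)
    (M ϖ A c C0 : ℝ) (ρ : Fin (k + 1) → ℝ) (d : Fin (k + 1) → Fin 3 → ℕ),
    (∀ z ∈ P, (∀ i, ∑ s, z i s = R i) ∧ (∀ s, ∑ i, z i s = Z) ∧ ∑ s, xf (col z s) = X ∧
      ∀ s, Γ ≤ θ * xf (col z s) + ∑ i, j i * z i s) →
    Mom P lam xf wd l → δ 0 + δ 1 + δ 2 = 0 → 0 ≤ A → 0 ≤ ϖ → ϖ ≤ c → c ≤ 1 → 1 ≤ C0 →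
    wd ≤ θ * l → Loc w δ y θ j M ϖ A c C0 ρ →
    w (Dval P lam xf δ y d) ≤ ((∑ z ∈ P, |lam z| : ℤ) : ℝ) * 2 ^ (X + 5 * Z) *
      (M ^ X * ϖ ^ Γ * A ^ Z * (∏ i, ρ i ^ R i) * C0 ^ (2 * Z) * c ^ (wd - tot d)) ∧
    (IsNonarchimedean w → w (Dval P lam xf δ y d) ≤
      M ^ X * ϖ ^ Γ * A ^ Z * (∏ i, ρ i ^ R i) * C0 ^ (2 * Z) * c ^ (wd - tot d))

-- deps: ZL
def S_ZLM : Prop :=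
  ∀ (k : ℕ) (ε Cc : ℝ), 0 < ε → ε ≤ 1 → 0 ≤ Cc → ∃ (D : ℕ) (μ0 : ℝ),
    ∀ (K : Type) [Field K] [CharZero K] (δ : Fin 3 → K) (y : Fin (k + 1) → Fin 3 → K)
      (θ Z X Γ : ℕ) (j g : Fin (k + 1) → ℕ) (xf : (Fin (k + 1) → ℕ) → ℕ)
      (P : Finset (Fin (k + 1) → Fin 3 → ℕ)) (lam : (Fin (k + 1) → Fin 3 → ℕ) → ℤ) (h0 : ℝ),
      (∀ s, δ s ≠ 0) → (∀ i s, y i s ≠ 0) → δ 0 + δ 1 + δ 2 = 0 → 0 < θ → 2 * θ ≤ Z →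
      ε * Z ≤ θ → g (Fin.last k) = θ → (∀ i : Fin k, j i.succ = j 0 + g i.castSucc) →
      (∀ i, g i ≤ θ) → Gen D g → Big (-(δ 0 / δ 2)) h0 → μ0 * θ ≤ h0 →
      (∀ z ∈ P, Adm θ Z z ∧ ∑ s, xf (col z s) = X ∧ ∀ s, xf (col z s) ≤ Z ∧
        Γ ≤ θ * xf (col z s) + ∑ i, j i * z i s ∧
        θ * xf (col z s) + ∑ i, j i * z i s ≤ Γ + θ) →
      (∃ z ∈ P, lam z ≠ 0) → ((∑ z ∈ P, |lam z| : ℤ) : ℝ) ≤ Real.exp (Cc * Z) →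
      (∀ d, tot d < θ → Dval P lam xf δ y d = 0) → False

-- deps: SIEGEL LOCAL ZLM
def S_CORE : Prop :=
  ∀ κ : ℝ, 0 < κ → κ ≤ 1 → ∃ (k D : ℕ) (μ0 : ℝ),
    ∀ (K : Type) [Field K] [CharZero K] (S : Finset ℕ) (Pl : Places K S) (δ : Fin 3 → K)
      (y : Fin (k + 1) → Fin 3 → K) (θ J : ℕ) (j g : Fin (k + 1) → ℕ) (M ϖ c η β μ h0 : ℝ)
      (ρ : Fin (k + 1) → ℝ) (ϖp Ap cp : ℕ → ℝ),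
      (∀ s, δ s ≠ 0 ∧ δ s ∈ Pl.O) → (∀ i s, y i s ≠ 0 ∧ y i s ∈ Pl.O) → δ 0 + δ 1 + δ 2 = 0 →
      0 < θ → J ≤ θ → (∀ i, j i ≤ J) → g (Fin.last k) = θ →
      (∀ i : Fin k, j i.succ = j 0 + g i.castSucc) → Gen D g → Big (-(δ 0 / δ 2)) h0 → μ0 * θ ≤ h0 →
      1 ≤ M → 0 < ϖ → ϖ ≤ c → c ≤ 1 → (∀ i, 0 < ρ i) →
      (∀ p ∈ S, 0 < ϖp p ∧ ϖp p ≤ cp p ∧ cp p ≤ 1 ∧ 0 < Ap p) →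
      (∀ v, Loc cabs (fun s => Pl.φ v (δ s)) (fun i s => Pl.φ v (y i s)) θ j M ϖ 1 c 2 ρ) →
      (∀ p ∈ S, ∀ v, Loc (Pl.W p v) δ y θ j 1 (ϖp p) (Ap p) (cp p) 1 (fun _ => 1)) →
      0 ≤ η → θ * (Real.log ϖ + ∑ p ∈ S, Real.log (ϖp p)) ≤ η - 3 * Real.log M →
      (∀ i, 3 * Real.log (ρ i) + ∑ p ∈ S, Real.log (Ap p) +
        j i * (Real.log ϖ + ∑ p ∈ S, Real.log (ϖp p)) ≤ β) →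
      Real.log c + ∑ p ∈ S, Real.log (cp p) ≤ -μ → β * θ + η * J ≤ (1 - κ) * μ * θ →
      Real.log M ≤ θ * μ → μ0 ≤ μ → False

-- deps:
def S_PIG : Prop :=
  ∀ (Ho : Type) (S : Finset ℕ) (Hol : Finset Ho) (Hs : ℕ → Finset Ho) (cl : ℕ → ℕ → ℕ)
    (J M0 n : ℕ) (N : ℝ), (∀ j ≤ J, Hs j ⊆ Hol ∧ N ≤ (Hs j).card ∧ ∀ p ∈ S, cl j p < n) →
    (M0 : ℝ) * n ^ S.card * Hol.card < (J + 1) * N →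
    ∃ (h : Ho) (f : ℕ → ℕ) (E : Finset ℕ), M0 < E.card ∧
      ∀ j ∈ E, j ≤ J ∧ h ∈ Hs j ∧ ∀ p ∈ S, cl j p = f p

-- deps:
def S_MAINC : Prop :=
  ∀ ε : ℝ, 0 < ε → ∃ K0 : ℝ, ∀ (K : Type) [Field K] [CharZero K] (C : Cfg K),
    C.η ≤ 2 * C.L + 20 → C.V ≤ 500 * Real.exp C.L → C.H ≤ K0 * C.V * Real.exp (ε * C.L)

-- deps: CFG MAINC
def S_FINAL : Prop :=
  ∀ ε : ℝ, 0 < ε → ∃ K : ℝ, ∀ x y : ℤ, x ^ 3 ≠ y ^ 2 →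
    Real.log (max (|(x : ℝ)| ^ 3) ((y : ℝ) ^ 2)) ≤ Real.log (Int.gcd (x ^ 3) (y ^ 2)) +
      K * √(∏ p ∈ (x ^ 3 - y ^ 2).natAbs.primeFactors,
        if (p : ℤ) ∣ x then (p : ℝ) ^ 2
        else if Odd ((x ^ 3 - y ^ 2).natAbs.factorization p) then (p : ℝ) else 1) *
      (∏ p ∈ (x ^ 3 - y ^ 2).natAbs.primeFactors, (p : ℝ)) ^ ε

end Pool.Agent.P.MP_7aad9f_nt.Sz
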