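import Pool.Agent.P.MP_7aad9f_nt.SubGREEDY
import Pool.Agent.P.MP_7aad9f_nt.SubSYLV

/-! The greedy choice and the Sylvester determinant, for a point with coordinates in a field. -/

set_option autoImplicit false

open Polynomial

namespace Pool.Agent.P.MP_7aad9f_nt.Sz

open _root_.Pool.Agent.P.MP_7aad9f_nt.Sub

variable {R K : Type} [CommRing R] [IsDomain R] [UniqueFactorizationMonoid R] [CharZero R] [Field K]

theorem zgreedy_list (F : R[X]) (ev : R[X] →+* K) (e0 : ℕ)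
    (hF : F ≠ 0) (hX : ev X ≠ 0)
    (he : ∀ Q : R[X], Prime Q → 0 < Q.natDegree → ev Q = 0 → ∀ e : ℕ, Q ^ e ∣ F → e < e0)
    (L : List R[X]) : (∀ Q ∈ L, Prime Q ∧ 0 < Q.natDegree ∧ ev Q = 0) →
    ∃ F₂ : R[X],
      F₂ ∈ Submodule.span ℤ {P : R[X] | ∃ e < e0, P = X ^ e * hasseDeriv e F} ∧
      (∀ i : ℕ, ∃ κ : ℤ, (i ≤ F.natDegree → |κ| ≤ (L.length : ℤ) ^ 2 * 2 ^ F.natDegree) ∧
        F₂.coeff i = κ • F.coeff i) ∧
      ∀ Q ∈ L, ¬ Q ∣ F₂ := by
  induction L with
  | nil =>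
    exact fun _ => ⟨0, Submodule.zero_mem _, fun i => ⟨0, fun _ => by simp, by simp⟩,
      fun Q hQ => absurd hQ List.not_mem_nil⟩
  | cons Q L ih =>
    intro hL
    obtain ⟨F₂, h1, h2, h3⟩ := ih fun Q' hQ' => hL Q' (List.mem_cons_of_mem _ hQ')
    obtain ⟨hQ, hd, hev⟩ := hL Q List.mem_cons_self
    obtain ⟨e, H, hH, hFe⟩ := WfDvdMonoid.max_power_factor hF hQ.irreducible
    have he' : e < e0 := he Q hQ hd hev e ⟨H, hFe⟩
    have hD : ¬ Q ∣ X ^ e * hasseDeriv e F := fun h => by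
      rcases hQ.dvd_or_dvd h with h | h
      · obtain ⟨c, hc⟩ := hQ.dvd_of_dvd_pow h
        exact hX (by rw [hc, map_mul, hev, zero_mul])
      · rw [hFe] at h
        exact greedy_not_dvd_hasse hQ hd hH e h
    have hmem : X ^ e * hasseDeriv e F ∈
        Submodule.span ℤ {P : R[X] | ∃ e < e0, P = X ^ e * hasseDeriv e F} :=
      Submodule.subset_span ⟨e, he', rfl⟩
    have hco := greedy_coeff F e
    generalize X ^ e * hasseDeriv e F = D at hD hmem hco
    obtain ⟨a, ha, ha'⟩ := greedy_avoid (fun (P : R[X]) (a : ℕ) => P ∣ F₂ + (a : ℤ) • D) (Q :: L)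
      (fun P hP a b h4 h5 => by
        by_contra hab
        obtain ⟨hP1, hP2, -⟩ := hL P hP
        have h6 : P ∣ (((a : ℤ) - b : ℤ) : R[X]) * D := by
          have := dvd_sub h4 h5
          rwa [add_sub_add_left_eq_sub, ← sub_smul, zsmul_eq_mul] at this
        have h7 : P ∣ D := (hP1.dvd_or_dvd h6).resolve_left
          (greedy_not_dvd_int hP2 (sub_ne_zero.2 (by exact_mod_cast hab)))
        rcases List.mem_cons.1 hP with rfl | hP
        · exact hD h7
        · refine h3 P hP ((dvd_add_left ?_).1 h4)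
          rw [zsmul_eq_mul]
          exact h7.mul_left _)
      (Finset.range ((Q :: L).length + 1)) (by simp)
    refine ⟨F₂ + (a : ℤ) • D, Submodule.add_mem _ h1 (Submodule.smul_mem _ _ hmem), fun i => ?_,
      ha'⟩
    obtain ⟨κ, h4, h5⟩ := h2 i
    refine ⟨κ + a * (i.choose e : ℤ), fun hi => ?_, ?_⟩
    · have h6 := h4 hi
      have h7 : i.choose e ≤ 2 ^ F.natDegree :=
        (Nat.choose_le_two_pow i e).trans (Nat.pow_le_pow_right two_pos hi)
      have h8 : a ≤ L.length + 1 := by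
        have := Finset.mem_range.1 ha
        rw [List.length_cons] at this
        omega
      have h9 : (a : ℤ) * (i.choose e : ℤ) ≤ (L.length + 1 : ℤ) * 2 ^ F.natDegree := by
        exact_mod_cast Nat.mul_le_mul h8 h7
      have h10 : (0 : ℤ) ≤ (a : ℤ) * (i.choose e : ℤ) := by positivity
      have h11 : (0 : ℤ) ≤ (L.length : ℤ) * 2 ^ F.natDegree := by positivity
      refine (abs_add_le _ _).trans ?_
      rw [abs_of_nonneg h10, List.length_cons]
      push_cast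
      nlinarith
    · rw [coeff_add, coeff_smul, h5, hco, add_smul, mul_smul]

theorem zgreedy (F : R[X]) (ev : R[X] →+* K) (e0 : ℕ) (hF : F ≠ 0) (hX : ev X ≠ 0)
    (he : ∀ Q : R[X], Prime Q → 0 < Q.natDegree → ev Q = 0 → ∀ e : ℕ, Q ^ e ∣ F → e < e0) :
    ∃ F₂ : R[X],
      F₂ ∈ Submodule.span ℤ {P : R[X] | ∃ e < e0, P = X ^ e * hasseDeriv e F} ∧
      (∀ i : ℕ, ∃ κ : ℤ, |κ| ≤ 8 ^ F.natDegree ∧ F₂.coeff i = κ • F.coeff i) ∧
      ∀ Q : R[X], Prime Q → 0 < Q.natDegree → Q ∣ F → Q ∣ F₂ → ev Q ≠ 0 := by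
  classical
  let s := (UniqueFactorizationMonoid.factors F).filter fun Q => 0 < Q.natDegree ∧ ev Q = 0
  have hs : ∀ Q ∈ s, Prime Q ∧ 0 < Q.natDegree ∧ ev Q = 0 := fun Q hQ =>
    ⟨UniqueFactorizationMonoid.prime_of_factor Q (Multiset.mem_filter.1 hQ).1,
      (Multiset.mem_filter.1 hQ).2⟩
  have hcard : s.card ≤ F.natDegree := by
    have h1 : s.prod ∣ F := (Multiset.prod_dvd_prod_of_le (Multiset.filter_le _ _)).trans
      (UniqueFactorizationMonoid.factors_prod hF).dvd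
    have h2 := natDegree_le_of_dvd h1 hF
    rw [natDegree_multiset_prod s fun h => (hs 0 h).1.ne_zero rfl] at h2
    have h3 := Multiset.card_nsmul_le_sum (s := s.map natDegree) (a := 1) fun x hx => by
      obtain ⟨Q, hQ, rfl⟩ := Multiset.mem_map.1 hx
      exact (hs Q hQ).2.1
    rw [Multiset.card_map, smul_eq_mul, mul_one] at h3
    omega
  obtain ⟨F₂, h1, h2, h3⟩ := zgreedy_list F ev e0 hF hX he s.toList fun Q hQ =>
    hs Q (Multiset.mem_toList.1 hQ)
  refine ⟨F₂, h1, fun i => ?_, fun Q hQ hd hQF hQ2 hev => ?_⟩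
  · obtain ⟨κ, h4, h5⟩ := h2 i
    rcases le_or_gt i F.natDegree with hi | hi
    · refine ⟨κ, (h4 hi).trans ?_, h5⟩
      rw [Multiset.length_toList]
      have h6 : s.card ≤ 2 ^ F.natDegree := hcard.trans Nat.lt_two_pow_self.le
      have h7 : s.card ^ 2 * 2 ^ F.natDegree ≤ 8 ^ F.natDegree := by
        refine (Nat.mul_le_mul_right _ (Nat.pow_le_pow_left h6 2)).trans (le_of_eq ?_)
        rw [← pow_succ, ← pow_mul, mul_comm, pow_mul]
        norm_num
      exact_mod_cast h7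
    · exact ⟨0, by simp, by rw [h5, coeff_eq_zero_of_natDegree_lt hi, smul_zero, smul_zero]⟩
  · obtain ⟨P, hP, hPQ⟩ := UniqueFactorizationMonoid.exists_mem_factors_of_dvd hF hQ.irreducible hQF
    refine h3 P (Multiset.mem_toList.2 (Multiset.mem_filter.2 ⟨hP, ?_, ?_⟩)) (hPQ.symm.dvd.trans hQ2)
    · rwa [← natDegree_eq_of_degree_eq (degree_eq_degree_of_associated hPQ)]
    · obtain ⟨c, hc⟩ := hPQ.dvd
      rw [hc, map_mul, hev, zero_mul]

omit [UniqueFactorizationMonoid R] [CharZero R] in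
theorem zsylv_strip (ev : R[X] →+* K) (n : ℕ) :
    ∀ F₁ F₂ : R[X], F₁.natDegree = n → F₁ ≠ 0 →
      (∀ Q : R[X], Prime Q → 0 < Q.natDegree → Q ∣ F₁ → Q ∣ F₂ → ev Q ≠ 0) →
      ∃ G F₁' F₂' : R[X], F₁ = G * F₁' ∧ F₂ = G * F₂' ∧ ev G ≠ 0 ∧
        ∀ Q : R[X], Prime Q → 0 < Q.natDegree → Q ∣ F₁' → ¬ Q ∣ F₂' := by
  induction n using Nat.strong_induction_on with
  | _ n ih =>
    intro F₁ F₂ hn h0 h
    by_cases hc : ∃ Q : R[X], Prime Q ∧ 0 < Q.natDegree ∧ Q ∣ F₁ ∧ Q ∣ F₂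
    · obtain ⟨Q, hQ, hd, ⟨A, rfl⟩, ⟨B, rfl⟩⟩ := hc
      have hA : A ≠ 0 := right_ne_zero_of_mul h0
      rw [natDegree_mul hQ.ne_zero hA] at hn
      obtain ⟨G, A', B', rfl, rfl, hG, hP⟩ := ih A.natDegree (by omega) A B rfl hA
        fun P hP hP' h1 h2 => h P hP hP' (h1.mul_left _) (h2.mul_left _)
      refine ⟨Q * G, A', B', by ring, by ring, ?_, hP⟩
      rw [map_mul]
      exact mul_ne_zero (h Q hQ hd (dvd_mul_right _ _) (dvd_mul_right _ _)) hG
    · exact ⟨1, F₁, F₂, by simp, by simp, by simp, fun Q h1 h2 h3 h4 => hc ⟨Q, h1, h2, h3, h4⟩⟩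

omit [CharZero R] in
theorem zsylv (F₁ F₂ : R[X]) (ev : R[X] →+* K) (h0 : F₁ ≠ 0)
    (h : ∀ Q : R[X], Prime Q → 0 < Q.natDegree → Q ∣ F₁ → Q ∣ F₂ → ev Q ≠ 0) :
    ∃ (N : ℕ) (G : R[X]) (q : Fin N → R[X]) (r : Fin N → ℕ),
      0 < N ∧ N ≤ F₁.natDegree + F₂.natDegree + 1 ∧ ev G ≠ 0 ∧ (∀ ρ, (q ρ).natDegree < N) ∧
      (∀ ρ, G * q ρ = X ^ r ρ * F₁ ∨ G * q ρ = X ^ r ρ * F₂) ∧
      (Matrix.of fun (ρ c : Fin N) => (q ρ).coeff c).det ≠ 0 := by
  obtain ⟨G, A, B, rfl, rfl, hG, hP⟩ := zsylv_strip ev _ F₁ F₂ rfl h0 h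
  have hA : A ≠ 0 := right_ne_zero_of_mul h0
  have hG0 : G ≠ 0 := left_ne_zero_of_mul h0
  set n1 := A.natDegree with hn1
  set n2 := B.natDegree with hn2
  let r : Fin (n1 + n2 + 1) → ℕ := fun ρ => if ρ.1 ≤ n2 then ρ.1 else ρ.1 - n2 - 1
  let q : Fin (n1 + n2 + 1) → R[X] := fun ρ => X ^ r ρ * if ρ.1 ≤ n2 then A else B
  have hq : ∀ ρ, (q ρ).natDegree < n1 + n2 + 1 := fun ρ => by
    refine natDegree_mul_le.trans_lt ?_
    have := ρ.2
    rw [natDegree_X_pow]
    simp only [r]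
    split_ifs <;> omega
  refine ⟨n1 + n2 + 1, G, q, r, by omega, ?_, hG, hq, fun ρ => ?_, fun hdet => ?_⟩
  · have h1 : n1 ≤ (G * A).natDegree := by rw [natDegree_mul hG0 hA]; omega
    have h2 : n2 ≤ (G * B).natDegree := by
      rcases eq_or_ne B 0 with hB | hB
      · simp [hn2, hB]
      · rw [natDegree_mul hG0 hB]; omega
    omega
  · simp only [q]
    split_ifs
    · left; ring
    · right; ring
  · obtain ⟨w, hw, hw0⟩ := Matrix.exists_vecMul_eq_zero_iff.2 hdet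
    have h1 : ∑ ρ, C (w ρ) * q ρ = 0 := by
      ext c
      rw [finsetSum_coeff, coeff_zero]
      simp only [coeff_C_mul]
      by_cases hc : c < n1 + n2 + 1
      · exact congrFun hw0 ⟨c, hc⟩
      · exact Finset.sum_eq_zero fun ρ _ => by
          rw [coeff_eq_zero_of_natDegree_lt ((hq ρ).trans_le (by omega)), mul_zero]
    let a : R[X] := ∑ ρ, if ρ.1 ≤ n2 then monomial (r ρ) (w ρ) else 0
    let b : R[X] := ∑ ρ, if ρ.1 ≤ n2 then 0 else monomial (r ρ) (w ρ)
    have h2 : a * A + b * B = 0 := by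
      rw [← h1, Finset.sum_mul, Finset.sum_mul, ← Finset.sum_add_distrib]
      refine Finset.sum_congr rfl fun ρ _ => ?_
      simp only [q, ← C_mul_X_pow_eq_monomial]
      split_ifs <;> ring
    have hb : b = 0 := by
      by_contra hb
      have h3 := sylv_deg B A b hb ⟨-a, by linear_combination h2⟩ hP
      refine hb (leadingCoeff_eq_zero.1 ?_)
      rw [leadingCoeff]
      generalize b.natDegree = i at h3
      rw [finsetSum_coeff]
      refine Finset.sum_eq_zero fun ρ _ => ?_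
      have := ρ.2
      split_ifs with hρ
      · simp
      · rw [coeff_monomial, if_neg (by simp only [r, if_neg hρ]; omega)]
    have ha : a = 0 := by
      rw [hb, zero_mul, add_zero] at h2
      exact (mul_eq_zero.1 h2).resolve_right hA
    refine hw (funext fun ρ => ?_)
    by_cases hρ : ρ.1 ≤ n2
    · have h4 : a.coeff (r ρ) = w ρ := by
        rw [finsetSum_coeff, Finset.sum_eq_single ρ (fun σ _ hσ => ?_) (by simp), if_pos hρ,
          coeff_monomial_same]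
        split_ifs with hσ'
        · rw [coeff_monomial, if_neg]
          simp only [r, if_pos hρ, if_pos hσ']
          exact fun e => hσ (Fin.ext e)
        · simp
      rw [← h4, ha]; simp
    · have h4 : b.coeff (r ρ) = w ρ := by
        rw [finsetSum_coeff, Finset.sum_eq_single ρ (fun σ _ hσ => ?_) (by simp), if_neg hρ,
          coeff_monomial_same]
        split_ifs with hσ'
        · simp
        · rw [coeff_monomial, if_neg]
          simp only [r, if_neg hρ, if_neg hσ']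
          exact fun e => hσ (Fin.ext (by omega))
      rw [← h4, hb]; simp

end Pool.Agent.P.MP_7aad9f_nt.Sz
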