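import Pool.Agent.P.MP_7aad9f_nt.Sz.ZDefs

/-! Weighted Gauss valuations on multivariate polynomials. -/

set_option autoImplicit false

namespace Pool.Agent.P.MP_7aad9f_nt.Sz

open MvPolynomial

/-- `ν` is an additive valuation on the non-zero elements, trivial on the integers. -/
structure IsV {R : Type} [CommRing R] (ν : R → ℤ) : Prop where
  mul : ∀ f g : R, f ≠ 0 → g ≠ 0 → ν (f * g) = ν f + ν g
  add : ∀ f g : R, f ≠ 0 → g ≠ 0 → f + g ≠ 0 → min (ν f) (ν g) ≤ ν (f + g)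
  int : ∀ κ : ℤ, κ ≠ 0 → ν κ = 0

/-- The weight of an exponent vector. -/
def dot {n : ℕ} (w : Fin n → ℤ) (d : Fin n →₀ ℕ) : ℤ := ∑ r, w r * d r

/-- `lo` is a lower bound for the weighted Gauss valuation of `F`. -/
def Lb {R : Type} [CommRing R] {n : ℕ} (ν : R → ℤ) (w : Fin n → ℤ) (lo : ℤ)
    (F : MvPolynomial (Fin n) R) : Prop :=
  ∀ d : Fin n →₀ ℕ, F.coeff d ≠ 0 → lo ≤ ν (F.coeff d) + dot w d

theorem dot_add {n : ℕ} (w : Fin n → ℤ) (a b : Fin n →₀ ℕ) :
    dot w (a + b) = dot w a + dot w b := by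
  simp [dot, mul_add, Finset.sum_add_distrib]

theorem dot_cons {n : ℕ} (w : Fin (n + 1) → ℤ) (i : ℕ) (d : Fin n →₀ ℕ) :
    dot w (Finsupp.cons i d) = w 0 * i + dot (Fin.tail w) d := by
  simp [dot, Fin.sum_univ_succ, Fin.tail]

variable {R : Type} [CommRing R] {ν : R → ℤ} {n : ℕ} {w : Fin n → ℤ}

theorem IsV.add' (h : IsV ν) {f g : R} {l : ℤ} (hf : f ≠ 0 → l ≤ ν f) (hg : g ≠ 0 → l ≤ ν g)
    (h0 : f + g ≠ 0) : l ≤ ν (f + g) := by
  rcases eq_or_ne f 0 with rfl | h1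
  · rw [zero_add] at h0 ⊢; exact hg h0
  rcases eq_or_ne g 0 with rfl | h2
  · rw [add_zero]; exact hf h1
  exact (le_min (hf h1) (hg h2)).trans (h.add f g h1 h2 h0)

theorem IsV.sum (h : IsV ν) {ι : Type} (s : Finset ι) (f : ι → R) (l : ℤ)
    (hf : ∀ i ∈ s, f i ≠ 0 → l ≤ ν (f i)) : ∑ i ∈ s, f i ≠ 0 → l ≤ ν (∑ i ∈ s, f i) := by
  classical
  induction s using Finset.induction_on with
  | empty => intro h0; exact absurd Finset.sum_empty h0
  | insert a s ha ih =>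
    rw [Finset.sum_insert ha]
    exact h.add' (hf a (Finset.mem_insert_self _ _))
      (ih fun i hi => hf i (Finset.mem_insert_of_mem hi))

theorem IsV.neg (h : IsV ν) [Nontrivial R] (f : R) : ν (-f) = ν f := by
  rcases eq_or_ne f 0 with rfl | h1
  · rw [neg_zero]
  have h2 := h.mul ((-1 : ℤ) : R) f (by simp) h1
  rw [h.int (-1) (by norm_num), zero_add] at h2
  simpa using h2

theorem IsV.dom (h : IsV ν) [Nontrivial R] {f g : R} (hf : f ≠ 0) (hg : g ≠ 0 → ν f < ν g) :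
    f + g ≠ 0 ∧ ν (f + g) ≤ ν f := by
  rcases eq_or_ne g 0 with rfl | h2
  · rw [add_zero]; exact ⟨hf, le_rfl⟩
  have h3 := hg h2
  have h4 : f + g ≠ 0 := fun h0 => by
    rw [eq_neg_of_add_eq_zero_left h0, h.neg] at h3
    exact lt_irrefl _ h3
  refine ⟨h4, ?_⟩
  have h5 := h.add (f + g) (-g) h4 (neg_ne_zero.2 h2) (by simpa using hf)
  rw [add_neg_cancel_right, h.neg] at h5
  rcases min_le_iff.1 h5 with h6 | h6
  · exact h6
  · omega

theorem lb_zero (lo : ℤ) : Lb ν w lo (0 : MvPolynomial (Fin n) R) := fun _ hd => absurd rfl hd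

theorem lb_sum (h : IsV ν) {ι : Type} (s : Finset ι) (F : ι → MvPolynomial (Fin n) R) (lo : ℤ)
    (hF : ∀ i ∈ s, Lb ν w lo (F i)) : Lb ν w lo (∑ i ∈ s, F i) := by
  intro d hd
  rw [coeff_sum] at hd ⊢
  have := h.sum s (fun i => (F i).coeff d) (lo - dot w d)
    (fun i hi h0 => by have := hF i hi d h0; omega) hd
  omega

theorem lb_mul (h : IsV ν) {F G : MvPolynomial (Fin n) R} {lo lo' : ℤ} (hF : Lb ν w lo F)
    (hG : Lb ν w lo' G) : Lb ν w (lo + lo') (F * G) := by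
  classical
  intro d hd
  rw [coeff_mul] at hd ⊢
  have := h.sum _ (fun x : (Fin n →₀ ℕ) × (Fin n →₀ ℕ) => F.coeff x.1 * G.coeff x.2)
    (lo + lo' - dot w d) (fun x hx h0 => by
      have h1 := left_ne_zero_of_mul h0
      have h2 := right_ne_zero_of_mul h0
      have h3 := hF _ h1
      have h4 := hG _ h2
      rw [h.mul _ _ h1 h2, ← Finset.HasAntidiagonal.mem_antidiagonal.1 hx, dot_add]
      omega) hd
  omega

theorem lb_smul (h : IsV ν) [CharZero R] (κ : ℤ) {F : MvPolynomial (Fin n) R} {lo : ℤ}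
    (hF : Lb ν w lo F) : Lb ν w lo (κ • F) := by
  intro d hd
  rw [coeff_smul, zsmul_eq_mul] at hd ⊢
  have h1 := left_ne_zero_of_mul hd
  have h2 := right_ne_zero_of_mul hd
  rw [h.mul _ _ h1 h2, h.int κ (Int.cast_ne_zero.1 h1), zero_add]
  exact hF d h2

theorem lb_prod (h : IsV ν) {ι : Type} (s : Finset ι) (lo : ι → ℤ)
    (F : ι → MvPolynomial (Fin n) R) (hF : ∀ i, Lb ν w (lo i) (F i)) :
    Lb ν w (∑ i ∈ s, lo i) (∏ i ∈ s, F i) := by
  classical
  induction s using Finset.induction_on with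
  | empty =>
    intro d hd
    rw [Finset.prod_empty, coeff_one] at hd ⊢
    split_ifs at hd ⊢ with h0
    · have := h.int 1 one_ne_zero
      rw [Int.cast_one] at this
      simp [this, ← h0, dot]
    · exact absurd rfl hd
  | insert a s ha ih =>
    rw [Finset.prod_insert ha, Finset.sum_insert ha]
    exact lb_mul h (hF a) ih

theorem lb_coeff {w : Fin (n + 1) → ℤ} {lo : ℤ} {F : MvPolynomial (Fin (n + 1)) R}
    (hF : Lb ν w lo F) (i : ℕ) :
    Lb ν (Fin.tail w) (lo - w 0 * i) ((finSuccEquiv R n F).coeff i) := by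
  intro d hd
  rw [finSuccEquiv_coeff_coeff] at hd ⊢
  have := hF _ hd
  rw [dot_cons] at this
  omega

theorem lb_det (h : IsV ν) [CharZero R] {w : Fin (n + 1) → ℤ} {lo : ℤ}
    {F : MvPolynomial (Fin (n + 1)) R} (hF : Lb ν w lo F) {N g : ℕ} (r : Fin N → ℕ)
    (M : Matrix (Fin N) (Fin N) (MvPolynomial (Fin n) R))
    (hM : ∀ ρ c, M ρ c = 0 ∨ ∃ (κ : ℤ) (i : ℕ), i + r ρ = c + g ∧
      M ρ c = κ • (finSuccEquiv R n F).coeff i) :
    Lb ν (Fin.tail w) (N * lo - w 0 * ∑ c : Fin N, (((c : ℕ) : ℤ) + g - r c)) M.det := by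
  have h1 : ∀ ρ c : Fin N,
      Lb ν (Fin.tail w) (lo - w 0 * ((c : ℕ) + g) + w 0 * r ρ) (M ρ c) := by
    intro ρ c
    rcases hM ρ c with h0 | ⟨κ, i, hi, h0⟩
    · rw [h0]; exact lb_zero _
    · have e : ((c : ℕ) : ℤ) + g = i + r ρ := by exact_mod_cast hi.symm
      rw [h0, e, show lo - w 0 * ((i : ℤ) + r ρ) + w 0 * r ρ = lo - w 0 * i by ring]
      exact lb_smul h κ (lb_coeff hF i)
  rw [Matrix.det_apply]
  simp only [Units.smul_def]
  refine lb_sum h _ _ _ fun σ _ => lb_smul h _ ?_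
  have := lb_prod h Finset.univ _ _ fun c => h1 (σ c) c
  rw [Finset.sum_add_distrib, Equiv.sum_comp σ fun c => w 0 * (r c : ℤ),
    ← Finset.sum_add_distrib] at this
  convert this using 1
  rw [Finset.mul_sum, show (N : ℤ) * lo = ∑ _c : Fin N, lo by simp, ← Finset.sum_sub_distrib]
  exact Finset.sum_congr rfl fun c _ => by ring

variable [IsDomain R]

theorem val_mul (h : IsV ν) (F G : MvPolynomial (Fin n) R) {a b : Fin n →₀ ℕ}
    (ha : F.coeff a ≠ 0) (hb : G.coeff b ≠ 0) :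
    ∃ d, (F * G).coeff d ≠ 0 ∧ ν ((F * G).coeff d) + dot w d ≤
      ν (F.coeff a) + dot w a + (ν (G.coeff b) + dot w b) := by
  classical
  obtain ⟨a1, ha1, hA⟩ := F.support.exists_min_image (fun x => ν (F.coeff x) + dot w x)
    ⟨a, mem_support_iff.2 ha⟩
  obtain ⟨b1, hb1, hB⟩ := G.support.exists_min_image (fun x => ν (G.coeff x) + dot w x)
    ⟨b, mem_support_iff.2 hb⟩
  obtain ⟨a0, ha0, b0, hb0, hu⟩ := UniqueSums.uniqueAdd_of_nonempty
    (A := F.support.filter fun x => ν (F.coeff x) + dot w x = ν (F.coeff a1) + dot w a1)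
    (B := G.support.filter fun x => ν (G.coeff x) + dot w x = ν (G.coeff b1) + dot w b1)
    ⟨a1, by simp only [Finset.mem_filter, ha1, and_self]⟩
    ⟨b1, by simp only [Finset.mem_filter, hb1, and_self]⟩
  rw [Finset.mem_filter] at ha0 hb0
  have e1 := mem_support_iff.1 ha0.1
  have e2 := mem_support_iff.1 hb0.1
  have hmem : (a0, b0) ∈ Finset.HasAntidiagonal.antidiagonal (a0 + b0) := by simp
  have key := h.dom (f := F.coeff a0 * G.coeff b0)
    (g := ∑ x ∈ (Finset.HasAntidiagonal.antidiagonal (a0 + b0)).erase (a0, b0), F.coeff x.1 * G.coeff x.2)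
    (mul_ne_zero e1 e2) (fun h0 => Int.add_one_le_iff.1 (h.sum _ _ _ (fun x hx hc => by
      have hx1 := left_ne_zero_of_mul hc
      have hx2 := right_ne_zero_of_mul hc
      have e : x.1 + x.2 = a0 + b0 := Finset.HasAntidiagonal.mem_antidiagonal.1 (Finset.mem_of_mem_erase hx)
      have e3 := congrArg (dot w) e
      rw [dot_add, dot_add] at e3
      have h1 := hA _ (mem_support_iff.2 hx1)
      have h2 := hB _ (mem_support_iff.2 hx2)
      have h3 := ha0.2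
      have h4 := hb0.2
      rw [h.mul _ _ hx1 hx2, h.mul _ _ e1 e2]
      by_contra hlt
      obtain ⟨h5, h6⟩ := hu (Finset.mem_filter.2 ⟨mem_support_iff.2 hx1, by omega⟩)
        (Finset.mem_filter.2 ⟨mem_support_iff.2 hx2, by omega⟩) e
      exact Finset.ne_of_mem_erase hx (Prod.ext h5 h6)) h0))
  rw [Finset.add_sum_erase _ (fun x : (Fin n →₀ ℕ) × (Fin n →₀ ℕ) => F.coeff x.1 * G.coeff x.2)
    hmem, ← coeff_mul, h.mul _ _ e1 e2] at key
  refine ⟨a0 + b0, key.1, ?_⟩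
  have h1 := hA _ (mem_support_iff.2 ha)
  have h2 := hB _ (mem_support_iff.2 hb)
  have h3 := ha0.2
  have h4 := hb0.2
  have h5 := key.2
  rw [dot_add]
  omega

theorem val_pow (h : IsV ν) (Q H : MvPolynomial (Fin n) R) {a b : Fin n →₀ ℕ}
    (ha : Q.coeff a ≠ 0) (hb : H.coeff b ≠ 0) (e : ℕ) :
    ∃ d, (Q ^ e * H).coeff d ≠ 0 ∧ ν ((Q ^ e * H).coeff d) + dot w d ≤
      e * (ν (Q.coeff a) + dot w a) + (ν (H.coeff b) + dot w b) := by
  induction e with
  | zero => exact ⟨b, by simpa using hb, by simp⟩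
  | succ e ih =>
    obtain ⟨d, hd, h1⟩ := ih
    obtain ⟨d', hd', h2⟩ := val_mul (w := w) h Q (Q ^ e * H) ha hd
    rw [pow_succ', mul_assoc]
    refine ⟨d', hd', ?_⟩
    push_cast
    linarith

theorem lb_pow (h : IsV ν) {Q H : MvPolynomial (Fin n) R} {e : ℕ} {lo : ℤ}
    (hF : Lb ν w lo (Q ^ e * H)) {a b : Fin n →₀ ℕ} (ha : Q.coeff a ≠ 0) (hb : H.coeff b ≠ 0) :
    lo ≤ e * (ν (Q.coeff a) + dot w a) + (ν (H.coeff b) + dot w b) := by
  obtain ⟨d, hd, h1⟩ := val_pow (w := w) h Q H ha hb e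
  exact (hF d hd).trans h1

end Pool.Agent.P.MP_7aad9f_nt.Sz
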